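import Pool.Agent.MP_d45d16_ag.sp.Spec
import Pool.Agent.MP_d45d16_ag.yag.Phi

/-!
Transport to the top level, and from the top level to `F`.
-/

set_option autoImplicit false

open MvPolynomial Filter

namespace Pool.Agent.MP_d45d16_ag.Sp14

open Yag

namespace Asm2X

variable {ι F K : Type} [Fintype ι] [DecidableEq ι] [Field F] [Field K]

theorem th_inl (φ : F →+* K) (g : Matrix ι ι K) (i : ι) :
    theta φ 1 g (X (Sum.inl i)) = X (Sum.inl i) := by
  simp only [theta, eval₂Hom_X', Sum.elim_inl]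
  rw [Finset.sum_eq_single i] <;> simp +contextual [Matrix.one_apply, eq_comm]

theorem inl_mem (φ : F →+* K) (g : Matrix ι ι K) {i : ι} {J : Ideal (Pxy ι F)}
    (h : X (Sum.inl i) ∈ J) : X (Sum.inl i) ∈ J.map (theta φ 1 g) :=
  th_inl φ g i ▸ Ideal.mem_map_of_mem _ h

theorem tr_mem (φ : F →+* K) (g : Matrix ι ι K) (i₀ : ι) {J : Ideal (Pxy ι F)} {f : Pxy ι F}
    (h : f ∈ J) : dh K i₀ (theta φ 1 g f) ∈ tr φ g i₀ J :=
  Ideal.mem_map_of_mem _ (Ideal.mem_map_of_mem _ h)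

theorem dh_inr (φ : F →+* K) (g : Matrix ι ι K) (i₀ : ι) (f : By ι F) :
    dh K i₀ (theta φ 1 g (rename Sum.inr f)) = thy φ g f := by
  induction f using MvPolynomial.induction_on with
  | C a => simp [dh, theta, thy]
  | add p q hp hq => simp only [map_add, hp, hq]
  | mul_X p j hp =>
    simp only [map_mul, hp]
    simp [dh, theta, thy]

theorem thy_sq {E E' : Type} [Field E] [Field E'] (φ : F →+* K) (g : Matrix ι ι K)
    (φ' : E →+* E') (α : F →+* E) (β : K →+* E') (hc : ∀ c, φ' (α c) = β (φ c)) (f : By ι F) :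
    MvPolynomial.map β (thy φ g f) = thy φ' (g.map β) (MvPolynomial.map α f) := by
  induction f using MvPolynomial.induction_on with
  | C a => simp [thy, hc]
  | add p q hp hq => simp only [map_add, hp, hq]
  | mul_X p j hp =>
    simp only [map_mul, hp]
    simp [thy]

theorem pt_mem {E : Type} [Field E] [Algebra F E] {i₀ : ι} {I₂ : Set (MvPolynomial ι F)}
    {J : Ideal (Pxy ι E)} (hJ : AdmF (ptI F i₀) I₂ J) (i : ι) (hi : i ≠ i₀) :
    X (Sum.inl i) ∈ J := by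
  simpa using hJ.eq₁ (X i) ⟨i, hi, rfl⟩

theorem act_tr {A ρ γ κ E E' : Type} [Group A] [Fintype ρ] [Fintype γ] [DecidableEq ρ]
    [DecidableEq γ] [Field κ] [Field E] [Field E'] [MulSemiringAction A E'] (T : Setup2 A ρ γ κ)
    (φ : E →+* E') (g : Matrix (ρ × γ) (ρ × γ) E') (i₀ : ρ × γ) (a : A)
    (hφ : ∀ c, a • φ c = φ c) (h : ∀ i j, a • g i j = ((T.χ j.1 a : ℤˣ) : ℤ) • g i j)
    (f : Pxy (ρ × γ) E) : T.act a (dh E' i₀ (theta φ 1 g f)) = dh E' i₀ (theta φ 1 g f) := by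
  induction f using MvPolynomial.induction_on with
  | C c => simp [dh, theta, Setup2.act, hφ]
  | add p q hp hq => simp only [map_add, hp, hq]
  | mul_X p v hp =>
    simp only [map_mul, hp]
    refine congrArg _ ?_
    rcases v with i | i
    · rw [th_inl]
      by_cases e : i = i₀ <;> simp [dh, Pi.single_apply, e]
    · simp only [theta, dh, Setup2.act, RingHom.comp_apply, eval₂Hom_X', Sum.elim_inr, map_sum,
        map_mul, eval₂Hom_C, MulSemiringAction.toRingHom_apply, aeval_X, aeval_C, algebraMap_eq, h]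
      refine Finset.sum_congr rfl fun j _ => ?_
      rcases Int.units_eq_one_or (T.χ j.1 a) with h | h <;> simp [h]

theorem hom (hH2 : HfAPI2) (hD : DhAPI) (φ : F →+* K) (g : Matrix ι ι K) (i₀ : ι)
    (J : Ideal (Pxy ι F)) (hg : IsUnit g) (hJ : IsHom (bw ι) J)
    (hx : ∀ i, i ≠ i₀ → X (Sum.inl i) ∈ J) : IsHom (yw ι) (tr φ g i₀ J) ∧
      (∀ n, hf (yw ι) (tr φ g i₀ J) (0, n) ≤ hf (bw ι) J (0, n)) ∧
      (∀ᶠ d in atTop, ∀ n, hf (yw ι) (tr φ g i₀ J) (0, n) = hf (bw ι) J (d, n)) ∧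
      ∀ f m, IsWeightedHomogeneous (bw ι) f m →
        IsWeightedHomogeneous (yw ι) (dh K i₀ (theta φ 1 g f)) (0, m.2) ∧
        tr φ g i₀ (J.colon {f}) = (tr φ g i₀ J).colon {dh K i₀ (theta φ 1 g f)} ∧
        tr φ g i₀ (J ⊔ Ideal.span {f}) =
          tr φ g i₀ J ⊔ Ideal.span {dh K i₀ (theta φ 1 g f)} := by
  obtain ⟨t1, t2, t3⟩ := hH2.theta ι F K φ 1 g J isUnit_one hg hJ
  have hx' := fun i hi => inl_mem φ g (hx i hi)
  obtain ⟨u1, u2⟩ := hD.hf_ev ι K i₀ _ t1 hx'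
  refine ⟨hD.hom ι K i₀ _ t1, fun n => t2 _ ▸ u1 n, u2.mono fun d h n => t2 _ ▸ h n,
    fun f m hf => ?_⟩
  have k := hH2.theta_hom ι F K φ 1 g f m hf
  refine ⟨hD.deg ι K i₀ _ m k, ?_, ?_⟩
  · rw [tr, t3, hD.colon ι K i₀ _ _ m t1 hx' k, tr]
  · simp only [tr, Ideal.map_sup, Ideal.map_span, Set.image_singleton]

end Asm2X

open Asm2X in
theorem trAPI (hH : HfAPI) (hH2 : HfAPI2) (hD : DhAPI) : TrAPI where
  hom _ _ _ _ _ _ _ φ g i₀ J hg hJ hx := Asm2X.hom hH2 hD φ g i₀ J hg hJ hx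
  adm A ρ γ κ K F E E' _ _ _ _ _ _ _ _ _ _ _ _ _ _ _ _ T φ g i₀ I₂ φ' J hg hI hc hφ h hJ := by
    obtain ⟨t1, t2, -⟩ := Asm2X.hom hH2 hD φ' (g.map (algebraMap K E')) i₀ J
      (hg.map (algebraMap K E').mapMatrix) hJ.hom (pt_mem hJ)
    obtain ⟨q1, q2, q3⟩ := hI ((tr φ' (g.map (algebraMap K E')) i₀ J).comap
      (MvPolynomial.map (algebraMap K E'))) fun f hf => by
        rw [Ideal.mem_comap, thy_sq φ g φ' _ _ hc, ← dh_inr _ _ i₀]
        exact tr_mem _ _ _ (hJ.eq₂ f hf)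
    refine ⟨t1, ?_, fun a => ?_, fun r r' => ?_, fun j k => ?_, fun j k e => ?_⟩
    · obtain ⟨C, hC⟩ := hJ.lin
      refine ⟨C, fun d n => ?_⟩
      cases d with
      | zero => exact (t2 n).trans (hC 0 n)
      | succ d => rw [hH.ypos]; exact Nat.zero_le _
    · have : tr φ' (g.map (algebraMap K E')) i₀ J ≤
          (tr φ' (g.map (algebraMap K E')) i₀ J).comap (T.act a) := by
        refine Ideal.map_le_iff_le_comap.2 (Ideal.map_le_iff_le_comap.2 fun f hf => ?_)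
        rw [Ideal.mem_comap, Ideal.mem_comap, Ideal.mem_comap,
          act_tr T φ' (g.map (algebraMap K E')) i₀ a (hφ a) (h a)]
        exact tr_mem _ _ _ hf
      exact fun f hf => this hf
    · simpa [Ideal.mem_comap, Setup2.nrm, ← IsScalarTower.algebraMap_apply] using q1 r r'
    · simpa [Ideal.mem_comap, csq, ← IsScalarTower.algebraMap_apply] using q2 j k
    · simpa [Ideal.mem_comap, csq] using q3 j k e

open Asm Asm2X in
theorem asm2_stmt (hH : HfAPI) (hH2 : HfAPI2) (hPl : PlaceAPI) (hY : CydAPI) (hD : DhAPI)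
    (hT : TrAPI) : Asm2Stmt := by
  intro A ρ γ κ K F _ _ _ _ _ _ _ _ _ _ T Φ φ g i₀ I₂ hΦ hg hI hφ h
  have ad : ∀ J : Ideal (Pxy (ρ × γ) F), AdmF (ptI F i₀) I₂ J → T.Adm (tr φ g i₀ J) :=
    fun J hJ => hT.adm A ρ γ κ K F F K T φ g i₀ I₂ φ J hg hI (fun _ => rfl) hφ h hJ
  have z : ∀ J : Ideal (Pxy (ρ × γ) F), AdmF (ptI F i₀) I₂ J → ¬ Unb (yw _) (tr φ g i₀ J) →
      Φ (tr φ g i₀ J) = 0 := fun J hJ hU => left_eq_add.1 (hΦ.add _ _ _ (ad _ hJ) (ad _ hJ)
        (ad _ hJ) (by rw [hY.zero ρ γ K _ (ad _ hJ).hom (ad _ hJ).lin hU, add_zero]))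
  refine ⟨fun J f m hJ hf => ?_, fun J hJ hU => z J hJ fun u => hU fun C => ?_,
    fun J hJ hx => z J hJ fun u => ?_, ?_⟩
  · have j1 : AdmF (ptI F i₀) I₂ (J ⊔ Ideal.span {f}) :=
      admF_of_le hH le_sup_left (hH.sup _ _ _ J f m hJ.hom hf) hJ
    have j2 : AdmF (ptI F i₀) I₂ (J.colon {f}) :=
      admF_of_le hH (fun x hx => Submodule.mem_colon_singleton.2 (J.mul_mem_right f hx))
        (hH.colon _ _ _ J f m hJ.hom hf) hJ
    refine hΦ.add _ _ _ (ad _ hJ) (ad _ j1) (ad _ j2) ?_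
    obtain ⟨k1, k2, k3⟩ := (hT.hom _ F K φ g i₀ J hg hJ.hom (pt_mem hJ)).2.2.2 f m hf
    rw [k2, k3]
    exact hY.add ρ γ K _ _ _ (ad _ hJ).hom (ad _ hJ).lin k1
  · obtain ⟨n, hn⟩ := u C
    exact ⟨n, hn.trans_le ((hT.hom _ F K φ g i₀ J hg hJ.hom (pt_mem hJ)).2.1 n)⟩
  · obtain ⟨n, hn⟩ := u 0
    have k := tr_mem φ g i₀ (hx i₀)
    rw [th_inl] at k
    refine hn.ne' ((hH.zero _ K _ _ _ fun _ => Or.inr rfl).2 fun f _ => ?_)
    simpa [dh] using Ideal.mul_mem_left _ f k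
  · intro E _ _ y p p' J hy hp hp' hy0 hy0' hJ
    let _ : MulSemiringAction A (RatFunc K) :=
      IsFractionRing.mulSemiringAction A (Polynomial K) (RatFunc K)
    have hs : ∀ (a : A) (u : Polynomial K), a • algebraMap (Polynomial K) (RatFunc K) u =
        algebraMap (Polynomial K) (RatFunc K) (a • u) := fun a u =>
      IsFractionRing.ringEquivOfRingEquiv_algebraMap
        (MulSemiringAction.toRingEquiv A (Polynomial K) a) u
    have hK : ∀ (a : A) (c : K), a • algebraMap K (RatFunc K) c =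
        algebraMap K (RatFunc K) (a • c) := fun a c => by
      have := hs a (Polynomial.C c)
      rwa [Polynomial.smul_C] at this
    have hX : ∀ a : A, a • (RatFunc.X : RatFunc K) = RatFunc.X := fun a => by
      have := hs a Polynomial.X
      rwa [Polynomial.smul_X] at this
    obtain ⟨φ', hc, hyX⟩ := ex_emb φ y hy
    have hS : Simple K (RatFunc.X : RatFunc K) := ⟨RatFunc.transcendental_X, RatFunc.adjoin_X⟩
    have hS' := hPl.simple_inv _ K _ hS
    obtain ⟨q, hq, hq0⟩ := hPl.ex _ K _ hS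
    obtain ⟨q', hq', hq0'⟩ := hPl.ex _ K _ hS'
    have hg' : IsUnit (g.map (algebraMap K (RatFunc K))) :=
      hg.map (algebraMap K (RatFunc K)).mapMatrix
    have hA := hT.adm A ρ γ κ K F E (RatFunc K) T φ g i₀ I₂ φ' J hg hI hc
      (fun a => fixed φ' y hy a (fun c => by rw [hc, hK, hφ]) (by rw [hyX, hX]))
      (fun a i j => by rw [hK, h, map_zsmul]) hJ
    have hyX' : φ' y⁻¹ = RatFunc.X⁻¹ := by rw [map_inv₀, hyX]
    have v1 := val_map hPl φ φ' hc y p q hy (hyX ▸ hS) hp hq hy0 (hyX ▸ hq0)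
    have v2 := val_map hPl φ φ' hc y⁻¹ p' q' (hPl.simple_inv _ F _ hy) (hyX' ▸ hS') hp' hq' hy0'
      (hyX' ▸ hq0')
    have key : ∀ (p : Place E F) (q : Place (RatFunc K) K), q.Over K →
        (∀ z c, p.Val z c → q.Val (φ' z) (φ c)) → tr φ g i₀ (p.init J) =
          q.init (tr φ' (g.map (algebraMap K (RatFunc K))) i₀ J) := fun p q hq v => by
      rw [tr, init_map hH hH2 φ φ' 1 g 1 _ isUnit_one hg isUnit_one hg' p q v (fun i j => ?_)
        (fun _ _ => hq _) J hJ.hom, hD.init _ _ K i₀ q _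
        (hH2.theta _ E _ φ' 1 _ J isUnit_one hg' hJ.hom).1
        fun i hi => inl_mem _ _ (pt_mem hJ i hi), tr]
      rw [Matrix.one_apply, Matrix.one_apply]
      split_ifs
      exacts [Step.val_one q, Step.val_zero q]
    show Φ _ = Φ _
    rw [key p q hq v1, key p' q' hq' v2]
    exact hΦ.move (RatFunc K) RatFunc.X 1 q q' _ hK (fun a => by simp [hX]) hS hq hq' hq0 hq0' hA

end Pool.Agent.MP_d45d16_ag.Sp14
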