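import Pool.Agent.MP_d45d16_ag.sp.Defs

/-!
Interfaces between the blocks of the proof for the spin group.
-/

set_option autoImplicit false

open AlgebraicGeometry CategoryTheory Limits MvPolynomial Filter Matrix

namespace Pool.Agent.MP_d45d16_ag.Sp14

open Yag

/-! Block A: the invariant. -/

/-- PSI2: the parity of the Hilbert function is additive on cycles. -/
def Psi2Stmt : Prop :=
  ∀ (σ κ : Type) [Finite σ] [Field κ] [CharZero κ] (im : κ) (eqs : Set (By σ κ))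
    (I : Ideal (By σ κ)), im ^ 2 = -1 →
    (∀ (E : Type) [Field E] [Algebra κ E] [FiniteDimensional κ E] (y : σ → E), y ≠ 0 →
      (∀ e ∈ eqs, aeval y e = 0) → Even (Module.finrank κ E)) →
    IsHom (yw σ) I → Lin (yw σ) I → (∀ e ∈ eqs, e ∈ I) →
    (∀ᶠ n in atTop, (hf (yw σ) I (0, n) : ZMod 2) = par I) ∧ par I = psi (cycB I)

/-- MOD: more on Hilbert functions in the singly graded case. -/
structure ModAPI : Prop where
  inf : ∀ (σ K : Type) [Finite σ] [Field K] (w : σ → ℕ × ℕ) (I J : Ideal (MvPolynomial σ K)),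
    IsW w → IsHom w I → IsHom w J → IsHom w (I ⊓ J) ∧ IsHom w (I ⊔ J) ∧
      ∀ k, hf w (I ⊓ J) k + hf w (I ⊔ J) k = hf w I k + hf w J k
  sat : ∀ (σ K : Type) [Finite σ] [Field K] (I I' b : Ideal (By σ K)), IsHom (yw σ) I →
    IsHom (yw σ) I' → I ≤ I' → b * I' ≤ I → (∀ᶠ n in atTop, hf (yw σ) b (0, n) = 0) →
    ∀ᶠ n in atTop, hf (yw σ) I (0, n) = hf (yw σ) I' (0, n)
  nil : ∀ (σ K : Type) [Finite σ] [Field K] (b : Ideal (By σ K)) (N : ℕ), (∀ v, X v ^ N ∈ b) →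
    (∀ᶠ n in atTop, hf (yw σ) b (0, n) = 0) ∧ ¬ Unb (yw σ) b
  le : ∀ (σ K M : Type) [Finite σ] [Field K] [AddCommGroup M] [Module K M] (I : Ideal (By σ K))
    (φ : By σ K →ₗ[K] M) (W : Submodule K M) (n : ℕ), Module.Finite K W →
    (∀ f : By σ K, f.IsHomogeneous n → φ f ∈ W) →
    (∀ f : By σ K, f.IsHomogeneous n → φ f = 0 → f ∈ I) →
    hf (yw σ) I (0, n) ≤ Module.finrank K W
  yw_iff : ∀ (σ R : Type) [CommRing R] (f : MvPolynomial σ R) (n : ℕ),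
    IsWeightedHomogeneous (yw σ) f (0, n) ↔ f.IsHomogeneous n
  ren : ∀ (σ τ K : Type) [Finite σ] [Finite τ] [Field K] (e : σ → τ) (I : Ideal (By τ K)),
    IsHom (yw τ) I → IsHom (yw σ) (I.comap (rename e : By σ K →ₐ[K] By τ K)) ∧
      (∀ n, hf (yw σ) (I.comap (rename e : By σ K →ₐ[K] By τ K)) (0, n) ≤ hf (yw τ) I (0, n)) ∧
      ((∀ v, ∃ l : By σ K, l.IsHomogeneous 1 ∧ X v - rename e l ∈ I) →
        ∀ n, hf (yw σ) (I.comap (rename e : By σ K →ₐ[K] By τ K)) (0, n) = hf (yw τ) I (0, n))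
  colrow : ∀ (ρ γ K : Type) [Finite ρ] [Finite γ] [Field K] (I : Ideal (By (ρ × γ) K)),
    IsHom (yw (ρ × γ)) I → IsHom (yw ρ) (colI I) ∧ IsHom (yw γ) (rowI I)

/-- CYD: the push-forward cycle. -/
structure CydAPI : Prop where
  fin : ∀ (ρ γ R : Type) [Finite ρ] [Finite γ] [CommRing R],
    Module.Finite (By (ρ × γ × γ) R) (By (ρ × γ) R)
  contr : ∀ (ρ γ K : Type) [Finite ρ] [Finite γ] [Field K] (I : Ideal (By (ρ × γ) K)),
    IsHom (yw (ρ × γ)) I → IsHom (yw (ρ × γ × γ)) (I.comap (nu ρ γ K)) ∧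
      (∀ n, hf (yw (ρ × γ × γ)) (I.comap (nu ρ γ K)) (0, n) ≤ hf (yw (ρ × γ)) I (0, 2 * n)) ∧
      (Lin (yw (ρ × γ)) I → Lin (yw (ρ × γ × γ)) (I.comap (nu ρ γ K)))
  spec : ∀ (ρ γ K : Type) [Finite ρ] [Finite γ] [Field K] (I : Ideal (By (ρ × γ) K)),
    IsHom (yw (ρ × γ)) I → Lin (yw (ρ × γ)) I → IsCycD I (cycD I) ∧
      ∀ s ∈ (cycD I).support, s.asIdeal ∈ (I.comap (nu ρ γ K)).minimalPrimes
  lie : ∀ (ρ γ K : Type) [Finite ρ] [Finite γ] [Field K] (I : Ideal (By (ρ × γ) K)),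
    IsHom (yw (ρ × γ)) I → Lin (yw (ρ × γ)) I → ∀ s ∈ (cycD I).support,
      ∃ p : Ideal (By (ρ × γ) K), p.IsPrime ∧ IsHom (yw (ρ × γ)) p ∧ I ≤ p ∧
        p.comap (nu ρ γ K) = s.asIdeal
  len_add : ∀ (ρ γ K : Type) [Field K] (I : Ideal (By (ρ × γ) K)) f s,
    lenD I s = lenD (I ⊔ Ideal.span {f}) s + lenD (I.colon {f}) s
  loc : ∀ (ρ γ K : Type) [Field K] (I I' : Ideal (By (ρ × γ) K))
    (s : PrimeSpectrum (By (ρ × γ × γ) K)) u, I ≤ I' → u ∉ s.asIdeal →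
    (∀ f ∈ I', nu ρ γ K u * f ∈ I) → lenD I s = lenD I' s
  add : ∀ (ρ γ K : Type) [Finite ρ] [Finite γ] [Field K] (I : Ideal (By (ρ × γ) K)) f m,
    IsHom (yw (ρ × γ)) I → Lin (yw (ρ × γ)) I → IsWeightedHomogeneous (yw (ρ × γ)) f m →
    cycD I = cycD (I ⊔ Ideal.span {f}) + cycD (I.colon {f})
  zero : ∀ (ρ γ K : Type) [Finite ρ] [Finite γ] [Field K] (I : Ideal (By (ρ × γ) K)),
    IsHom (yw (ρ × γ)) I → Lin (yw (ρ × γ)) I → ¬ Unb (yw (ρ × γ)) I → cycD I = 0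
  sat : ∀ (ρ γ K : Type) [Finite ρ] [Finite γ] [Field K] (I I' b : Ideal (By (ρ × γ) K)),
    IsHom (yw (ρ × γ)) I → Lin (yw (ρ × γ)) I → IsHom (yw (ρ × γ)) I' → IsHom (yw (ρ × γ)) b →
    ¬ Unb (yw (ρ × γ)) b → I ≤ I' → b * I' ≤ I → cycD I = cycD I'
  inf : ∀ (ρ γ K : Type) [Finite ρ] [Finite γ] [Field K] (I J : Ideal (By (ρ × γ) K)),
    IsHom (yw (ρ × γ)) I → IsHom (yw (ρ × γ)) J → Lin (yw (ρ × γ)) (I ⊓ J) →
    ¬ Unb (yw (ρ × γ)) (I ⊔ J) → cycD (I ⊓ J) = cycD I + cycD J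

/-- SPD: the cycle of a specialisation. -/
def SpdStmt : Prop :=
  ∀ (ρ γ E K : Type) [Finite ρ] [Finite γ] [Field E] [Field K] (p : Place E K) (t : p.V)
    (I : Ideal (By (ρ × γ) E)), IsNoetherianRing p.V → t ≠ 0 → (∀ v, p.r v = 0 ↔ t ∣ v) →
    IsHom (yw (ρ × γ)) I → Lin (yw (ρ × γ)) I →
    cycD (p.init I) = (cycD I).sum fun s n => n • cycB (p.init s.asIdeal)

/-- EVD: divisibility coming from sign changes. -/
structure EvdAPI : Prop where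
  ev2 : ∀ (ρ γ K : Type) [Finite ρ] [Finite γ] [Field K] [CharZero K] (I : Ideal (By (ρ × γ) K))
    s, IsHom (yw (ρ × γ)) I → Lin (yw (ρ × γ)) I → 2 ∣ cycD I s
  ev4 : ∀ (ρ γ K : Type) [Finite ρ] [Finite γ] [Field K] [CharZero K] (I : Ideal (By (ρ × γ) K))
    s (ε : ρ → ℤˣ) r₀ r₁, IsHom (yw (ρ × γ)) I → Lin (yw (ρ × γ)) I →
    (∀ f ∈ I, sgn γ K ε f ∈ I) → Alive s r₀ → Alive s r₁ → ε r₀ ≠ ε r₁ → 4 ∣ cycD I s
  ev8 : ∀ (ρ γ K : Type) [Finite ρ] [Finite γ] [Field K] [CharZero K] (I : Ideal (By (ρ × γ) K))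
    s (ε ε' : ρ → ℤˣ) r₀ r₁ r₂, IsHom (yw (ρ × γ)) I → Lin (yw (ρ × γ)) I →
    (∀ f ∈ I, sgn γ K ε f ∈ I) → (∀ f ∈ I, sgn γ K ε' f ∈ I) → Alive s r₀ → Alive s r₁ →
    Alive s r₂ → ε r₀ ≠ ε r₁ → ε r₀ = ε r₂ → ε' r₀ ≠ ε' r₂ → 8 ∣ cycD I s

/-- SYM: transport by the group, and admissibility of specialisations. -/
structure SymAPI : Prop where
  comap : ∀ (A ρ γ κ K : Type) [Group A] [Finite ρ] [Fintype γ] [Field κ] [Field K]
    [MulSemiringAction A K] (T : Setup2 A ρ γ κ) (J : Ideal (By (ρ × γ) K)) (a : A),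
    IsHom (yw (ρ × γ)) J → Lin (yw (ρ × γ)) J → IsHom (yw (ρ × γ)) (J.comap (T.act a)) ∧
      (∀ k, hf (yw (ρ × γ)) (J.comap (T.act a)) k = hf (yw (ρ × γ)) J k) ∧
      ∀ s, cycD (J.comap (T.act a)) (s.comap (actB (ρ × γ × γ) a)) = cycD J s
  mul : ∀ (A ρ γ κ K : Type) [Group A] [Fintype γ] [Field κ] [Field K]
    [MulSemiringAction A K] (T : Setup2 A ρ γ κ) (a b : A) (f : By (ρ × γ) K),
    T.act (a * b) f = T.act a (T.act b f) ∧ T.act (1 : A) f = f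
  sym : ∀ (A ρ γ κ K : Type) [Group A] [Fintype ρ] [Fintype γ] [Field κ] [Field K] [Algebra κ K]
    [MulSemiringAction A K] (T : Setup2 A ρ γ κ) (I : Ideal (By (ρ × γ) K)) s (a : A),
    T.Adm I → cycD I (s.comap (actB (ρ × γ × γ) a)) = cycD I s
  sgn : ∀ (A ρ γ κ K : Type) [Group A] [Fintype γ] [Field κ] [Field K]
    [MulSemiringAction A K] (T : Setup2 A ρ γ κ) (a : A) (f : By (ρ × γ) K),
    (∀ c : K, a • c = c) → T.act a f = sgn γ K (fun r => T.χ r a) f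
  init : ∀ (A ρ γ κ E K : Type) [Group A] [Fintype ρ] [Fintype γ] [Field κ] [Field E] [Field K]
    [Algebra κ E] [Algebra κ K] [MulSemiringAction A E] [MulSemiringAction A K]
    (T : Setup2 A ρ γ κ) (p : Place E K) (I : Ideal (By (ρ × γ) E)), p.Over κ → p.Eqv A →
    T.Adm I → T.Adm (p.init I)

/-- FOUR: dead rows, and divisibility by four at invariant primes. -/
structure FourAPI : Prop where
  dead : ∀ (A ρ γ κ K : Type) [Group A] [Fintype ρ] [Fintype γ] [Field κ] [CharZero κ] [Field K]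
    [Algebra κ K] (T : Setup2 A ρ γ κ) (p : Ideal (By (ρ × γ) K)) r₀, T.Eqs p →
    (∀ j, X (r₀, j) ∈ p) → (∀ r, T.nrm K r ∈ p) ∧ ∀ j k, csq ρ K j k ∈ p
  two : ∀ (A ρ γ κ K : Type) [Group A] [Fintype ρ] [Fintype γ] [Field κ] [CharZero κ] [Field K]
    [Algebra κ K] [MulSemiringAction A K] (T : Setup2 A ρ γ κ) (I : Ideal (By (ρ × γ) K)),
    T.Adm I → ∀ s ∈ (cycD I).support, ∃ r r', r ≠ r' ∧ Alive s r ∧ Alive s r'
  eqs : ∀ (A ρ γ κ K : Type) [Group A] [Fintype ρ] [Fintype γ] [Field κ] [CharZero κ] [Field K]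
    [Algebra κ K] [MulSemiringAction A K] (T : Setup2 A ρ γ κ) (I : Ideal (By (ρ × γ) K)),
    T.Adm I → ∀ s ∈ (cycD I).support, ∀ r₀, ¬ Alive s r₀ → ∀ r j,
      ∑ k, C (algebraMap κ K (T.β k)) * X (r, j, k) ^ 2 ∈ s.asIdeal
  four : ∀ (A ρ γ κ K : Type) [Group A] [Fintype ρ] [Fintype γ] [Field κ] [CharZero κ] [Field K]
    [Algebra κ K] [MulSemiringAction A K] (T : Setup2 A ρ γ κ) (η : A →* ℤˣ)
    (I : Ideal (By (ρ × γ) K)) s, (∀ (a : A) (c : κ), a • algebraMap κ K c = algebraMap κ K c) →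
    (∀ a, η a = 1 → ∀ c : K, a • c = c) → T.Adm I →
    (∀ a : A, s.comap (actB (ρ × γ × γ) a) = s) → 4 ∣ cycD I s

/-- VER: the Veronese embedding of one row. -/
def VerStmt : Prop :=
  ∀ (A ρ γ κ : Type) [Group A] [Fintype ρ] [Fintype γ] [Field κ] [CharZero κ]
    (T : Setup2 A ρ γ κ) (J : Ideal (By (ρ × γ) κ)) (r : ρ) (c : ρ → κ) (N : ℕ),
    IsHom (yw (ρ × γ)) J → Lin (yw (ρ × γ)) J → (∀ r', T.nrm κ r' ∈ J) →
    (∀ r' j, (X (r', j) - C (c r') * X (r, j)) ^ N ∈ J) →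
    ∃ m, cycD J = 2 • m ∧ ∀ᶠ n in atTop, (hf (yw (ρ × γ)) J (0, n) : ZMod 2) = psi m

/-- EVA: the value on curves with a pencil of columns. -/
def EvaStmt : Prop :=
  ∀ (A ρ γ κ : Type) [Group A] [Fintype ρ] [Fintype γ] [Field κ] [CharZero κ]
    [MulSemiringAction A κ] (T : Setup2 A ρ γ κ) (I : Ideal (By (ρ × γ) κ)),
    (∀ (a : A) (c : κ), a • c = c) → T.Adm I → hf (yw ρ) (colI I) (0, 1) ≤ 2 → ∀ e : ℕ,
    (∀ᶠ n in atTop, hf (yw (ρ × γ)) I (0, n) ≡ 2 * e [MOD 4]) → PhiD I = e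

/-- EVB: the value on curves with finitely many rows. -/
def EvbStmt : Prop :=
  ∀ (A ρ γ κ : Type) [Group A] [Fintype ρ] [Fintype γ] [Field κ] [CharZero κ]
    [MulSemiringAction A κ] (T : Setup2 A ρ γ κ) (I : Ideal (By (ρ × γ) κ)),
    (∀ (a : A) (c : κ), a • c = c) → T.Adm I → ¬ Unb (yw γ) (rowI I) → PhiD I = 0

/-- BASE2: the bottom level. -/
def Base2Stmt : Prop :=
  ∀ (A ρ γ κ : Type) [Group A] [Fintype ρ] [Fintype γ] [Field κ] [CharZero κ]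
    [MulSemiringAction A κ] (T : Setup2 A ρ γ κ), (∀ (a : A) (c : κ), a • c = c) →
    T.Good (K := κ) PhiD

/-- STEP2: from a level to a simple transcendental extension. -/
def Step2Stmt : Prop :=
  ∀ (A ρ γ κ K K' : Type) [Group A] [Fintype ρ] [Fintype γ] [Field κ] [Field K] [Field K']
    [Algebra κ K] [Algebra K K'] [Algebra κ K'] [IsScalarTower κ K K'] [MulSemiringAction A K]
    [MulSemiringAction A K'] (T : Setup2 A ρ γ κ) (Φ : Ideal (By (ρ × γ) K) → ZMod 2) (y : K')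
    (η : A →* ℤˣ) (p : Place K' K),
    (∀ (a : A) (c : K), a • algebraMap K K' c = algebraMap K K' (a • c)) →
    (∀ a : A, a • y = ((η a : ℤˣ) : ℤ) • y) → Simple K y → p.Over K → p.Val y 0 → T.Good Φ →
    T.Good fun I : Ideal (By (ρ × γ) K') => Φ (p.init I)

/-- DH: dehomogenisation in the first group of variables. -/
structure DhAPI : Prop where
  deg : ∀ (ι R : Type) [DecidableEq ι] [CommRing R] (i₀ : ι) (f : Pxy ι R) m,
    IsWeightedHomogeneous (bw ι) f m → IsWeightedHomogeneous (yw ι) (dh R i₀ f) (0, m.2)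
  mem : ∀ (ι K : Type) [DecidableEq ι] [Field K] (i₀ : ι) (J : Ideal (Pxy ι K)) (f : By ι K),
    IsHom (bw ι) J → (∀ i, i ≠ i₀ → X (Sum.inl i) ∈ J) →
    (f ∈ J.map (dh K i₀) ↔ ∃ N, X (Sum.inl i₀) ^ N * rename Sum.inr f ∈ J)
  hom : ∀ (ι K : Type) [DecidableEq ι] [Field K] (i₀ : ι) (J : Ideal (Pxy ι K)),
    IsHom (bw ι) J → IsHom (yw ι) (J.map (dh K i₀))
  hf_ev : ∀ (ι K : Type) [Finite ι] [DecidableEq ι] [Field K] (i₀ : ι) (J : Ideal (Pxy ι K)),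
    IsHom (bw ι) J → (∀ i, i ≠ i₀ → X (Sum.inl i) ∈ J) →
    (∀ n, hf (yw ι) (J.map (dh K i₀)) (0, n) ≤ hf (bw ι) J (0, n)) ∧
      ∀ᶠ d in atTop, ∀ n, hf (yw ι) (J.map (dh K i₀)) (0, n) = hf (bw ι) J (d, n)
  colon : ∀ (ι K : Type) [DecidableEq ι] [Field K] (i₀ : ι) (J : Ideal (Pxy ι K)) f m,
    IsHom (bw ι) J → (∀ i, i ≠ i₀ → X (Sum.inl i) ∈ J) → IsWeightedHomogeneous (bw ι) f m →
    (J.colon {f}).map (dh K i₀) = (J.map (dh K i₀)).colon {dh K i₀ f}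
  init : ∀ (ι E K : Type) [Finite ι] [DecidableEq ι] [Field E] [Field K] (i₀ : ι) (p : Place E K)
    (J : Ideal (Pxy ι E)), IsHom (bw ι) J → (∀ i, i ≠ i₀ → X (Sum.inl i) ∈ J) →
    (p.init J).map (dh K i₀) = p.init (J.map (dh E i₀))

/-- TR: transport to the top level. -/
structure TrAPI : Prop where
  hom : ∀ (ι F K : Type) [Fintype ι] [DecidableEq ι] [Field F] [Field K] (φ : F →+* K)
    (g : Matrix ι ι K) (i₀ : ι) (J : Ideal (Pxy ι F)), IsUnit g → IsHom (bw ι) J →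
    (∀ i, i ≠ i₀ → X (Sum.inl i) ∈ J) → IsHom (yw ι) (tr φ g i₀ J) ∧
      (∀ n, hf (yw ι) (tr φ g i₀ J) (0, n) ≤ hf (bw ι) J (0, n)) ∧
      (∀ᶠ d in atTop, ∀ n, hf (yw ι) (tr φ g i₀ J) (0, n) = hf (bw ι) J (d, n)) ∧
      ∀ f m, IsWeightedHomogeneous (bw ι) f m →
        IsWeightedHomogeneous (yw ι) (dh K i₀ (theta φ 1 g f)) (0, m.2) ∧
        tr φ g i₀ (J.colon {f}) = (tr φ g i₀ J).colon {dh K i₀ (theta φ 1 g f)} ∧
        tr φ g i₀ (J ⊔ Ideal.span {f}) = tr φ g i₀ J ⊔ Ideal.span {dh K i₀ (theta φ 1 g f)}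
  adm : ∀ (A ρ γ κ K F E E' : Type) [Group A] [Fintype ρ] [Fintype γ] [DecidableEq ρ]
    [DecidableEq γ] [Field κ] [Field K] [Field F] [Field E] [Field E'] [Algebra κ K] [Algebra F E]
    [Algebra K E'] [Algebra κ E'] [IsScalarTower κ K E'] [MulSemiringAction A E']
    (T : Setup2 A ρ γ κ) (φ : F →+* K) (g : Matrix (ρ × γ) (ρ × γ) K) (i₀ : ρ × γ)
    (I₂ : Set (MvPolynomial (ρ × γ) F)) (φ' : E →+* E') (J : Ideal (Pxy (ρ × γ) E)), IsUnit g →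
    (∀ I : Ideal (By (ρ × γ) K), (∀ f ∈ I₂, thy φ g f ∈ I) → T.Eqs I) →
    (∀ c, φ' (algebraMap F E c) = algebraMap K E' (φ c)) → (∀ (a : A) c, a • φ' c = φ' c) →
    (∀ (a : A) i j, a • algebraMap K E' (g i j) =
      ((T.χ j.1 a : ℤˣ) : ℤ) • algebraMap K E' (g i j)) →
    AdmF (ptI F i₀) I₂ J → T.Adm (tr φ' (g.map (algebraMap K E')) i₀ J)

/-- ASM2: from the top level to `F`. -/
def Asm2Stmt : Prop :=
  ∀ (A ρ γ κ K F : Type) [Group A] [Fintype ρ] [Fintype γ] [DecidableEq ρ] [DecidableEq γ]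
    [Field κ] [Field K] [Field F] [Algebra κ K] [MulSemiringAction A K] (T : Setup2 A ρ γ κ)
    (Φ : Ideal (By (ρ × γ) K) → ZMod 2) (φ : F →+* K) (g : Matrix (ρ × γ) (ρ × γ) K) (i₀ : ρ × γ)
    (I₂ : Set (MvPolynomial (ρ × γ) F)), T.Good Φ → IsUnit g →
    (∀ I : Ideal (By (ρ × γ) K), (∀ f ∈ I₂, thy φ g f ∈ I) → T.Eqs I) →
    (∀ (a : A) c, a • φ c = φ c) →
    (∀ (a : A) i j, a • g i j = ((T.χ j.1 a : ℤˣ) : ℤ) • g i j) →
    GoodN (ptI F i₀) I₂ fun J => Φ (tr φ g i₀ J)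

/-- RECN: the two fibres of a family have the same invariant. -/
def RecNStmt : Prop :=
  ∀ (F ι : Type) [Field F] [Finite ι] (I₁ I₂ : Set (MvPolynomial ι F))
    (Φ : Ideal (Pxy ι F) → ZMod 2) (Y : Scheme.{0}) (s : Y ⟶ Spec (CommRingCat.of F))
    (u v : Y ⟶ PP F ι) (π : Y ⟶ PP ℤ (Fin 2)) (H : Fin 2 → Finset Y), HomSet I₁ → HomSet I₂ →
    GoodN I₁ I₂ Φ → IsProper s → SmoothOfRelativeDimension 2 s → Geo I₁ I₂ s u v →
    (∀ k x, x ∈ H k ↔ π x ∈ Set.range (vtx k) ∧ UnbAt u v x) →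
    (∀ k, ∀ x ∈ H k, ¬ IsGenPt x ∧ LocGen (pullback.fst π (vtx k)).ker x) →
    ∑ x ∈ H 0, valAt Φ u v x = ∑ x ∈ H 1, valAt Φ u v x

/-- PHIN: the invariant descends to cobordism. -/
def PhiNStmt : Prop :=
  ∀ (F ι : Type) [Field F] [Finite ι] (M : Amb F F ι) (Φ : Ideal (Pxy ι F) → ZMod 2),
    GoodN M.I₁ M.I₂ Φ → ∃ φ : Omega1 M.s →+ ZMod 2,
      ∀ (C : Curve M.s) (E : Type) [Field E] (γ : Spec (CommRingCat.of E) ⟶ M.X) (c : F →+* E)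
        (a b : ι → E), Rep C γ → M.At γ c a b → φ (cls C) = valR Φ c a b

/-! Block B: the value on the conic. -/

/-- MEM: a form vanishing at the point over the tensor product lies in the transported prime. -/
def MemStmt : Prop :=
  ∀ (ι F K E : Type) [Fintype ι] [DecidableEq ι] [Field F] [Field K] [Field E] [Algebra F K]
    [Algebra F E] (g : Matrix ι ι K) (i₀ : ι) (a b : ι → E) (z : ι → TensorProduct F K E)
    (f : By ι K) (n : ℕ), IsUnit g →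
    (∀ i, ∑ j, g i j • z j = TensorProduct.tmul F (1 : K) (b i)) → f.IsHomogeneous n →
    aeval z f = 0 → f ∈ tr (algebraMap F K) g i₀ (prm (algebraMap F E) a b)

/-- HFC: the Hilbert function of a pair of conjugate conics. -/
def HfcStmt : Prop :=
  ∀ (ι K L E : Type) [Finite ι] [DecidableEq ι] [Field K] [CharZero K] [Field L] [Field E]
    [Algebra L E] (c : K →+* L) (β : K) (r : L) (α : Fin 3 → L) (x y : E) (i₀ : ι)
    (e e' : Fin 3 → ι → K), Quad c β r → (∀ l, α l ≠ 0) → ConicField α x y →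
    LinearIndependent K (Sum.elim e e') → ∀ d n,
    hf (bw ι) (prm ((algebraMap L E).comp c) (fun i => algebraMap L E ((Pi.single i₀ 1 : ι → L) i))
      fun i => ∑ l, ![1, x, y] l * algebraMap L E (c (e l i) + r * c (e' l i))) (d, n + 1) =
      2 * (2 * n + 3)

/-- RAT: the conic is birational onto its image. -/
def RatStmt : Prop :=
  ∀ (F ι K L E : Type) [Field F] [CharZero F] [Finite ι] [Field K] [Field L] [Field E]
    [Algebra L E] (I : Set (MvPolynomial ι F)) (f : BiFrame I) (c : F →+* K) (c' : K →+* L)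
    (δ : K) (β : K) (r : L) (x y : E) (a : ι → E), Quad c f.d δ → Quad c' β r →
    IntermediateField.adjoin L {x, y} = ⊤ →
    ratF ((algebraMap L E).comp (c'.comp c)) a
      (fun i => ∑ l, ![1, x, y] l * algebraMap L E (f.cv (c'.comp c) (c' δ) r l i)) = ⊤

/-- SPL: splitting of a prime along a quadratic extension, and additivity. -/
structure SplAPI : Prop where
  split : ∀ (ι F K E : Type) [Field F] [CharZero F] [Field K] [Field E] (c : F →+* K) (d : F)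
    (δ : K) (c₁ c₂ : K →+* E) (a b : ι → E), Quad c d δ → c₂.comp c = c₁.comp c →
    c₂ δ = -c₁ δ → (prm (c₁.comp c) a b).map (MvPolynomial.map c) = prm c₁ a b ⊓ prm c₂ a b
  comp : ∀ (ι F K K' : Type) [Fintype ι] [DecidableEq ι] [Field F] [Field K] [Field K']
    (c : F →+* K) (φ : K →+* K') (g : Matrix ι ι K') (i₀ : ι) (J : Ideal (Pxy ι F)),
    tr (φ.comp c) g i₀ J = tr φ g i₀ (J.map (MvPolynomial.map c))
  add : ∀ (ρ γ K K' : Type) [Fintype ρ] [Fintype γ] [DecidableEq ρ] [DecidableEq γ] [Field K]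
    [Field K'] (φ : K →+* K') (g : Matrix (ρ × γ) (ρ × γ) K') (i₀ : ρ × γ)
    (J₁ J₂ : Ideal (Pxy (ρ × γ) K)) (l : Pxy (ρ × γ) K) (u v : ℕ), IsUnit g →
    IsHom (bw (ρ × γ)) J₁ → IsHom (bw (ρ × γ)) J₂ → Lin (bw (ρ × γ)) J₁ → Lin (bw (ρ × γ)) J₂ →
    (∀ i, i ≠ i₀ → X (Sum.inl i) ∈ J₁) → (∀ i, i ≠ i₀ → X (Sum.inl i) ∈ J₂) → J₂.IsPrime →
    IsWeightedHomogeneous (bw (ρ × γ)) l (0, 1) → l ∈ J₁ → l ∉ J₂ →
    (∀ n, hf (bw (ρ × γ)) J₂ (0, n + 1) = u * n + v) →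
    cycD (tr φ g i₀ (J₁ ⊓ J₂)) = cycD (tr φ g i₀ J₁) + cycD (tr φ g i₀ J₂)

/-- EVG2: the value on the conic. -/
def Evg2Stmt : Prop :=
  ∀ (A ρ γ κ K F : Type) [Group A] [Fintype ρ] [Fintype γ] [DecidableEq ρ] [DecidableEq γ]
    [Field κ] [Field K] [Field F] [CharZero F] [Algebra κ K] [MulSemiringAction A K]
    (T : Setup2 A ρ γ κ) (Φ : Ideal (By (ρ × γ) K) → ZMod 2) (φ : F →+* K)
    (g : Matrix (ρ × γ) (ρ × γ) K) (i₀ : ρ × γ) (I₂ : Set (MvPolynomial (ρ × γ) F))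
    (f : BiFrame I₂) (δ : K) (x : Fin 7 → ρ → K) (y : Fin 7 → γ → K), HomSet I₂ → T.Good Φ →
    IsUnit g → (∀ I : Ideal (By (ρ × γ) K), (∀ f ∈ I₂, thy φ g f ∈ I) → T.Eqs I) →
    (∀ (a : A) c, a • φ c = φ c) →
    (∀ (a : A) i j, a • g i j = ((T.χ j.1 a : ℤˣ) : ℤ) • g i j) →
    δ ^ 2 = φ f.d → (∀ a : A, a • δ = δ) →
    (∀ k m, ev2 φ δ (f.P k m) (f.Q k m) = g *ᵥ fun s => x k s.1 * y m s.2) →
    ValC f i₀ fun J => Φ (tr φ g i₀ J)

/-! Block C: geometry. -/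

/-- AMB2: a reduced closed subscheme of projective space is an ambient variety. -/
def Amb2Stmt : Prop :=
  ∀ (F ι : Type) [Field F] [Finite ι] [DecidableEq ι] (I : Set (MvPolynomial ι F)) (i₀ : ι)
    (h : Ideal.span (Set.range (Pi.single i₀ 1 : ι → F)) = ⊤), HomSet I →
    IsAmb (F := F) (k := F) (Flag.quad I) (Flag.quad I ≫ pt (RingHom.id F) (Pi.single i₀ 1) h)
      (Scheme.IdealSheafData.subschemeι _) (ptI F i₀) I

/-- CONST: a constant curve defined over a finite extension. -/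
def ConstStmt : Prop :=
  ∀ (F E ι : Type) [Field F] [CharZero F] [Field E] [Algebra F E] [FiniteDimensional F E]
    [Finite ι] (M : Amb F F ι) (a b : ι → E), a ≠ 0 → Sat M.I₁ (algebraMap F E) a → b ≠ 0 →
    Sat M.I₂ (algebraMap F E) b →
    ∃ (G : Curve M.s) (t : G.Y ⟶ Spec (CommRingCat.of E)),
      t ≫ Spec.map (CommRingCat.ofHom (algebraMap F E)) = G.f ≫ M.s ∧
      SmoothOfRelativeDimension 1 t ∧
      (∃ γ, Rep G γ ∧ M.At γ ((algebraMap E (RatFunc E)).comp (algebraMap F E)) (vec ![a] ![1])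
        (vec ![b] ![1])) ∧
      ∀ (k : Type) [Field k] [Algebra F k] (N : Amb F k ι) (q : N.X ⟶ M.X) (σ : E →+* k)
        (C' : Curve N.s), M.IsBC N q → σ.comp (algebraMap F E) = algebraMap F k →
        CurveBC q G t σ C' → N.HasCls (vec ![σ ∘ a] ![1]) (vec ![σ ∘ b] ![1]) (cls C')

/-- KEY2: a conic is twice a line minus a point. -/
def Key2Stmt : Prop :=
  ∀ (F k ι : Type) [Field F] [CharZero F] [Field k] [IsAlgClosed k] [Algebra F k] [Finite ι]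
    (N : Amb F k ι) (g : KFrame N.I₂ k) (r : k), r ^ 2 = -g.α 0 →
    ∃ x y : RatFunc k, ConicField (fun l : Fin 3 => g.α (Alg.f3 l)) x y ∧
      ∀ (p : ι → k) (xC xL xE : Omega1 N.s), p ≠ 0 → Sat N.I₁ (algebraMap F k) p →
        N.HasCls (vec ![p] ![1]) (vec (fun l : Fin 3 => g.f (Alg.f3 l)) ![1, x, y]) xC →
        N.HasCls (vec ![p] ![1]) (vec ![g.comb (nv r 0), g.comb (nv r 1)] ![1, RatFunc.X]) xL →
        N.HasCls (vec ![p] ![1]) (vec ![g.comb (nv r 1)] ![1]) xE → xC = xL + xL - xE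

/-- LN0: the line over the quartic extension. -/
def Ln0Stmt : Prop :=
  ∀ (F E ι : Type) [Field F] [CharZero F] [Field E] (I : Set (MvPolynomial ι F)) (f : BiFrame I)
    (c : F →+* E) (m t : E), HomSet I → m ^ 2 = c (f.a 0 ^ 2 - f.d * f.b 0 ^ 2) →
    t ^ 2 = 2 * m - 2 * c (f.a 0) → t ≠ 0 → LinearIndependent E (f.lv c m t) ∧
      ∀ (C : Type) [CommRing C] [Algebra E C] (w : Fin 2 → C),
        Sat I ((algebraMap E C).comp c) fun i => ∑ l, w l * algebraMap E C (f.lv c m t l i)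

/-- HALF2: one conic against one line and one point. -/
def Half2Stmt : Prop :=
  ∀ (F k ι : Type) [Field F] [CharZero F] [Field k] [IsAlgClosed k] [Algebra F k] [Finite ι]
    (N : Amb F k ι) (f : BiFrame N.I₂) (δ r₁ r₂ : k), δ ^ 2 = algebraMap F k f.d →
    r₁ ^ 2 = -ev2 (algebraMap F k) δ f.a f.b 0 → r₂ ^ 2 = -ev2 (algebraMap F k) (-δ) f.a f.b 0 →
    r₁ + r₂ ≠ 0 →
    ∃ x y : RatFunc k,
      ConicField (fun l : Fin 3 => ev2 (algebraMap F k) δ f.a f.b (Alg.f3 l)) x y ∧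
      ∀ (p : ι → k) (xC xL xE : Omega1 N.s), p ≠ 0 → Sat N.I₁ (algebraMap F k) p →
        N.HasCls (vec ![p] ![1]) (vec (f.cv (algebraMap F k) δ (-r₂)) ![1, x, y]) xC →
        N.HasCls (vec ![p] ![1])
          (vec (f.lv (algebraMap F k) (r₁ * r₂) (r₁ + r₂)) ![1, RatFunc.X]) xL →
        N.HasCls (vec ![p] ![1]) (vec ![f.lv (algebraMap F k) (r₁ * r₂) (r₁ + r₂) 1] ![1]) xE →
        xC = xL + xL - xE

/-- MAIN2: the abstract theorem. -/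
def Main2Stmt : Prop :=
  ∀ (F k ι : Type) [Field F] [CharZero F] [Field k] [IsAlgClosed k] [Algebra F k] [Finite ι]
    [DecidableEq ι] (M : Amb F F ι) (N : Amb F k ι) (q : N.X ⟶ M.X) (i₀ : ι) (f : BiFrame M.I₂)
    (Φ : Ideal (Pxy ι F) → ZMod 2), M.IsBC N q → M.I₁ = ptI F i₀ → GoodN M.I₁ M.I₂ Φ →
    ValC f i₀ Φ → ∃ G₁ G₂ G₃ : Curve M.s, cls G₁ - cls G₂ - cls G₂ + cls G₃ ≠ 0 ∧
      ∀ C₁ C₂ C₃ : Curve N.s, CurveBC q G₁ (G₁.f ≫ M.s) (algebraMap F k) C₁ →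
        CurveBC q G₂ (G₂.f ≫ M.s) (algebraMap F k) C₂ →
        CurveBC q G₃ (G₃.f ≫ M.s) (algebraMap F k) C₃ → cls C₁ - cls C₂ - cls C₂ + cls C₃ = 0

/-! Block D: the spin group. -/

/-- CLIF: the Clifford relations. -/
structure ClifAPI : Prop where
  lm_t : ∀ (R : Type) [CommRing R] (x : Fin 7 → R), (lm x)ᵀ = -lm x
  lm_mul : ∀ (R : Type) [CommRing R] (x y : Fin 7 → R),
    lm x * lm y + lm y * lm x = (-2 * (x ⬝ᵥ y)) • (1 : Matrix O O R)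
  lm_oe : ∀ (R : Type) [CommRing R] (x y : Fin 7 → R),
    lm x *ᵥ oe y = fun o => o.elim (-(x ⬝ᵥ y)) (cross x y)
  cl_t : ∀ (R : Type) [CommRing R] (ε : R) (v : V → R), (cl ε v)ᵀ = -cl ε v
  cl_add : ∀ (R : Type) [CommRing R] (ε : R) (v w : V → R), cl ε (v + w) = cl ε v + cl ε w
  cl_smul : ∀ (R : Type) [CommRing R] (ε c : R) (v : V → R), cl ε (c • v) = c • cl ε v
  cl_map : ∀ (R R' : Type) [CommRing R] [CommRing R'] (φ : R →+* R') (ε : R) (v : V → R),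
    (cl ε v).map φ = cl (φ ε) (φ ∘ v)
  cl_mul : ∀ (R : Type) [CommRing R] (v w : V → R),
    cl 1 v * cl (-1) w + cl 1 w * cl (-1) v = (2 * bq v w) • (1 : Matrix S S R) ∧
      cl (-1) v * cl 1 w + cl (-1) w * cl 1 v = (2 * bq v w) • (1 : Matrix S S R)
  cl_sq : ∀ (R : Type) [CommRing R] (v : V → R),
    cl 1 v * cl (-1) v = qf v • (1 : Matrix S S R) ∧
      cl (-1) v * cl 1 v = qf v • (1 : Matrix S S R) ∧ bq v v = qf v
  map : ∀ (R R' : Type) [CommRing R] [CommRing R'] (φ : R →+* R'), ∀ h ∈ Spin R, h.map φ ∈ Spin R'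
  rel : ∀ (R : Type) [CommRing R], ∀ h ∈ Spin R, ∃ k ρ ρ', Rel h k ρ ρ'

/-- NAT: the data commute with field embeddings. -/
def NatStmt : Prop :=
  ∀ (Ω Ω' : Type) [Field Ω] [Field Ω'] (φ : Ω →+* Ω') (g : Matrix S S Ω), IsUnit g →
    Same φ g (g.map φ)

/-- COV: the data are invariant. -/
def CovStmt : Prop :=
  ∀ (Ω : Type) [Field Ω] [CharZero Ω] (g h k : Matrix S S Ω) (ρ ρ' : Matrix V V Ω),
    Rel h k ρ ρ' → Same (RingHom.id Ω) (g * h) g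

/-- QUAD: the quadrics. -/
structure QuadAPI : Prop where
  mat : ∀ (L : Type) [Field L] (g : Matrix S S L) u v w, quadric g u v w =
    ∑ i, ∑ j, C ((g * (cl 1 u * cl (-1) v * cl 1 w) * gᵀ) i j) * X i * X j
  nat : ∀ (L L' : Type) [Field L] [Field L'] (φ : L →+* L') (g : Matrix S S L) u v w,
    MvPolynomial.map φ (quadric g u v w) = quadric (g.map φ) (φ ∘ u) (φ ∘ v) (φ ∘ w)
  cov : ∀ (L : Type) [Field L] (g : Matrix S S L), ∀ h ∈ Spin L, ∀ u v w,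
    ∃ u' v' w', quadric (g * h) u v w = quadric g u' v' w'
  eval : ∀ (L A : Type) [Field L] [CommRing A] (c : L →+* A) (g : Matrix S S L) (x : S → A) u v w,
    eval₂ c x (quadric g u v w) = (x ᵥ* g.map c) ⬝ᵥ
      (cl 1 (c ∘ u) * cl (-1) (c ∘ v) * cl 1 (c ∘ w)) *ᵥ (x ᵥ* g.map c)

/-- EV0: the cross product and the operator in normal form. -/
def Ev0Stmt : Prop :=
  ∀ (Ω : Type) [Field Ω] [CharZero Ω] (l : Ω) (u : S → Ω), u = l • (Pi.single r0 1 : S → Ω) →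
    (∀ z, beta u z = Sum.elim (fun a => l * z (some a, none)) fun a => -(l * z (none, some a))) ∧
    (∀ v w, cr u v w = Sum.elim (l ^ 2 • cross (v ∘ Sum.inl) (w ∘ Sum.inl))
      (l ^ 2 • cross (v ∘ Sum.inr) (w ∘ Sum.inr))) ∧
    (∀ v, TT u v = Sum.elim (l ^ 4 • v ∘ Sum.inl) (-(l ^ 4 • v ∘ Sum.inr))) ∧ dd u = l ^ 8 ∧
    ∀ v w, dd u • cc u v w - cc u (TT u v) (TT u w) =
        (2 * l ^ 9) • (tens (w ∘ Sum.inl) (v ∘ Sum.inr) - tens (v ∘ Sum.inl) (w ∘ Sum.inr)) ∧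
      cc u (TT u v) w - cc u v (TT u w) =
        (-2 * l ^ 5) • (tens (w ∘ Sum.inl) (v ∘ Sum.inr) + tens (v ∘ Sum.inl) (w ∘ Sum.inr))

/-- EV1: the data in normal form. -/
def Ev1Stmt : Prop :=
  ∀ (Ω : Type) [Field Ω] [CharZero Ω] (g : Matrix S S Ω), g r0 = g r0 r0 • (Pi.single r0 1 : S → Ω) →
    dd (g r0) = g r0 r0 ^ 8 ∧
    (∀ k, da g k + g r0 r0 ^ 4 * db g k = X7 g k ⬝ᵥ X7 g k) ∧
    (∀ k, da g k - g r0 r0 ^ 4 * db g k = Y7 g k ⬝ᵥ Y7 g k) ∧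
    (∀ k m, dP g k m + g r0 r0 ^ 4 • dQ g k m =
      ((-4 * g r0 r0 ^ 5) • tens (X7 g k) (Y7 g m)) ᵥ* g⁻¹) ∧
    ∀ k m, dP g k m - g r0 r0 ^ 4 • dQ g k m =
      ((4 * g r0 r0 ^ 5) • tens (X7 g m) (Y7 g k)) ᵥ* g⁻¹

/-- PURE: tensor products of special subspaces consist of pure spinors. -/
structure PureAPI : Prop where
  pure : ∀ (A n : Type) [CommRing A] [Fintype n] (x y : n → Fin 7 → A) (w : n → n → A),
    (∀ l l', x l ⬝ᵥ x l' = 0 ∧ cross (x l) (x l') = 0) →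
    (∀ l l', y l ⬝ᵥ y l' = 0 ∧ cross (y l) (y l') = 0) → ∀ a b c : V → A,
    (∑ l, ∑ l', w l l' • tens (x l) (y l')) ⬝ᵥ (cl 1 a * cl (-1) b * cl 1 c) *ᵥ
      (∑ l, ∑ l', w l l' • tens (x l) (y l')) = 0
  self : ∀ (A : Type) [CommRing A] (x : Fin 7 → A), cross x x = 0
  special : ∀ (A : Type) [CommRing A] (a v w : Fin 7 → A) (r : A), r ^ 2 = -(a ⬝ᵥ a) → ∀ l l',
    (∑ k, nv r l k • Frm.fr a v w k) ⬝ᵥ (∑ k, nv r l' k • Frm.fr a v w k) = 0 ∧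
      cross (∑ k, nv r l k • Frm.fr a v w k) (∑ k, nv r l' k • Frm.fr a v w k) = 0

/-- TRI: the equations of rows and columns follow from the quadrics. -/
def TriStmt : Prop :=
  ∀ (A : Type) [CommRing A] (J : Ideal A) (ψ : S → A), IsUnit (6 : A) →
    (∀ k l m : V, ψ ⬝ᵥ (cl 1 (Pi.single k 1) * cl (-1) (Pi.single l 1) * cl 1 (Pi.single m 1)) *ᵥ
      ψ ∈ J) →
    (∀ r r', ∑ c, ψ (r, c) ^ 2 - ∑ c, ψ (r', c) ^ 2 ∈ J) ∧
      (∀ c c', ∑ r, ψ (r, c) ^ 2 - ∑ r, ψ (r, c') ^ 2 ∈ J) ∧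
      ∀ c c', c ≠ c' → ∑ r, ψ (r, c) * ψ (r, c') ∈ J

/-- SGN: the sign matrices lie in the spin group. -/
def SgnStmt : Prop :=
  ∀ a b : Fin 3 → ℤˣ, (diagonal fun s : S => ((Alg.toC (osg a s.1 * osg b s.2) : ℂˣ) : ℂ)) ∈ Spin ℂ

/-- G0: an element of the spin group which multiplies the distinguished row by an eighth root of
unity. -/
def G0Stmt : Prop :=
  ∃ h ∈ Spin ℂ, ∃ ζ : ℂ, ζ ^ 4 = -1 ∧ h r0 = ζ • (Pi.single r0 1 : S → ℂ)

/-- JAC: the lowest degree criterion. -/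
def JacStmt : Prop :=
  ∀ (σ : Type) [Finite σ] (c : σ → ℂ) (p : σ → MvPolynomial σ ℂ), (∀ i, c i ≠ 0) →
    (∀ i, p i - C (c i) * X i ∈ Ideal.span (Set.range (X : σ → MvPolynomial σ ℂ)) ^ 2) →
    Function.Injective (aeval p : MvPolynomial σ ℂ →ₐ[ℂ] MvPolynomial σ ℂ)

/-- DOM: the orbit of the distinguished line is dense. -/
def DomStmt : Prop :=
  ∃ h ∈ Spin (MvPolynomial S ℂ), Function.Injective
    (aeval fun r => X r0 * h r0 r : MvPolynomial S ℂ →ₐ[ℂ] MvPolynomial S ℂ)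

/-- EMB: the generic matrix in normal form. -/
def EmbStmt : Prop :=
  ∃ (j : L1 →ₐ[ℂ] L1) (h : Matrix S S (MvPolynomial S ℂ)), h ∈ Spin (MvPolynomial S ℂ) ∧
    gen.map j = gg * h.map th

/-- SUB: linear substitutions, row by row. -/
def SubStmt : Prop :=
  ∀ A B : S → Matrix S S ℂ, (∀ i, A i * B i = 1) →
    ∃ σ : L1 ≃ₐ[ℂ] L1, ∀ i j, σ (gen i j) = ∑ l, gen i l * algebraMap ℂ L1 (A i l j)

/-- FIX: invariant functions do not see the spin group. -/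
def FixStmt : Prop :=
  ∀ (Ω τ : Type) [Field Ω] [Algebra ℂ Ω] (j₁ j₂ : L1 →ₐ[ℂ] Ω) (g : Matrix S S Ω)
    (θ : MvPolynomial τ ℂ →ₐ[ℂ] Ω) (k₁ k₂ : Matrix S S (MvPolynomial τ ℂ)),
    k₁ ∈ Spin (MvPolynomial τ ℂ) → k₂ ∈ Spin (MvPolynomial τ ℂ) → gen.map j₁ = g * k₁.map θ →
    gen.map j₂ = g * k₂.map θ → ∀ z ∈ FF gen, j₁ z = j₂ z

/-- GG: the matrix in normal form. -/
structure GgAPI : Prop where
  unit : IsUnit gen ∧ IsUnit gg
  row : gg r0 = gg r0 r0 • (Pi.single r0 1 : S → L1) ∧ gg r0 r0 = lam ∧ lam ≠ 0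
  neX : ∀ k, X7 gg k ⬝ᵥ X7 gg k ≠ 0
  neY : ∀ k, Y7 gg k ⬝ᵥ Y7 gg k ≠ 0
  nsX : ¬ IsSquare (-(X7 gg 0 ⬝ᵥ X7 gg 0))
  nsY : ¬ IsSquare (-(Y7 gg 0 ⬝ᵥ Y7 gg 0))
  nsXY : ¬ IsSquare (X7 gg 0 ⬝ᵥ X7 gg 0 * (Y7 gg 0 ⬝ᵥ Y7 gg 0))
  indep : LinearIndependent L1 fun km : Fin 7 × Fin 7 => tens (X7 gg km.1) (Y7 gg km.2)

/-- NF: the normal form exists. -/
def NfStmt : Prop := Nonempty (NF (forms gen (FF gen)))

/-- NSQ: the discriminant is not a square. -/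
def NsqStmt : Prop :=
  ∀ (F : Type) [Field F] (I : Set (MvPolynomial S F)) (N : NF I), ¬ IsSquare N.d

/-- SAT: the Segre image lies on the variety. -/
structure SatAPI : Prop where
  sat₁ : ∀ (F : Type) [Field F] (I : Set (MvPolynomial S F)) (N : NF I) (A : Type) [CommRing A]
    (c : F →+* A) (δ : A) (w w' : Fin 7 → A), δ ^ 2 = c N.d →
    ∑ k, ev2 c δ N.a N.b k * w k ^ 2 = 0 → ∑ k, ev2 c (-δ) N.a N.b k * w' k ^ 2 = 0 →
    Sat I c (bil c δ N.P N.Q w w')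
  sat₂ : ∀ (F : Type) [Field F] (I : Set (MvPolynomial S F)) (N : NF I) (A : Type) [CommRing A]
    (c : F →+* A) (δ r r' : A) (w : Fin 2 → Fin 2 → A), δ ^ 2 = c N.d →
    r ^ 2 = -ev2 c δ N.a N.b 0 → r' ^ 2 = -ev2 c (-δ) N.a N.b 0 →
    Sat I c fun i => ∑ l, ∑ l', w l l' * bil c δ N.P N.Q (nv r l) (nv r' l') i

/-- FRM: the pair of frames. -/
def FrmStmt : Prop :=
  ∀ (F : Type) [Field F] (I : Set (MvPolynomial S F)) (N : NF I),
    ∃ f : BiFrame I, f.d = N.d ∧ f.P = N.P ∧ f.Q = N.Q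

/-- ACT: the torus action. -/
structure ActAPI : Prop where
  mul : ∀ g h z, actS (g * h) z = actS g (actS h z)
  one : ∀ z, actS 1 z = z
  gen : ∀ g i j, i ≠ r0 →
    actS g (gen i j) = algebraMap ℂ L1 (osg g.1 j.1 * osg g.2 j.2 : ℂˣ) * gen i j
  row : ∀ g j, actS g (Sp14.gen r0 j) = Sp14.gen r0 j
  gg : ∀ g, gg.map (actS g) =
    gg * diagonal fun j : S => algebraMap ℂ L1 (osg g.1 j.1 * osg g.2 j.2 : ℂˣ)

/-- TOR: the tower exists. -/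
def TorStmt : Prop :=
  ∃ (κ K : Type) (_ : Field κ) (_ : Field K) (_ : Algebra κ K) (_ : MulSemiringAction Alg.Sgn K),
    Nonempty (Tower κ K)

/-- CFG: the data descend to the top field. -/
def CfgStmt : Prop :=
  ∀ (F κ K : Type) [Field F] [Field κ] [Field K] [Algebra κ K] [MulSemiringAction Alg.Sgn K]
    (I : Set (MvPolynomial S F)) (N : NF I) (W : Tower κ K), Nonempty (Cfg N W)

/-- EQS: the equations hold at the top level. -/
def EqsStmt : Prop :=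
  ∀ (F κ K : Type) [Field F] [Field κ] [Field K] [Algebra κ K] [MulSemiringAction Alg.Sgn K]
    (I : Set (MvPolynomial S F)) (N : NF I) (W : Tower κ K) (D : Cfg N W)
    (J : Ideal (By (O × O) K)), (∀ f ∈ I, thy D.φ D.g f ∈ J) → W.T.Eqs J

end Pool.Agent.MP_d45d16_ag.Sp14
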