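import Pool.Agent.MP_d45d16_ag.yag.All
import Pool.Agent.MP_d45d16_ag.sp.Spec

/-!
The bottom level of the tower for the spin group.
-/

set_option autoImplicit false

open MvPolynomial Filter

namespace Pool.Agent.MP_d45d16_ag.Sp14

open Yag

namespace Base2X

variable {ρ γ : Type}

theorem phi_of_four {K : Type} [Field K] {I : Ideal (By (ρ × γ) K)}
    {c : PrimeSpectrum (By (ρ × γ × γ) K) →₀ ℕ} (h : cycD I = 4 • c) :
    PhiD I = Base.psiHom K c := by
  show _ = c.sum fun s n => (n : ZMod 2) * par s.asIdeal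
  unfold PhiD
  rw [h, Finsupp.sum_of_support_subset _ (s := c.support) Finsupp.support_smul _
    (fun _ _ => by simp)]
  refine Finset.sum_congr rfl fun s _ => ?_
  rw [Finsupp.smul_apply, smul_eq_mul, Nat.mul_div_cancel_left _ (by norm_num)]

theorem exists_smul {Y : Type} (m : Y →₀ ℕ) (k : ℕ) (h : ∀ s, k ∣ m s) : ∃ c, m = k • c :=
  ⟨m.mapRange (· / k) (Nat.zero_div k), Finsupp.ext fun s => by
    rw [Finsupp.smul_apply, Finsupp.mapRange_apply, smul_eq_mul, Nat.mul_div_cancel' (h s)]⟩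

/-- The additive extension of a function. -/
noncomputable def lift {Y M : Type} [AddCommMonoid M] (G : Y → M) : (Y →₀ ℕ) →+ M where
  toFun m := m.sum fun s n => n • G s
  map_zero' := Finsupp.sum_zero_index
  map_add' _ _ := Finsupp.sum_add_index' (fun _ => zero_nsmul _) fun _ _ _ => add_nsmul _ _ _

/-- Splitting an invariant function along an involution and an invariant set. -/
theorem split {Y : Type} (τ : Y → Y) (hτ : ∀ x, τ (τ x) = x) (m : Y →₀ ℕ) (P : Y → Prop)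
    (hP : ∀ x, P (τ x) ↔ P x) (hs : ∀ x, m (τ x) = m x) (h8 : ∀ x, P x → 8 ∣ m x)
    (h2 : ∀ x, 2 ∣ m x) (h4 : ∀ x, τ x = x → 4 ∣ m x) :
    ∃ c₁ c : Y →₀ ℕ, (∀ x ∈ c.support, x ∈ m.support ∧ ¬ P x) ∧
      m = 8 • c₁ + 2 • (c + c.mapDomain τ) := by
  classical
  obtain ⟨c₁, e₁⟩ := exists_smul (m.filter P) 8 fun s => by
    rw [Finsupp.filter_apply]
    split_ifs with h
    exacts [h8 s h, dvd_zero _]
  obtain ⟨c₂, e₂⟩ := exists_smul (m.filter fun x => ¬ P x) 2 fun s => by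
    rw [Finsupp.filter_apply]
    split_ifs with h
    exacts [dvd_zero _, h2 s]
  have e : ∀ x, 2 * c₂ x = if P x then 0 else m x := fun x => by
    rw [← smul_eq_mul, ← Finsupp.smul_apply, ← e₂, Finsupp.filter_apply, ite_not]
  obtain ⟨c, k1, k2⟩ := Base.split τ hτ c₂
    (fun x => by
      have a := e x
      have b := e (τ x)
      rw [hs, if_congr (hP x) rfl rfl] at b
      omega)
    fun x hx => by
      have a := e x
      obtain ⟨k, hk⟩ := h4 x hx
      rw [Nat.even_iff]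
      split_ifs at a <;> omega
  refine ⟨c₁, c, fun x hx => ?_, ?_⟩
  · have a := e x
    have b := Finsupp.mem_support_iff.1 (k1 hx)
    rw [Finsupp.mem_support_iff]
    split_ifs at a with h
    · omega
    · exact ⟨by omega, h⟩
  · rw [← k2, ← e₁, ← e₂, Finsupp.filter_add_filter_not]

variable {A κ : Type} [Group A] [Fintype ρ] [Fintype γ] [Field κ] [CharZero κ]
  [MulSemiringAction A κ]

/-- The value of the invariant on a specialisation. -/
theorem phi_init (hH : HfAPI) (hH2 : HfAPI2) (pl : PlaceAPI) (hY : CydAPI) (hSp : SpdStmt)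
    (hF : FourAPI) (hPs : Psi2Stmt) (T : Setup2 A ρ γ κ) (hκ : ∀ (a : A) (c : κ), a • c = c)
    {E : Type} [Field E] [Algebra κ E] [MulSemiringAction A E] {y : E} (p : Place E κ)
    {I : Ideal (By (ρ × γ) E)} (hy : Simple κ y) (ho : p.Over κ) (h0 : p.Val y 0) (hp : p.Eqv A)
    (hI : T.Adm I) {a : A} (ha : ∀ c : E, a • a • c = c)
    {c₁ c : PrimeSpectrum (By (ρ × γ × γ) E) →₀ ℕ}
    (hc : ∀ s ∈ c.support, s ∈ (cycD I).support ∧ ¬ ∀ r, Alive s r)
    (hm : cycD I = 8 • c₁ + 2 • (c + c.mapDomain fun s => s.comap (actB (ρ × γ × γ) a))) :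
    PhiD (p.init I) = psi c := by
  obtain ⟨hN, t, ht, hr⟩ := pl.dvr E κ y p hy ho h0
  have hinv : ∀ s : PrimeSpectrum (By (ρ × γ × γ) E),
      p.init (s.comap (actB (ρ × γ × γ) a)).asIdeal = p.init s.asIdeal := fun s => by
    refine le_antisymm (Base.init_le pl hκ p hp a _) ?_
    conv_lhs => rw [← Base.act_act ha s]
    exact Base.init_le pl hκ p hp a _
  have h1 : cycD (p.init I) = 4 • (2 • lift (fun s => cycB (p.init s.asIdeal)) c₁ +
      lift (fun s => cycB (p.init s.asIdeal)) c) := by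
    rw [hSp ρ γ E κ p t I hN ht hr hI.hom hI.lin]
    show lift (fun s => cycB (p.init s.asIdeal)) (cycD I) = _
    have h2 := Base.sum_split (c := c) rfl (fun s => cycB (p.init s.asIdeal))
      fun s => congrArg cycB (hinv s)
    rw [hm, map_add, map_nsmul, map_nsmul]
    refine (congrArg (fun z => _ + 2 • z) h2).trans ?_
    show _ + 2 • (lift (fun s => cycB (p.init s.asIdeal)) c +
      lift (fun s => cycB (p.init s.asIdeal)) c) = _
    module
  rw [phi_of_four h1, map_add, two_nsmul, map_add, CharTwo.add_self_eq_zero, zero_add]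
  show Base.psiHom κ (c.sum _) = _
  rw [map_finsuppSum]
  refine Finset.sum_congr rfl fun s hs => ?_
  obtain ⟨h2, h3⟩ := hY.spec ρ γ E I hI.hom hI.lin
  obtain ⟨hs1, hs2⟩ := hc s hs
  obtain ⟨r₀, hr₀⟩ := not_forall.1 hs2
  have hh := (h2.1 s hs1).1
  have hle := (h3 s hs1).1.2
  obtain ⟨h4, h5⟩ := hH2.init _ E κ (yw _) p s.asIdeal Base.isW_y hh
  have hl : Lin (yw _) (p.init s.asIdeal) := by
    obtain ⟨C, hC⟩ := (hY.contr ρ γ E I hI.hom).2.2 hI.lin
    exact ⟨C, fun d n => (h5 _).trans_le ((hH.mono _ _ _ _ _ _ Base.isW_y hle).trans (hC d n))⟩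
  have k := (hPs (ρ × γ × γ) κ T.im
    (Set.range fun x : ρ × γ => ∑ k, C (T.β k) * X (x.1, x.2, k) ^ 2) _ T.im_sq
    (fun E' _ _ _ z hz he => by
      obtain ⟨x, hx⟩ := Function.ne_iff.1 hz
      refine T.even E' (fun k => z (x.1, x.2.1, k)) (Function.ne_iff.2 ⟨x.2.2, hx⟩) ?_
      simpa using he _ ⟨(x.1, x.2.1), rfl⟩) h4 hl (by
      rintro _ ⟨x, rfl⟩
      refine (pl.mem _ _ _ p _ _).2 ⟨MvPolynomial.map (algebraMap κ E) _, ?_, fun d => by
        rw [coeff_map]
        exact ho _⟩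
      simpa using hF.eqs A ρ γ κ E T I hI s hs1 r₀ hr₀ x.1 x.2)).2
  show Base.psiHom κ (c s • cycB (p.init s.asIdeal)) = (c s : ZMod 2) * par s.asIdeal
  rw [map_nsmul, nsmul_eq_mul, ← Base.par_congr h5, k]
  rfl

theorem move (hH : HfAPI) (hH2 : HfAPI2) (pl : PlaceAPI) (hY : CydAPI) (hSp : SpdStmt)
    (hE : EvdAPI) (hSy : SymAPI) (hF : FourAPI) (hPs : Psi2Stmt) (T : Setup2 A ρ γ κ)
    (hκ : ∀ (a : A) (c : κ), a • c = c) {E : Type} [Field E] [Algebra κ E]
    [MulSemiringAction A E] (y : E) (η : A →* ℤˣ) (p p' : Place E κ) (I : Ideal (By (ρ × γ) E))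
    (hc : ∀ (a : A) (c : κ), a • algebraMap κ E c = algebraMap κ E (a • c))
    (hη : ∀ a : A, a • y = ((η a : ℤˣ) : ℤ) • y) (hy : Simple κ y) (ho : p.Over κ)
    (ho' : p'.Over κ) (h0 : p.Val y 0) (h0' : p'.Val y⁻¹ 0) (hI : T.Adm I) :
    PhiD (p.init I) = PhiD (p'.init I) := by
  have : CharZero E := charZero_of_injective_algebraMap (algebraMap κ E).injective
  have hfix : ∀ a, η a = 1 → ∀ c : E, a • c = c := fun a ha c => by
    have hm : c ∈ IntermediateField.adjoin κ {y} := by rw [hy.2]; trivial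
    induction hm using IntermediateField.adjoin_induction with
    | mem x hx => rw [Set.mem_singleton_iff.1 hx, hη, ha, Units.val_one, one_smul]
    | algebraMap x => rw [hc, hκ]
    | add x z _ _ hx hz => rw [smul_add, hx, hz]
    | inv x _ hx => rw [smul_inv'', hx]
    | mul x z _ _ hx hz => rw [smul_mul', hx, hz]
  have hη' : ∀ a : A, a • y⁻¹ = ((η a : ℤˣ) : ℤ) • y⁻¹ := fun a => by
    rw [smul_inv'', hη]
    rcases Int.units_eq_one_or (η a) with h | h <;> simp [h]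
  obtain ⟨a, ha⟩ : ∃ a : A, ∀ b, η b = 1 ∨ η b = η a := by
    by_cases h : ∃ a, η a = -1
    · obtain ⟨a, ha⟩ := h
      exact ⟨a, fun b => by rw [ha]; exact Int.units_eq_one_or _⟩
    · exact ⟨1, fun b => (Int.units_eq_one_or (η b)).imp id fun h' => (h ⟨b, h'⟩).elim⟩
  have haa : ∀ c : E, a • a • c = c := fun c => by
    rw [← mul_smul]
    exact hfix _ (by rw [map_mul, Int.units_mul_self]) c
  have hsg : ∀ b, η b = 1 → ∀ f ∈ I, sgn γ E (fun r => T.χ r b) f ∈ I := fun b hb f hf => by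
    rw [← hSy.sgn A ρ γ κ E T b f (hfix b hb)]
    exact hI.stab b f hf
  obtain ⟨c₁, c, h1, h2⟩ := split
    (fun s : PrimeSpectrum (By (ρ × γ × γ) E) => s.comap (actB (ρ × γ × γ) a))
    (Base.act_act haa) (cycD I) (fun s => ∀ r, Alive s r)
    (fun s => forall_congr' fun r => exists_congr fun j => not_congr (by
      show actB (ρ × γ × γ) a (X (r, j, j)) ∈ s.asIdeal ↔ _
      rw [actB, map_X]))
    (fun s => hSy.sym A ρ γ κ E T I s a hI)
    (fun s hs => by
      obtain ⟨b₁, b₂, r₀, r₁, r₂, e₁, e₂, k1, k2, k3⟩ := T.big η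
      exact hE.ev8 ρ γ E I s _ _ r₀ r₁ r₂ hI.hom hI.lin (hsg b₁ e₁) (hsg b₂ e₂) (hs _) (hs _)
        (hs _) k1 k2 k3)
    (fun s => hE.ev2 ρ γ E I s hI.hom hI.lin)
    fun s hs => hF.four A ρ γ κ E T η I s (fun a c => by rw [hc, hκ]) hfix hI fun b => by
      rcases ha b with h | h
      · exact Base.act_one (hfix b h) s
      · have e : ∀ c : E, b • c = a • c := fun c => by
          have h3 := hfix (a⁻¹ * b) (by rw [map_mul, map_inv, h, inv_mul_cancel]) c
          conv_rhs => rw [← h3, ← mul_smul, mul_inv_cancel_left]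
        rw [Base.act_congr e]
        exact hs
  have hy' := pl.simple_inv E κ y hy
  rw [phi_init hH hH2 pl hY hSp hF hPs T hκ p hy ho h0 (pl.eqv A E κ y η p hc hη hy ho h0) hI haa
      h1 h2,
    phi_init hH hH2 pl hY hSp hF hPs T hκ p' hy' ho' h0'
      (pl.eqv A E κ y⁻¹ η p' hc hη' hy' ho' h0') hI haa h1 h2]

end Base2X

open Base2X in
set_option linter.unusedVariables false in
/-- BASE2 -/
theorem base2_stmt (hH : HfAPI) (hH2 : HfAPI2) (hPl : PlaceAPI) (hC : CycAPI) (hY : CydAPI)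
    (hSp : SpdStmt) (hE : EvdAPI) (hSy : SymAPI) (hF : FourAPI) (hPs : Psi2Stmt) (hA : EvaStmt)
    (hBv : EvbStmt) : Base2Stmt := by
  intro A ρ γ κ _ _ _ _ _ _ T hκ
  have four : ∀ I : Ideal (By (ρ × γ) κ), T.Adm I → ∃ c, cycD I = 4 • c := fun I hI =>
    exists_smul _ 4 fun s => hF.four A ρ γ κ κ T 1 I s (fun a _ => hκ a _) (fun a _ => hκ a) hI
      fun a => Base.act_one (hκ a) s
  refine ⟨fun I I₁ I₂ _ h₁ h₂ h => ?_, fun I hI => hA A ρ γ κ T I hκ hI,
    fun I hI => hBv A ρ γ κ T I hκ hI, ?_⟩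
  · obtain ⟨c₁, e₁⟩ := four I₁ h₁
    obtain ⟨c₂, e₂⟩ := four I₂ h₂
    rw [phi_of_four e₁, phi_of_four e₂, ← map_add]
    exact phi_of_four (by rw [h, e₁, e₂, smul_add])
  · intro E _ i1 i2 hT _ y η p p' I
    have e : i1 = i2 := Algebra.algebra_ext _ _ fun r =>
      (@IsScalarTower.algebraMap_apply κ κ E _ _ _ _ i1 i2 hT r).symm
    subst e
    exact move hH hH2 hPl hY hSp hE hSy hF hPs T hκ y η p p' I

end Pool.Agent.MP_d45d16_ag.Sp14
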