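import Pool.Agent.MP_d45d16_ag.sp.Spec

/-!
The data descend to the top field of the tower.
-/

set_option autoImplicit false

open MvPolynomial Matrix

namespace Pool.Agent.MP_d45d16_ag.Sp14

open Yag

namespace CfgX

/-- The element of the torus given by two sign vectors. -/
noncomputable def tor (a b : Fin 3 → ℤˣ) : Alg.Tor :=
  (fun l => Alg.toC (a l), fun l => Alg.toC (b l))

theorem tor_left (b : Fin 3 → ℤˣ) : ((1, fun l => Alg.toC (b l)) : Alg.Tor) = tor 1 b :=
  Prod.ext (funext fun _ => (map_one Alg.toC).symm) rfl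

theorem tor_right (a : Alg.Sgn) : Alg.emb a = tor a 1 :=
  Prod.ext rfl (funext fun _ => (map_one Alg.toC).symm)

/-- The signs in the function field. -/
noncomputable def ep (a : Fin 3 → ℤˣ) (o : O) : L1 := ((osg a o : ℤˣ) : ℤ)

theorem ep_sq (a : Fin 3 → ℤˣ) (o : O) : ep a o * ep a o = 1 := by
  rw [ep, ← Int.cast_mul, ← Units.val_mul, Int.units_mul_self, Units.val_one, Int.cast_one]

theorem ep_none (a : Fin 3 → ℤˣ) : ep a none = 1 := Int.cast_one

theorem ep_one (o : O) : ep 1 o = 1 := by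
  cases o with
  | none => exact ep_none 1
  | some k => rw [ep, osg, Option.elim, Alg.sg_one, Units.val_one, Int.cast_one]

theorem osg_toC (a : Fin 3 → ℤˣ) (o : O) :
    osg (fun l => Alg.toC (a l)) o = Alg.toC (osg a o) := by
  cases o with
  | none => exact (map_one Alg.toC).symm
  | some k => exact (Alg.map_sg Alg.toC a k).symm

theorem alg_toC (u : ℤˣ) : algebraMap ℂ L1 (Alg.toC u : ℂˣ) = ((u : ℤ) : L1) :=
  map_intCast (algebraMap ℂ L1) _

theorem alg_osg (a : Fin 3 → ℤˣ) (o : O) :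
    algebraMap ℂ L1 (osg (fun l => Alg.toC (a l)) o : ℂˣ) = ep a o := by
  rw [osg_toC, alg_toC, ep]

theorem alg_two (a b : Fin 3 → ℤˣ) (j : S) :
    algebraMap ℂ L1 (osg (tor a b).1 j.1 * osg (tor a b).2 j.2 : ℂˣ) = ep a j.1 * ep b j.2 := by
  rw [Units.val_mul, map_mul, tor, alg_osg, alg_osg]

theorem act_gg (hAc : ActAPI) (a b : Fin 3 → ℤˣ) :
    gg.map (actS (tor a b)) = gg * diagonal fun j : S => ep a j.1 * ep b j.2 := by
  rw [hAc.gg]
  simp only [alg_two]

theorem act_ent (hAc : ActAPI) (a b : Fin 3 → ℤˣ) (i j : S) :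
    actS (tor a b) (gg i j) = gg i j * (ep a j.1 * ep b j.2) := by
  have h := congrFun (congrFun (act_gg hAc a b) i) j
  rwa [mul_diagonal, map_apply] at h

theorem act_lam (hAc : ActAPI) (g : Alg.Tor) : actS g lam = lam := hAc.row g r0

theorem act_c (hSg : SgnStmt) (hAc : ActAPI) {F : Type} [Field F] {I : Set (MvPolynomial S F)}
    (N : NF I) (a b : Fin 3 → ℤˣ) (z : F) : actS (tor a b) (N.c z) = N.c z := by
  refine N.fix (actS (tor a b) : L1 →ₐ[ℂ] L1) _ (AlgHom.id ℂ _) (hSg a b) ?_ (fun z => ?_) z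
  · rw [diagonal_map (map_zero _)]
    refine (act_gg hAc a b).trans ?_
    congr 2
    funext j
    rw [alg_toC, Units.val_mul, Int.cast_mul, ep, ep]
  · have h : (actS (tor a b) : L1 →ₐ[ℂ] L1).comp th = th :=
      algHom_ext fun r => by
        rw [AlgHom.comp_apply, th, aeval_X]
        exact hAc.row _ r
    exact AlgHom.congr_fun h z

theorem fr_sign {τ : L1 →+* L1} (a : Fin 3 → ℤˣ) {x y z : Fin 7 → L1}
    (hx : ∀ c, τ (x c) = ep a (some c) * x c) (hy : ∀ c, τ (y c) = ep a (some c) * y c)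
    (hz : ∀ c, τ (z c) = ep a (some c) * z c) (k : Fin 7) (o : O) :
    τ (oe (Frm.fr x y z k) o) = ep a o * oe (Frm.fr x y z k) o := by
  cases o with
  | none => exact (map_zero τ).trans (mul_zero _).symm
  | some c =>
    have h0 := Alg.diag_mem (fun l => (Alg.toC (a l) : ℂ)) fun l => by
      rw [← Units.val_pow_eq_pow_val, Alg.toC_sq, Units.val_one]
    have hm : (diagonal (Alg.sg fun l => (Alg.toC (a l) : ℂ))).map (algebraMap ℂ L1) =
        diagonal fun c => ep a (some c) := by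
      rw [diagonal_map (map_zero _)]
      congr 1
      funext c
      rw [← alg_osg]
      exact congrArg _ (Alg.map_sg (Units.coeHom ℂ) (fun l => Alg.toC (a l)) c).symm
    have h2 := Frm.cross_map (algebraMap ℂ L1) h0.2
    rw [hm] at h2
    have hP := (Frm.pres_map τ).mul (m := diagonal fun c => ep a (some c))
      (by simp only [diagonal_transpose, diagonal_mul_diagonal, ep_sq, diagonal_one]) h2
    have hf : ∀ {v : Fin 7 → L1}, (∀ c, τ (v c) = ep a (some c) * v c) →
        (diagonal fun c => ep a (some c)) *ᵥ (τ ∘ v) = v := fun hv => funext fun c => by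
      rw [mulVec_diagonal, Function.comp_apply, hv, ← mul_assoc, ep_sq, one_mul]
    have h3 := hP.fr x y z k
    simp only [hf hx, hf hy, hf hz] at h3
    have h4 := congrFun h3 c
    rw [mulVec_diagonal, Function.comp_apply] at h4
    change τ (Frm.fr x y z k c) = ep a (some c) * Frm.fr x y z k c
    conv_rhs => rw [h4, ← mul_assoc, ep_sq, one_mul]

theorem act_00 (hAc : ActAPI) (a b : Fin 3 → ℤˣ) : actS (tor a b) (gg r0 r0) = gg r0 r0 := by
  rw [act_ent hAc, r0, ep_none, ep_none, mul_one, mul_one]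

theorem act_X (hAc : ActAPI) (a b : Fin 3 → ℤˣ) (k : Fin 7) (o : O) :
    actS (tor a b) (oe (X7 gg k) o) = ep a o * oe (X7 gg k) o := by
  have h : ∀ i c, (actS (tor a b) : L1 →+* L1) (gg r0 r0 ^ 3 * gg (pr i) (some c, none)) =
      ep a (some c) * (gg r0 r0 ^ 3 * gg (pr i) (some c, none)) := fun i c => by
    rw [RingHom.coe_coe, map_mul, map_pow, act_00 hAc, act_ent hAc, ep_none]
    ring
  exact fr_sign (τ := (actS (tor a b) : L1 →+* L1)) a (h 0) (h 1) (h 2) k o

theorem act_Y (hAc : ActAPI) (a b : Fin 3 → ℤˣ) (k : Fin 7) (o : O) :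
    actS (tor a b) (oe (Y7 gg k) o) = ep b o * oe (Y7 gg k) o := by
  have h : ∀ i c, (actS (tor a b) : L1 →+* L1) (-(gg r0 r0 ^ 3 * gg (pr i) (none, some c))) =
      ep b (some c) * -(gg r0 r0 ^ 3 * gg (pr i) (none, some c)) := fun i c => by
    rw [RingHom.coe_coe, map_neg, map_mul, map_pow, act_00 hAc, act_ent hAc, ep_none]
    ring
  exact fr_sign (τ := (actS (tor a b) : L1 →+* L1)) b (h 0) (h 1) (h 2) k o

theorem inv_sign {n L : Type} [Fintype n] [DecidableEq n] [Field L] (τ : L →+* L)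
    {A : Matrix n n L} (hA : IsUnit A) {p q s : n → L} (hp : ∀ j, p j * p j = 1)
    (hq : ∀ j, q j * q j = 1) (h1 : A.map τ = A * diagonal fun j => p j * q j)
    (h2 : ∀ j, τ (s j) = q j * s j) :
    (Aᵀ⁻¹ * diagonal s).map τ = Aᵀ⁻¹ * diagonal s * diagonal p := by
  have hd : IsUnit Aᵀ.det := isUnit_det_transpose A ((isUnit_iff_isUnit_det A).1 hA)
  have h3 : Aᵀ * (Aᵀ⁻¹ * diagonal s) = diagonal s := mul_nonsing_inv_cancel_left _ _ hd
  have h4 : (diagonal fun j => p j * q j) * (Aᵀ * (Aᵀ⁻¹ * diagonal s).map τ) =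
      diagonal fun j => q j * s j := by
    rw [← Matrix.mul_assoc, ← diagonal_transpose, ← transpose_mul, ← h1, ← transpose_map,
      ← Matrix.map_mul, h3, diagonal_map (map_zero τ)]
    simp only [h2]
  have h5 : Aᵀ * (Aᵀ⁻¹ * diagonal s).map τ = diagonal s * diagonal p := by
    ext i j
    have h6 := congrFun (congrFun h4 i) j
    rw [diagonal_mul] at h6
    rw [diagonal_mul_diagonal]
    rw [diagonal_apply] at h6 ⊢
    split_ifs at h6 ⊢
    · linear_combination (p i * q i) * h6 + (s i * p i - p i * p i * _) * hq i - _ * hp i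
    · linear_combination (p i * q i) * h6 - (p i * p i * _) * hq i - _ * hp i
  rw [Matrix.mul_assoc, ← h5, nonsing_inv_mul_cancel_left _ _ hd]

end CfgX

open CfgX in
theorem cfg_stmt (hSg : SgnStmt) (hG : GgAPI) (hAc : ActAPI) : CfgStmt := by
  intro F κ K _ _ _ _ _ I N W
  have inj := W.e.injective
  have hm : ∀ z : L1, (∀ b, actS (tor 1 b) z = z) → ∃ y, W.e y = z := fun z h =>
    W.mem z fun b => by rw [tor_left, h]
  have hs : ∀ a b c, actS (tor a b) (W.σ c) = ep b c * W.σ c := fun a b c => by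
    rw [W.hσ, tor, alg_osg]
  have hg : ∀ a b i j, actS (tor a b) ((ggᵀ⁻¹ * diagonal fun s : S => W.σ s.2) i j) =
      (ggᵀ⁻¹ * diagonal fun s : S => W.σ s.2) i j * ep a j.1 := fun a b i j => by
    have h := inv_sign (actS (tor a b) : L1 →+* L1) hG.unit.2 (p := fun j => ep a j.1)
      (q := fun j => ep b j.2) (s := fun s => W.σ s.2) (fun _ => ep_sq _ _) (fun _ => ep_sq _ _)
      (act_gg hAc a b) fun j => hs a b j.2
    have h1 := congrFun (congrFun h i) j
    rwa [map_apply, mul_diagonal (d := fun j : S => ep a j.1)] at h1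
  choose f hf using fun z => hm (N.c z) fun b => act_c hSg hAc N 1 b z
  choose g hg' using fun i j => hm _ fun b => by rw [hg 1 b i j, ep_one, mul_one]
  obtain ⟨l, hl⟩ := hm lam fun b => act_lam hAc _
  choose X hX using fun k o => hm (oe (X7 gg k) o) fun b => by rw [act_X hAc, ep_one, one_mul]
  choose Y hY using fun k o => hm (oe (Y7 gg k) o / W.σ o) fun b => by
    rw [map_div₀, act_Y hAc, hs, mul_div_mul_left _ _ (left_ne_zero_of_mul_eq_one (ep_sq b o))]
  let φ : F →+* K :=
    { toFun := f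
      map_one' := inj (by rw [hf, map_one, map_one])
      map_mul' := fun x y => inj (by rw [hf, map_mul, map_mul, hf, hf])
      map_zero' := inj (by rw [hf, map_zero, map_zero])
      map_add' := fun x y => inj (by rw [hf, map_add, map_add, hf, hf]) }
  have hφ : ∀ z, W.e (φ z) = N.c z := hf
  have hge : (Matrix.of g).map W.e = ggᵀ⁻¹ * diagonal fun s : S => W.σ s.2 :=
    Matrix.ext hg'
  have hd : IsUnit ggᵀ.det := isUnit_det_transpose gg ((isUnit_iff_isUnit_det gg).1 hG.unit.2)
  have h3 : ggᵀ * (Matrix.of g).map W.e = diagonal fun s : S => W.σ s.2 := by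
    rw [hge, mul_nonsing_inv_cancel_left _ _ hd]
  refine ⟨⟨φ, hφ, fun a z => inj ?_, Matrix.of g, ?_, h3, fun a i j => inj ?_, l ^ 4, inj ?_,
    fun a => inj ?_, fun k o => -4 * l ^ 5 * X k o, Y, fun k m => funext fun i => inj ?_⟩⟩
  · rw [W.smul, hφ, tor_right, act_c hSg hAc]
  · rw [isUnit_iff_isUnit_det, isUnit_iff_ne_zero]
    intro h0
    have h4 := congrArg det h3
    rw [det_mul, ← RingHom.mapMatrix_apply, ← RingHom.map_det, h0, map_zero, mul_zero,
      det_diagonal] at h4
    exact Finset.prod_ne_zero_iff.2 (fun s _ => W.ne s.2) h4.symm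
  · rw [W.smul, map_zsmul, of_apply, hg', tor_right, hg, W.hχ, zsmul_eq_mul, mul_comm, ep]
  · rw [hφ, N.hd, map_pow, map_pow, hl, ← pow_mul]
  · rw [W.smul, map_pow, hl, map_pow, act_lam hAc]
  · have h5 : W.e (ev2 φ (l ^ 4) (N.P k m) (N.Q k m) i) =
        ev2 N.c (lam ^ 4) (N.P k m) (N.Q k m) i := by
      rw [ev2, ev2, map_add, map_mul, map_pow, hφ, hφ, hl]
    rw [h5, N.hE, RingHom.map_mulVec, hge, ← mulVec_mulVec, ← transpose_nonsing_inv,
      mulVec_transpose]
    congr 2
    funext s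
    rw [mulVec_diagonal, Function.comp_apply, map_mul, map_mul, map_mul, map_pow, map_neg,
      map_ofNat, hl, hX, hY, Pi.smul_apply, tens, smul_eq_mul]
    field_simp [W.ne s.2]

end Pool.Agent.MP_d45d16_ag.Sp14
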