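import Mathlib.LinearAlgebra.Matrix.Kronecker
import Pool.Agent.MP_d45d16_ag.sp.Spec

/-!
The Clifford relations.
-/

set_option autoImplicit false

open Matrix

namespace Pool.Agent.MP_d45d16_ag.Sp14

open Yag

namespace ClifX

variable {R : Type} [CommRing R]

theorem lm_vec (x : Fin 7 → R) (u : O → R) : lm x *ᵥ u = fun o =>
    o.elim (-(x ⬝ᵥ fun i => u (some i))) fun i => x i * u none + cross x (fun i => u (some i)) i := by
  funext o
  cases o with
  | none => simp [mulVec, dotProduct, Fintype.sum_option, lm]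
  | some i =>
    simp only [mulVec, dotProduct, Fintype.sum_option, lm, of_apply, Option.elim]
    congr 1
    fin_cases i <;> simp [cross, Flag.cross, Fin.sum_univ_seven, Pi.single_apply] <;> ring

theorem lm_t (x : Fin 7 → R) : (lm x)ᵀ = -lm x := by
  ext i j
  rcases i with _ | i <;> rcases j with _ | j <;> simp only [lm, transpose_apply, Matrix.neg_apply,
    of_apply, neg_zero, neg_neg]
  fin_cases i <;> fin_cases j <;> simp [Flag.cross]

theorem lm_add (x y : Fin 7 → R) : lm (x + y) = lm x + lm y := by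
  ext i j
  rcases i with _ | i <;> rcases j with _ | j <;>
    simp only [lm, Matrix.add_apply, of_apply, Flag.cross, Pi.add_apply] <;> ring

theorem lm_smul (c : R) (x : Fin 7 → R) : lm (c • x) = c • lm x := by
  ext i j
  rcases i with _ | i <;> rcases j with _ | j <;>
    simp only [lm, Matrix.smul_apply, of_apply, Flag.cross, Pi.smul_apply, smul_eq_mul] <;> ring

theorem lm_map {R' : Type} [CommRing R'] (φ : R →+* R') (x : Fin 7 → R) :
    (lm x).map φ = lm (φ ∘ x) := by
  ext i j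
  rcases i with _ | i <;> rcases j with _ | j <;>
    simp [lm, Flag.cross, Pi.single_apply, apply_ite φ]

theorem lm_sq (x : Fin 7 → R) : lm x * lm x = (-(x ⬝ᵥ x)) • (1 : Matrix O O R) := by
  refine Matrix.ext_iff_mulVec.2 fun u => ?_
  rw [← mulVec_mulVec, lm_vec, lm_vec, smul_mulVec, one_mulVec]
  funext o
  rcases o with _ | i
  · simp only [Option.elim, dotProduct, cross, Fin.sum_univ_seven, Fin.reduceAdd, Pi.smul_apply,
      smul_eq_mul]
    ring
  · fin_cases i <;> simp [dotProduct, cross, Fin.sum_univ_seven] <;> ring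

theorem lm_mul (x y : Fin 7 → R) :
    lm x * lm y + lm y * lm x = (-2 * (x ⬝ᵥ y)) • (1 : Matrix O O R) := by
  have h := lm_sq (x + y)
  rw [lm_add, add_mul, mul_add, mul_add, lm_sq, lm_sq, add_dotProduct, dotProduct_add,
    dotProduct_add, dotProduct_comm y x] at h
  linear_combination (norm := module) h

theorem cl_t (ε : R) (v : V → R) : (cl ε v)ᵀ = -cl ε v := by
  rw [cl, transpose_add, transpose_smul, ← kroneckerMap_transpose, ← kroneckerMap_transpose,
    lm_t, lm_t, transpose_one]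
  ext i j
  simp [kroneckerMap_apply]
  ring

theorem cl_add (ε : R) (v w : V → R) : cl ε (v + w) = cl ε v + cl ε w := by
  rw [cl, cl, cl, show (v + w) ∘ Sum.inl = v ∘ Sum.inl + w ∘ Sum.inl from rfl,
    show (v + w) ∘ Sum.inr = v ∘ Sum.inr + w ∘ Sum.inr from rfl, lm_add, lm_add, add_kronecker,
    kronecker_add]
  module

theorem cl_smul (ε c : R) (v : V → R) : cl ε (c • v) = c • cl ε v := by
  rw [cl, cl, show (c • v) ∘ Sum.inl = c • v ∘ Sum.inl from rfl,
    show (c • v) ∘ Sum.inr = c • v ∘ Sum.inr from rfl, lm_smul, lm_smul, smul_kronecker,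
    kronecker_smul]
  module

theorem cl_map {R' : Type} [CommRing R'] (φ : R →+* R') (ε : R) (v : V → R) :
    (cl ε v).map φ = cl (φ ε) (φ ∘ v) := by
  rw [cl, cl, Function.comp_assoc, Function.comp_assoc, ← lm_map, ← lm_map]
  ext i j
  simp [kroneckerMap_apply, one_apply, apply_ite φ]

theorem bq_self (v : V → R) : bq v v = qf v := by
  simp [bq, qf, eV, Fintype.sum_sum_type, sq, sub_eq_add_neg]

theorem bq_comm (v w : V → R) : bq v w = bq w v :=
  Finset.sum_congr rfl fun k _ => by ring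

theorem bq_lin (a b : R) (v w z : V → R) : bq (a • v + b • w) z = a * bq v z + b * bq w z := by
  simp only [bq, Finset.mul_sum, ← Finset.sum_add_distrib, Pi.add_apply, Pi.smul_apply, smul_eq_mul]
  exact Finset.sum_congr rfl fun k _ => by ring

theorem qf_add (v w : V → R) : qf (v + w) = qf v + qf w + 2 * bq v w := by
  simp only [← bq_self, bq, Finset.mul_sum, ← Finset.sum_add_distrib, Pi.add_apply]
  exact Finset.sum_congr rfl fun k _ => by ring

theorem cl_sq {ε : R} (h : ε * ε = 1) (v : V → R) :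
    cl ε v * cl (-ε) v = qf v • (1 : Matrix S S R) := by
  have e : qf v = (v ∘ Sum.inl) ⬝ᵥ (v ∘ Sum.inl) - (v ∘ Sum.inr) ⬝ᵥ (v ∘ Sum.inr) := by
    simp [qf, dotProduct, sq]
  simp only [cl, add_mul, mul_add, smul_mul_assoc, mul_smul_comm, ← mul_kronecker_mul, lm_sq,
    Matrix.mul_one, Matrix.one_mul, smul_kronecker, kronecker_smul, one_kronecker_one, e]
  linear_combination (norm := module) (h * ((v ∘ Sum.inl) ⬝ᵥ (v ∘ Sum.inl))) • (1 : Matrix S S R)

theorem cl_mul {ε : R} (h : ε * ε = 1) (v w : V → R) :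
    cl ε v * cl (-ε) w + cl ε w * cl (-ε) v = (2 * bq v w) • (1 : Matrix S S R) := by
  have k := cl_sq h (v + w)
  rw [cl_add, cl_add, add_mul, mul_add, mul_add, cl_sq h, cl_sq h, qf_add] at k
  linear_combination (norm := module) k

/-- Minus the reflection in a unit vector. -/
def sw (w : V → R) : Matrix V V R :=
  Matrix.of (fun i j => 2 * w i * (eV R j * w j)) - 1

theorem sw_vec (w z : V → R) : sw w *ᵥ z = (2 * bq w z) • w + (-1 : R) • z := by
  rw [sw, sub_mulVec, one_mulVec]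
  funext i
  simp only [mulVec, dotProduct, of_apply, bq, Pi.sub_apply, Pi.add_apply, Pi.smul_apply,
    smul_eq_mul, Finset.mul_sum, Finset.sum_mul, neg_one_mul, sub_eq_add_neg]
  exact congrArg (· + _) (Finset.sum_congr rfl fun k _ => by ring)

theorem key {ε : R} (h : ε * ε = 1) {w : V → R} (hw : qf w = 1) (z : V → R) :
    cl ε (sw w *ᵥ z) * cl (-ε) w = cl ε w * cl (-ε) z := by
  rw [sw_vec, cl_add, cl_smul, cl_smul, add_mul, smul_mul_assoc, smul_mul_assoc, cl_sq h, hw]
  linear_combination (norm := module) -cl_mul h w z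

theorem sw_iso {w : V → R} (hw : qf w = 1) (z z' : V → R) :
    bq (sw w *ᵥ z) (sw w *ᵥ z') = bq z z' := by
  rw [sw_vec, sw_vec, bq_lin, bq_comm w (_ + _), bq_comm z (_ + _), bq_lin, bq_lin, bq_self, hw,
    bq_comm z' w, bq_comm z' z]
  ring

theorem sw_sq {w : V → R} (hw : qf w = 1) : sw w * sw w = 1 := by
  refine Matrix.ext_iff_mulVec.2 fun z => ?_
  rw [← mulVec_mulVec, one_mulVec, sw_vec, sw_vec, bq_comm w (_ + _), bq_lin, bq_self, hw,
    bq_comm z w]
  module

theorem rel_gen {v w : V → R} (hv : qf v = 1) (hw : qf w = 1) :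
    Rel (cl 1 v * cl (-1) w) (cl 1 w * cl (-1) v) (sw w * sw v) (sw v * sw w) := by
  have p : (1 : R) * 1 = 1 := one_mul 1
  have n : (-1 : R) * -1 = 1 := by ring
  have a : ∀ {v w : V → R}, qf v = 1 → qf w = 1 →
      cl 1 v * cl (-1) w * (cl 1 w * cl (-1) v) = 1 := fun {v w} hv hw => by
    have := cl_sq n w
    rw [neg_neg] at this
    rw [mul_assoc, ← mul_assoc (cl (-1) w), this, hw, one_smul, one_mul, cl_sq p, hv, one_smul]
  have b : ∀ {v w : V → R}, qf v = 1 → qf w = 1 → sw w * sw v * (sw v * sw w) = 1 :=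
    fun {v w} hv hw => by rw [mul_assoc, ← mul_assoc (sw v), sw_sq hv, one_mul, sw_sq hw]
  have t : (cl 1 v * cl (-1) w)ᵀ = cl (-1) w * cl 1 v := by
    rw [transpose_mul, cl_t, cl_t, neg_mul_neg]
  have kn : ∀ {w : V → R}, qf w = 1 → ∀ z, cl (-1) (sw w *ᵥ z) * cl 1 w = cl (-1) w * cl 1 z :=
    fun hw z => by simpa only [neg_neg] using key n hw z
  refine ⟨a hv hw, a hw hv, fun z => ?_, fun z => ?_, fun z z' => ?_, b hv hw, b hw hv⟩
  · rw [t, ← mulVec_mulVec, ← mul_assoc, key p hw, mul_assoc, mul_assoc, kn hv]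
  · rw [t, ← mulVec_mulVec, ← mul_assoc, kn hw, mul_assoc, mul_assoc, key p hv]
  · rw [← mulVec_mulVec, ← mulVec_mulVec, sw_iso hw, sw_iso hv]

theorem rel (h : Matrix S S R) (hh : h ∈ Spin R) : ∃ k ρ ρ', Rel h k ρ ρ' := by
  induction hh using Submonoid.closure_induction with
  | mem h hh =>
    obtain ⟨v, w, hv, hw, rfl⟩ := hh
    exact ⟨_, _, _, rel_gen hv hw⟩
  | one => exact ⟨1, 1, 1, one_mul _, one_mul _, by simp, by simp, by simp, one_mul _, one_mul _⟩
  | mul h h' _ _ a b =>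
    obtain ⟨k, ρ, σ, a⟩ := a
    obtain ⟨k', ρ', σ', b⟩ := b
    refine ⟨k' * k, ρ' * ρ, σ * σ', ?_, ?_, fun z => ?_, fun z => ?_, fun z z' => ?_, ?_, ?_⟩
    · rw [mul_assoc, ← mul_assoc h', b.hk, one_mul, a.hk]
    · rw [mul_assoc, ← mul_assoc k, a.kh, one_mul, b.kh]
    · rw [mul_assoc, a.pos, ← mul_assoc, b.pos, mulVec_mulVec, transpose_mul, mul_assoc]
    · rw [transpose_mul, mul_assoc, a.neg, ← mul_assoc, b.neg, mulVec_mulVec, mul_assoc]
    · rw [← mulVec_mulVec, ← mulVec_mulVec, b.iso, a.iso]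
    · rw [mul_assoc, ← mul_assoc ρ, a.inv, one_mul, b.inv]
    · rw [mul_assoc, ← mul_assoc σ', b.inv', one_mul, a.inv']

theorem map {R' : Type} [CommRing R'] (φ : R →+* R') (h : Matrix S S R) (hh : h ∈ Spin R) :
    h.map φ ∈ Spin R' := by
  have q : ∀ v : V → R, qf v = 1 → qf (φ ∘ v) = 1 := fun v hv => by
    rw [← map_one φ, ← hv]; simp [qf]
  induction hh using Submonoid.closure_induction with
  | mem h hh =>
    obtain ⟨v, w, hv, hw, rfl⟩ := hh
    refine Submonoid.subset_closure ⟨φ ∘ v, φ ∘ w, q v hv, q w hw, ?_⟩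
    rw [Matrix.map_mul, cl_map, cl_map, map_neg, map_one]
  | one => rw [Matrix.map_one _ (map_zero φ) (map_one φ)]; exact one_mem _
  | mul h h' _ _ a b => rw [Matrix.map_mul]; exact mul_mem a b

end ClifX

theorem clifAPI : ClifAPI where
  lm_t _ _ := ClifX.lm_t
  lm_mul _ _ := ClifX.lm_mul
  lm_oe _ _ x y := by
    rw [ClifX.lm_vec]
    funext o
    cases o <;> simp [oe]
  cl_t _ _ := ClifX.cl_t
  cl_add _ _ := ClifX.cl_add
  cl_smul _ _ := ClifX.cl_smul
  cl_map _ _ _ _ := ClifX.cl_map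
  cl_mul _ _ v w := ⟨ClifX.cl_mul (one_mul 1) v w, by
    simpa only [neg_neg] using ClifX.cl_mul (ε := -1) (by ring) v w⟩
  cl_sq _ _ v := ⟨ClifX.cl_sq (one_mul 1) v, by
    simpa only [neg_neg] using ClifX.cl_sq (ε := -1) (by ring) v, ClifX.bq_self v⟩
  map _ _ _ _ := ClifX.map
  rel _ _ := ClifX.rel

end Pool.Agent.MP_d45d16_ag.Sp14
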