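import Pool.Agent.MP_d45d16_ag.sp.Spec
import Mathlib.LinearAlgebra.Matrix.Trace
import Mathlib.Algebra.BigOperators.Field
import Mathlib.LinearAlgebra.Matrix.NonsingularInverse

/-!
The data attached to a matrix are invariant under the spin group.
-/

set_option autoImplicit false

open Matrix

namespace Pool.Agent.MP_d45d16_ag.Sp14

open Yag

namespace CovX

variable {Ω : Type} [Field Ω]

theorem eV_sq (k : V) : eV Ω k * eV Ω k = 1 := by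
  cases k <;> simp [eV]

theorem lin_sum {W : Type} [AddCommGroup W] [Module Ω W] {f : (V → Ω) → W}
    (hf : IsLinearMap Ω f) (z : V → Ω) : f z = ∑ k, z k • f (Pi.single k 1) := by
  have e : z = ∑ k, z k • (Pi.single k 1 : V → Ω) := by
    ext j
    simp [Finset.sum_apply, Pi.single_apply]
  conv_lhs => rw [e]
  rw [← hf.mk'_apply, map_sum]
  simp only [map_smul, IsLinearMap.mk'_apply]

theorem lin_comp {f f' : (V → Ω) → V → Ω} (hf : IsLinearMap Ω f) (hf' : IsLinearMap Ω f') :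
    IsLinearMap Ω fun z => f (f' z) :=
  ⟨fun x y => by rw [hf'.map_add, hf.map_add], fun c x => by rw [hf'.map_smul, hf.map_smul]⟩

theorem trace_conj {f : (V → Ω) → V → Ω} (hf : IsLinearMap Ω f) (ρ ρ' : Matrix V V Ω)
    (h : ρ' * ρ = 1) :
    ∑ k, (ρ *ᵥ f (ρ' *ᵥ Pi.single k 1)) k = ∑ k, f (Pi.single k 1) k := by
  let M : Matrix V V Ω := LinearMap.toMatrix' (hf.mk' f)
  have hM : ∀ z, f z = M *ᵥ z := fun z => by
    rw [LinearMap.toMatrix'_mulVec]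
    rfl
  have e1 : ∀ N : Matrix V V Ω, ∑ k, (N *ᵥ Pi.single k 1) k = trace N := fun N => by
    simp [trace]
  simp only [hM, mulVec_mulVec, e1]
  rw [trace_mul_comm, Matrix.mul_assoc, h, Matrix.mul_one]

theorem bq_single (v : V → Ω) (k : V) : bq v (Pi.single k 1) = eV Ω k * v k := by
  simp [bq, Pi.single_apply]

theorem bq_ext {v w : V → Ω} (h : ∀ z, bq v z = bq w z) : v = w := by
  ext k
  have := congrArg (eV Ω k * ·) (h (Pi.single k 1))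
  simpa only [bq_single, ← mul_assoc, eV_sq, one_mul] using this

theorem cl_lin (hCl : ClifAPI) (ε : Ω) : IsLinearMap Ω (cl ε : (V → Ω) → Matrix S S Ω) :=
  ⟨hCl.cl_add Ω ε, fun c v => hCl.cl_smul Ω ε c v⟩

theorem bq_beta (hCl : ClifAPI) (u u' : S → Ω) (z : V → Ω) :
    bq (beta u u') z = u' ⬝ᵥ cl 1 z *ᵥ u := by
  rw [lin_sum (cl_lin hCl 1) z, sum_mulVec, dotProduct_sum, bq]
  refine Finset.sum_congr rfl fun k _ => ?_
  rw [smul_mulVec, dotProduct_smul, beta, smul_eq_mul]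
  linear_combination (z k * (u' ⬝ᵥ cl 1 (Pi.single k 1) *ᵥ u)) * eV_sq (Ω := Ω) k

theorem beta_add (u a b : S → Ω) : beta u (a + b) = beta u a + beta u b := by
  ext k
  simp only [beta, add_dotProduct, Pi.add_apply, mul_add]

theorem beta_smul (u a : S → Ω) (c : Ω) : beta u (c • a) = c • beta u a := by
  ext k
  simp only [beta, smul_dotProduct, Pi.smul_apply, smul_eq_mul]
  ring

theorem cr_lin2 (hCl : ClifAPI) (u : S → Ω) (v : V → Ω) : IsLinearMap Ω (cr u v) :=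
  ⟨fun x y => by simp only [cr, cc, hCl.cl_add, add_mulVec, mulVec_add, beta_add, neg_add],
    fun c x => by simp only [cr, cc, hCl.cl_smul, smul_mulVec, mulVec_smul, beta_smul, smul_neg]⟩

theorem cr_lin1 (hCl : ClifAPI) (u : S → Ω) (w : V → Ω) : IsLinearMap Ω fun v => cr u v w :=
  ⟨fun x y => by simp only [cr, cc, hCl.cl_add, add_mulVec, beta_add, neg_add],
    fun c x => by simp only [cr, cc, hCl.cl_smul, smul_mulVec, beta_smul, smul_neg]⟩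

theorem tt_lin2 (hCl : ClifAPI) (u : S → Ω) (v : V → Ω) : IsLinearMap Ω (tt u v) :=
  ⟨fun x y => by
    simp only [tt, (cr_lin1 hCl u _).map_add, (cr_lin2 hCl u v).map_add, Pi.add_apply,
      Finset.sum_add_distrib],
    fun c x => by
    simp only [tt, (cr_lin1 hCl u _).map_smul, (cr_lin2 hCl u v).map_smul, Pi.smul_apply,
      Finset.smul_sum]⟩

theorem tt_lin1 (hCl : ClifAPI) (u : S → Ω) (w : V → Ω) : IsLinearMap Ω fun v => tt u v w :=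
  ⟨fun x y => by
    simp only [tt, (cr_lin1 hCl u _).map_add, Pi.add_apply, Finset.sum_add_distrib],
    fun c x => by
    simp only [tt, (cr_lin1 hCl u _).map_smul, Pi.smul_apply, Finset.smul_sum]⟩

theorem TT_lin (hCl : ClifAPI) (u : S → Ω) : IsLinearMap Ω (TT u) :=
  ⟨fun x y => by
    ext k
    simp only [TT, (tt_lin1 hCl u _).map_add, Pi.add_apply]
    ring,
    fun c x => by
    ext k
    simp only [TT, (tt_lin1 hCl u _).map_smul, Pi.smul_apply, smul_eq_mul]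
    ring⟩

theorem bq_TT (hCl : ClifAPI) (u : S → Ω) (v w : V → Ω) : bq (TT u v) w = -tt u v w / 6 := by
  rw [lin_sum (tt_lin2 hCl u v) w, bq, ← Finset.sum_neg_distrib, Finset.sum_div]
  refine Finset.sum_congr rfl fun k _ => ?_
  rw [TT, smul_eq_mul]
  linear_combination (-(w k * tt u v (Pi.single k 1)) / 6) * eV_sq (Ω := Ω) k

variable {h k : Matrix S S Ω} {ρ ρ' : Matrix V V Ω}

theorem surj (R : Rel h k ρ ρ') (z : V → Ω) : ρ *ᵥ ρ' *ᵥ z = z := by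
  rw [mulVec_mulVec, R.inv, one_mulVec]

theorem eq_rho (R : Rel h k ρ ρ') {a b : V → Ω} (H : ∀ z, bq a (ρ *ᵥ z) = bq b z) :
    a = ρ *ᵥ b := by
  refine bq_ext fun z => ?_
  rw [← surj R z, H, R.iso]

theorem beta_cov (hCl : ClifAPI) (R : Rel h k ρ ρ') (u u' : S → Ω) :
    beta (hᵀ *ᵥ u) (hᵀ *ᵥ u') = ρ *ᵥ beta u u' := by
  refine eq_rho R fun z => ?_
  rw [bq_beta hCl, bq_beta hCl, mulVec_mulVec, ← R.pos, mulVec_transpose, ← dotProduct_mulVec,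
    mulVec_mulVec, ← Matrix.mul_assoc, R.hk, Matrix.one_mul]

theorem cc_cov (R : Rel h k ρ ρ') (u : S → Ω) (v w : V → Ω) :
    cc (hᵀ *ᵥ u) (ρ *ᵥ v) (ρ *ᵥ w) = hᵀ *ᵥ cc u v w := by
  simp only [cc, mulVec_mulVec]
  rw [← R.pos, ← Matrix.mul_assoc, ← R.neg, Matrix.mul_assoc]

theorem cr_cov (hCl : ClifAPI) (R : Rel h k ρ ρ') (u : S → Ω) (v w : V → Ω) :
    cr (hᵀ *ᵥ u) (ρ *ᵥ v) (ρ *ᵥ w) = ρ *ᵥ cr u v w := by
  rw [cr, cc_cov R, beta_cov hCl R, cr, mulVec_neg]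

theorem tt_cov (hCl : ClifAPI) (R : Rel h k ρ ρ') (u : S → Ω) (v w : V → Ω) :
    tt (hᵀ *ᵥ u) (ρ *ᵥ v) (ρ *ᵥ w) = tt u v w := by
  rw [tt, tt, ← trace_conj (lin_comp (cr_lin2 hCl u v) (cr_lin2 hCl u w)) ρ ρ' R.inv']
  refine Finset.sum_congr rfl fun j _ => ?_
  rw [← cr_cov hCl R, ← cr_cov hCl R, surj R]

theorem TT_cov (hCl : ClifAPI) (R : Rel h k ρ ρ') (u : S → Ω) (v : V → Ω) :
    TT (hᵀ *ᵥ u) (ρ *ᵥ v) = ρ *ᵥ TT u v := by
  refine eq_rho R fun z => ?_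
  rw [bq_TT hCl, bq_TT hCl, tt_cov hCl R]

theorem dd_cov (hCl : ClifAPI) (R : Rel h k ρ ρ') (u : S → Ω) : dd (hᵀ *ᵥ u) = dd u := by
  rw [dd, dd, ← trace_conj (lin_comp (TT_lin hCl u) (TT_lin hCl u)) ρ ρ' R.inv']
  refine congrArg (· / 14) (Finset.sum_congr rfl fun j _ => ?_)
  rw [← TT_cov hCl R, ← TT_cov hCl R, surj R]

theorem DD_cov (hCl : ClifAPI) (R : Rel h k ρ ρ') (u : S → Ω) (v w z : V → Ω) :
    DD (hᵀ *ᵥ u) (ρ *ᵥ v) (ρ *ᵥ w) (ρ *ᵥ z) = ρ *ᵥ DD u v w z := by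
  simp only [DD, TT_cov hCl R, R.iso, mulVec_smul, mulVec_add]

theorem G1_cov (hCl : ClifAPI) (R : Rel h k ρ ρ') (u : S → Ω) (a v : V → Ω) :
    G1 (hᵀ *ᵥ u) (ρ *ᵥ a) (ρ *ᵥ v) = ρ *ᵥ G1 u a v := by
  simp only [G1, DD_cov hCl R, mulVec_sub]

theorem G2_cov (hCl : ClifAPI) (R : Rel h k ρ ρ') (u : S → Ω) (a b v : V → Ω) :
    G2' (hᵀ *ᵥ u) (ρ *ᵥ a) (ρ *ᵥ b) (ρ *ᵥ v) = ρ *ᵥ G2' u a b v := by
  simp only [G2', DD_cov hCl R, cr_cov hCl R, mulVec_sub]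

theorem sevV_cov (hCl : ClifAPI) (R : Rel h k ρ ρ') (u : S → Ω) (a b c : V → Ω) (j : Fin 7) :
    sevV (hᵀ *ᵥ u) (ρ *ᵥ a) (ρ *ᵥ b) (ρ *ᵥ c) j = ρ *ᵥ sevV u a b c j := by
  simp only [sevV, cr_cov hCl R]
  fin_cases j <;> rfl

theorem row_mul (g h : Matrix S S Ω) (p : S) : (g * h) p = hᵀ *ᵥ g p := by
  ext j
  simp [Matrix.mul_apply, mulVec, dotProduct, mul_comm]

theorem vv_cov (hCl : ClifAPI) (R : Rel h k ρ ρ') (g : Matrix S S Ω) (p : S) :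
    vv (g * h) p = ρ *ᵥ vv g p := by
  rw [vv, row_mul, row_mul, beta_cov hCl R, vv]

theorem ff_cov (hCl : ClifAPI) (R : Rel h k ρ ρ') (g : Matrix S S Ω) (j : Fin 7) :
    ff (g * h) j = ρ *ᵥ ff g j := by
  rw [ff, frV, vv_cov hCl R, vv_cov hCl R, vv_cov hCl R, row_mul, G1_cov hCl R, G2_cov hCl R,
    sevV_cov hCl R, ff, frV]

theorem inv_cov (R : Rel h k ρ ρ') (g : Matrix S S Ω) (x : S → Ω) :
    (hᵀ *ᵥ x) ᵥ* (g * h)⁻¹ = x ᵥ* g⁻¹ := by
  rw [Matrix.mul_inv_rev, Matrix.inv_eq_right_inv R.hk, mulVec_transpose, vecMul_vecMul,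
    ← Matrix.mul_assoc, R.hk, Matrix.one_mul]

theorem tri_cov (R : Rel h k ρ ρ') (a b c : V → Ω) :
    h * (cl 1 (ρ *ᵥ a) * cl (-1) (ρ *ᵥ b) * cl 1 (ρ *ᵥ c)) * hᵀ =
      cl 1 a * cl (-1) b * cl 1 c := by
  calc _ = h * (cl 1 (ρ *ᵥ a) * (cl (-1) (ρ *ᵥ b) * (cl 1 (ρ *ᵥ c) * hᵀ))) := by
        simp only [Matrix.mul_assoc]
    _ = h * (cl 1 (ρ *ᵥ a) * (cl (-1) (ρ *ᵥ b) * k * cl 1 c)) := by
        rw [← R.pos, Matrix.mul_assoc (cl (-1) (ρ *ᵥ b))]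
    _ = h * (cl 1 (ρ *ᵥ a) * hᵀ * (cl (-1) b * cl 1 c)) := by
        rw [← R.neg]
        simp only [Matrix.mul_assoc]
    _ = h * k * (cl 1 a * cl (-1) b * cl 1 c) := by
        rw [← R.pos]
        simp only [Matrix.mul_assoc]
    _ = _ := by rw [R.hk, Matrix.one_mul]

end CovX

open CovX in
theorem cov_stmt (hCl : ClifAPI) : CovStmt := by
  intro Ω _ _ g h k ρ ρ' R
  refine ⟨?_, fun j => ?_, fun j => ?_, fun j m i => ?_, fun j m i => ?_, fun p q r i j => ?_⟩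
  · rw [RingHom.id_apply, row_mul, dd_cov hCl R]
  · rw [RingHom.id_apply, da, da, row_mul, ff_cov hCl R, TT_cov hCl R, R.iso]
  · rw [RingHom.id_apply, db, db, ff_cov hCl R, R.iso]
  · rw [RingHom.id_apply, dP, dP, row_mul, ff_cov hCl R, ff_cov hCl R, TT_cov hCl R, TT_cov hCl R,
      cc_cov R, cc_cov R, dd_cov hCl R, ← mulVec_smul, ← mulVec_sub, inv_cov R]
  · rw [RingHom.id_apply, dQ, dQ, row_mul, ff_cov hCl R, ff_cov hCl R, TT_cov hCl R, TT_cov hCl R,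
      cc_cov R, cc_cov R, ← mulVec_sub, inv_cov R]
  · rw [RingHom.id_apply, dM, dM, vv_cov hCl R, vv_cov hCl R, vv_cov hCl R,
      ← tri_cov R (vv g p) (vv g q) (vv g r), transpose_mul]
    simp only [Matrix.mul_assoc]

end Pool.Agent.MP_d45d16_ag.Sp14
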