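import Pool.Agent.MP_d45d16_ag.sp.Spec

/-!
The push-forward cycle along the quotient by the row signs.
-/

set_option autoImplicit false

open MvPolynomial Filter

namespace Pool.Agent.MP_d45d16_ag.Sp14

open Yag

namespace CydX

theorem len_colon (hL : LenAPI) {A B : Type} [CommRing A] [CommRing B] [Algebra A B]
    (I : Ideal B) (f : B) (s : PrimeSpectrum A) :
    lenAt s (B ⧸ I) = lenAt s (B ⧸ (I ⊔ Ideal.span {f})) + lenAt s (B ⧸ I.colon {f}) := by
  let φ : (B ⧸ I.colon {f}) →ₗ[B] (B ⧸ I) :=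
    (I.colon {f}).mapQ I (LinearMap.mulRight B f) (fun x hx => by
      simpa [Submodule.mem_colon_singleton] using hx)
  let ψ : (B ⧸ I) →ₗ[B] (B ⧸ (I ⊔ Ideal.span {f})) :=
    Submodule.mapQ I (I ⊔ Ideal.span {f}) LinearMap.id le_sup_left
  have hφ : ∀ x : B, φ (Ideal.Quotient.mk _ x) = Ideal.Quotient.mk I (x * f) := fun _ => rfl
  have hψ : ∀ x : B, ψ (Ideal.Quotient.mk _ x) = Ideal.Quotient.mk _ x := fun _ => rfl
  rw [add_comm]
  refine hL.exact A _ _ _ s (φ.restrictScalars A) (ψ.restrictScalars A) ?_ ?_ ?_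
  · rw [injective_iff_map_eq_zero]
    intro x hx
    obtain ⟨x, rfl⟩ := Ideal.Quotient.mk_surjective x
    rw [LinearMap.restrictScalars_apply, hφ, Ideal.Quotient.eq_zero_iff_mem] at hx
    rw [Ideal.Quotient.eq_zero_iff_mem]
    simpa [Submodule.mem_colon_singleton] using hx
  · intro y
    obtain ⟨y, rfl⟩ := Ideal.Quotient.mk_surjective y
    exact ⟨Ideal.Quotient.mk _ y, rfl⟩
  · intro y
    obtain ⟨y, rfl⟩ := Ideal.Quotient.mk_surjective y
    rw [LinearMap.restrictScalars_apply, hψ, Ideal.Quotient.eq_zero_iff_mem]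
    constructor
    · intro hy
      obtain ⟨a, ha, b, hb, rfl⟩ := Submodule.mem_sup.mp hy
      obtain ⟨c, rfl⟩ := Ideal.mem_span_singleton'.mp hb
      refine ⟨Ideal.Quotient.mk _ c, ?_⟩
      rw [LinearMap.restrictScalars_apply, hφ, map_add, Ideal.Quotient.eq_zero_iff_mem.mpr ha,
        zero_add]
    · rintro ⟨x, hx⟩
      obtain ⟨x, rfl⟩ := Ideal.Quotient.mk_surjective x
      rw [LinearMap.restrictScalars_apply, hφ, Ideal.Quotient.eq] at hx
      have : y = -(x * f - y) + x * f := by ring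
      rw [this]
      exact Submodule.add_mem_sup (I.neg_mem hx) (Ideal.mem_span_singleton'.mpr ⟨x, rfl⟩)

theorem len_loc (hL : LenAPI) {A B : Type} [CommRing A] [CommRing B] [Algebra A B]
    (I I' : Ideal B) (s : PrimeSpectrum A) (u : A) (h : I ≤ I') (hu : u ∉ s.asIdeal)
    (hf : ∀ f ∈ I', algebraMap A B u * f ∈ I) : lenAt s (B ⧸ I) = lenAt s (B ⧸ I') := by
  let ψ : (B ⧸ I) →ₗ[B] (B ⧸ I') := Submodule.mapQ I I' LinearMap.id h
  have hψ : ∀ x : B, ψ (Ideal.Quotient.mk _ x) = Ideal.Quotient.mk _ x := fun _ => rfl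
  have h1 : (1 : A) ∉ s.asIdeal := (Ideal.ne_top_iff_one _).mp s.isPrime.ne_top
  refine hL.loc A A _ _ (RingHom.id A) (ψ.restrictScalars A) s s rfl
    (fun x => ⟨1, x, h1, by simp⟩) ?_ ?_
  · intro m
    obtain ⟨y, rfl⟩ := Ideal.Quotient.mk_surjective m
    exact ⟨1, Ideal.Quotient.mk _ y, h1, by rw [map_one, one_smul]; rfl⟩
  · intro n hn
    obtain ⟨y, rfl⟩ := Ideal.Quotient.mk_surjective n
    rw [LinearMap.restrictScalars_apply, hψ, Ideal.Quotient.eq_zero_iff_mem] at hn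
    refine ⟨u, hu, ?_⟩
    rw [Algebra.smul_def, ← Ideal.Quotient.mk_algebraMap, ← map_mul,
      Ideal.Quotient.eq_zero_iff_mem]
    exact hf y hn

theorem kill {A B : Type} [CommRing A] [CommRing B] [Algebra A B] (I : Ideal B) (u : A)
    (hu : algebraMap A B u ∈ I) (z : B ⧸ I) : u • z = 0 := by
  rw [Algebra.smul_def, ← Ideal.Quotient.mk_algebraMap, Ideal.Quotient.eq_zero_iff_mem.mpr hu,
    zero_mul]

theorem fin (ρ γ R : Type) [Finite ρ] [Finite γ] [CommRing R] :
    Module.Finite (By (ρ × γ × γ) R) (By (ρ × γ) R) := by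
  have : IsScalarTower R (By (ρ × γ × γ) R) (By (ρ × γ) R) :=
    IsScalarTower.of_algebraMap_eq fun r => ((nu ρ γ R).commutes r).symm
  have : Algebra.FiniteType (By (ρ × γ × γ) R) (By (ρ × γ) R) :=
    Algebra.FiniteType.of_restrictScalars_finiteType R _ _
  have : Algebra.IsIntegral (By (ρ × γ × γ) R) (By (ρ × γ) R) := by
    refine ⟨fun f => ?_⟩
    induction f using MvPolynomial.induction_on with
    | C r =>
      have : (C r : By (ρ × γ) R) = algebraMap (By (ρ × γ × γ) R) _ (C r) := by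
        rw [algNu_apply]
        exact ((nu ρ γ R).commutes r).symm
      rw [this]
      exact isIntegral_algebraMap
    | add p q hp hq => exact hp.add hq
    | mul_X p v hp =>
      refine hp.mul (IsIntegral.of_pow (n := 2) (by omega) ?_)
      have : (X v : By (ρ × γ) R) ^ 2 =
          algebraMap (By (ρ × γ × γ) R) _ (X (v.1, v.2, v.2)) := by
        rw [algNu_apply, nu, aeval_X, sq]
      rw [this]
      exact isIntegral_algebraMap
  exact Algebra.IsIntegral.finite

theorem isW (σ : Type) : IsW (yw σ) := fun _ => Or.inr rfl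

theorem weight_fst {σ : Type} (s : σ →₀ ℕ) : (Finsupp.weight (yw σ) s).1 = 0 := by
  rw [Finsupp.weight_apply, Finsupp.sum, Prod.fst_sum]
  simp [yw]

variable {ρ γ K : Type} [Field K]

theorem nu_hom (hM : ModAPI) {f : By (ρ × γ × γ) K} {n : ℕ} (h : f.IsHomogeneous n) :
    IsWeightedHomogeneous (yw (ρ × γ)) (nu ρ γ K f) (0, 2 * n) := by
  rw [hM.yw_iff]
  exact h.aeval _ fun y => (isHomogeneous_X K _).mul (isHomogeneous_X K _)

theorem nu_comp (hM : ModAPI) (f : By (ρ × γ × γ) K) (n : ℕ) :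
    nu ρ γ K (weightedHomogeneousComponent (yw _) (0, n) f) =
      weightedHomogeneousComponent (yw _) (0, 2 * n) (nu ρ γ K f) := by
  classical
  induction f using MvPolynomial.induction_on' with
  | monomial s r =>
    have h := isWeightedHomogeneous_monomial (yw (ρ × γ × γ)) s r rfl
    have e : Finsupp.weight (yw (ρ × γ × γ)) s = (0, (Finsupp.weight (yw (ρ × γ × γ)) s).2) :=
      Prod.ext (weight_fst s) rfl
    rw [e] at h
    have h' := nu_hom hM ((hM.yw_iff _ _ _ _).mp h)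
    rw [weightedHomogeneousComponent_of_mem h, weightedHomogeneousComponent_of_mem h']
    by_cases hn : n = (Finsupp.weight (yw (ρ × γ × γ)) s).2
    · rw [if_pos (by rw [hn]), if_pos (by rw [hn])]
    · rw [if_neg (fun h => hn (congrArg Prod.snd h)),
        if_neg (fun h => hn (by have := congrArg Prod.snd h; simp only at this; omega)), map_zero]
  | add p q hp hq => rw [map_add, map_add, hp, hq, map_add, map_add]

theorem contr [Finite ρ] [Finite γ] (hH : HfAPI) (hM : ModAPI) (I : Ideal (By (ρ × γ) K))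
    (hI : IsHom (yw (ρ × γ)) I) : IsHom (yw (ρ × γ × γ)) (I.comap (nu ρ γ K)) ∧
      (∀ n, hf (yw (ρ × γ × γ)) (I.comap (nu ρ γ K)) (0, n) ≤ hf (yw (ρ × γ)) I (0, 2 * n)) ∧
      (Lin (yw (ρ × γ)) I → Lin (yw (ρ × γ × γ)) (I.comap (nu ρ γ K))) := by
  have h2 : ∀ n, hf (yw (ρ × γ × γ)) (I.comap (nu ρ γ K)) (0, n) ≤
      hf (yw (ρ × γ)) I (0, 2 * n) := by
    intro n
    refine hM.le _ K _ _ ((Ideal.Quotient.mkₐ K I).toLinearMap ∘ₗ (nu ρ γ K).toLinearMap) _ n
      ?_ ?_ ?_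
    · have e : weightedHomogeneousSubmodule K (yw (ρ × γ)) (0, 2 * n) =
          homogeneousSubmodule (ρ × γ) K (2 * n) := by
        ext f
        exact hM.yw_iff _ _ _ _
      rw [e]
      exact Module.Finite.iff_fg.mpr ((homogeneousSubmodule_fg _ _ _).map _)
    · intro f h
      exact ⟨_, nu_hom hM h, rfl⟩
    · intro f _ h
      exact (Ideal.Quotient.eq_zero_iff_mem (I := I) (a := nu ρ γ K f)).mp h
  refine ⟨?_, h2, ?_⟩
  · rintro f h ⟨d, n⟩
    cases d with
    | zero =>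
      rw [Ideal.mem_comap, nu_comp hM]
      exact hI _ h _
    | succ d =>
      rw [weightedHomogeneousComponent_eq_zero']
      · exact Submodule.zero_mem _
      · intro s _ hs
        have := weight_fst s
        rw [hs] at this
        simp at this
  · rintro ⟨c, hc⟩
    refine ⟨2 * c, fun d n => ?_⟩
    cases d with
    | zero =>
      refine (h2 n).trans ((hc 0 _).trans ?_)
      nlinarith
    | succ d =>
      rw [hH.ypos]
      exact Nat.zero_le _

theorem lin_mono {σ : Type} [Finite σ] (hH : HfAPI) {I J : Ideal (By σ K)} (h : I ≤ J)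
    (hI : Lin (yw σ) I) : Lin (yw σ) J := by
  obtain ⟨c, hc⟩ := hI
  exact ⟨c, fun d n => (hH.mono _ _ _ _ _ _ (isW σ) h).trans (hc d n)⟩

theorem len_zero (hL : LenAPI) (I : Ideal (By (ρ × γ) K)) (s : PrimeSpectrum (By (ρ × γ × γ) K))
    (u : By (ρ × γ × γ) K) (hu : u ∉ s.asIdeal) (h : nu ρ γ K u ∈ I) : lenD I s = 0 :=
  (hL.zero _ _ s).mpr fun m => ⟨u, hu, kill I u h m⟩

theorem min_of [Finite ρ] [Finite γ] (hL : LenAPI) (hH : HfAPI) (hM : ModAPI)
    {I : Ideal (By (ρ × γ) K)} (hI : IsHom (yw (ρ × γ)) I) (hl : Lin (yw (ρ × γ)) I)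
    {s : PrimeSpectrum (By (ρ × γ × γ) K)} (hs : Crv s) (h0 : lenD I s ≠ 0) :
    s.asIdeal ∈ (I.comap (nu ρ γ K)).minimalPrimes := by
  obtain ⟨h1, _, h3⟩ := contr hH hM I hI
  have hle : I.comap (nu ρ γ K) ≤ s.asIdeal := by
    intro u hu
    by_contra h
    exact h0 (len_zero hL I s u h hu)
  have := s.isPrime
  obtain ⟨q, hq, hqs⟩ := Ideal.exists_minimalPrimes_le hle
  rw [← hH.rigid _ _ _ s.asIdeal q (isW _) hs.1 (hH.min _ _ _ _ _ h1 hq) s.isPrime hq.1.1 hqs
    (lin_mono hH hq.1.2 (h3 hl)) hs.2 (Or.inr fun _ => rfl)]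
  exact hq

theorem spec [Finite ρ] [Finite γ] (hL : LenAPI) (hH : HfAPI) (hM : ModAPI)
    {I : Ideal (By (ρ × γ) K)} (hI : IsHom (yw (ρ × γ)) I) (hl : Lin (yw (ρ × γ)) I) :
    IsCycD I (cycD I) := by
  classical
  have hfin : ∀ s, Crv s → lenD I s ≠ ⊤ := by
    intro s hs
    by_cases h0 : lenD I s = 0
    · rw [h0]
      exact ENat.zero_ne_top
    have hmin := min_of hL hH hM hI hl hs h0
    have := fin ρ γ K
    have : Module.Finite (By (ρ × γ × γ) K) (By (ρ × γ) K ⧸ I) :=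
      Module.Finite.trans (By (ρ × γ) K) _
    refine hL.fin _ _ s (I.comap (nu ρ γ K)) (fun x hx z => kill I x hx z) ?_
    intro q h1 h2
    exact PrimeSpectrum.ext (le_antisymm h2 (hmin.2 ⟨q.isPrime, h1⟩ h2))
  have hsupp : (Function.support fun s : PrimeSpectrum (By (ρ × γ × γ) K) =>
      if Crv s then (lenD I s).toNat else 0).Finite := by
    refine ((Ideal.finite_minimalPrimes_of_isNoetherianRing _ (I.comap (nu ρ γ K))).preimage
      (f := PrimeSpectrum.asIdeal) (fun _ _ _ _ h => PrimeSpectrum.ext h)).subset ?_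
    intro s hs
    rw [Function.mem_support] at hs
    by_cases h : Crv s
    · rw [if_pos h] at hs
      exact min_of hL hH hM hI hl h fun h0 => hs (by rw [h0]; rfl)
    · exact absurd (if_neg h) hs
  have hex : ∃ m, IsCycD I m := by
    refine ⟨Finsupp.ofSupportFinite _ hsupp, ?_, ?_⟩
    · intro s hs
      rw [Finsupp.mem_support_iff, Finsupp.ofSupportFinite_coe] at hs
      by_contra h
      exact hs (if_neg h)
    · intro s hs
      rw [Finsupp.ofSupportFinite_coe, if_pos hs, ENat.natCast_toNat (hfin s hs)]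
  rw [cycD, dif_pos hex]
  exact hex.choose_spec

theorem cyc_ext {m m' : PrimeSpectrum (By (ρ × γ × γ) K) →₀ ℕ} (h : ∀ s ∈ m.support, Crv s)
    (h' : ∀ s, ¬ Crv s → m' s = 0) (e : ∀ s, Crv s → (m s : ℕ∞) = m' s) : m = m' := by
  ext s
  by_cases hs : Crv s
  · exact_mod_cast e s hs
  · rw [h' s hs]
    by_contra h0
    exact hs (h s (Finsupp.mem_support_iff.mpr h0))

theorem off {I : Ideal (By (ρ × γ) K)} {m : PrimeSpectrum (By (ρ × γ × γ) K) →₀ ℕ}
    (h : IsCycD I m) (s : PrimeSpectrum (By (ρ × γ × γ) K)) (hs : ¬ Crv s) : m s = 0 := by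
  by_contra h0
  exact hs (h.1 s (Finsupp.mem_support_iff.mpr h0))

theorem avoid [Finite ρ] [Finite γ] (hH : HfAPI) (hM : ModAPI) {b : Ideal (By (ρ × γ) K)}
    (hb : IsHom (yw (ρ × γ)) b) (hu : ¬ Unb (yw (ρ × γ)) b)
    {s : PrimeSpectrum (By (ρ × γ × γ) K)} (hs : Crv s) :
    ∃ u ∉ s.asIdeal, nu ρ γ K u ∈ b := by
  by_contra h
  push Not at h
  apply hu
  intro c
  obtain ⟨n, hn⟩ := hs.2 c
  refine ⟨2 * n, hn.trans_le ((hH.mono _ _ _ _ _ _ (isW _) ?_).trans ((contr hH hM b hb).2.1 n))⟩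
  intro u hu
  by_contra h1
  exact h u h1 hu

end CydX

open CydX in
theorem cydAPI (hL : LenAPI) (hH : HfAPI) (hM : ModAPI) : CydAPI where
  fin := CydX.fin
  contr := fun _ _ _ _ _ _ I hI => CydX.contr hH hM I hI
  spec := fun _ _ _ _ _ _ I hI hl => by
    have h := CydX.spec hL hH hM hI hl
    refine ⟨h, fun s hs => min_of hL hH hM hI hl (h.1 s hs) ?_⟩
    rw [h.2 s (h.1 s hs)]
    exact_mod_cast Finsupp.mem_support_iff.mp hs
  lie := fun ρ γ K _ _ _ I hI hl s hs => by
    have h := CydX.spec hL hH hM hI hl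
    have h1 := min_of hL hH hM hI hl (h.1 s hs) (by
      rw [h.2 s (h.1 s hs)]
      exact_mod_cast Finsupp.mem_support_iff.mp hs)
    obtain ⟨p, hp, e⟩ := Ideal.exists_minimalPrimes_comap_eq (nu ρ γ K).toRingHom _ h1
    exact ⟨p, hp.1.1, hH.min _ _ _ _ _ hI hp, hp.1.2, e⟩
  len_add := fun _ _ _ _ I f s => len_colon hL I f s
  loc := fun _ _ _ _ I I' s u h hu hf => len_loc hL I I' s u h hu hf
  add := fun _ _ _ _ _ _ I f m hI hl hf => by
    have h := CydX.spec hL hH hM hI hl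
    have h1 := CydX.spec hL hH hM (hH.sup _ _ _ I f m hI hf) (lin_mono hH le_sup_left hl)
    have h2 := CydX.spec hL hH hM (hH.colon _ _ _ I f m hI hf) (lin_mono hH (fun x hx => by
      rw [Submodule.mem_colon_singleton]
      exact I.mul_mem_right _ hx) hl)
    refine cyc_ext h.1 (fun s hs => by rw [Finsupp.add_apply, off h1 s hs, off h2 s hs]) ?_
    intro s hs
    rw [Finsupp.add_apply, Nat.cast_add, ← h.2 s hs, ← h1.2 s hs, ← h2.2 s hs]
    exact len_colon hL I f s
  zero := fun _ _ _ _ _ _ I hI hl hu => by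
    have h := CydX.spec hL hH hM hI hl
    refine cyc_ext h.1 (fun _ _ => rfl) fun s hs => ?_
    obtain ⟨u, h1, h2⟩ := avoid hH hM hI hu hs
    rw [← h.2 s hs, len_zero hL I s u h1 h2]
    rfl
  sat := fun _ _ _ _ _ _ I I' b hI hl hI' hb hu hle hm => by
    have h := CydX.spec hL hH hM hI hl
    have h' := CydX.spec hL hH hM hI' (lin_mono hH hle hl)
    refine cyc_ext h.1 (off h') fun s hs => ?_
    obtain ⟨u, h1, h2⟩ := avoid hH hM hb hu hs
    rw [← h.2 s hs, ← h'.2 s hs]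
    exact len_loc hL I I' s u hle h1 fun f hf => hm (Ideal.mul_mem_mul h2 hf)
  inf := fun ρ γ K _ _ _ I J hI hJ hl hu => by
    obtain ⟨h3, h4, _⟩ := hM.inf _ _ _ I J (isW _) hI hJ
    have h := CydX.spec hL hH hM h3 hl
    have h1 := CydX.spec hL hH hM hI (lin_mono hH inf_le_left hl)
    have h2 := CydX.spec hL hH hM hJ (lin_mono hH inf_le_right hl)
    refine cyc_ext h.1 (fun s hs => by rw [Finsupp.add_apply, off h1 s hs, off h2 s hs]) ?_
    intro s hs
    obtain ⟨u, hu1, hu2⟩ := avoid hH hM h4 hu hs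
    obtain ⟨a, ha, b, hb, hab⟩ := Submodule.mem_sup.mp hu2
    rw [Finsupp.add_apply, Nat.cast_add, ← h.2 s hs, ← h1.2 s hs, ← h2.2 s hs]
    refine (len_colon hL (I ⊓ J) a s).trans ?_
    congr 1
    · refine len_loc hL _ I s u (sup_le inf_le_left ((Ideal.span_singleton_le_iff_mem _).mpr ha))
        hu1 fun g hg => ?_
      rw [algNu_apply, ← hab, add_mul, add_comm]
      exact Submodule.add_mem_sup ⟨I.mul_mem_left _ hg, J.mul_mem_right _ hb⟩
        (Ideal.mem_span_singleton'.mpr ⟨g, mul_comm _ _⟩)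
    · refine (len_loc hL J _ s u (fun g hg => ?_) hu1 fun g hg => ?_).symm
      · rw [Submodule.mem_colon_singleton]
        exact ⟨I.mul_mem_left _ ha, J.mul_mem_right _ hg⟩
      · rw [Submodule.mem_colon_singleton] at hg
        rw [algNu_apply, ← hab, add_mul, mul_comm a]
        exact J.add_mem hg.2 (J.mul_mem_right _ hb)

end Pool.Agent.MP_d45d16_ag.Sp14
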