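import Pool.Agent.MP_d45d16_ag.sp.Spec

/-!
Putting the first point equal to a coordinate point.
-/

set_option autoImplicit false

open MvPolynomial Filter

namespace Pool.Agent.MP_d45d16_ag.Sp14

open Yag

namespace DhX

/-- Induction on weighted homogeneous polynomials, one variable at a time. -/
theorem hind {σ R : Type} [CommRing R] (w : σ → ℕ × ℕ)
    (P : ℕ × ℕ → MvPolynomial σ R → Prop) (hC : ∀ c, P 0 (C c))
    (hX : ∀ m f v, P m f → P (m + w v) (f * X v)) (h0 : ∀ m, P m 0)
    (hadd : ∀ m f g, P m f → P m g → P m (f + g)) (m : ℕ × ℕ) (f : MvPolynomial σ R)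
    (hf : IsWeightedHomogeneous w f m) : P m f := by
  have key : ∀ (d : σ →₀ ℕ) (c : R), P (Finsupp.weight w d) (monomial d c) := by
    intro d c
    induction d using Finsupp.induction with
    | zero => simpa using hC c
    | single_add a b g _ _ ih =>
      clear * - ih hX
      induction b with
      | zero => simpa using ih
      | succ b ihb =>
        have h1 : (monomial (Finsupp.single a (b + 1) + g) c : MvPolynomial σ R) =
            monomial (Finsupp.single a b + g) c * X a := by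
          rw [X, monomial_mul, mul_one, Finsupp.single_add]
          congr 2
          abel
        have h2 : Finsupp.weight w (Finsupp.single a (b + 1) + g) =
            Finsupp.weight w (Finsupp.single a b + g) + w a := by
          rw [Finsupp.single_add, map_add, map_add, map_add, Finsupp.weight_single w a 1]
          simp only [one_smul]
          abel
        rw [h1, h2]
        exact hX _ _ _ ihb
  induction hf using IsWeightedHomogeneous.induction_on with
  | zero => exact h0 m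
  | add p q _ _ hp hq => exact hadd _ _ _ hp hq
  | monomial d r hr => exact hr ▸ key d r

/-- A property closed under sums passes from the homogeneous elements to all elements. -/
theorem sumind {σ R : Type} [CommRing R] {w : σ → ℕ × ℕ} {J : Ideal (MvPolynomial σ R)}
    (hJ : IsHom w J) (P : MvPolynomial σ R → Prop) (h0 : P 0)
    (hadd : ∀ f g, P f → P g → P (f + g))
    (hh : ∀ f m, f ∈ J → IsWeightedHomogeneous w f m → P f) (f : MvPolynomial σ R) (hf : f ∈ J) :
    P f := by
  rw [← sum_weightedHomogeneousComponent w f,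
    finsum_eq_sum _ (weightedHomogeneousComponent_finsupp f)]
  refine Finset.sum_induction _ P hadd h0 fun m _ => ?_
  exact hh _ m (hJ f hf m) (weightedHomogeneousComponent_isWeightedHomogeneous m f)

section Ring

variable {ι R : Type} [DecidableEq ι] [CommRing R] (i₀ : ι)

theorem dh_inl (i : ι) : dh R i₀ (X (Sum.inl i)) = (Pi.single i₀ 1 : ι → By ι R) i := by
  simp [dh]

theorem dh_x0 : dh R i₀ (X (Sum.inl i₀)) = 1 := by simp [dh]

theorem dh_ne {i : ι} (h : i ≠ i₀) : dh R i₀ (X (Sum.inl i)) = 0 := by simp [dh, h]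

theorem dh_inr (j : ι) : dh R i₀ (X (Sum.inr j)) = X j := by simp [dh]

theorem dh_ren (f : By ι R) : dh R i₀ (rename Sum.inr f) = f := by
  have h : (dh R i₀).comp (rename Sum.inr) = AlgHom.id R (By ι R) := by
    apply MvPolynomial.algHom_ext
    intro j
    simp [dh_inr]
  exact DFunLike.congr_fun h f

theorem dh_surj : Function.Surjective (dh R i₀) := fun f => ⟨_, dh_ren i₀ f⟩

theorem deg (f : Pxy ι R) (m : ℕ × ℕ) (hf : IsWeightedHomogeneous (bw ι) f m) :
    IsWeightedHomogeneous (yw ι) (dh R i₀ f) (0, m.2) := by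
  refine hind (bw ι) (fun m f => IsWeightedHomogeneous (yw ι) (dh R i₀ f) (0, m.2)) ?_ ?_ ?_ ?_
    m f hf
  · intro c
    have : dh R i₀ (C c) = C c := by simp [dh]
    rw [this]
    exact isWeightedHomogeneous_C _ _
  · intro m f v h
    rw [map_mul]
    have hv : IsWeightedHomogeneous (yw ι) (dh R i₀ (X v)) (0, (bw ι v).2) := by
      rcases v with i | j
      · by_cases hi : i = i₀
        · subst hi
          rw [dh_x0]
          exact isWeightedHomogeneous_one _ _
        · rw [dh_ne i₀ hi]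
          exact isWeightedHomogeneous_zero _ _ _
      · rw [dh_inr]
        exact isWeightedHomogeneous_X R (yw ι) j
    simpa using h.mul hv
  · intro m
    rw [map_zero]
    exact isWeightedHomogeneous_zero _ _ _
  · intro m f g hf hg
    rw [map_add]
    exact hf.add hg

/-- The congruence between a bihomogeneous polynomial and its dehomogenisation. -/
theorem cong (J : Ideal (Pxy ι R)) (hJ : ∀ i, i ≠ i₀ → X (Sum.inl i) ∈ J) (f : Pxy ι R)
    (m : ℕ × ℕ) (hf : IsWeightedHomogeneous (bw ι) f m) :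
    f - X (Sum.inl i₀) ^ m.1 * rename Sum.inr (dh R i₀ f) ∈ J := by
  refine hind (bw ι) (fun m f => f - X (Sum.inl i₀) ^ m.1 * rename Sum.inr (dh R i₀ f) ∈ J)
    ?_ ?_ ?_ ?_ m f hf
  · intro c
    have : dh R i₀ (C c) = C c := by simp [dh]
    simp [this]
  · intro m f v h
    rcases v with i | j
    · by_cases hi : i = i₀
      · subst hi
        have e : (m + bw ι (Sum.inl i)).1 = m.1 + 1 := rfl
        rw [map_mul, dh_x0, mul_one, e]
        convert J.mul_mem_right (X (Sum.inl i)) h using 1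
        ring
      · rw [map_mul, dh_ne i₀ hi, mul_zero, map_zero, mul_zero, sub_zero]
        exact J.mul_mem_left _ (hJ i hi)
    · have e : (m + bw ι (Sum.inr j)).1 = m.1 := rfl
      rw [map_mul, dh_inr, map_mul, rename_X, e]
      convert J.mul_mem_right (X (Sum.inr j)) h using 1
      ring
  · intro m
    simp
  · intro m f g hf hg
    convert J.add_mem hf hg using 1
    rw [map_add, map_add]
    ring

theorem mem (J : Ideal (Pxy ι R)) (f : By ι R) (hh : IsHom (bw ι) J)
    (hJ : ∀ i, i ≠ i₀ → X (Sum.inl i) ∈ J) :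
    f ∈ J.map (dh R i₀) ↔ ∃ N, X (Sum.inl i₀) ^ N * rename Sum.inr f ∈ J := by
  constructor
  · intro hf
    obtain ⟨g, hg, rfl⟩ := (Ideal.mem_map_iff_of_surjective _ (dh_surj i₀)).1 hf
    refine sumind hh (fun g => ∃ N, X (Sum.inl i₀) ^ N * rename Sum.inr (dh R i₀ g) ∈ J)
      ⟨0, by simp⟩ ?_ ?_ g hg
    · rintro a b ⟨N, hN⟩ ⟨M, hM⟩
      refine ⟨N + M, ?_⟩
      convert J.add_mem (J.mul_mem_left (X (Sum.inl i₀) ^ M) hN)
        (J.mul_mem_left (X (Sum.inl i₀) ^ N) hM) using 1
      rw [map_add, map_add]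
      ring
    · intro a m ha hm
      refine ⟨m.1, ?_⟩
      simpa using J.sub_mem ha (cong i₀ J hJ a m hm)
  · rintro ⟨N, hN⟩
    have h := Ideal.mem_map_of_mem (dh R i₀) hN
    rwa [map_mul, map_pow, dh_x0, one_pow, one_mul, dh_ren] at h

theorem hom (J : Ideal (Pxy ι R)) (hh : IsHom (bw ι) J) : IsHom (yw ι) (J.map (dh R i₀)) := by
  intro f hf k
  obtain ⟨g, hg, rfl⟩ := (Ideal.mem_map_iff_of_surjective _ (dh_surj i₀)).1 hf
  refine sumind hh
    (fun g => weightedHomogeneousComponent (yw ι) k (dh R i₀ g) ∈ J.map (dh R i₀))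
    (by simp) ?_ ?_ g hg
  · intro a b ha hb
    rw [map_add, map_add]
    exact Ideal.add_mem _ ha hb
  · intro a m ha hm
    rw [weightedHomogeneousComponent_of_mem (deg i₀ a m hm)]
    split_ifs
    · exact Ideal.mem_map_of_mem _ ha
    · exact Ideal.zero_mem _

theorem colon (J : Ideal (Pxy ι R)) (f : Pxy ι R) (m : ℕ × ℕ) (hh : IsHom (bw ι) J)
    (hJ : ∀ i, i ≠ i₀ → X (Sum.inl i) ∈ J) (hf : IsWeightedHomogeneous (bw ι) f m) :
    (J.colon {f}).map (dh R i₀) = (J.map (dh R i₀)).colon {dh R i₀ f} := by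
  apply le_antisymm
  · rw [Ideal.map_le_iff_le_comap]
    intro g hg
    rw [Ideal.mem_comap, Submodule.mem_colon_singleton, smul_eq_mul, ← map_mul]
    rw [Submodule.mem_colon_singleton, smul_eq_mul] at hg
    exact Ideal.mem_map_of_mem _ hg
  · intro g hg
    rw [Submodule.mem_colon_singleton, smul_eq_mul, mem i₀ J _ hh hJ] at hg
    obtain ⟨N, hN⟩ := hg
    have h1 : X (Sum.inl i₀) ^ N * rename Sum.inr g ∈ J.colon {f} := by
      rw [Submodule.mem_colon_singleton, smul_eq_mul]
      convert J.add_mem (J.mul_mem_left (X (Sum.inl i₀) ^ N * rename Sum.inr g)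
        (cong i₀ J hJ f m hf)) (J.mul_mem_left (X (Sum.inl i₀) ^ m.1) hN) using 1
      rw [map_mul]
      ring
    have h := Ideal.mem_map_of_mem (dh R i₀) h1
    rwa [map_mul, map_pow, dh_x0, one_pow, one_mul, dh_ren] at h

theorem map_dh {S : Type} [CommRing S] (φ : R →+* S) (f : Pxy ι R) :
    MvPolynomial.map φ (dh R i₀ f) = dh S i₀ (MvPolynomial.map φ f) := by
  induction f using MvPolynomial.induction_on with
  | C a => simp [dh]
  | add p q hp hq => simp only [map_add, hp, hq]
  | mul_X p v hp =>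
    simp only [map_mul, hp, map_X]
    congr 1
    rcases v with i | j
    · by_cases hi : i = i₀
      · subst hi
        rw [dh_x0, dh_x0, map_one]
      · rw [dh_ne i₀ hi, dh_ne i₀ hi, map_zero]
    · rw [dh_inr, dh_inr, map_X]

end Ring

theorem isW_b (ι : Type) : IsW (bw ι) := by
  rintro (i | j)
  · exact Or.inl rfl
  · exact Or.inr rfl

theorem isW_y (ι : Type) : IsW (yw ι) := fun _ => Or.inr rfl

section Field

variable {ι K : Type} [Finite ι] [DecidableEq ι] [Field K] (i₀ : ι)

theorem hf_ev (hH : HfAPI) (J : Ideal (Pxy ι K)) (hh : IsHom (bw ι) J)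
    (hJ : ∀ i, i ≠ i₀ → X (Sum.inl i) ∈ J) :
    (∀ n, hf (yw ι) (J.map (dh K i₀)) (0, n) ≤ hf (bw ι) J (0, n)) ∧
      ∀ᶠ d in atTop, ∀ n, hf (yw ι) (J.map (dh K i₀)) (0, n) = hf (bw ι) J (d, n) := by
  constructor
  · intro n
    rw [← (hH.contr ι K J hh).2 n]
    refine hH.mono _ _ _ _ _ _ (isW_y ι) fun f hf => ?_
    rw [mem i₀ J f hh hJ]
    exact ⟨0, by simpa [algBP_apply] using hf⟩
  · have hx : ∀ d : ℕ, IsWeightedHomogeneous (bw ι) (X (Sum.inl i₀) ^ d : Pxy ι K) (d, 0) := by
      intro d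
      have h := (isWeightedHomogeneous_X K (bw ι) (Sum.inl i₀)).pow d
      have e : d • bw ι (Sum.inl i₀) = (d, 0) := by simp [bw]
      rwa [e] at h
    have hmem : ∀ (d : ℕ) (f : By ι K),
        f ∈ (J.colon {X (Sum.inl i₀) ^ d}).comap (algebraMap (By ι K) (Pxy ι K)) ↔
          X (Sum.inl i₀) ^ d * rename Sum.inr f ∈ J := by
      intro d f
      rw [Ideal.mem_comap, Submodule.mem_colon_singleton, smul_eq_mul, algBP_apply, mul_comm]
    let c : ℕ →o Ideal (By ι K) :=
      { toFun := fun d => (J.colon {X (Sum.inl i₀) ^ d}).comap (algebraMap (By ι K) (Pxy ι K))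
        monotone' := by
          refine monotone_nat_of_le_succ fun d f hf => ?_
          rw [hmem] at hf ⊢
          rw [pow_succ', mul_assoc]
          exact J.mul_mem_left _ hf }
    obtain ⟨d₀, hd₀⟩ := monotone_stabilizes_iff_noetherian.2
      (inferInstance : IsNoetherian (By ι K) (By ι K)) c
    filter_upwards [eventually_ge_atTop d₀] with d hd n
    have e1 : J.map (dh K i₀) = c d := by
      ext f
      rw [mem i₀ J f hh hJ]
      constructor
      · rintro ⟨N, hN⟩
        have h1 : f ∈ c N := (hmem N f).2 hN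
        have h2 : f ∈ c (max N d₀) := c.monotone (le_max_left _ _) h1
        rwa [← hd₀ _ (le_max_right _ _), hd₀ d hd] at h2
      · intro hf
        exact ⟨d, (hmem d f).1 hf⟩
    have e2 := (hH.contr ι K _ (hH.colon _ _ _ J _ _ hh (hx d))).2 n
    have e3 := hH.add _ _ _ J _ _ (0, n) (isW_b ι) hh (hx d)
    have e4 : ((0, n) + (d, 0) : ℕ × ℕ) = (d, n) := by simp
    have e5 : hf (bw ι) (J ⊔ Ideal.span {X (Sum.inl i₀) ^ d}) (d, n) = 0 := by
      rw [hH.zero _ _ _ _ _ (isW_b ι)]
      intro f hf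
      have h1 := Ideal.mem_sup_left (T := Ideal.span {X (Sum.inl i₀) ^ d}) (cong i₀ J hJ f _ hf)
      have h2 : X (Sum.inl i₀) ^ d * rename Sum.inr (dh K i₀ f) ∈
          J ⊔ Ideal.span {X (Sum.inl i₀) ^ d} :=
        Ideal.mem_sup_right (Ideal.mul_mem_right _ _ (Ideal.mem_span_singleton_self _))
      simpa using Ideal.add_mem _ h1 h2
    rw [e4, e5, zero_add] at e3
    rw [e1, e3, ← e2]
    rfl

theorem init (hH : HfAPI) (hH2 : HfAPI2) {E : Type} [Field E] (p : Place E K)
    (J : Ideal (Pxy ι E)) (hh : IsHom (bw ι) J) (hJ : ∀ i, i ≠ i₀ → X (Sum.inl i) ∈ J) :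
    (p.init J).map (dh K i₀) = p.init (J.map (dh E i₀)) := by
  have hI := hH2.init _ _ _ _ p J (isW_b ι) hh
  have hI' := hH2.init _ _ _ _ p _ (isW_y ι) (hom i₀ J hh)
  have hJ' : ∀ i, i ≠ i₀ → X (Sum.inl i) ∈ p.init J := by
    intro i hi
    have h : (X (Sum.inl i) : Pxy ι p.V) ∈ J.comap (MvPolynomial.map p.V.subtype) := by
      rw [Ideal.mem_comap, map_X]
      exact hJ i hi
    have h2 := Ideal.mem_map_of_mem (MvPolynomial.map p.r) h
    rwa [map_X] at h2
  refine hH.eq _ _ _ _ _ (isW_y ι) (hom i₀ _ hI.1) hI'.1 ?_ ?_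
  · rw [Ideal.map_le_iff_le_comap]
    unfold Place.init
    rw [Ideal.map_le_iff_le_comap]
    intro g hg
    rw [Ideal.mem_comap, Ideal.mem_comap, ← map_dh]
    refine Ideal.mem_map_of_mem _ ?_
    rw [Ideal.mem_comap, map_dh]
    exact Ideal.mem_map_of_mem _ hg
  · rintro ⟨d, n⟩
    rcases d with _ | d
    · obtain ⟨e, h1, h2⟩ :=
        ((hf_ev i₀ hH _ hI.1 hJ').2.and (hf_ev i₀ hH J hh hJ).2).exists
      rw [h1 n, hI.2, hI'.2, h2 n]
    · rw [hH.ypos]
      exact Nat.zero_le _

end Field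

end DhX

theorem dhAPI (hH : HfAPI) (hH2 : HfAPI2) (_hM : ModAPI) : DhAPI where
  deg := fun _ _ _ _ i₀ f m hf => DhX.deg i₀ f m hf
  mem := fun _ _ _ _ i₀ J f hh hJ => DhX.mem i₀ J f hh hJ
  hom := fun _ _ _ _ i₀ J hh => DhX.hom i₀ J hh
  hf_ev := fun _ _ _ _ _ i₀ J hh hJ => DhX.hf_ev i₀ hH J hh hJ
  colon := fun _ _ _ _ i₀ J f m hh hJ hf => DhX.colon i₀ J f m hh hJ hf
  init := fun _ _ _ _ _ _ _ i₀ p J hh hJ => DhX.init i₀ hH hH2 p J hh hJ

end Pool.Agent.MP_d45d16_ag.Sp14
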