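import Pool.Agent.MP_d45d16_ag.sp.Spec
import Mathlib.RingTheory.MvPolynomial.Ideal

/-!
The lowest degree criterion for injectivity and the dense orbit of the distinguished line.
-/

set_option autoImplicit false

open MvPolynomial Matrix

namespace Pool.Agent.MP_d45d16_ag.Sp14

open Yag

namespace DomX

theorem map_pow_mem {σ : Type} (φ : MvPolynomial σ ℂ →ₐ[ℂ] MvPolynomial σ ℂ)
    (h : ∀ i, φ (X i) ∈ idealOfVars σ ℂ) (n : ℕ) {f : MvPolynomial σ ℂ}
    (hf : f ∈ idealOfVars σ ℂ ^ n) : φ f ∈ idealOfVars σ ℂ ^ n := by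
  have h1 : (idealOfVars σ ℂ).map φ ≤ idealOfVars σ ℂ := by
    rw [Ideal.map_span, Ideal.span_le]
    rintro _ ⟨_, ⟨i, rfl⟩, rfl⟩
    exact h i
  exact Ideal.pow_right_mono h1 n (Ideal.map_pow φ _ n ▸ Ideal.mem_map_of_mem φ hf)

theorem X_mem {σ : Type} (i : σ) : (X i : MvPolynomial σ ℂ) ∈ idealOfVars σ ℂ :=
  Ideal.subset_span ⟨i, rfl⟩

theorem qf_exp {R : Type} [CommRing R] (w n : V → R) (t : R) :
    qf (w + t • n) = qf w + 2 * t * bq n w + t ^ 2 * qf n := by
  simp only [qf, bq, eV, Fintype.sum_sum_type, Sum.elim_inl, Sum.elim_inr, Pi.add_apply,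
    Pi.smul_apply, smul_eq_mul, Fin.sum_univ_seven]
  ring

theorem qf_map {R : Type} [CommRing R] (φ : ℂ →+* R) (v : V → ℂ) : qf (φ ∘ v) = φ (qf v) := by
  simp [qf]

theorem bq_map {R : Type} [CommRing R] (φ : ℂ →+* R) (v w : V → ℂ) :
    bq (φ ∘ v) (φ ∘ w) = φ (bq v w) := by
  simp [bq, eV, Fintype.sum_sum_type]

theorem factor (hCl : ClifAPI) {R : Type} [CommRing R] (φ : ℂ →+* R) (t : R) (w n : V → ℂ)
    (hw : qf w = 1) (hn : qf n = 0) (hb : bq n w = 0) :
    1 + t • (cl 1 n * cl (-1) w).map φ ∈ Spin R := by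
  refine Submonoid.subset_closure ⟨φ ∘ w + t • φ ∘ n, φ ∘ w, ?_, by rw [qf_map, hw, map_one], ?_⟩
  · rw [qf_exp, qf_map, qf_map, bq_map, hw, hn, hb]
    simp
  · rw [hCl.cl_add, hCl.cl_smul, add_mul, (hCl.cl_sq R _).1, qf_map, hw, Matrix.map_mul,
      hCl.cl_map, hCl.cl_map]
    simp

theorem row1 (a : Fin 7) : cl (1 : ℂ) (Pi.single (Sum.inl a) 1) r0 = -Pi.single (some a, none) 1 := by
  funext ⟨i, j⟩
  cases i <;> cases j <;> simp [cl, lm, r0, Pi.single_apply, eq_comm]

theorem row2 (a : Fin 7) : cl (1 : ℂ) (Pi.single (Sum.inr a) 1) r0 = -Pi.single (none, some a) 1 := by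
  funext ⟨i, j⟩
  cases i <;> cases j <;> simp [cl, lm, r0, Pi.single_apply, eq_comm]

theorem cross1 (c j : Fin 7) (x : Fin 7 → ℂ) (t : ℂ) (hx : ∀ k, x k = if k = c + 1 then t else 0) :
    Flag.cross x (Pi.single j 1) (c + 3) = if j = c then -t else 0 := by
  fin_cases c <;> fin_cases j <;> simp +decide [Flag.cross, hx]

theorem cross0 (j k : Fin 7) (x : Fin 7 → ℂ) (hx : ∀ k, x k = 0) :
    Flag.cross x (Pi.single j 1) k = 0 := by
  simp [Flag.cross, hx]

theorem data (r : S) (hr : r ≠ r0) : ∃ (w z z' : V → ℂ) (c : ℂ), c ≠ 0 ∧ qf w = 1 ∧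
    qf z + qf z' = 0 ∧ bq z' z = 0 ∧ bq z w = 0 ∧ bq z' w = 0 ∧
    (cl 1 z * cl (-1) w) r0 = Pi.single r c := by
  have key : ∀ (z w : V → ℂ) (k : S), cl 1 z r0 = -Pi.single k 1 →
      (cl 1 z * cl (-1) w) r0 = -cl (-1) w k := fun z w k h => by
    funext j
    simp [Matrix.mul_apply, h, Pi.single_apply]
  obtain ⟨_ | a, _ | b⟩ := r
  · exact absurd rfl hr
  · refine ⟨Pi.single (Sum.inr (b + 1)) Complex.I, Pi.single (Sum.inr (b + 3)) 1,
      Pi.single (Sum.inl 0) 1, Complex.I, Complex.I_ne_zero, ?_, ?_, ?_, ?_, ?_, ?_⟩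
    iterate 5 simp +decide [qf, bq, eV, Pi.single_apply]
    rw [key _ _ _ (row2 _)]
    funext ⟨i, j⟩
    cases i <;> cases j <;>
      simp +decide [cl, lm, Pi.single_apply, cross1 b _ _ Complex.I, cross0, eq_comm]
    split_ifs <;> simp
  · refine ⟨Pi.single (Sum.inl (a + 1)) 1, Pi.single (Sum.inl (a + 3)) 1,
      Pi.single (Sum.inr 0) 1, -1, by simp, ?_, ?_, ?_, ?_, ?_, ?_⟩
    iterate 5 simp +decide [qf, bq, eV, Pi.single_apply]
    rw [key _ _ _ (row1 _)]
    funext ⟨i, j⟩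
    cases i <;> cases j <;>
      simp +decide [cl, lm, Pi.single_apply, cross1 a _ _ 1, cross0, eq_comm]
  · refine ⟨Pi.single (Sum.inl a) 1, Pi.single (Sum.inr b) 1,
      Pi.single (Sum.inl (a + 1)) 1, -1, by simp, ?_, ?_, ?_, ?_, ?_, ?_⟩
    iterate 5 simp +decide [qf, bq, eV, Pi.single_apply]
    rw [key _ _ _ (row2 _)]
    funext ⟨i, j⟩
    cases i <;> cases j <;>
      simp +decide [cl, lm, Pi.single_apply, cross0, eq_comm, Matrix.one_apply, ite_and]
    split_ifs <;> simp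

theorem step (hCl : ClifAPI) (r : S) : ∃ h ∈ Spin (MvPolynomial S ℂ), ∃ c : ℂ,
    (c = 0 ↔ r = r0) ∧ (∀ i j, (h - 1) i j ∈ idealOfVars S ℂ) ∧
    ∀ j, (h - 1) r0 j - (if j = r then C c * X j else 0) ∈ idealOfVars S ℂ ^ 2 := by
  by_cases hr : r = r0
  · exact ⟨1, one_mem _, 0, by simp [hr], by simp, by simp⟩
  obtain ⟨w, z, z', c, h0, h1, h2, h3, h4, h5, h6⟩ := data r hr
  have bl : ∀ t : ℂ, bq (z + t • z') w = 0 := fun t => by
    have : bq (z + t • z') w = bq z w + t * bq z' w := by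
      simp only [bq, Finset.mul_sum, ← Finset.sum_add_distrib, Pi.add_apply, Pi.smul_apply,
        smul_eq_mul]
      exact Finset.sum_congr rfl fun _ _ => by ring
    rw [this, h4, h5]
    simp
  have f := fun (t : ℂ) (ht : t ^ 2 = 1) => factor hCl (C : ℂ →+* MvPolynomial S ℂ) (X r) w
    (z + t • z') h1 (by rw [qf_exp, h3, ht]; linear_combination h2) (bl t)
  have e := mul_mem (f 1 (by simp)) (f (-1) (by simp))
  simp only [hCl.cl_add, hCl.cl_smul] at e
  simp only [add_mul, smul_mul_assoc, one_smul, neg_smul, neg_mul,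
    Matrix.map_add _ (map_add C)] at e
  rw [Matrix.map_neg _ (map_neg (C : ℂ →+* MvPolynomial S ℂ))] at e
  set A := (cl 1 z * cl (-1) w).map (C : ℂ →+* MvPolynomial S ℂ) with hA
  set B := (cl 1 z' * cl (-1) w).map (C : ℂ →+* MvPolynomial S ℂ)
  have e2 : 1 * (1 + (X r : MvPolynomial S ℂ) • (A + -B)) +
      (X r : MvPolynomial S ℂ) • (A * (1 + (X r : MvPolynomial S ℂ) • (A + -B)) +
        B * (1 + (X r : MvPolynomial S ℂ) • (A + -B))) - 1 =
      (X r : MvPolynomial S ℂ) • (A + A) +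
        ((X r : MvPolynomial S ℂ) * X r) • ((A + B) * (A + -B)) := by
    simp only [mul_add, add_mul, mul_smul_comm, smul_add, mul_smul, mul_one, one_mul, smul_neg,
      mul_neg]
    abel
  refine ⟨_, e, 2 * c, by simp [h0, hr], fun i j => ?_, fun j => ?_⟩
  · rw [e2]
    exact add_mem (Ideal.mul_mem_right _ _ (X_mem r))
      (Ideal.mul_mem_right _ _ (Ideal.mul_mem_right _ _ (X_mem r)))
  · have e3 : A r0 j = if j = r then C c else 0 := by
      rw [hA, Matrix.map_apply, h6, Pi.single_apply]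
      split_ifs <;> simp
    rw [e2, Matrix.add_apply, Matrix.smul_apply, Matrix.smul_apply, Matrix.add_apply, e3]
    have e4 : (X r : MvPolynomial S ℂ) • ((if j = r then C c else 0) + if j = r then C c else 0 :
        MvPolynomial S ℂ) = if j = r then C (2 * c) * X j else 0 := by
      split_ifs with h
      · rw [h, two_mul, map_add, smul_eq_mul, mul_comm]
      · simp
    rw [e4, add_sub_cancel_left, pow_two]
    exact Ideal.mul_mem_right _ _ (Ideal.mul_mem_mul (X_mem r) (X_mem r))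

theorem all (hCl : ClifAPI) : ∃ h ∈ Spin (MvPolynomial S ℂ), ∃ c : S → ℂ,
    (∀ r, c r = 0 ↔ r = r0) ∧ ∀ j, (h - 1) r0 j - C (c j) * X j ∈ idealOfVars S ℂ ^ 2 := by
  choose g g1 c g2 g3 g4 using step hCl
  have key : ∀ T : Finset S, ∃ h ∈ Spin (MvPolynomial S ℂ),
      (∀ i j, (h - 1) i j ∈ idealOfVars S ℂ) ∧
      ∀ j, (h - 1) r0 j - (if j ∈ T then C (c j) * X j else 0) ∈ idealOfVars S ℂ ^ 2 := by
    intro T
    induction T using Finset.induction_on with
    | empty => exact ⟨1, one_mem _, by simp, by simp⟩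
    | insert r T hr ih =>
      obtain ⟨h, h1, h2, h3⟩ := ih
      have e : h * g r - 1 = (h - 1) + (g r - 1) + (h - 1) * (g r - 1) := by noncomm_ring
      have p : ∀ i j, ((h - 1) * (g r - 1)) i j ∈ idealOfVars S ℂ ^ 2 := fun i j => by
        rw [Matrix.mul_apply, pow_two]
        exact sum_mem fun k _ => Ideal.mul_mem_mul (h2 i k) (g3 r k j)
      refine ⟨h * g r, mul_mem h1 (g1 r), fun i j => ?_, fun j => ?_⟩
      · rw [e]
        exact add_mem (add_mem (h2 i j) (g3 r i j)) (Ideal.pow_le_self two_ne_zero (p i j))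
      · convert add_mem (add_mem (h3 j) (g4 r j)) (p r0 j) using 1
        rw [e, Matrix.add_apply, Matrix.add_apply]
        by_cases hj : j = r
        · subst hj
          simp only [Finset.mem_insert_self, hr, if_true, if_false]
          ring
        · simp only [Finset.mem_insert, hj, false_or, if_false]
          ring
  obtain ⟨h, h1, -, h3⟩ := key Finset.univ
  exact ⟨h, h1, c, g2, by simpa using h3⟩

end DomX

open DomX

theorem jac_stmt : JacStmt := by
  intro σ _ c p hc hp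
  change ∀ i, p i - C (c i) * X i ∈ idealOfVars σ ℂ ^ 2 at hp
  set φ : MvPolynomial σ ℂ →ₐ[ℂ] MvPolynomial σ ℂ := aeval p with hφ
  let ψ : MvPolynomial σ ℂ →ₐ[ℂ] MvPolynomial σ ℂ := aeval fun i => C (c i) * X i
  let ψ' : MvPolynomial σ ℂ →ₐ[ℂ] MvPolynomial σ ℂ := aeval fun i => C (c i)⁻¹ * X i
  have m1 : ∀ i, ψ (X i) ∈ idealOfVars σ ℂ := fun i => by
    simpa [ψ] using Ideal.mul_mem_left _ _ (X_mem i)
  have m2 : ∀ i, ψ' (X i) ∈ idealOfVars σ ℂ := fun i => by
    simpa [ψ'] using Ideal.mul_mem_left _ _ (X_mem i)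
  have m3 : ∀ i, φ (X i) - ψ (X i) ∈ idealOfVars σ ℂ ^ 2 := fun i => by simpa [ψ, hφ] using hp i
  have m4 : ∀ i, φ (X i) ∈ idealOfVars σ ℂ := fun i => by
    simpa using add_mem (Ideal.pow_le_self two_ne_zero (m3 i)) (m1 i)
  have inv : ∀ f, ψ' (ψ f) = f := fun f => by
    have : ψ'.comp ψ = AlgHom.id ℂ _ := algHom_ext fun i => by
      simp [ψ, ψ', ← mul_assoc, ← C_mul, hc i]
    exact DFunLike.congr_fun this f
  have k0 : ∀ f, φ f - ψ f ∈ idealOfVars σ ℂ := fun f => by
    induction f using MvPolynomial.induction_on with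
    | C a => simp [ψ, hφ]
    | add f g hf hg =>
      rw [map_add, map_add, add_sub_add_comm]
      exact add_mem hf hg
    | mul_X f i _ =>
      rw [map_mul, map_mul]
      exact sub_mem (Ideal.mul_mem_left _ _ (m4 i)) (Ideal.mul_mem_left _ _ (m1 i))
  have k1 : ∀ f ∈ idealOfVars σ ℂ, φ f - ψ f ∈ idealOfVars σ ℂ ^ 2 := fun f hf => by
    induction hf using Submodule.span_induction with
    | mem _ h =>
      obtain ⟨i, rfl⟩ := h
      exact m3 i
    | zero => simp
    | add f g _ _ hf hg =>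
      rw [map_add, map_add, add_sub_add_comm]
      exact add_mem hf hg
    | smul a f h hf =>
      rw [smul_eq_mul, map_mul, map_mul,
        show φ a * φ f - ψ a * ψ f = φ a * (φ f - ψ f) + (φ a - ψ a) * ψ f by ring]
      refine add_mem (Ideal.mul_mem_left _ _ hf) ?_
      rw [pow_two]
      exact Ideal.mul_mem_mul (k0 a) (by simpa using map_pow_mem ψ m1 1 (by simpa using h))
  have k2 : ∀ n, ∀ f ∈ idealOfVars σ ℂ ^ n, φ f - ψ f ∈ idealOfVars σ ℂ ^ (n + 1) := by
    intro n
    induction n with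
    | zero => simpa using k0
    | succ n ih =>
      intro f hf
      rw [pow_succ] at hf
      refine Submodule.mul_induction_on hf (fun a ha b hb => ?_) fun f g hf hg => ?_
      · rw [map_mul, map_mul,
          show φ a * φ b - ψ a * ψ b = φ a * (φ b - ψ b) + (φ a - ψ a) * ψ b by ring]
        refine add_mem ?_ ?_
        · rw [add_assoc, pow_add]
          exact Ideal.mul_mem_mul (map_pow_mem φ m4 n ha) (k1 b hb)
        · rw [pow_succ]
          exact Ideal.mul_mem_mul (ih a ha) (by simpa using map_pow_mem ψ m1 1 (by simpa using hb))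
      · rw [map_add, map_add, add_sub_add_comm]
        exact add_mem hf hg
  rw [injective_iff_map_eq_zero]
  intro f hf
  have k3 : ∀ n, f ∈ idealOfVars σ ℂ ^ n := fun n => by
    induction n with
    | zero => simp
    | succ n ih =>
      have := k2 n f ih
      rw [hf, zero_sub, neg_mem_iff] at this
      exact inv f ▸ map_pow_mem ψ' m2 _ this
  ext x
  exact (mem_pow_idealOfVars_iff' _ f).1 (k3 (x.degree + 1)) x (Nat.lt_succ_self _)

theorem dom_stmt (hCl : ClifAPI) (hJ : JacStmt) : DomStmt := by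
  obtain ⟨h, h1, c, c1, h2⟩ := all hCl
  let s : ℂ → MvPolynomial S ℂ →ₐ[ℂ] MvPolynomial S ℂ := fun t =>
    aeval fun r => X r + if r = r0 then C t else 0
  have inv : ∀ t f, s t (s (-t) f) = f := fun t f => by
    have : (s t).comp (s (-t)) = AlgHom.id ℂ _ := algHom_ext fun i => by
      by_cases hi : i = r0 <;> simp [s, hi]
    exact DFunLike.congr_fun this f
  have inj : Function.Injective (s 1) := Function.LeftInverse.injective (g := s (-1)) fun f => by
    simpa using inv (-1) f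
  have q := hJ S (fun r => if r = r0 then 1 else c r)
    (fun r => (X r0 + 1) * h r0 r - if r = r0 then 1 else 0)
    (fun r => by by_cases hr : r = r0 <;> simp [hr, c1]) fun r => by
      change _ ∈ idealOfVars S ℂ ^ 2
      have h3 := Ideal.mul_mem_left _ (X r0 + 1) (h2 r)
      by_cases hr : r = r0
      · subst hr
        convert h3 using 1
        simp [(c1 r0).2 rfl]
        ring
      · have h4 : X r0 * (C (c r) * X r) ∈ idealOfVars S ℂ ^ 2 := by
          rw [pow_two]
          exact Ideal.mul_mem_mul (X_mem _) (Ideal.mul_mem_left _ _ (X_mem _))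
        convert add_mem h3 h4 using 1
        simp [hr, Matrix.one_apply_ne (Ne.symm hr)]
        ring
  refine ⟨h.map (s (-1)), hCl.map _ _ (s (-1)).toRingHom h h1, ?_⟩
  have e : (s 1).comp (aeval fun r => X r0 * h.map (s (-1)) r0 r) =
      (aeval fun r => (X r0 + 1) * h r0 r - if r = r0 then 1 else 0).comp (s 1) :=
    algHom_ext fun r => by
      have : s 1 (X r0) = X r0 + 1 := by simp [s]
      rw [AlgHom.comp_apply, aeval_X, map_mul, Matrix.map_apply, inv, this]
      by_cases hr : r = r0 <;> simp [s, hr]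
  have e2 := q.comp inj
  rw [← AlgHom.coe_comp, ← e, AlgHom.coe_comp] at e2
  exact e2.of_comp

end Pool.Agent.MP_d45d16_ag.Sp14
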