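import Pool.Agent.MP_d45d16_ag.sp.Spec

/-! The equations of rows and columns hold at the top level. -/

set_option autoImplicit false

open MvPolynomial Matrix

namespace Pool.Agent.MP_d45d16_ag.Sp14

open Yag

namespace EqsX

theorem contract {K L σ : Type} [Field K] [Field L] (e : K →+* L) (J : Ideal (MvPolynomial σ K))
    {f : MvPolynomial σ K} (h : map e f ∈ J.map (map e)) : f ∈ J := by
  classical
  let _ := e.toAlgebra
  obtain ⟨π, hπ⟩ := (Algebra.linearMap K L).exists_leftInverse_of_injective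
    (LinearMap.ker_eq_bot.mpr (algebraMap K L).injective)
  have h1 : ∀ c, π (e c) = c := fun c => LinearMap.congr_fun hπ c
  have h2 : ∀ t : MvPolynomial σ L, ∃ u : MvPolynomial σ K, ∀ m, coeff m u = π (coeff m t) := by
    intro t
    refine ⟨∑ m ∈ t.support, monomial m (π (coeff m t)), fun m => ?_⟩
    simp only [coeff_sum, coeff_monomial, Finset.sum_ite_eq']
    split_ifs with hm
    · rfl
    · rw [notMem_support_iff.mp hm, map_zero]
  choose P hP using h2
  have h3 : ∀ p t, P (map e p * t) = p * P t := by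
    intro p t
    ext m
    rw [hP, coeff_mul, coeff_mul, map_sum]
    refine Finset.sum_congr rfl fun x _ => ?_
    rw [hP, coeff_map, ← smul_eq_mul (coeff x.1 p), ← map_smul]
    rfl
  have h4 : ∀ x ∈ J.map (map e), ∀ t, P (x * t) ∈ J := by
    intro x hx
    induction hx using Submodule.span_induction with
    | mem x hx =>
      obtain ⟨p, hp, rfl⟩ := hx
      intro t
      rw [h3]
      exact J.mul_mem_right _ hp
    | zero =>
      intro t
      have : P (0 * t) = 0 := by
        ext m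
        simp [hP]
      rw [this]
      exact J.zero_mem
    | add x y _ _ hx hy =>
      intro t
      have : P ((x + y) * t) = P (x * t) + P (y * t) := by
        ext m
        simp [hP, add_mul]
      rw [this]
      exact J.add_mem (hx t) (hy t)
    | smul a x _ hx =>
      intro t
      rw [smul_eq_mul, mul_comm a, mul_assoc]
      exact hx _
  have h5 : P (map e f * 1) = f := by
    ext m
    rw [mul_one, hP, coeff_map, h1]
  exact h5 ▸ h4 _ h 1

theorem comb (hE0 : Ev0Stmt) (hG : GgAPI) [CharZero L1] (k : V) :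
    ∃ a : S → L1, Pi.single k 1 = ∑ p, a p • vv gg p := by
  classical
  have h1 := (hE0 L1 (gg r0 r0) (gg r0) hG.row.1).1
  have h2 : gg r0 r0 ≠ 0 := hG.row.2.1 ▸ hG.row.2.2
  have h3 : ∀ s t, ∑ p, gg⁻¹ s p * gg p t = if s = t then 1 else 0 := fun s t => by
    rw [← Matrix.mul_apply, Matrix.nonsing_inv_mul _ ((Matrix.isUnit_iff_isUnit_det _).1 hG.unit.2),
      Matrix.one_apply]
  generalize gg r0 r0 = l at h1 h2
  have h4 : ∀ (c d : L1) s t, ∑ p, c * gg⁻¹ s p * (d * gg p t) =
      c * d * if s = t then 1 else 0 := fun c d s t => by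
    rw [← h3, Finset.mul_sum]
    exact Finset.sum_congr rfl fun p _ => by ring
  rcases k with a | a
  · refine ⟨fun p => l⁻¹ * gg⁻¹ (some a, none) p, funext fun k => ?_⟩
    rcases k with b | b
    · simp only [Finset.sum_apply, Pi.smul_apply, smul_eq_mul, vv, h1, Sum.elim_inl, h4]
      simp [Pi.single_apply, h2, eq_comm]
    · simp only [Finset.sum_apply, Pi.smul_apply, smul_eq_mul, vv, h1, Sum.elim_inr,
        ← neg_mul, h4]
      simp
  · refine ⟨fun p => -l⁻¹ * gg⁻¹ (none, some a) p, funext fun k => ?_⟩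
    rcases k with b | b
    · simp only [Finset.sum_apply, Pi.smul_apply, smul_eq_mul, vv, h1, Sum.elim_inl, h4]
      simp
    · simp only [Finset.sum_apply, Pi.smul_apply, smul_eq_mul, vv, h1, Sum.elim_inr,
        ← neg_mul, h4]
      simp [Pi.single_apply, h2, eq_comm]

theorem lin (hCl : ClifAPI) {A : Type} [CommRing A] (c : L1 →+* A) (J : Ideal A) (ψ : S → A)
    (ε : A) (M N : Matrix S S A) (v : S → V → L1) (a : S → L1)
    (h : ∀ p, ψ ⬝ᵥ (M * cl ε (c ∘ v p) * N) *ᵥ ψ ∈ J) :
    ψ ⬝ᵥ (M * cl ε (c ∘ ∑ p, a p • v p) * N) *ᵥ ψ ∈ J := by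
  classical
  generalize (Finset.univ : Finset S) = s
  induction s using Finset.induction_on with
  | empty =>
    have : (c ∘ ∑ p ∈ (∅ : Finset S), a p • v p) = (0 : A) • (0 : V → A) := by
      funext k
      simp
    rw [this, hCl.cl_smul]
    simp
  | insert p s hp ih =>
    have : (c ∘ ∑ q ∈ insert p s, a q • v q) =
        c (a p) • (c ∘ v p) + c ∘ ∑ q ∈ s, a q • v q := by
      funext k
      simp [Finset.sum_insert hp]
    rw [this, hCl.cl_add, hCl.cl_smul, Matrix.mul_add, Matrix.add_mul, Matrix.add_mulVec,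
      dotProduct_add, Matrix.mul_smul, Matrix.smul_mul, Matrix.smul_mulVec, dotProduct_smul]
    exact J.add_mem (J.mul_mem_left _ (h p)) ih

theorem off {ρ γ K L : Type} [Fintype ρ] [Field K] [Field L] (e : K →+* L) (σ : γ → L) {j k : γ}
    (hj : σ j ≠ 0) (hk : σ k ≠ 0) : map e (csq ρ K j k) =
      C (σ j * σ k)⁻¹ * ∑ r, C (σ j) * X (r, j) * (C (σ k) * X (r, k)) := by
  have : C (σ j * σ k)⁻¹ * (C (σ j) * C (σ k)) = (1 : MvPolynomial (ρ × γ) L) := by
    rw [← map_mul, ← map_mul, inv_mul_cancel₀ (mul_ne_zero hj hk), map_one]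
  simp only [csq, map_sum, map_mul, map_X, Finset.mul_sum]
  exact Finset.sum_congr rfl fun r _ => by linear_combination (-(X (r, j) * X (r, k))) * this

theorem dia {ρ γ K L : Type} [Fintype ρ] [Field K] [Field L] (e : K →+* L) (σ : γ → L) {j : γ}
    {b : K} (hj : e b = σ j ^ 2) : map e (C b * csq ρ K j j) = ∑ r, (C (σ j) * X (r, j)) ^ 2 := by
  simp only [csq, map_sum, map_mul, map_X, map_C, hj, map_pow, Finset.mul_sum]
  exact Finset.sum_congr rfl fun r _ => by ring

end EqsX

open EqsX in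
theorem eqs_stmt (hCl : ClifAPI) (hQ : QuadAPI) (hE0 : Ev0Stmt) (hTr : TriStmt) (hG : GgAPI) :
    EqsStmt := by
  intro F κ K _ _ _ _ _ I N W D J hJ
  classical
  have : CharZero L1 := charZero_of_injective_algebraMap (algebraMap ℂ L1).injective
  let ψ : S → MvPolynomial S L1 := fun s => C (W.σ s.2) * X s
  let x : S → MvPolynomial S L1 := (D.g.map W.e).map C *ᵥ X
  have hx : x ᵥ* gg.map C = ψ := by
    rw [← Matrix.mulVec_transpose, Matrix.mulVec_mulVec, ← Matrix.transpose_map,
      ← Matrix.map_mul, D.hg]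
    funext s
    rw [Matrix.diagonal_map (map_zero _), Matrix.mulVec_diagonal]
  have h1 : ∀ f, map W.e (thy D.φ D.g f) = eval₂ C x (map N.c f) := by
    intro f
    have : (map W.e).comp (thy D.φ D.g) = (eval₂Hom C x).comp (map N.c) := by
      refine MvPolynomial.ringHom_ext (fun a => ?_) fun i => ?_
      · simp [thy, D.hφ]
      · simp [thy, x, Matrix.mulVec, dotProduct]
    exact RingHom.congr_fun this f
  have h2 : ∀ p q r, ψ ⬝ᵥ (cl 1 (C ∘ vv gg p) * cl (-1) (C ∘ vv gg q) * cl 1 (C ∘ vv gg r)) *ᵥ ψ ∈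
      J.map (map W.e) := by
    intro p q r
    obtain ⟨f, hf, e⟩ := N.gens p q r
    have := Ideal.mem_map_of_mem (map W.e) (hJ f hf)
    rwa [h1, e, hQ.eval, hx] at this
  choose a ha using comb hE0 hG
  have h3 : ∀ k : V, (Pi.single k 1 : V → MvPolynomial S L1) = C ∘ ∑ p, a k p • vv gg p := by
    intro k
    rw [← ha]
    funext l
    simp [Pi.single_apply, apply_ite C]
  have h6 : IsUnit (6 : MvPolynomial S L1) := by
    have : IsUnit (6 : L1) := isUnit_iff_ne_zero.2 (by norm_num)
    have h := this.map (C : L1 →+* MvPolynomial S L1)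
    rwa [map_ofNat] at h
  obtain ⟨t1, t2, t3⟩ := hTr _ (J.map (map W.e)) ψ h6 fun k l m => by
    rw [h3 k, h3 l, h3 m, ← Matrix.mul_one (_ * cl 1 _)]
    refine lin hCl C _ ψ 1 _ 1 _ _ fun r => ?_
    rw [Matrix.mul_one]
    refine lin hCl C _ ψ (-1) _ _ _ _ fun q => ?_
    rw [Matrix.mul_assoc, ← Matrix.one_mul (cl 1 (C ∘ ∑ p, a k p • vv gg p))]
    refine lin hCl C _ ψ 1 1 _ _ _ fun p => ?_
    rw [Matrix.one_mul, ← Matrix.mul_assoc]
    exact h2 p q r
  refine ⟨fun r r' => contract W.e J ?_, fun j k => contract W.e J ?_,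
    fun j k hjk => contract W.e J ?_⟩
  · convert t1 r r' using 1
    simp [Setup2.nrm, W.hβ, ψ, mul_pow]
  · rw [map_sub, dia W.e W.σ (W.hβ j), dia W.e W.σ (W.hβ k)]
    exact t2 j k
  · rw [off W.e W.σ (W.ne j) (W.ne k)]
    exact Ideal.mul_mem_left _ _ (t3 j k hjk)

end Pool.Agent.MP_d45d16_ag.Sp14
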