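import Pool.Agent.MP_d45d16_ag.sp.Spec

/-!
The covariants of a spinor in normal form.
-/

set_option autoImplicit false

open Matrix

namespace Pool.Agent.MP_d45d16_ag.Sp14

open Yag

namespace Ev0X

variable {R : Type} [CommRing R]

/-- A pure tensor. -/
def tn (a b : O → R) : S → R := fun s => a s.1 * b s.2

/-- The unit octonion. -/
def e1 (R : Type) [CommRing R] : O → R := fun o => o.elim 1 fun _ => 0

theorem kron_tn (A B : Matrix O O R) (a b : O → R) :
    kroneckerMap (· * ·) A B *ᵥ tn a b = tn (A *ᵥ a) (B *ᵥ b) := by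
  funext s
  simp only [mulVec, dotProduct, tn, kroneckerMap_apply, Fintype.sum_prod_type]
  rw [Finset.sum_mul_sum]
  refine Finset.sum_congr rfl fun i _ => Finset.sum_congr rfl fun j _ => ?_
  ring

theorem cl_tn (ε : R) (v : V → R) (a b : O → R) :
    cl ε v *ᵥ tn a b = ε • tn (lm (v ∘ Sum.inl) *ᵥ a) b + tn a (lm (v ∘ Sum.inr) *ᵥ b) := by
  rw [cl, add_mulVec, smul_mulVec, kron_tn, kron_tn, one_mulVec, one_mulVec]

theorem lm_e1 (x : Fin 7 → R) : lm x *ᵥ e1 R = oe x := by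
  funext o
  cases o <;> simp [mulVec, dotProduct, Fintype.sum_option, lm, e1, oe]

theorem single_r0 : (Pi.single r0 1 : S → R) = tn (e1 R) (e1 R) := by
  funext s
  rcases s with ⟨_ | a, _ | b⟩ <;> simp [tn, e1, r0]

theorem cl_u (l : R) (w : V → R) : cl 1 w *ᵥ (l • (Pi.single r0 1 : S → R)) =
    l • (tn (oe (w ∘ Sum.inl)) (e1 R) + tn (e1 R) (oe (w ∘ Sum.inr))) := by
  rw [mulVec_smul, single_r0, cl_tn, lm_e1, lm_e1, one_smul]

theorem sl_l (a : Fin 7) : (Pi.single (Sum.inl a) 1 : V → R) ∘ Sum.inl = Pi.single a 1 := by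
  funext b
  simp [Pi.single_apply]

theorem sl_r (a : Fin 7) : (Pi.single (Sum.inl a) 1 : V → R) ∘ Sum.inr = 0 := by
  funext b
  simp

theorem sr_l (a : Fin 7) : (Pi.single (Sum.inr a) 1 : V → R) ∘ Sum.inl = 0 := by
  funext b
  simp

theorem sr_r (a : Fin 7) : (Pi.single (Sum.inr a) 1 : V → R) ∘ Sum.inr = Pi.single a 1 := by
  funext b
  simp [Pi.single_apply]

theorem beta_eq (l : R) (z : S → R) : beta (l • (Pi.single r0 1 : S → R)) z =
    Sum.elim (fun a => l * z (some a, none)) fun a => -(l * z (none, some a)) := by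
  funext k
  rcases k with a | a
  · simp only [beta, cl_u, sl_l, sl_r, eV, Sum.elim_inl]
    simp [dotProduct, Fintype.sum_prod_type, Fintype.sum_option, tn, oe, e1, Pi.single_apply,
      mul_comm]
  · simp only [beta, cl_u, sr_l, sr_r, eV, Sum.elim_inr]
    simp [dotProduct, Fintype.sum_prod_type, Fintype.sum_option, tn, oe, e1, Pi.single_apply,
      mul_comm]

/-- The product of two imaginary octonions. -/
def om (x y : Fin 7 → R) : O → R := fun o => o.elim (-(x ⬝ᵥ y)) (cross x y)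

theorem cc_eq (hCl : ClifAPI) (l : R) (v w : V → R) : cc (l • (Pi.single r0 1 : S → R)) v w =
    l • (-tn (om (v ∘ Sum.inl) (w ∘ Sum.inl)) (e1 R) + tens (w ∘ Sum.inl) (v ∘ Sum.inr) -
      tens (v ∘ Sum.inl) (w ∘ Sum.inr) + tn (e1 R) (om (v ∘ Sum.inr) (w ∘ Sum.inr))) := by
  rw [cc, cl_u, mulVec_smul, mulVec_add, cl_tn, cl_tn, lm_e1, lm_e1, hCl.lm_oe, hCl.lm_oe]
  congr 1
  funext s
  simp only [tn, tens, om, Pi.add_apply, Pi.sub_apply, Pi.neg_apply, Pi.smul_apply, smul_eq_mul]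
  ring

theorem cr_eq (hCl : ClifAPI) (l : R) (v w : V → R) : cr (l • (Pi.single r0 1 : S → R)) v w =
    Sum.elim (l ^ 2 • cross (v ∘ Sum.inl) (w ∘ Sum.inl))
      (l ^ 2 • cross (v ∘ Sum.inr) (w ∘ Sum.inr)) := by
  rw [cr, beta_eq, cc_eq hCl]
  funext k
  rcases k with a | a <;>
    simp only [tn, tens, om, oe, e1, Pi.add_apply, Pi.sub_apply, Pi.neg_apply, Pi.smul_apply,
      smul_eq_mul, Sum.elim_inl, Sum.elim_inr, Option.elim_some, Option.elim_none] <;> ring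

theorem tr_ad (c : R) (x y : Fin 7 → R) :
    ∑ a, c * cross x (c • cross y (Pi.single a 1)) a = c ^ 2 * (-6 * (x ⬝ᵥ y)) := by
  simp only [dotProduct, cross, Fin.sum_univ_seven, Fin.reduceAdd, Pi.smul_apply,
    smul_eq_mul, Pi.single_apply, Fin.reduceEq, if_true, if_false]
  ring

theorem tt_eq (hCl : ClifAPI) (l : R) (v w : V → R) : tt (l • (Pi.single r0 1 : S → R)) v w =
    l ^ 4 * (-6 * ((v ∘ Sum.inl) ⬝ᵥ (w ∘ Sum.inl))) +
      l ^ 4 * (-6 * ((v ∘ Sum.inr) ⬝ᵥ (w ∘ Sum.inr))) := by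
  have h4 : l ^ 4 = (l ^ 2) ^ 2 := by ring
  rw [h4, ← tr_ad, ← tr_ad]
  simp only [tt, cr_eq hCl, Fintype.sum_sum_type, Sum.elim_inl, Sum.elim_inr, Sum.elim_comp_inl,
    Sum.elim_comp_inr, sl_l, sr_r, Pi.smul_apply, smul_eq_mul]

variable {Ω : Type} [Field Ω] [CharZero Ω]

theorem TT_eq (hCl : ClifAPI) (l : Ω) (v : V → Ω) : TT (l • (Pi.single r0 1 : S → Ω)) v =
    Sum.elim (l ^ 4 • v ∘ Sum.inl) (-(l ^ 4 • v ∘ Sum.inr)) := by
  funext k
  rcases k with a | a
  · simp only [TT, tt_eq hCl, sl_l, sl_r, eV, Sum.elim_inl, dotProduct_zero, dotProduct_single,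
      Pi.smul_apply, smul_eq_mul]
    ring
  · simp only [TT, tt_eq hCl, sr_l, sr_r, eV, Sum.elim_inr, dotProduct_zero, dotProduct_single,
      Pi.smul_apply, Pi.neg_apply, smul_eq_mul]
    ring

theorem dd_eq (hCl : ClifAPI) (l : Ω) : dd (l • (Pi.single r0 1 : S → Ω)) = l ^ 8 := by
  simp only [dd, TT_eq hCl, Fintype.sum_sum_type, Sum.elim_inl, Sum.elim_inr, Sum.elim_comp_inl,
    Sum.elim_comp_inr, sl_l, sr_r, Pi.smul_apply, Pi.neg_apply, smul_eq_mul, Pi.single_eq_same,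
    Finset.sum_const, Finset.card_univ, Fintype.card_fin, nsmul_eq_mul, Nat.cast_ofNat]
  ring

omit [CharZero Ω] in
theorem cross_sm (a b : Ω) (x y : Fin 7 → Ω) :
    cross (a • x) (b • y) = (a * b) • cross x y := by
  funext k
  simp only [cross, Pi.smul_apply, smul_eq_mul]
  ring

omit [CharZero Ω] in
theorem om_sm (a b : Ω) (x y : Fin 7 → Ω) : om (a • x) (b • y) = (a * b) • om x y := by
  funext o
  cases o
  · simp only [om, Option.elim_none, Pi.smul_apply, smul_dotProduct, dotProduct_smul, smul_eq_mul]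
    ring
  · simp only [om, Option.elim_some, cross_sm, Pi.smul_apply]

omit [CharZero Ω] in
theorem oe_sm (a : Ω) (x : Fin 7 → Ω) (o : O) : oe (a • x) o = a * oe x o := by
  cases o <;> simp [oe]

end Ev0X

open Ev0X in
theorem ev0_stmt (hCl : ClifAPI) : Ev0Stmt := by
  intro Ω _ _ l u hu
  subst hu
  refine ⟨beta_eq l, cr_eq hCl l, TT_eq hCl l, dd_eq hCl l, fun v w => ?_⟩
  have h1 : ∀ x y : Fin 7 → Ω, om (l ^ 4 • x) y = l ^ 4 • om x y := fun x y => by
    simpa using om_sm (l ^ 4) 1 x y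
  have h2 : ∀ x y : Fin 7 → Ω, om x (l ^ 4 • y) = l ^ 4 • om x y := fun x y => by
    simpa using om_sm 1 (l ^ 4) x y
  have h3 : ∀ x y : Fin 7 → Ω, om ((-l ^ 4) • x) y = (-l ^ 4) • om x y := fun x y => by
    simpa using om_sm (-l ^ 4) 1 x y
  have h4 : ∀ x y : Fin 7 → Ω, om x ((-l ^ 4) • y) = (-l ^ 4) • om x y := fun x y => by
    simpa using om_sm 1 (-l ^ 4) x y
  rw [dd_eq hCl, TT_eq hCl, TT_eq hCl]
  simp only [cc_eq hCl, Sum.elim_comp_inl, Sum.elim_comp_inr, ← neg_smul, h1, h2, h3, h4]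
  constructor <;> funext s <;>
    simp only [tn, tens, oe_sm, Pi.add_apply, Pi.sub_apply, Pi.neg_apply, Pi.smul_apply,
      smul_eq_mul] <;> ring

end Pool.Agent.MP_d45d16_ag.Sp14
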