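import Pool.Agent.MP_d45d16_ag.sp.Spec

/-!
The data in normal form.
-/

set_option autoImplicit false

open Matrix

namespace Pool.Agent.MP_d45d16_ag.Sp14

open Yag

namespace Ev1X

variable {Ω : Type} [Field Ω]

theorem frame (u : S → Ω) (h : (V → Ω) → Fin 7 → Ω) (hs : ∀ v w, h (v - w) = h v - h w)
    (hc : ∀ v w, h (cr u v w) = cross (h v) (h w))
    (hd : ∀ v w z, h (DD u v w z) = (h v ⬝ᵥ h w) • h z) (a v w : V → Ω) (k : Fin 7) :
    h (frV u a v w k) = Frm.fr (h a) (h v) (h w) k := by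
  have h1 : ∀ a v, h (G1 u a v) = Frm.g1 (h a) (h v) := fun a v => by
    rw [G1, Frm.g1, hs, hd, hd]
  have h2 : ∀ a b v, h (G2' u a b v) = Frm.g2 (h a) (h b) (h v) := fun a b v => by
    simp only [G2', Frm.g2, hs, hd, hc, smul_smul]
  have h3 : ∀ a b c, h (sevV u a b c k) = Frm.sev (h a) (h b) (h c) k := fun a b c => by
    fin_cases k
    · rfl
    · rfl
    · exact hc a b
    · rfl
    · exact hc a c
    · exact hc b c
    · exact (hc _ c).trans (by rw [hc]; rfl)
  rw [frV, Frm.fr, h3, h2, h1]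

theorem bq_eq (v w : V → Ω) :
    bq v w = (v ∘ Sum.inl) ⬝ᵥ (w ∘ Sum.inl) - (v ∘ Sum.inr) ⬝ᵥ (w ∘ Sum.inr) := by
  simp [bq, eV, Fintype.sum_sum_type, dotProduct, sub_eq_add_neg]

theorem cross_smul (c : Ω) (x y : Fin 7 → Ω) : cross (c • x) (c • y) = (c * c) • cross x y := by
  ext k
  simp only [cross, Pi.smul_apply, smul_eq_mul]
  ring

theorem tens_smul (c : Ω) (x y : Fin 7 → Ω) : tens (c • x) (c • y) = (c * c) • tens x y := by
  ext ⟨s, t⟩
  cases s <;> cases t <;> simp [tens, oe]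
  ring

end Ev1X

open Ev1X in
theorem ev1_stmt (hE0 : Ev0Stmt) : Ev1Stmt := by
  intro Ω _ _ g hg
  obtain ⟨hb, hc, hT, hd, hP⟩ := hE0 Ω (g r0 r0) (g r0) hg
  have hX0 : X7 g = Frm.fr (fun a => g r0 r0 ^ 3 * g (pr 0) (some a, none))
    (fun a => g r0 r0 ^ 3 * g (pr 1) (some a, none))
    fun a => g r0 r0 ^ 3 * g (pr 2) (some a, none) := rfl
  have hY0 : Y7 g = Frm.fr (fun a => -(g r0 r0 ^ 3 * g (pr 0) (none, some a)))
    (fun a => -(g r0 r0 ^ 3 * g (pr 1) (none, some a)))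
    fun a => -(g r0 r0 ^ 3 * g (pr 2) (none, some a)) := rfl
  generalize hl : g r0 r0 = l at *
  have hT1 : ∀ v, TT (g r0) v ∘ Sum.inl = l ^ 4 • v ∘ Sum.inl := fun v => by rw [hT]; rfl
  have hT2 : ∀ v, TT (g r0) v ∘ Sum.inr = -(l ^ 4 • v ∘ Sum.inr) := fun v => by rw [hT]; rfl
  have hq : ∀ v w, bq (TT (g r0) v) w =
      l ^ 4 * ((v ∘ Sum.inl) ⬝ᵥ (w ∘ Sum.inl) + (v ∘ Sum.inr) ⬝ᵥ (w ∘ Sum.inr)) := fun v w => by
    rw [bq_eq, hT1, hT2, neg_dotProduct, smul_dotProduct, smul_dotProduct, smul_eq_mul,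
      smul_eq_mul]
    ring
  have hX : ∀ k, l ^ 2 • ff g k ∘ Sum.inl = X7 g k := fun k => by
    refine (frame (g r0) (fun v => l ^ 2 • v ∘ Sum.inl) (fun v w => smul_sub _ _ _)
      (fun v w => ?_) (fun v w z => ?_) _ _ _ k).trans ?_
    · rw [cross_smul, hc, ← smul_smul]
      rfl
    · ext i
      have e := congrFun (hT1 z) i
      simp only [Function.comp, Pi.smul_apply, smul_eq_mul] at e
      rw [smul_dotProduct, dotProduct_smul, DD, hq, bq_eq]
      simp only [Function.comp, Pi.smul_apply, Pi.add_apply, smul_eq_mul, e]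
      ring
    · have e : ∀ p, l ^ 2 • vv g p ∘ Sum.inl = fun a => l ^ 3 * g p (some a, none) := fun p => by
        ext a
        rw [vv, hb]
        simp only [Function.comp, Pi.smul_apply, smul_eq_mul, Sum.elim_inl]
        ring
      simp only [e, hX0]
  have hY : ∀ k, l ^ 2 • ff g k ∘ Sum.inr = Y7 g k := fun k => by
    refine (frame (g r0) (fun v => l ^ 2 • v ∘ Sum.inr) (fun v w => smul_sub _ _ _)
      (fun v w => ?_) (fun v w z => ?_) _ _ _ k).trans ?_
    · rw [cross_smul, hc, ← smul_smul]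
      rfl
    · ext i
      have e := congrFun (hT2 z) i
      simp only [Function.comp, Pi.smul_apply, Pi.neg_apply, smul_eq_mul] at e
      rw [smul_dotProduct, dotProduct_smul, DD, hq, bq_eq]
      simp only [Function.comp, Pi.smul_apply, Pi.add_apply, smul_eq_mul, e]
      ring
    · have e : ∀ p, l ^ 2 • vv g p ∘ Sum.inr = fun a => -(l ^ 3 * g p (none, some a)) :=
        fun p => by
          ext a
          rw [vv, hb]
          simp only [Function.comp, Pi.smul_apply, smul_eq_mul, Sum.elim_inr]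
          ring
      simp only [e, hY0]
  refine ⟨hd, fun k => ?_, fun k => ?_, fun k m => ?_, fun k m => ?_⟩
  · rw [da, db, hq, bq_eq, ← hX, smul_dotProduct, dotProduct_smul, smul_eq_mul, smul_eq_mul]
    ring
  · rw [da, db, hq, bq_eq, ← hY, smul_dotProduct, dotProduct_smul, smul_eq_mul, smul_eq_mul]
    ring
  · rw [dP, dQ, (hP _ _).1, (hP _ _).2, ← smul_vecMul, ← add_vecMul, ← hX, ← hY, tens_smul]
    congr 1
    ext s
    simp only [Pi.smul_apply, Pi.add_apply, Pi.sub_apply, smul_eq_mul]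
    ring
  · rw [dP, dQ, (hP _ _).1, (hP _ _).2, ← smul_vecMul, ← sub_vecMul, ← hX, ← hY, tens_smul]
    congr 1
    ext s
    simp only [Pi.smul_apply, Pi.add_apply, Pi.sub_apply, smul_eq_mul]
    ring

end Pool.Agent.MP_d45d16_ag.Sp14
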