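import Pool.Agent.MP_d45d16_ag.sp.Spec

/-!
EVB: the invariant vanishes on curves with finitely many rows.
-/

set_option autoImplicit false

open MvPolynomial

namespace Pool.Agent.MP_d45d16_ag.Sp14

open Yag

namespace EvbX

theorem sign_or (a b c : ℤˣ) (h : a ≠ b) : a = c ∨ b = c := by
  rcases Int.units_eq_one_or a with rfl | rfl <;> rcases Int.units_eq_one_or b with rfl | rfl <;>
    rcases Int.units_eq_one_or c with rfl | rfl <;> simp_all

variable {A ρ γ κ : Type} [Group A] [Fintype ρ] [Fintype γ] [Field κ]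

omit [Fintype ρ] in
theorem sep (T : Setup2 A ρ γ κ) {r r' : ρ} (h : r ≠ r') : ∃ a : A, T.χ r a ≠ T.χ r' a := by
  by_contra hc
  refine h (T.inj (MonoidHom.ext fun a => ?_))
  by_contra h2
  exact hc ⟨a, h2⟩

omit [Fintype ρ] in
theorem third (T : Setup2 A ρ γ κ) (r r' : ρ) : ∃ q, q ≠ r ∧ q ≠ r' := by
  obtain ⟨h₁, h₂, r₀, r₁, r₂, -, -, e1, e2, e3⟩ := T.big 1
  have n01 : r₀ ≠ r₁ := fun h => e1 (by rw [h])
  have n02 : r₀ ≠ r₂ := fun h => e3 (by rw [h])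
  have n12 : r₁ ≠ r₂ := fun h => e1 (by rw [e2, h])
  by_contra hc
  have key : ∀ q, q = r ∨ q = r' := fun q => by
    by_contra h
    exact hc ⟨q, fun h1 => h (Or.inl h1), fun h1 => h (Or.inr h1)⟩
  rcases key r₀ with h0 | h0 <;> rcases key r₁ with h1 | h1 <;> rcases key r₂ with h2 | h2 <;>
    simp_all

theorem eight [CharZero κ] [MulSemiringAction A κ] (hE : EvdAPI) (hSy : SymAPI)
    (T : Setup2 A ρ γ κ) {I : Ideal (By (ρ × γ) κ)} (ht : ∀ (a : A) (c : κ), a • c = c)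
    (hI : T.Adm I) {s : PrimeSpectrum (By (ρ × γ × γ) κ)} {r₀ r₁ r₂ : ρ} (a0 : Alive s r₀)
    (a1 : Alive s r₁) (a2 : Alive s r₂) (n01 : r₀ ≠ r₁) (n02 : r₀ ≠ r₂) (n12 : r₁ ≠ r₂) :
    8 ∣ cycD I s := by
  have st : ∀ a : A, ∀ f ∈ I, sgn γ κ (fun r => T.χ r a) f ∈ I := fun a f hf => by
    rw [← hSy.sgn A ρ γ κ κ T a f (ht a)]
    exact hI.stab a f hf
  obtain ⟨h₁, e1⟩ := sep T n01
  rcases sign_or _ _ (T.χ r₂ h₁) e1 with e2 | e2
  · obtain ⟨h₂, e3⟩ := sep T n02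
    exact hE.ev8 ρ γ κ I s _ _ r₀ r₁ r₂ hI.hom hI.lin (st h₁) (st h₂) a0 a1 a2 e1 e2 e3
  · obtain ⟨h₂, e3⟩ := sep T n12
    exact hE.ev8 ρ γ κ I s _ _ r₁ r₀ r₂ hI.hom hI.lin (st h₁) (st h₂) a1 a0 a2 e1.symm e2 e3

omit [Fintype γ] in
theorem two_rows {p : Ideal (By (ρ × γ) κ)} {r r' : ρ} (hr : r ≠ r')
    (hd : ∀ q, q ≠ r → q ≠ r' → ∀ j, X (q, j) ∈ p) {j k : γ} (hc : csq ρ κ j k ∈ p) :
    X (r, j) * X (r, k) + X (r', j) * X (r', k) ∈ p := by
  classical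
  have h1 : ∑ q ∈ (Finset.univ.erase r).erase r', (X (q, j) * X (q, k) : By (ρ × γ) κ) ∈ p := by
    refine Ideal.sum_mem _ fun q hq => ?_
    rw [Finset.mem_erase, Finset.mem_erase] at hq
    exact Ideal.mul_mem_right _ _ (hd q hq.2.1 hq.1 j)
  have h2 : csq ρ κ j k = X (r, j) * X (r, k) + (X (r', j) * X (r', k) +
      ∑ q ∈ (Finset.univ.erase r).erase r', (X (q, j) * X (q, k) : By (ρ × γ) κ)) := by
    rw [Finset.add_sum_erase _ (fun q => (X (q, j) * X (q, k) : By (ρ × γ) κ))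
        (Finset.mem_erase.mpr ⟨hr.symm, Finset.mem_univ _⟩),
      Finset.add_sum_erase _ (fun q => (X (q, j) * X (q, k) : By (ρ × γ) κ)) (Finset.mem_univ r)]
    rfl
  have h3 := p.sub_mem hc h1
  rwa [h2, ← add_assoc, add_sub_cancel_right] at h3

theorem prop {R J : Type} [CommRing R] {p : Ideal R} (hp : p.IsPrime) {i : R} (hi : i ^ 2 = -1)
    {a b : J → R} (h : ∀ j k, a j * a k + b j * b k ∈ p) :
    (∀ j, b j - i * a j ∈ p) ∨ ∀ j, b j - -i * a j ∈ p := by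
  by_cases hu : ∀ j, b j - i * a j ∈ p
  · exact Or.inl hu
  obtain ⟨j, hj⟩ := not_forall.mp hu
  refine Or.inr fun k => ?_
  have h1 : (b j - i * a j) * ((b j - i * a j) * (b k - -i * a k)) =
      2 * (b j - i * a j) * (a j * a k + b j * b k) - (b k - i * a k) * (a j * a j + b j * b j) := by
    linear_combination (-2 * (b j - i * a j) * a j * a k + (b k - i * a k) * a j * a j) * hi
  have h2 : (b j - i * a j) * ((b j - i * a j) * (b k - -i * a k)) ∈ p := by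
    rw [h1]
    exact p.sub_mem (p.mul_mem_left _ (h j k)) (p.mul_mem_left _ (h j j))
  exact (hp.mem_or_mem ((hp.mem_or_mem h2).resolve_left hj)).resolve_left hj

theorem not_two [CharZero κ] [MulSemiringAction A κ] (hH : HfAPI) (hM : ModAPI) (hY : CydAPI)
    (hF : FourAPI) (T : Setup2 A ρ γ κ) {I : Ideal (By (ρ × γ) κ)} (hI : T.Adm I)
    (hb : ¬ Unb (yw γ) (rowI I)) {s : PrimeSpectrum (By (ρ × γ × γ) κ)}
    (hs : s ∈ (cycD I).support) {r r' : ρ} (hr : r ≠ r')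
    (hd : ∀ q, q ≠ r → q ≠ r' → ¬ Alive s q) : False := by
  obtain ⟨p, hp, hph, hIp, hps⟩ := hY.lie ρ γ κ I hI.hom hI.lin s hs
  have dead : ∀ q, q ≠ r → q ≠ r' → ∀ j, X (q, j) ∈ p := fun q h1 h2 j => by
    have h3 : X (q, j, j) ∈ s.asIdeal := by
      by_contra h
      exact hd q h1 h2 ⟨j, h⟩
    rw [← hps, Ideal.mem_comap, nu, aeval_X] at h3
    exact (hp.mem_or_mem h3).elim id id
  have heq : T.Eqs p := ⟨fun a b => hIp (hI.eqs.row a b), fun j k => hIp (hI.eqs.dia j k),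
    fun j k h => hIp (hI.eqs.off j k h)⟩
  obtain ⟨q₀, q1, q2⟩ := third T r r'
  have hc := (hF.dead A ρ γ κ κ T p q₀ heq (dead q₀ q1 q2)).2
  have hi : (C T.im : By (ρ × γ) κ) ^ 2 = -1 := by
    rw [← map_pow, T.im_sq, map_neg, map_one]
  obtain ⟨c, hcc⟩ : ∃ c : κ, ∀ j, X (r', j) - C c * X (r, j) ∈ p := by
    rcases prop hp hi (a := fun j => X (r, j)) (b := fun j => X (r', j))
      (fun j k => two_rows hr dead (hc j k)) with h | h
    · exact ⟨T.im, h⟩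
    · exact ⟨-T.im, fun j => by rw [map_neg]; exact h j⟩
  have hgen : ∀ v : ρ × γ, ∃ l : By γ κ, l.IsHomogeneous 1 ∧
      X v - rename (fun j => (r, j)) l ∈ p := by
    rintro ⟨q, j⟩
    by_cases h1 : q = r
    · exact ⟨X j, isHomogeneous_X _ _, by rw [rename_X, h1, sub_self]; exact p.zero_mem⟩
    by_cases h2 : q = r'
    · refine ⟨C c * X j, (isHomogeneous_X _ _).C_mul _, ?_⟩
      rw [map_mul, rename_C, rename_X, h2]
      exact hcc j
    · exact ⟨0, isHomogeneous_zero _ _ _, by rw [map_zero, sub_zero]; exact dead q h1 h2 j⟩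
  have h1 := (hM.ren γ (ρ × γ) κ (fun j => (r, j)) p hph).2.2 hgen
  have h2 : rowI I ≤ p.comap (rename (fun j => (r, j)) : By γ κ →ₐ[κ] By (ρ × γ) κ) :=
    (iInf_le _ r).trans (Ideal.comap_mono hIp)
  refine hb fun N => ?_
  obtain ⟨n, hn⟩ := ((hY.spec ρ γ κ I hI.hom hI.lin).1.1 s hs).2 N
  refine ⟨2 * n, hn.trans_le ?_⟩
  rw [← hps]
  refine ((hY.contr ρ γ κ p hph).2.1 n).trans ?_
  rw [← h1]
  exact hH.mono γ κ (yw γ) _ _ _ (fun _ => Or.inr rfl) h2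

end EvbX

theorem evb_stmt (hH : HfAPI) (hM : ModAPI) (hY : CydAPI) (hE : EvdAPI) (hSy : SymAPI)
    (hF : FourAPI) : EvbStmt := by
  intro A ρ γ κ _ _ _ _ _ _ T I ht hI hb
  refine Finset.sum_eq_zero fun s hs => ?_
  obtain ⟨r, r', hr, a0, a1⟩ := hF.two A ρ γ κ κ T I hI s hs
  have h8 : 8 ∣ cycD I s := by
    by_contra h
    refine EvbX.not_two hH hM hY hF T hI hb hs hr fun q q1 q2 a2 => h ?_
    exact EvbX.eight hE hSy T ht hI a0 a1 a2 hr q1.symm q2.symm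
  obtain ⟨m, hm⟩ := h8
  have h2 : ((cycD I s / 4 : ℕ) : ZMod 2) = 0 := by
    rw [ZMod.natCast_eq_zero_iff, hm]
    omega
  show ((cycD I s / 4 : ℕ) : ZMod 2) * par s.asIdeal = 0
  rw [h2, zero_mul]

end Pool.Agent.MP_d45d16_ag.Sp14
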