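import Pool.Agent.MP_d45d16_ag.sp.Spec
import Mathlib.RingTheory.MvPolynomial.Ideal

/-!
Divisibility of the push-forward cycle coming from changes of the signs of the rows.
-/

set_option autoImplicit false

open MvPolynomial

namespace Pool.Agent.MP_d45d16_ag.Sp14

open Yag

namespace EvdX

section Half

variable {B Q : Type} [CommRing B] [CommRing Q] [Algebra B Q]

/-- The fixed elements. -/
def fx (g : Q →ₐ[B] Q) : Submodule B Q := LinearMap.eqLocus g.toLinearMap LinearMap.id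

/-- The elements which change sign. -/
def ax (g : Q →ₐ[B] Q) : Submodule B Q := LinearMap.eqLocus g.toLinearMap (-LinearMap.id)

theorem mem_fx {g : Q →ₐ[B] Q} {z : Q} : z ∈ fx g ↔ g z = z := Iff.rfl

theorem mem_ax {g : Q →ₐ[B] Q} {z : Q} : z ∈ ax g ↔ g z = -z := Iff.rfl

theorem len_top (hL : LenAPI) (s : PrimeSpectrum B) :
    lenAt s (⊤ : Submodule B Q) = lenAt s Q := by
  refine hL.loc B B _ _ (RingHom.id B) (⊤ : Submodule B Q).subtype s s rfl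
    (fun x => ⟨1, x, s.asIdeal.primeCompl.one_mem, by simp⟩)
    (fun m => ⟨1, ⟨m, trivial⟩, s.asIdeal.primeCompl.one_mem, by simp⟩)
    (fun n hn => ⟨1, s.asIdeal.primeCompl.one_mem, ?_⟩)
  rw [one_smul]
  exact Subtype.ext hn

theorem half (hL : LenAPI) (s : PrimeSpectrum B) (h2 : IsUnit (2 : B)) (M : Submodule B Q)
    (g : Q →ₐ[B] Q) (hg : ∀ z, g (g z) = z) (hM : ∀ z ∈ M, g z ∈ M) (x : Q) (hx : g x = -x)
    (hxM : ∀ z ∈ M, x * z ∈ M) (y : B) (hy : y ∉ s.asIdeal) (hxy : x * x = algebraMap B Q y) :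
    lenAt s M = 2 * lenAt s (M ⊓ fx g : Submodule B Q) := by
  obtain ⟨h, hh⟩ := h2.exists_left_inv
  let π : M →ₗ[B] (M ⊓ ax g : Submodule B Q) :=
    LinearMap.codRestrict _ ((LinearMap.id - g.toLinearMap).comp M.subtype) fun z =>
      ⟨M.sub_mem z.2 (hM _ z.2), by
        change g (z.1 - g z.1) = -(z.1 - g z.1)
        rw [map_sub, hg, neg_sub]⟩
  have hπ : ∀ z : M, (π z : Q) = z.1 - g z.1 := fun _ => rfl
  have e1 := hL.exact B _ _ _ s (Submodule.inclusion (inf_le_left : M ⊓ fx g ≤ M)) π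
    (Submodule.inclusion_injective _) (fun w => by
      refine ⟨h • ⟨w.1, w.2.1⟩, Subtype.ext ?_⟩
      have hw : g w.1 = -w.1 := w.2.2
      rw [hπ]
      change h • w.1 - g (h • w.1) = w.1
      rw [map_smul, hw, smul_neg, sub_neg_eq_add, ← smul_add, ← two_smul B, smul_smul, hh,
        one_smul]) (fun z => by
      constructor
      · intro hz
        have h1 : z.1 - g z.1 = 0 := congrArg Subtype.val hz
        exact ⟨⟨z.1, z.2, (sub_eq_zero.1 h1).symm⟩, rfl⟩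
      · rintro ⟨w, rfl⟩
        apply Subtype.ext
        rw [hπ]
        have hw : g w.1 = w.1 := w.2.2
        exact sub_eq_zero.2 hw.symm)
  let μ : (M ⊓ fx g : Submodule B Q) →ₗ[B] (M ⊓ ax g : Submodule B Q) :=
    LinearMap.codRestrict _ ((LinearMap.mulLeft B x).comp (M ⊓ fx g).subtype) fun z =>
      ⟨hxM _ z.2.1, by
        have hz : g z.1 = z.1 := z.2.2
        change g (x * z.1) = -(x * z.1)
        rw [map_mul, hx, hz, neg_mul]⟩
  have hμ : ∀ z : (M ⊓ fx g : Submodule B Q), (μ z : Q) = x * z.1 := fun _ => rfl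
  have e2 := hL.loc B B _ _ (RingHom.id B) μ s s rfl
    (fun x => ⟨1, x, s.asIdeal.primeCompl.one_mem, by simp⟩)
    (fun m => by
      have hm : g m.1 = -m.1 := m.2.2
      refine ⟨y, ⟨x * m.1, hxM _ m.2.1, ?_⟩, hy, Subtype.ext ?_⟩
      · change g (x * m.1) = x * m.1
        rw [map_mul, hx, hm, neg_mul_neg]
      · rw [hμ]
        change y • m.1 = x * (x * m.1)
        rw [← mul_assoc, hxy, Algebra.smul_def])
    (fun n hn => by
      refine ⟨y, hy, Subtype.ext ?_⟩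
      have h1 : x * n.1 = 0 := congrArg Subtype.val hn
      change y • n.1 = 0
      rw [Algebra.smul_def, ← hxy, mul_assoc, h1, mul_zero])
  rw [e1, ← e2, two_mul]

end Half

section Sgn

variable {ρ γ K : Type} [Field K]

theorem sgn_X (ε : ρ → ℤˣ) (x : ρ × γ) :
    sgn γ K ε (X x) = ((ε x.1 : ℤˣ) : ℤ) • (X x : By (ρ × γ) K) := by
  simp [sgn]

theorem sgn_XX (ε : ρ → ℤˣ) (x x' : ρ × γ) :
    sgn γ K ε (X x * X x') = ((ε x.1 * ε x'.1 : ℤˣ) : ℤ) • (X x * X x' : By (ρ × γ) K) := by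
  rw [map_mul, sgn_X, sgn_X, smul_mul_smul_comm, Units.val_mul]

theorem sgn_sgn (ε ε' : ρ → ℤˣ) (f : By (ρ × γ) K) :
    sgn γ K ε (sgn γ K ε' f) = sgn γ K (ε * ε') f := by
  have h : (sgn γ K ε).comp (sgn γ K ε') = sgn γ K (ε * ε') := by
    apply MvPolynomial.algHom_ext
    intro x
    rw [AlgHom.comp_apply, sgn_X, map_zsmul, sgn_X, sgn_X, smul_smul, Pi.mul_apply,
      Units.val_mul, mul_comm]
  exact DFunLike.congr_fun h f

theorem sgn_one (f : By (ρ × γ) K) : sgn γ K (1 : ρ → ℤˣ) f = f := by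
  have h : sgn γ K (1 : ρ → ℤˣ) = AlgHom.id K _ := by
    apply MvPolynomial.algHom_ext
    intro x
    rw [sgn_X]
    simp
  rw [h]
  rfl

theorem sgn_nu (ε : ρ → ℤˣ) (b : By (ρ × γ × γ) K) : sgn γ K ε (nu ρ γ K b) = nu ρ γ K b := by
  have h : (sgn γ K ε).comp (nu ρ γ K) = nu ρ γ K := by
    apply MvPolynomial.algHom_ext
    intro y
    rw [AlgHom.comp_apply, nu, aeval_X, sgn_XX, Int.units_mul_self]
    simp
  exact DFunLike.congr_fun h b

/-- The change of signs as a map over the ring of invariants. -/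
noncomputable def sB (γ K : Type) [Field K] (ε : ρ → ℤˣ) :
    By (ρ × γ) K →ₐ[By (ρ × γ × γ) K] By (ρ × γ) K :=
  { (sgn γ K ε).toRingHom with commutes' := sgn_nu ε }

/-- The change of signs on the quotient. -/
noncomputable def gQ (I : Ideal (By (ρ × γ) K)) (ε : ρ → ℤˣ) (h : ∀ f ∈ I, sgn γ K ε f ∈ I) :
    (By (ρ × γ) K ⧸ I) →ₐ[By (ρ × γ × γ) K] By (ρ × γ) K ⧸ I :=
  Ideal.quotientMapₐ I (sB γ K ε) h

theorem gQ_mk (I : Ideal (By (ρ × γ) K)) (ε : ρ → ℤˣ) (h : ∀ f ∈ I, sgn γ K ε f ∈ I)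
    (f : By (ρ × γ) K) :
    gQ I ε h (Ideal.Quotient.mk I f) = Ideal.Quotient.mk I (sgn γ K ε f) := rfl

theorem gQ_gQ (I : Ideal (By (ρ × γ) K)) (ε : ρ → ℤˣ) (h : ∀ f ∈ I, sgn γ K ε f ∈ I)
    (z : By (ρ × γ) K ⧸ I) : gQ I ε h (gQ I ε h z) = z := by
  obtain ⟨f, rfl⟩ := Ideal.Quotient.mk_surjective z
  have h1 : ε * ε = 1 := funext fun r => Int.units_mul_self (ε r)
  rw [gQ_mk, gQ_mk, sgn_sgn, h1, sgn_one]

theorem gQ_comm (I : Ideal (By (ρ × γ) K)) (ε ε' : ρ → ℤˣ) (h : ∀ f ∈ I, sgn γ K ε f ∈ I)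
    (h' : ∀ f ∈ I, sgn γ K ε' f ∈ I) (z : By (ρ × γ) K ⧸ I) :
    gQ I ε h (gQ I ε' h' z) = gQ I ε' h' (gQ I ε h z) := by
  obtain ⟨f, rfl⟩ := Ideal.Quotient.mk_surjective z
  rw [gQ_mk, gQ_mk, gQ_mk, gQ_mk, sgn_sgn, sgn_sgn, mul_comm]

theorem gQ_XX_eq (I : Ideal (By (ρ × γ) K)) (ε : ρ → ℤˣ) (h : ∀ f ∈ I, sgn γ K ε f ∈ I)
    (x x' : ρ × γ) (he : ε x.1 = ε x'.1) :
    gQ I ε h (Ideal.Quotient.mk I (X x * X x')) = Ideal.Quotient.mk I (X x * X x') := by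
  rw [gQ_mk, sgn_XX, he, Int.units_mul_self, Units.val_one, one_smul]

theorem gQ_XX_ne (I : Ideal (By (ρ × γ) K)) (ε : ρ → ℤˣ) (h : ∀ f ∈ I, sgn γ K ε f ∈ I)
    (x x' : ρ × γ) (he : ε x.1 ≠ ε x'.1) :
    gQ I ε h (Ideal.Quotient.mk I (X x * X x')) = -Ideal.Quotient.mk I (X x * X x') := by
  have h1 : ε x.1 * ε x'.1 = -1 := by
    rcases Int.units_eq_one_or (ε x.1) with a | a <;>
      rcases Int.units_eq_one_or (ε x'.1) with b | b <;> simp_all
  rw [gQ_mk, sgn_XX, h1, Units.val_neg, Units.val_one, neg_smul, one_smul, map_neg]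

theorem sgn_neg_hom (f : By (ρ × γ) K) (m : ℕ × ℕ)
    (hf : IsWeightedHomogeneous (yw (ρ × γ)) f m) :
    sgn γ K (fun _ => -1) f = (-1) ^ m.2 * f := by
  induction hf using IsWeightedHomogeneous.induction_on with
  | zero => simp
  | add p q _ _ hp hq => rw [map_add, hp, hq, mul_add]
  | monomial d r hr =>
    have h1 : m.2 = ∑ i ∈ d.support, d i := by
      rw [← hr, Finsupp.weight_apply, Finsupp.sum, Prod.snd_sum]
      simp [yw]
    rw [h1, monomial_eq, map_mul, Finsupp.prod, map_prod, mul_left_comm,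
      ← Finset.prod_pow_eq_pow_sum, ← Finset.prod_mul_distrib]
    congr 1
    · exact (sgn γ K fun _ => -1).commutes r
    · refine Finset.prod_congr rfl fun i _ => ?_
      rw [map_pow, sgn_X, ← mul_pow]
      simp

theorem stab_neg {I : Ideal (By (ρ × γ) K)} (hI : IsHom (yw (ρ × γ)) I) :
    ∀ f ∈ I, sgn γ K (fun _ => -1) f ∈ I := by
  intro f hf
  rw [← sum_weightedHomogeneousComponent (yw (ρ × γ)) f,
    finsum_eq_sum _ (weightedHomogeneousComponent_finsupp f), map_sum]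
  refine I.sum_mem fun m _ => ?_
  rw [sgn_neg_hom _ m (weightedHomogeneousComponent_isWeightedHomogeneous m f)]
  exact I.mul_mem_left _ (hI f hf m)

theorem two_unit [CharZero K] (σ : Type) : IsUnit (2 : By σ K) := by
  have h := (IsUnit.mk0 (2 : K) two_ne_zero).map (C : K →+* By σ K)
  rwa [map_ofNat] at h

theorem sq_X (I : Ideal (By (ρ × γ) K)) (r : ρ) (j : γ) :
    Ideal.Quotient.mk I (X (r, j)) * Ideal.Quotient.mk I (X (r, j)) =
      algebraMap (By (ρ × γ × γ) K) (By (ρ × γ) K ⧸ I) (X (r, j, j)) := by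
  rw [← map_mul]
  change _ = Ideal.Quotient.mk I (nu ρ γ K (X (r, j, j)))
  rw [nu, aeval_X]

theorem sq_XX (I : Ideal (By (ρ × γ) K)) (r r' : ρ) (j j' : γ) :
    Ideal.Quotient.mk I (X (r, j) * X (r', j')) * Ideal.Quotient.mk I (X (r, j) * X (r', j')) =
      algebraMap (By (ρ × γ × γ) K) (By (ρ × γ) K ⧸ I) (X (r, j, j) * X (r', j', j')) := by
  rw [map_mul (algebraMap _ _), ← sq_X, ← sq_X, map_mul, mul_mul_mul_comm]

theorem len2 (hL : LenAPI) [CharZero K] {I : Ideal (By (ρ × γ) K)} (hI : IsHom (yw (ρ × γ)) I)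
    {s : PrimeSpectrum (By (ρ × γ × γ) K)} {r₀ : ρ} (h₀ : Alive s r₀) :
    lenD I s = 2 * lenAt s (⊤ ⊓ fx (gQ I _ (stab_neg hI)) :
      Submodule (By (ρ × γ × γ) K) (By (ρ × γ) K ⧸ I)) := by
  obtain ⟨j, hj⟩ := h₀
  rw [lenD, ← len_top hL]
  refine half hL s (two_unit _) ⊤ _ (gQ_gQ I _ _) (fun _ _ => trivial)
    (Ideal.Quotient.mk I (X (r₀, j))) ?_ (fun _ _ => trivial) _ hj (sq_X I r₀ j)
  rw [gQ_mk, sgn_X, Units.val_neg, Units.val_one, neg_smul, one_smul, map_neg]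

theorem len_step (hL : LenAPI) [CharZero K] {I : Ideal (By (ρ × γ) K)}
    {s : PrimeSpectrum (By (ρ × γ × γ) K)} {r r' : ρ} (h : Alive s r) (h' : Alive s r')
    (ε : ρ → ℤˣ) (hε : ∀ f ∈ I, sgn γ K ε f ∈ I) (hne : ε r ≠ ε r')
    (M : Submodule (By (ρ × γ × γ) K) (By (ρ × γ) K ⧸ I)) (hM : ∀ z ∈ M, gQ I ε hε z ∈ M)
    (hx : ∀ j j', ∀ z ∈ M, Ideal.Quotient.mk I (X (r, j) * X (r', j')) * z ∈ M) :
    lenAt s M = 2 * lenAt s (M ⊓ fx (gQ I ε hε) :
      Submodule (By (ρ × γ × γ) K) (By (ρ × γ) K ⧸ I)) := by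
  obtain ⟨j, hj⟩ := h
  obtain ⟨j', hj'⟩ := h'
  exact half hL s (two_unit _) M _ (gQ_gQ I _ _) hM _ (gQ_XX_ne I ε hε (r, j) (r', j') hne)
    (hx j j') _ (fun hm => (s.isPrime.mem_or_mem hm).elim hj hj') (sq_XX I r r' j j')

theorem fx_stab (I : Ideal (By (ρ × γ) K)) (ε ε' : ρ → ℤˣ) (h : ∀ f ∈ I, sgn γ K ε f ∈ I)
    (h' : ∀ f ∈ I, sgn γ K ε' f ∈ I) {z : By (ρ × γ) K ⧸ I} (hz : z ∈ fx (gQ I ε h)) :
    gQ I ε' h' z ∈ fx (gQ I ε h) := by
  rw [mem_fx] at hz ⊢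
  rw [gQ_comm, hz]

theorem fx_mul (I : Ideal (By (ρ × γ) K)) (ε : ρ → ℤˣ) (h : ∀ f ∈ I, sgn γ K ε f ∈ I)
    (x x' : ρ × γ) (he : ε x.1 = ε x'.1) {z : By (ρ × γ) K ⧸ I} (hz : z ∈ fx (gQ I ε h)) :
    Ideal.Quotient.mk I (X x * X x') * z ∈ fx (gQ I ε h) := by
  rw [mem_fx] at hz ⊢
  rw [map_mul, gQ_XX_eq I ε h x x' he, hz]

theorem dvd_of_len (hY : CydAPI) [Finite ρ] [Finite γ] {I : Ideal (By (ρ × γ) K)}
    (hI : IsHom (yw (ρ × γ)) I) (hl : Lin (yw (ρ × γ)) I)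
    (s : PrimeSpectrum (By (ρ × γ × γ) K)) (c : ℕ) (hc : c ≠ 0)
    (h : s ∈ (cycD I).support → ∃ L : ℕ∞, lenD I s = c * L) : c ∣ cycD I s := by
  by_cases hs : s ∈ (cycD I).support
  · obtain ⟨L, hL⟩ := h hs
    have h1 := (hY.spec ρ γ K I hI hl).1
    rw [h1.2 s (h1.1 s hs)] at hL
    induction L using ENat.recTopCoe with
    | top =>
      rw [ENat.mul_top (by exact_mod_cast hc)] at hL
      exact absurd hL (ENat.natCast_ne_top _)
    | coe n => exact ⟨n, by exact_mod_cast hL⟩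
  · rw [Finsupp.notMem_support_iff.1 hs]
    exact dvd_zero c

theorem exists_alive (hH : HfAPI) (hY : CydAPI) [Finite ρ] [Finite γ] {I : Ideal (By (ρ × γ) K)}
    (hI : IsHom (yw (ρ × γ)) I) (hl : Lin (yw (ρ × γ)) I)
    {s : PrimeSpectrum (By (ρ × γ × γ) K)} (hs : s ∈ (cycD I).support) : ∃ r, Alive s r := by
  by_contra hne
  have hd : ∀ r j, X (r, j, j) ∈ s.asIdeal := fun r j => by
    by_contra hj
    exact hne ⟨r, j, hj⟩
  obtain ⟨h1, h2⟩ := hY.spec ρ γ K I hI hl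
  have hle : I.comap (nu ρ γ K) ≤ s.asIdeal := (h2 s hs).1.2
  have hX : ∀ v, X v ∈ s.asIdeal := by
    rintro ⟨r, j, k⟩
    have h3 : (X (r, j, k) ^ 2 - X (r, j, j) * X (r, k, k) : By (ρ × γ × γ) K) ∈ s.asIdeal := by
      apply hle
      rw [Ideal.mem_comap]
      have h4 : nu ρ γ K (X (r, j, k) ^ 2 - X (r, j, j) * X (r, k, k)) = 0 := by
        simp only [nu, map_sub, map_pow, map_mul, aeval_X]
        ring
      rw [h4]
      exact I.zero_mem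
    have h5 := s.asIdeal.add_mem h3 (s.asIdeal.mul_mem_right (X (r, k, k)) (hd r j))
    rw [sub_add_cancel] at h5
    exact s.isPrime.mem_of_pow_mem 2 h5
  obtain ⟨n, hn⟩ := (h1.1 s hs).2 (hf (yw (ρ × γ × γ)) s.asIdeal (0, 0))
  rcases n with _ | n
  · exact lt_irrefl _ hn
  · have h0 : hf (yw (ρ × γ × γ)) s.asIdeal (0, n + 1) = 0 := by
      rw [hH.zero _ K (yw (ρ × γ × γ)) _ _ (fun _ => Or.inr rfl)]
      intro f hf
      have h6 : Ideal.span (X '' (Set.univ : Set (ρ × γ × γ))) ≤ s.asIdeal := by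
        rw [Ideal.span_le]
        rintro _ ⟨v, -, rfl⟩
        exact hX v
      apply h6
      rw [mem_ideal_span_X_image]
      intro m hm
      have h7 := hf (mem_support_iff.1 hm)
      by_contra hc
      have h8 : m = 0 := by
        ext i
        by_contra hi
        exact hc ⟨i, Set.mem_univ _, hi⟩
      rw [h8, map_zero] at h7
      exact absurd (congrArg Prod.snd h7) (Nat.succ_ne_zero n).symm
    omega

end Sgn

end EvdX

open EvdX in
theorem evdAPI (hL : LenAPI) (hH : HfAPI) (hY : CydAPI) : EvdAPI where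
  ev2 := fun ρ γ K _ _ _ _ I s hI hl => dvd_of_len hY hI hl s 2 two_ne_zero fun hs => by
    obtain ⟨r, hr⟩ := exists_alive hH hY hI hl hs
    exact ⟨_, len2 hL hI hr⟩
  ev4 := fun ρ γ K _ _ _ _ I s ε r₀ r₁ hI hl hε h₀ h₁ hne =>
    dvd_of_len hY hI hl s 4 (by norm_num) fun _ => by
      have e1 := len2 hL hI h₀
      have e2 := len_step hL h₀ h₁ ε hε hne (⊤ ⊓ fx (gQ I _ (stab_neg hI)))
        (fun z hz => ⟨trivial, fx_stab I _ ε _ hε hz.2⟩)
        (fun j j' z hz => ⟨trivial, fx_mul I _ _ (r₀, j) (r₁, j') rfl hz.2⟩)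
      rw [e2, ← mul_assoc, show (2 : ℕ∞) * 2 = (4 : ℕ) by norm_num] at e1
      exact ⟨_, e1⟩
  ev8 := fun ρ γ K _ _ _ _ I s ε ε' r₀ r₁ r₂ hI hl hε hε' h₀ h₁ h₂ hne he hne' =>
    dvd_of_len hY hI hl s 8 (by norm_num) fun _ => by
      have e1 := len2 hL hI h₀
      have e2 := len_step hL h₀ h₁ ε hε hne (⊤ ⊓ fx (gQ I _ (stab_neg hI)))
        (fun z hz => ⟨trivial, fx_stab I _ ε _ hε hz.2⟩)
        (fun j j' z hz => ⟨trivial, fx_mul I _ _ (r₀, j) (r₁, j') rfl hz.2⟩)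
      have e3 := len_step hL h₀ h₂ ε' hε' hne' (⊤ ⊓ fx (gQ I _ (stab_neg hI)) ⊓ fx (gQ I ε hε))
        (fun z hz => ⟨⟨trivial, fx_stab I _ ε' _ hε' hz.1.2⟩, fx_stab I ε ε' hε hε' hz.2⟩)
        (fun j j' z hz => ⟨⟨trivial, fx_mul I _ _ (r₀, j) (r₂, j') rfl hz.1.2⟩,
          fx_mul I ε hε (r₀, j) (r₂, j') he hz.2⟩)
      rw [e2, e3, ← mul_assoc, ← mul_assoc, show (2 : ℕ∞) * 2 * 2 = (8 : ℕ) by norm_num] at e1
      exact ⟨_, e1⟩

end Pool.Agent.MP_d45d16_ag.Sp14
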