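import Pool.Agent.MP_d45d16_ag.sp.Spec
import Pool.Agent.MP_d45d16_ag.yag.Fin

/-!
EVG2: the value of the invariant on the conic.
-/

set_option autoImplicit false

open MvPolynomial Filter Matrix TensorProduct

namespace Pool.Agent.MP_d45d16_ag.Sp14

open Yag

namespace Evg2X

theorem scale {σ R C : Type} [CommRing R] [CommRing C] (c : R →+* C) (w : σ → C) (l : C)
    {f : MvPolynomial σ R} {n : ℕ} (hf : f.IsHomogeneous n) :
    eval₂ c (fun i => l * w i) f = l ^ n * eval₂ c w f := by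
  rw [eval₂_eq, eval₂_eq, Finset.mul_sum]
  refine Finset.sum_congr rfl fun d hd => ?_
  have h1 : ∑ i ∈ d.support, d i = n := (hf.degree_eq_sum_deg_support hd).symm
  simp only [mul_pow, Finset.prod_mul_distrib, Finset.prod_pow_eq_pow_sum, h1]
  ring

/-- A point whose rows are proportional to a vector over a quadratic algebra. -/
theorem rank_one (hM : ModAPI) (hMe : MemStmt) {ι σ τ F K E : Type} [Fintype ι] [DecidableEq ι]
    [Finite σ] [Field F] [Field K] [Field E] [Algebra F K] [Algebra F E] (g : Matrix ι ι K)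
    (i₀ : ι) (a b : ι → E) (z : ι → K ⊗[F] E) (hg : IsUnit g)
    (hz : ∀ i, ∑ j, g i j • z j = (1 : K) ⊗ₜ[F] b i) (e : τ → σ → ι) (A : τ → K ⊗[F] E)
    (p q : σ → K) (t : E) (β : F) (ht : t ^ 2 = algebraMap F E β)
    (he : ∀ r j, z (e r j) = A r * (p j ⊗ₜ[F] (1 : E) + q j ⊗ₜ[F] t)) (n : ℕ) :
    hf (yw σ) (⨅ r, (tr (algebraMap F K) g i₀ (prm (algebraMap F E) a b)).comap
      (rename (e r) : By σ K →ₐ[K] By ι K)) (0, n) ≤ 2 := by
  obtain ⟨B, hB⟩ : ∃ B : σ → K ⊗[F] E, B = fun j => p j ⊗ₜ[F] (1 : E) + q j ⊗ₜ[F] t := ⟨_, rfl⟩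
  let v : Fin 2 → K ⊗[F] E := ![1, (1 : K) ⊗ₜ[F] t]
  have hv0 : (1 : K ⊗[F] E) ∈ Submodule.span K (Set.range v) := Submodule.subset_span ⟨0, rfl⟩
  have hv1 : (1 : K) ⊗ₜ[F] t ∈ Submodule.span K (Set.range v) := Submodule.subset_span ⟨1, rfl⟩
  have hmul : ∀ w ∈ Submodule.span K (Set.range v),
      w * (1 : K) ⊗ₜ[F] t ∈ Submodule.span K (Set.range v) := by
    intro w hw
    induction hw using Submodule.span_induction with
    | mem w hw =>
      obtain ⟨k, rfl⟩ := hw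
      fin_cases k
      · simpa [v] using hv1
      · have h1 : ((1 : K) ⊗ₜ[F] t) * ((1 : K) ⊗ₜ[F] t) = algebraMap F K β • (1 : K ⊗[F] E) := by
          rw [Algebra.TensorProduct.tmul_mul_tmul, ← sq t, ht, mul_one, algebraMap_smul,
            Algebra.algebraMap_eq_smul_one, tmul_smul, Algebra.TensorProduct.one_def]
        change ((1 : K) ⊗ₜ[F] t) * ((1 : K) ⊗ₜ[F] t) ∈ _
        rw [h1]
        exact Submodule.smul_mem _ _ hv0
    | zero => rw [zero_mul]; exact zero_mem _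
    | add x y _ _ hx hy => rw [add_mul]; exact add_mem hx hy
    | smul c x _ hx => rw [smul_mul_assoc]; exact Submodule.smul_mem _ _ hx
  have hall : ∀ f : By σ K, aeval B f ∈ Submodule.span K (Set.range v) := by
    intro f
    induction f using MvPolynomial.induction_on with
    | C c => rw [aeval_C, Algebra.algebraMap_eq_smul_one]; exact Submodule.smul_mem _ _ hv0
    | add f g hf hg => rw [map_add]; exact add_mem hf hg
    | mul_X f j hf =>
      have h1 : B j = p j • (1 : K ⊗[F] E) + q j • ((1 : K) ⊗ₜ[F] t) := by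
        rw [hB, Algebra.TensorProduct.one_def, smul_tmul', smul_tmul', smul_eq_mul, smul_eq_mul,
          mul_one, mul_one]
      rw [map_mul, aeval_X, h1, mul_add, mul_smul_comm, mul_smul_comm, mul_one]
      exact add_mem (Submodule.smul_mem _ _ hf) (Submodule.smul_mem _ _ (hmul _ hf))
  refine (hM.le σ K _ _ (aeval B : By σ K →ₐ[K] K ⊗[F] E).toLinearMap
    (Submodule.span K (Set.range v)) n (Module.Finite.span_of_finite K (Set.finite_range v))
    (fun f _ => hall f) fun f hf h0 => ?_).trans ?_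
  · refine Ideal.mem_iInf.2 fun r => Ideal.mem_comap.2 ?_
    refine hMe ι F K E g i₀ a b z _ n hg hz hf.rename_isHomogeneous ?_
    have h1 : z ∘ e r = fun j => A r * B j := funext fun j => by rw [hB]; exact he r j
    have h2 : aeval B f = 0 := h0
    rw [aeval_rename, h1, aeval_def, scale _ _ _ hf, ← aeval_def, h2, mul_zero]
  · exact (finrank_range_le_card (R := K) v).trans (by simp)

theorem ev2_comp {F ι C D : Type} [Field F] [CommRing C] [CommRing D] (c : F →+* C) (δ : C)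
    (P Q : ι → F) (φ : C →+* D) (i : ι) : φ (ev2 c δ P Q i) = ev2 (φ.comp c) (φ δ) P Q i := by
  simp [ev2]

theorem ev2_neg {F ι C : Type} [Field F] [CommRing C] {I : Set (MvPolynomial ι F)} (f : BiFrame I)
    (c : F →+* C) (δ : C) (k m : Fin 7) (i : ι) :
    ev2 c (-δ) (f.P k m) (f.Q k m) i = -ev2 c δ (f.P m k) (f.Q m k) i := by
  simp only [ev2, f.anti k m i, f.symm k m i, map_neg]
  ring

theorem sat_cv {F ι C : Type} [Field F] [CommRing C] {I : Set (MvPolynomial ι F)} (f : BiFrame I)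
    (c : F →+* C) (δ r : C) (w : Fin 3 → C) (hδ : δ ^ 2 = c f.d)
    (hr : r ^ 2 = -ev2 c (-δ) f.a f.b 0)
    (hw : ∑ l, ev2 c δ f.a f.b (Alg.f3 l) * w l ^ 2 = 0) :
    Sat I c fun i => ∑ l, w l * f.cv c δ r l i := by
  have h := f.sat₁ C c δ ![w 0, w 1, w 2, 0, 0, 0, 0] ![0, 0, 0, r, 1, 0, 0] hδ (by
    simpa [Fin.sum_univ_seven, Fin.sum_univ_three, Alg.f3] using hw) (by
    simp only [Fin.sum_univ_seven, Matrix.cons_val, ev2, f.four.1, f.four.2, map_add, map_mul] at hr ⊢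
    linear_combination (c (f.a 3) - δ * c (f.b 3)) * hr - c (f.b 0) * c (f.b 3) * hδ)
  refine (congrArg _ ?_).mp h
  ext i
  simp only [bil, BiFrame.cv, Fin.sum_univ_seven, Fin.sum_univ_three, Matrix.cons_val, Alg.f3]
  simp
  ring

theorem sat_pt {F ι E : Type} [Field F] [Field E] [DecidableEq ι] (i₀ : ι) (c : F →+* E)
    (a : ι → E) (ha : ∀ i, i ≠ i₀ → a i = 0) : Sat (ptI F i₀) c a := by
  rintro _ ⟨i, hi, rfl⟩
  rw [eval₂_X, ha i hi]

theorem hom_pt {F ι : Type} [Field F] (i₀ : ι) : HomSet (ptI F i₀) := by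
  rintro _ ⟨i, -, rfl⟩
  exact ⟨0, isHomogeneous_X F i⟩

theorem dual {ι κ K : Type} [Fintype ι] [Fintype κ] [DecidableEq κ] [Field K] (v : κ → ι → K)
    (hv : LinearIndependent K v) (k₀ : κ) :
    ∃ l : ι → K, ∀ k, ∑ i, l i * v k i = if k = k₀ then 1 else 0 := by
  classical
  obtain ⟨G, hG⟩ := (Fintype.linearCombination K v).exists_leftInverse_of_injective
    (LinearMap.ker_eq_bot.2 (linearIndependent_iff_injective_fintypeLinearCombination.1 hv))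
  refine ⟨fun i => G (fun j => if i = j then 1 else 0) k₀, fun k => ?_⟩
  have h2 := congrFun (LinearMap.congr_fun hG (Pi.single k 1)) k₀
  rw [LinearMap.comp_apply, Fintype.linearCombination_apply_single, one_smul,
    LinearMap.pi_apply_eq_sum_univ, Finset.sum_apply] at h2
  simpa [Pi.single_apply, eq_comm, mul_comm] using h2

theorem rk (hM : ModAPI) (hMe : MemStmt) {ι σ τ F K E : Type} [Fintype ι] [DecidableEq ι]
    [Finite σ] [Field F] [Field K] [Field E] (φ : F →+* K) (c : F →+* E) (g : Matrix ι ι K)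
    (i₀ : ι) (a b : ι → E) (hg : IsUnit g) (N N' : Fin 3 → ι → F) (w : Fin 3 → E) (t : E) (β : F)
    (ht : t ^ 2 = c β) (hb : ∀ i, b i = ∑ l, w l * (c (N l i) + t * c (N' l i)))
    (e : τ → σ → ι) (u : Fin 3 → τ → K) (p q : σ → K) (z z' : Fin 3 → ι → K)
    (h1 : ∀ l i, φ (N l i) = (g *ᵥ z l) i) (h2 : ∀ l i, φ (N' l i) = (g *ᵥ z' l) i)
    (h3 : ∀ l r j, z l (e r j) = u l r * p j) (h4 : ∀ l r j, z' l (e r j) = u l r * q j) (n : ℕ) :
    hf (yw σ) (⨅ r, (tr φ g i₀ (prm c a b)).comap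
      (rename (e r) : By σ K →ₐ[K] By ι K)) (0, n) ≤ 2 := by
  let := φ.toAlgebra
  let := c.toAlgebra
  have k1 : ∀ (s : F) (v : E), φ s ⊗ₜ[F] v = (1 : K) ⊗ₜ[F] (v * c s) := fun s v => by
    have h5 : φ s = s • (1 : K) := Algebra.algebraMap_eq_smul_one (A := K) s
    rw [h5, smul_tmul, Algebra.smul_def, mul_comm]
    rfl
  refine rank_one hM hMe g i₀ a b (fun j => ∑ l, (z l j ⊗ₜ[F] w l + z' l j ⊗ₜ[F] (w l * t))) hg
    (fun i => ?_) e (fun r => ∑ l, u l r ⊗ₜ[F] w l) p q t β ht (fun r j => ?_) n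
  · simp only [Finset.smul_sum, smul_add, smul_tmul', smul_eq_mul]
    rw [Finset.sum_comm, hb, tmul_sum]
    refine Finset.sum_congr rfl fun l _ => ?_
    rw [Finset.sum_add_distrib, ← sum_tmul, ← sum_tmul]
    change (g *ᵥ z l) i ⊗ₜ[F] _ + (g *ᵥ z' l) i ⊗ₜ[F] _ = _
    rw [← h1, ← h2, k1, k1, ← tmul_add, mul_add, mul_assoc]
  · simp only [Finset.sum_mul, mul_add, Algebra.TensorProduct.tmul_mul_tmul, mul_one, h3, h4,
      Finset.sum_add_distrib]

theorem side (hR : PrmAPI) {ι F K L E : Type} [Finite ι] [Field F] [Field K] [Field L] [Field E]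
    [Algebra F K] [Algebra L E] {I₁ I₂ : Set (MvPolynomial ι F)} (h₁ : HomSet I₁)
    (h₂ : HomSet I₂) (c : K →+* L) {β : K} {r : L} (hq : Quad c β r) {α : Fin 3 → L} {x y : E}
    (hc : ConicField α x y) (hα : α 2 ≠ 0) {a b : ι → E}
    (ha : Sat I₁ (((algebraMap L E).comp c).comp (algebraMap F K)) a)
    (hb : Sat I₂ (((algebraMap L E).comp c).comp (algebraMap F K)) b) :
    AdmF I₁ I₂ (prm ((algebraMap L E).comp c) a b) := by
  let := c.toAlgebra
  have : FiniteDimensional K L := Module.finite_of_finrank_eq_succ (Evg.quad_finrank hq)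
  exact hR.prm_sat ι F K E I₁ I₂ _ a b h₁ h₂ ha hb (Main.td_conic (F := K) hc hα)

end Evg2X

open Evg2X in
theorem evg2_stmt (_hH : HfAPI) (hR : PrmAPI) (hM : ModAPI) (hT : TrAPI) (hMe : MemStmt)
    (hHc : HfcStmt) (hRa : RatStmt) (hSl : SplAPI) : Evg2Stmt := by
  classical
  intro A ρ γ κ K F _ _ _ _ _ _ _ _ _ _ _ T Φ φ g i₀ I₂ f δ x y hI hΦ hg hE hφ hgs hδ hfδ hlink
  intro K₂ L E _ _ _ _ c c' δ₂ r u v hq hl hq' hc
  obtain ⟨φ₂, hφ₂, hφδ⟩ := hl K φ δ hδ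
  obtain ⟨cj, hcj, hcjδ⟩ := hl K₂ c (-δ₂) (by rw [neg_sq, hq.sq])
  have : CharZero K₂ := charZero_of_injective_ringHom c.injective
  have cj1 : ∀ z, cj (c z) = c z := fun z => RingHom.congr_fun hcj z
  have cjcj : ∀ z, cj (cj z) = z := fun z => by
    obtain ⟨s, t, rfl⟩ := hq.gen z
    simp only [map_add, map_mul, cj1, hcjδ, map_neg, neg_neg]
  have hq'' : Quad (c'.comp cj) (cj (-ev2 c (-δ₂) f.a f.b 0)) r :=
    ⟨by rw [RingHom.comp_apply, cjcj, hq'.sq], fun z => by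
      obtain ⟨s, t, rfl⟩ := hq'.gen z
      exact ⟨cj s, cj t, by simp only [RingHom.comp_apply, cjcj]⟩,
      fun ⟨z, hz⟩ => hq'.ne ⟨cj z, hz⟩⟩
  have hα : ∀ l, ev2 (c'.comp c) (c' δ₂) f.a f.b l ≠ 0 := fun l h => f.ne l (by
    apply (c'.comp c).injective
    have h1 : c' δ₂ ^ 2 = c' (c f.d) := by rw [← map_pow, hq.sq]
    simp only [ev2, RingHom.comp_apply] at h
    simp only [RingHom.comp_apply, map_sub, map_mul, map_pow, map_zero, ← h1]
    linear_combination (c' (c (f.a l)) - c' δ₂ * c' (c (f.b l))) * h)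
  obtain ⟨a, ha⟩ : ∃ a : ρ × γ → E, a = fun i => algebraMap L E ((Pi.single i₀ 1 : ρ × γ → L) i) :=
    ⟨_, rfl⟩
  obtain ⟨b, hb⟩ : ∃ b : ρ × γ → E, b = fun i => ∑ l, ![1, u, v] l *
      algebraMap L E (f.cv (c'.comp c) (c' δ₂) r l i) := ⟨_, rfl⟩
  have ha0 : ∀ i, i ≠ i₀ → a i = 0 := fun i hi => by simp [ha, hi]
  have hsb : Sat I₂ ((algebraMap L E).comp (c'.comp c)) b := by
    have h := sat_cv f ((algebraMap L E).comp (c'.comp c)) (algebraMap L E (c' δ₂))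
      (algebraMap L E r) ![1, u, v] (by rw [← map_pow, ← map_pow, hq.sq]; rfl)
      (by rw [← map_pow, hq'.sq, map_neg, map_neg, ev2_comp, ev2_comp, map_neg, map_neg])
      (by simpa [Fin.sum_univ_three, ev2] using hc.eqn)
    refine (congrArg _ ?_).mp h
    ext i
    simp [hb, BiFrame.cv, ev2]
  let := c.toAlgebra
  have e12 : ((algebraMap L E).comp (c'.comp cj)).comp c = ((algebraMap L E).comp c').comp c := by
    rw [RingHom.comp_assoc, RingHom.comp_assoc, hcj, RingHom.comp_assoc]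
  have A₁ : AdmF (ptI F i₀) I₂ (prm ((algebraMap L E).comp c') a b) :=
    side hR (hom_pt i₀) hI c' hq' hc (hα _) (sat_pt i₀ _ a ha0) hsb
  have A₂ : AdmF (ptI F i₀) I₂ (prm ((algebraMap L E).comp (c'.comp cj)) a b) :=
    side hR (hom_pt i₀) hI _ hq'' hc (hα _) (sat_pt i₀ _ a ha0) (by
      change Sat I₂ (((algebraMap L E).comp (c'.comp cj)).comp c) b
      rw [e12]; exact hsb)
  have hx : ∀ {J : Ideal (Pxy (ρ × γ) K₂)}, AdmF (ptI F i₀) I₂ J → ∀ i, i ≠ i₀ →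
      X (Sum.inl i) ∈ J := fun hJ i hi => by simpa using hJ.eq₁ _ ⟨i, hi, rfl⟩
  have fix₂ : ∀ (s : A) z, s • φ₂ z = φ₂ z := fun s z => by
    obtain ⟨p, q, rfl⟩ := hq.gen z
    have h1 : ∀ z, φ₂ (c z) = φ z := fun z => RingHom.congr_fun hφ₂ z
    simp only [map_add, map_mul, h1, hφδ, smul_add, smul_mul', hφ, hfδ]
  have adm : ∀ J : Ideal (Pxy (ρ × γ) K₂), AdmF (ptI F i₀) I₂ J → T.Adm (tr φ₂ g i₀ J) :=
    fun J hJ => hT.adm A ρ γ κ K F K₂ K T φ g i₀ I₂ φ₂ J hg hE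
      (fun z => RingHom.congr_fun hφ₂ z) fix₂ hgs hJ
  have lk : ∀ k m i, φ₂ (ev2 c δ₂ (f.P k m) (f.Q k m) i) =
      (g *ᵥ fun s => x k s.1 * y m s.2) i := fun k m i => by
    rw [ev2_comp, hφ₂, hφδ, hlink]
  have b₁ : ∀ i, b i = ∑ l, ![1, u, v] l * algebraMap L E
      (c' (ev2 c δ₂ (f.P (Alg.f3 l) 4) (f.Q (Alg.f3 l) 4) i) +
        r * c' (ev2 c δ₂ (f.P (Alg.f3 l) 3) (f.Q (Alg.f3 l) 3) i)) := fun i => by
    simp only [hb, BiFrame.cv, ev2_comp]
  have b₂ : ∀ i, b i = ∑ l, ![1, u, v] l * algebraMap L E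
      ((c'.comp cj) (-ev2 c δ₂ (f.P 4 (Alg.f3 l)) (f.Q 4 (Alg.f3 l)) i) +
        r * (c'.comp cj) (-ev2 c δ₂ (f.P 3 (Alg.f3 l)) (f.Q 3 (Alg.f3 l)) i)) := fun i => by
    simp only [b₁, RingHom.comp_apply, ← ev2_neg, ev2_comp _ _ _ _ cj, hcj, map_neg, hcjδ, neg_neg]
  have hind := f.indep K₂ c δ₂ hq.sq
  have hf₂ : ∀ d n, hf (bw (ρ × γ)) (prm ((algebraMap L E).comp (c'.comp cj)) a b) (d, n + 1) =
      2 * (2 * n + 3) := by
    have h := hHc (ρ × γ) K₂ L E (c'.comp cj) _ r _ u v i₀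
      (fun l i => -ev2 c δ₂ (f.P 4 (Alg.f3 l)) (f.Q 4 (Alg.f3 l)) i)
      (fun l i => -ev2 c δ₂ (f.P 3 (Alg.f3 l)) (f.Q 3 (Alg.f3 l)) i) hq'' (fun l => hα _) hc (by
        have h1 := (hind.comp (Sum.elim (fun l : Fin 3 => ((4 : Fin 7), Alg.f3 l))
          fun l : Fin 3 => ((3 : Fin 7), Alg.f3 l)) (by decide)).neg
        refine (congrArg (fun w : Fin 3 ⊕ Fin 3 → ρ × γ → K₂ => LinearIndependent K₂ w) ?_).mp h1
        ext (l | l) i <;> rfl)
    rw [← ha, ← funext b₂] at h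
    exact h
  have v₁ : Φ (tr φ₂ g i₀ (prm ((algebraMap L E).comp c') a b)) = 0 := by
    refine hΦ.evalB _ (adm _ A₁) fun h => ?_
    obtain ⟨n, hn⟩ := h 2
    refine hn.not_ge (rk hM hMe φ₂ _ g i₀ a b hg
      (fun l => ev2 c δ₂ (f.P (Alg.f3 l) 4) (f.Q (Alg.f3 l) 4))
      (fun l => ev2 c δ₂ (f.P (Alg.f3 l) 3) (f.Q (Alg.f3 l) 3)) ![1, u, v] (algebraMap L E r) _
      (by rw [← map_pow, hq'.sq]; rfl) (fun i => by simp only [b₁, map_add, map_mul]; rfl)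
      (fun s j => (s, j)) (fun l => x (Alg.f3 l)) (y 4) (y 3) _ _ (fun l => lk _ 4)
      (fun l => lk _ 3) (fun _ _ _ => rfl) (fun _ _ _ => rfl) n)
  have v₂ : Φ (tr φ₂ g i₀ (prm ((algebraMap L E).comp (c'.comp cj)) a b)) = (1 : ℕ) := by
    refine hΦ.evalA _ (adm _ A₂) (rk hM hMe φ₂ _ g i₀ a b hg
      (fun l i => -ev2 c δ₂ (f.P 4 (Alg.f3 l)) (f.Q 4 (Alg.f3 l)) i)
      (fun l i => -ev2 c δ₂ (f.P 3 (Alg.f3 l)) (f.Q 3 (Alg.f3 l)) i) ![1, u, v]
      (algebraMap L E r) _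
      (by rw [← map_pow, hq''.sq]; rfl) (fun i => by simp only [b₂, map_add, map_mul]; rfl)
      (fun j s => (s, j)) (fun l j => -y (Alg.f3 l) j) (x 4) (x 3)
      (fun l => -fun s => x 4 s.1 * y (Alg.f3 l) s.2) (fun l => -fun s => x 3 s.1 * y (Alg.f3 l) s.2)
      (fun l i => by rw [map_neg, lk, mulVec_neg]; rfl)
      (fun l i => by rw [map_neg, lk, mulVec_neg]; rfl)
      (fun _ _ _ => by simp [mul_comm]) (fun _ _ _ => by simp [mul_comm]) 1) 1 ?_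
    obtain ⟨d, hd⟩ := (hT.hom _ K₂ K φ₂ g i₀ _ hg A₂.hom (hx A₂)).2.2.1.exists
    filter_upwards [eventually_gt_atTop 0] with n hn
    obtain ⟨n, rfl⟩ := Nat.exists_eq_add_one_of_ne_zero hn.ne'
    rw [hd, hf₂, Nat.ModEq]
    omega
  obtain ⟨l, hl'⟩ := dual _ hind (4, 0)
  have hlh : IsWeightedHomogeneous (bw (ρ × γ))
      (∑ i, C (l i) * X (Sum.inr i) : Pxy (ρ × γ) K₂) (0, 1) :=
    IsWeightedHomogeneous.sum _ _ _ fun i _ => by
      simpa [bw] using (isWeightedHomogeneous_C (bw (ρ × γ)) (l i)).mul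
        (isWeightedHomogeneous_X K₂ (bw (ρ × γ)) (Sum.inr i))
  have hev : ∀ (c₀ : K₂ →+* L) (N N' : Fin 3 → ρ × γ → K₂),
      (∀ i, b i = ∑ m, ![1, u, v] m * algebraMap L E (c₀ (N m i) + r * c₀ (N' m i))) →
      eval₂ ((algebraMap L E).comp c₀) (Sum.elim a b) (∑ i, C (l i) * X (Sum.inr i)) =
        ∑ m, ![1, u, v] m * algebraMap L E
          (c₀ (∑ i, l i * N m i) + r * c₀ (∑ i, l i * N' m i)) := fun c₀ N N' h => by
    simp only [eval₂_sum, eval₂_mul, eval₂_C, eval₂_X, Sum.elim_inr, h, map_add, map_mul, map_sum,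
      Finset.mul_sum, RingHom.comp_apply, ← Finset.sum_add_distrib]
    rw [Finset.sum_comm]
    exact Finset.sum_congr rfl fun m _ => Finset.sum_congr rfl fun i _ => by ring
  have l₁ : ∑ i, C (l i) * X (Sum.inr i) ∈ prm ((algebraMap L E).comp c') a b := by
    rw [hR.prm_mem _ _ _ _ _ _ _ _ hlh, hev c' _ _ b₁]
    refine Finset.sum_eq_zero fun m _ => ?_
    rw [hl' (Alg.f3 m, 4), hl' (Alg.f3 m, 3), if_neg (by simp), if_neg (by simp)]
    simp
  have l₂ : ∑ i, C (l i) * X (Sum.inr i) ∉ prm ((algebraMap L E).comp (c'.comp cj)) a b := by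
    rw [hR.prm_mem _ _ _ _ _ _ _ _ hlh, hev (c'.comp cj) _ _ b₂]
    have h1 : ∀ m : Fin 3, ∑ i, l i * -ev2 c δ₂ (f.P 4 (Alg.f3 m)) (f.Q 4 (Alg.f3 m)) i =
        if m = 0 then -1 else 0 := fun m => by
      simp only [mul_neg, Finset.sum_neg_distrib, hl' (4, Alg.f3 m)]
      fin_cases m <;> simp [Alg.f3]
    have h2 : ∀ m : Fin 3, ∑ i, l i * -ev2 c δ₂ (f.P 3 (Alg.f3 m)) (f.Q 3 (Alg.f3 m)) i = 0 :=
      fun m => by
        simp only [mul_neg, Finset.sum_neg_distrib, hl' (3, Alg.f3 m)]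
        simp
    simp only [h1, h2]
    simp [Fin.sum_univ_three]
  have hadd := hSl.add ρ γ K₂ K φ₂ g i₀ _ _ _ 4 6 hg A₁.hom A₂.hom A₁.lin A₂.lin (hx A₁) (hx A₂)
    (hR.prm_hom _ _ _ _ _ _).2 hlh l₁ l₂ fun n => by rw [hf₂]; ring
  have hinf := hM.inf _ K₂ (bw (ρ × γ)) _ _ (fun w => by rcases w with w | w; exacts [Or.inl rfl, Or.inr rfl]) A₁.hom A₂.hom
  have A₃ : AdmF (ptI F i₀) I₂ (prm ((algebraMap L E).comp c') a b ⊓
      prm ((algebraMap L E).comp (c'.comp cj)) a b) := by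
    refine ⟨hinf.1, ?_, fun p hp => ⟨A₁.eq₁ p hp, A₂.eq₁ p hp⟩,
      fun p hp => ⟨A₁.eq₂ p hp, A₂.eq₂ p hp⟩⟩
    obtain ⟨C₁, h₁⟩ := A₁.lin
    obtain ⟨C₂, h₂⟩ := A₂.lin
    refine ⟨C₁ + C₂, fun d n => ?_⟩
    have h3 := hinf.2.2 (d, n)
    have h4 := h₁ d n
    have h5 := h₂ d n
    rw [add_mul]
    omega
  have hsp := hSl.split (ρ × γ) F K₂ E c f.d δ₂ _ _ a b hq e12 (by
    simp only [RingHom.comp_apply, hcjδ, map_neg])
  have hrat := hRa F (ρ × γ) K₂ L E I₂ f c c' δ₂ _ r u v a hq hq' hc.gen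
  have hone : Module.finrank (⊤ : Subfield E) E = 1 := by
    rw [← Subfield.relfinrank_top_right, Subfield.relfinrank_top_left]
  rw [← ha, valR, hrat, hone, ← hb, ← hφ₂, hSl.comp, ← RingHom.comp_assoc, hsp,
    hΦ.add _ _ _ (adm _ A₃) (adm _ A₁) (adm _ A₂) hadd, v₁, v₂]
  simp

end Pool.Agent.MP_d45d16_ag.Sp14
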