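import Pool.Agent.MP_d45d16_ag.sp.Spec
import Pool.Agent.MP_d45d16_ag.Res

/-!
From the abstract theorem to the variety of pure spinors.
-/

set_option autoImplicit false

open AlgebraicGeometry CategoryTheory Limits MvPolynomial

namespace Pool.Agent.MP_d45d16_ag.Sp14

open Yag

theorem psi2_stmt (hP : PsiStmt) : Psi2Stmt := by
  intro σ κ _ _ _ im eqs I him he h1 h2 h3
  exact hP PUnit σ κ
    { χ := fun _ => 1
      T := ∅
      inj := fun i hi => absurd hi (Finset.notMem_empty i)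
      im := im
      im_sq := him
      two := two_ne_zero
      eqs := eqs
      even := he } I h1 h2 h3

theorem span_r0 (F : Type) [Field F] :
    Ideal.span (Set.range (Pi.single r0 1 : S → F)) = ⊤ :=
  (Ideal.eq_top_iff_one _).mpr (Ideal.subset_span ⟨r0, by simp⟩)

/-- The frame and the invariant. -/
theorem data (hA : Asm2Stmt) (hE : Evg2Stmt) (hF : FrmStmt) (hT : TorStmt) (hC : CfgStmt)
    (hQ : EqsStmt) {F : Type} [Field F] [CharZero F] {I : Set (MvPolynomial S F)} (N : NF I) :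
    ∃ (f : BiFrame I) (Φ : Ideal (Pxy S F) → ZMod 2), GoodN (ptI F r0) I Φ ∧ ValC f r0 Φ := by
  obtain ⟨κ, K, _, _, _, _, ⟨W⟩⟩ := hT
  obtain ⟨D⟩ := hC F κ K I N W
  obtain ⟨f, h1, h2, h3⟩ := hF F I N
  have hq := hQ F κ K I N W D
  refine ⟨f, fun J => W.Φ (tr D.φ D.g r0 J),
    hA _ O O κ K F W.T W.Φ D.φ D.g r0 I W.good D.unit hq D.fix D.smul,
    hE _ O O κ K F W.T W.Φ D.φ D.g r0 I f D.δ D.X D.Y N.hom W.good D.unit hq D.fix D.smul
      (h1 ▸ D.hδ) D.fixδ fun k m => ?_⟩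
  rw [h2, h3]
  exact D.link k m

theorem final2 (hP : PtAPI) (hM : Main2Stmt) (hB : Amb2Stmt) {F : Type} [Field F] [CharZero F]
    {I : Set (MvPolynomial S F)} (hI : HomSet I)
    (h : ∃ (f : BiFrame I) (Φ : Ideal (Pxy S F) → ZMod 2), GoodN (ptI F r0) I Φ ∧ ValC f r0 Φ) :
    ¬ ResInj (Flag.quad I) := by
  obtain ⟨f, Φ, hΦ, hV⟩ := h
  let k := AlgebraicClosure F
  let M := (hB F S I r0 (span_r0 F) hI).toAmb
  let N := ((ambAPI hP).bc F k S M).toAmb
  have hq : M.IsBC N (pullback.fst _ _) := ⟨IsPullback.of_hasPullback _ _, rfl, rfl, rfl, rfl⟩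
  obtain ⟨G₁, G₂, G₃, hne, hz⟩ := hM F k S M N _ r0 f Φ hq rfl hΦ hV
  have hb : ∀ C : Curve (Flag.quad I), CurveBC (s := M.s) (s' := N.s) (pullback.fst _ _) C
      (C.f ≫ M.s) (algebraMap F k) (C.bc _) := fun C =>
    ⟨pullback.fst _ _, (IsPullback.of_hasPullback C.f _).paste_vert (IsPullback.of_hasPullback _ _),
      pullback.condition.symm⟩
  have hr : ∀ C : Curve (Flag.quad I), res (Flag.quad I) k (cls C) = cls (C.bc _) := fun _ => rfl
  have key : ∀ G₁ G₂ G₃ : Curve (Flag.quad I),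
      res (Flag.quad I) k (cls G₁ - cls G₂ - cls G₂ + cls G₃) =
      cls (G₁.bc _) - cls (G₂.bc _) - cls (G₂.bc _) + cls (G₃.bc _) := fun G₁ G₂ G₃ => by
    rw [map_add, map_sub, map_sub, hr, hr, hr]
  intro hi
  exact hne (hi ((key G₁ G₂ G₃).trans
    ((hz _ _ _ (hb G₁) (hb G₂) (hb G₃)).trans (map_zero (res (Flag.quad I) k)).symm)))

theorem assemble2 (hP : PtAPI) (hM : Main2Stmt) (hB : Amb2Stmt) (hA : Asm2Stmt) (hE : Evg2Stmt)
    (hF : FrmStmt) (hT : TorStmt) (hC : CfgStmt) (hQ : EqsStmt) (hN : NfStmt) :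
    ¬ ResInj (Flag.quad (forms gen (FF gen))) := by
  obtain ⟨N⟩ := hN
  have : CharZero L1 := charZero_of_injective_algebraMap (algebraMap ℂ L1).injective
  have : CharZero (FF gen) := N.c.charZero
  exact final2 hP hM hB N.hom (data hA hE hF hT hC hQ N)

end Pool.Agent.MP_d45d16_ag.Sp14
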