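import Pool.Agent.MP_d45d16_ag.sp.Spec
import Mathlib.Algebra.MvPolynomial.Funext

/-!
Linear substitutions in the function field, and invariant functions.
-/

set_option autoImplicit false

open MvPolynomial Matrix

namespace Pool.Agent.MP_d45d16_ag.Sp14

open Yag

namespace FixX

section Gen

variable {ι : Type} [Fintype ι] [DecidableEq ι]

/-- The substitution of the rows. -/
noncomputable def sb {R : Type} [CommRing R] [Algebra ℂ R] (A : ι → Matrix ι ι R) :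
    MvPolynomial (ι × ι) ℂ →ₐ[ℂ] MvPolynomial (ι × ι) R :=
  aeval fun ij => ∑ l, X (ij.1, l) * C (A ij.1 l ij.2)

omit [DecidableEq ι] in
theorem sb_X {R : Type} [CommRing R] [Algebra ℂ R] (A : ι → Matrix ι ι R) (i j : ι) :
    sb A (X (i, j)) = ∑ l, X (i, l) * C (A i l j) := by
  simp [sb]

theorem sb_comp (A B : ι → Matrix ι ι ℂ) (h : ∀ i, A i * B i = 1) :
    (sb A).comp (sb B) = AlgHom.id ℂ _ := by
  refine MvPolynomial.algHom_ext ?_
  rintro ⟨i, j⟩
  have hC : ∀ c : ℂ, sb A (C c) = C c := fun c => (sb A).commutes c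
  simp only [AlgHom.comp_apply, AlgHom.id_apply, sb_X, map_sum, map_mul, hC, Finset.sum_mul]
  rw [Finset.sum_comm]
  have : ∀ m, ∑ l, (X (i, m) : MvPolynomial (ι × ι) ℂ) * C (A i m l) * C (B i l j) =
      X (i, m) * C ((A i * B i) m j) := by
    intro m
    rw [Matrix.mul_apply, map_sum, Finset.mul_sum]
    refine Finset.sum_congr rfl fun l _ => ?_
    rw [map_mul, mul_assoc]
  simp only [this, h, Matrix.one_apply]
  rw [Finset.sum_eq_single j]
  · simp
  · intro m _ hm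
    simp [hm]
  · simp

omit [DecidableEq ι] in
theorem map_sb {R : Type} [CommRing R] [Algebra ℂ R] (φ : R →ₐ[ℂ] ℂ) (k : Matrix ι ι R)
    (p : MvPolynomial (ι × ι) ℂ) :
    MvPolynomial.map (φ : R →+* ℂ) (sb (fun _ => k) p) = sb (fun _ => k.map φ) p := by
  have : (MvPolynomial.mapAlgHom φ).comp (sb (fun _ => k)) = sb (fun _ => k.map φ) := by
    refine MvPolynomial.algHom_ext ?_
    rintro ⟨i, j⟩
    simp [sb_X]
  exact DFunLike.congr_fun this p

omit [DecidableEq ι] in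
theorem eval_sb {R Ω : Type} [CommRing R] [Algebra ℂ R] [CommRing Ω] [Algebra ℂ Ω]
    (θ : R →ₐ[ℂ] Ω) (g : Matrix ι ι Ω) (k : Matrix ι ι R)
    (j : MvPolynomial (ι × ι) ℂ →ₐ[ℂ] Ω) (hj : ∀ a b, j (X (a, b)) = (g * k.map θ) a b)
    (p : MvPolynomial (ι × ι) ℂ) :
    eval₂Hom (θ : R →+* Ω) (fun ab : ι × ι => g ab.1 ab.2) (sb (fun _ => k) p) = j p := by
  induction p using MvPolynomial.induction_on with
  | C c =>
    have h1 : sb (fun _ : ι => k) (C c) = C (algebraMap ℂ R c) := (sb _).commutes c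
    have h2 : j (C c) = algebraMap ℂ Ω c := j.commutes c
    rw [h1, h2, eval₂Hom_C]
    exact θ.commutes c
  | add p q hp hq => rw [map_add, map_add, map_add, hp, hq]
  | mul_X p n hp =>
    obtain ⟨a, b⟩ := n
    rw [map_mul, map_mul, map_mul, hp, hj, sb_X, Matrix.mul_apply, map_sum]
    congr 1
    refine Finset.sum_congr rfl fun l _ => ?_
    simp

end Gen

theorem sigma_alg (σ : L1 ≃ₐ[ℂ] L1) (A : S → Matrix S S ℂ)
    (h : ∀ i j, σ (gen i j) = ∑ l, gen i l * algebraMap ℂ L1 (A i l j))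
    (p : MvPolynomial (S × S) ℂ) :
    σ (algebraMap _ L1 p) = algebraMap _ L1 (sb A p) := by
  have : (σ : L1 →ₐ[ℂ] L1).comp (IsScalarTower.toAlgHom ℂ (MvPolynomial (S × S) ℂ) L1) =
      (IsScalarTower.toAlgHom ℂ (MvPolynomial (S × S) ℂ) L1).comp (sb A) := by
    refine MvPolynomial.algHom_ext ?_
    rintro ⟨i, j⟩
    have e : ∀ c : ℂ, algebraMap (MvPolynomial (S × S) ℂ) L1 (C c) = algebraMap ℂ L1 c :=
      fun c => (IsScalarTower.algebraMap_apply ℂ (MvPolynomial (S × S) ℂ) L1 c).symm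
    simp only [AlgHom.comp_apply, IsScalarTower.coe_toAlgHom', sb_X, map_sum, map_mul, e]
    exact h i j
  exact DFunLike.congr_fun this p

end FixX

open FixX

theorem sub_stmt : SubStmt := by
  intro A B h
  have h' : ∀ i, B i * A i = 1 := fun i => mul_eq_one_comm.mp (h i)
  let e : MvPolynomial (S × S) ℂ ≃ₐ[ℂ] MvPolynomial (S × S) ℂ :=
    AlgEquiv.ofAlgHom (sb A) (sb B) (sb_comp A B h) (sb_comp B A h')
  refine ⟨IsFractionRing.algEquivOfAlgEquiv e, fun i j => ?_⟩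
  have e0 : ∀ c : ℂ, algebraMap (MvPolynomial (S × S) ℂ) L1 (C c) = algebraMap ℂ L1 c :=
    fun c => (IsScalarTower.algebraMap_apply ℂ (MvPolynomial (S × S) ℂ) L1 c).symm
  have e1 : ∀ a b, gen a b = algebraMap (MvPolynomial (S × S) ℂ) L1 (X (a, b)) := fun _ _ => rfl
  have e2 : e (X (i, j)) = sb A (X (i, j)) := rfl
  rw [e1, IsFractionRing.algEquivOfAlgEquiv_algebraMap, e2, sb_X, map_sum]
  refine Finset.sum_congr rfl fun l _ => ?_
  rw [map_mul, e0, e1]

theorem fix_stmt (hCl : ClifAPI) (hSu : SubStmt) : FixStmt := by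
  intro Ω τ _ _ j₁ j₂ g θ k₁ k₂ hk₁ hk₂ hj₁ hj₂ z hz
  obtain ⟨a, b, hb, hab⟩ := IsFractionRing.div_surjective (A := MvPolynomial (S × S) ℂ) z
  have hb0 : algebraMap (MvPolynomial (S × S) ℂ) L1 b ≠ 0 :=
    IsFractionRing.to_map_ne_zero_of_mem_nonZeroDivisors hb
  have hz' : z * algebraMap _ L1 b = algebraMap _ L1 a := by
    rw [← hab, div_mul_cancel₀ _ hb0]
  have key : ∀ h ∈ Spin ℂ, z * algebraMap _ L1 (sb (fun _ => h) b) =
      algebraMap _ L1 (sb (fun _ => h) a) := by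
    intro h hh
    obtain ⟨k, ρ, ρ', hr⟩ := hCl.rel ℂ h hh
    obtain ⟨σ, hσ⟩ := hSu (fun _ => h) (fun _ => k) fun _ => hr.hk
    have hm : σ ∈ transl (gen : Matrix S S L1) := by
      refine ⟨h, hh, ?_⟩
      ext i j
      rw [Matrix.map_apply, hσ, Matrix.mul_apply]
      rfl
    have hf : σ z = z :=
      (IntermediateField.mem_fixedField_iff _ z).mp hz σ (Subgroup.subset_closure hm)
    rw [← sigma_alg σ _ hσ, ← sigma_alg σ _ hσ, ← hz', map_mul, hf]
  have hD : sb (fun _ => k₁) a * sb (fun _ => k₂) b - sb (fun _ => k₂) a * sb (fun _ => k₁) b =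
      0 := by
    ext1 m
    refine MvPolynomial.funext fun t => ?_
    have e : ∀ q : MvPolynomial τ ℂ, eval t q = ((aeval t : MvPolynomial τ ℂ →ₐ[ℂ] ℂ) :
      MvPolynomial τ ℂ →+* ℂ) q := fun q => rfl
    rw [e, ← coeff_map, map_sub, map_mul, map_mul, map_sb, map_sb, map_sb, map_sb]
    have s1 : k₁.map (aeval t) ∈ Spin ℂ := hCl.map _ _ ((aeval t : MvPolynomial τ ℂ →ₐ[ℂ] ℂ) :
      MvPolynomial τ ℂ →+* ℂ) k₁ hk₁
    have s2 : k₂.map (aeval t) ∈ Spin ℂ := hCl.map _ _ ((aeval t : MvPolynomial τ ℂ →ₐ[ℂ] ℂ) :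
      MvPolynomial τ ℂ →+* ℂ) k₂ hk₂
    have h1 := key _ s1
    have h2 := key _ s2
    have h3 : sb (fun _ => k₁.map (aeval t)) a * sb (fun _ => k₂.map (aeval t)) b -
        sb (fun _ => k₂.map (aeval t)) a * sb (fun _ => k₁.map (aeval t)) b = 0 := by
      apply IsFractionRing.injective (MvPolynomial (S × S) ℂ) L1
      rw [map_sub, map_mul, map_mul, map_zero, ← h1, ← h2]
      ring
    rw [h3]
    simp
  have ev : ∀ (j : L1 →ₐ[ℂ] Ω) (k : Matrix S S (MvPolynomial τ ℂ)), gen.map j = g * k.map θ →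
      ∀ p, eval₂Hom (θ : MvPolynomial τ ℂ →+* Ω) (fun ab : S × S => g ab.1 ab.2)
        (sb (fun _ => k) p) = j (algebraMap _ L1 p) := by
    intro j k hj p
    refine eval_sb θ g k (j.comp (IsScalarTower.toAlgHom ℂ (MvPolynomial (S × S) ℂ) L1)) ?_ p
    intro a b
    rw [← hj]
    rfl
  have hE := congrArg
    (eval₂Hom (θ : MvPolynomial τ ℂ →+* Ω) (fun ab : S × S => g ab.1 ab.2)) hD
  rw [map_sub, map_mul, map_mul, ev j₁ k₁ hj₁, ev j₂ k₂ hj₂, ev j₂ k₂ hj₂, ev j₁ k₁ hj₁,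
    map_zero, ← hz', map_mul, map_mul] at hE
  have n1 : j₁ (algebraMap _ L1 b) ≠ 0 := (map_ne_zero j₁).mpr hb0
  have n2 : j₂ (algebraMap _ L1 b) ≠ 0 := (map_ne_zero j₂).mpr hb0
  have : (j₁ z - j₂ z) * (j₁ (algebraMap _ L1 b) * j₂ (algebraMap _ L1 b)) = 0 := by
    rw [← hE]
    ring
  exact sub_eq_zero.mp ((mul_eq_zero.mp this).resolve_right (mul_ne_zero n1 n2))

end Pool.Agent.MP_d45d16_ag.Sp14
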