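import Pool.Agent.MP_d45d16_ag.sp.Spec
import Mathlib.RingTheory.Ideal.MinimalPrime.Localization

/-!
Dead rows, and divisibility by four at invariant primes.
-/

set_option autoImplicit false

open MvPolynomial Filter

namespace Pool.Agent.MP_d45d16_ag.Sp14

open Yag

namespace FourX

/-- An element of a minimal prime is nilpotent after localisation. -/
theorem min_pow {R : Type} [CommRing R] {I p : Ideal R} (hp : p ∈ I.minimalPrimes) {x : R}
    (hx : x ∈ p) : ∃ w ∉ p, ∃ n : ℕ, w * x ^ n ∈ I := by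
  obtain ⟨⟨hp₁, hp₂⟩, hp₃⟩ := hp
  have : p.map (algebraMap R (Localization.AtPrime p)) ≤ (I.map (algebraMap _ _)).radical := by
    rw [Ideal.radical_eq_sInf, le_sInf_iff]
    rintro q ⟨hq', hq⟩
    obtain ⟨h₁, h₂⟩ := ((IsLocalization.AtPrime.orderIsoOfPrime _ p) ⟨q, hq⟩).2
    rw [Ideal.map_le_iff_le_comap] at hq' ⊢
    exact hp₃ ⟨h₁, hq'⟩ h₂
  obtain ⟨n, hn⟩ := this (Ideal.mem_map_of_mem _ hx)
  rw [IsLocalization.mem_map_algebraMap_iff (M := p.primeCompl)] at hn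
  obtain ⟨⟨a, b⟩, hn⟩ := hn
  rw [← map_pow, ← map_mul, IsLocalization.eq_iff_exists p.primeCompl] at hn
  obtain ⟨t, ht⟩ := hn
  refine ⟨t * b, (t * b).2, n, ?_⟩
  simp only at ht
  have : (t.1 * b.1) * x ^ n = t.1 * a := by
    rw [← ht]; ring
  rw [this]
  exact I.mul_mem_left _ a.2

theorem nu_X {ρ γ K : Type} [Field K] (r : ρ) (j k : γ) :
    nu ρ γ K (X (r, j, k)) = X (r, j) * X (r, k) := by
  simp [nu]

theorem nu_C {ρ γ K : Type} [Field K] (c : K) : nu ρ γ K (C c) = C c := by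
  simp [nu]

theorem isW (σ : Type) : IsW (yw σ) := fun _ => Or.inr rfl

section

variable {A ρ γ κ K : Type} [Group A] [Fintype ρ] [Fintype γ] [Field κ] [Field K] [Algebra κ K]
  (T : Setup2 A ρ γ κ)

theorem eqs_mono {I p : Ideal (By (ρ × γ) K)} (h : T.Eqs I) (hle : I ≤ p) : T.Eqs p :=
  ⟨fun r r' => hle (h.row r r'), fun j k => hle (h.dia j k), fun j k hjk => hle (h.off j k hjk)⟩

theorem sum_csq :
    ∑ k, C (algebraMap κ K (T.β k)) * csq ρ K k k = ∑ r, T.nrm K r := by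
  simp only [csq, Setup2.nrm, Finset.mul_sum, pow_two]
  rw [Finset.sum_comm]

theorem dead [CharZero κ] (p : Ideal (By (ρ × γ) K)) (r₀ : ρ) (h : T.Eqs p)
    (h0 : ∀ j, X (r₀, j) ∈ p) : (∀ r, T.nrm K r ∈ p) ∧ ∀ j k, csq ρ K j k ∈ p := by
  have hn0 : T.nrm K r₀ ∈ p := by
    refine Ideal.sum_mem _ fun j _ => Ideal.mul_mem_left _ _ ?_
    exact Ideal.pow_mem_of_mem _ (h0 j) 2 (by norm_num)
  have hn : ∀ r, T.nrm K r ∈ p := fun r => by
    have := p.add_mem (h.row r r₀) hn0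
    rwa [sub_add_cancel] at this
  refine ⟨hn, fun j k => ?_⟩
  by_cases hjk : j = k
  swap
  · exact h.off j k hjk
  subst hjk
  have : CharZero K := charZero_of_injective_algebraMap (algebraMap κ K).injective
  have h1 : ∑ k, C (algebraMap κ K (T.β k)) * csq ρ K k k ∈ p := by
    rw [sum_csq]
    exact Ideal.sum_mem _ fun r _ => hn r
  have h2 : ∑ k, (C (algebraMap κ K (T.β j)) * csq ρ K j j -
      C (algebraMap κ K (T.β k)) * csq ρ K k k) ∈ p := Ideal.sum_mem _ fun k _ => h.dia j k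
  have h3 := p.add_mem h2 h1
  rw [Finset.sum_sub_distrib, sub_add_cancel, Finset.sum_const, Finset.card_univ,
    nsmul_eq_mul] at h3
  have hc : (Fintype.card γ : K) ≠ 0 := by
    have : Nonempty γ := ⟨j⟩
    exact_mod_cast Fintype.card_ne_zero
  have hb : algebraMap κ K (T.β j) ≠ 0 := by
    simpa using T.ne j
  have h4 := p.mul_mem_left (C ((Fintype.card γ : K) * algebraMap κ K (T.β j))⁻¹) h3
  have e : (C ((Fintype.card γ : K) * algebraMap κ K (T.β j))⁻¹ : By (ρ × γ) K) *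
      ((Fintype.card γ : By (ρ × γ) K) * (C (algebraMap κ K (T.β j)) * csq ρ K j j)) =
      csq ρ K j j := by
    rw [← map_natCast (C : K →+* By (ρ × γ) K), ← mul_assoc, ← mul_assoc, ← map_mul, ← map_mul,
      mul_assoc, inv_mul_cancel₀ (mul_ne_zero hc hb), map_one, one_mul]
  rwa [e] at h4

end

section

variable {ρ γ K : Type} [Field K] {s : PrimeSpectrum (By (ρ × γ × γ) K)}
  {p : Ideal (By (ρ × γ) K)}

theorem mem_iff (hc : p.comap (nu ρ γ K) = s.asIdeal) (z : By (ρ × γ × γ) K) :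
    z ∈ s.asIdeal ↔ nu ρ γ K z ∈ p := by
  rw [← hc, Ideal.mem_comap]

theorem dead_mem (hp : p.IsPrime) (hc : p.comap (nu ρ γ K) = s.asIdeal) {r : ρ}
    (hr : ¬ Alive s r) (j : γ) : X (r, j) ∈ p := by
  have h : X (r, j, j) ∈ s.asIdeal := by
    by_contra h
    exact hr ⟨j, h⟩
  rw [mem_iff hc, nu_X] at h
  exact (hp.mem_or_mem h).elim id id

end

section

variable {A ρ γ κ K : Type} [Group A] [Fintype ρ] [Fintype γ] [Field κ] [CharZero κ] [Field K]
  [Algebra κ K] [MulSemiringAction A K] (T : Setup2 A ρ γ κ)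

theorem two (hM : ModAPI) (hY : CydAPI) (I : Ideal (By (ρ × γ) K)) (hI : T.Adm I)
    (s : PrimeSpectrum (By (ρ × γ × γ) K)) (hs : s ∈ (cycD I).support) :
    ∃ r r', r ≠ r' ∧ Alive s r ∧ Alive s r' := by
  classical
  obtain ⟨p, hp, -, hle, hc⟩ := hY.lie ρ γ K I hI.hom hI.lin s hs
  by_cases hall : ∀ r, Alive s r
  · obtain ⟨h₁, -, r₀, r₁, -, -, -, hne, -⟩ := T.big 1
    exact ⟨r₀, r₁, fun h => hne (by rw [h]), hall _, hall _⟩
  obtain ⟨r₀, hr₀⟩ := not_forall.mp hall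
  have hd := (dead T p r₀ (eqs_mono T hI.eqs hle) (dead_mem hp hc hr₀)).2
  have hone : ∃ r, Alive s r := by
    by_contra hno
    have hcrv := ((hY.spec ρ γ K I hI.hom hI.lin).1.1 s hs).2
    refine (hM.nil (ρ × γ × γ) K s.asIdeal 1 fun v => ?_).2 hcrv
    obtain ⟨r, j, k⟩ := v
    rw [pow_one, mem_iff hc, nu_X]
    exact p.mul_mem_right _ (dead_mem hp hc (fun h => hno ⟨r, h⟩) j)
  obtain ⟨r, hr⟩ := hone
  by_contra hno
  obtain ⟨j, hj⟩ := hr
  apply hj
  rw [mem_iff hc, nu_X]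
  have h1 := hd j j
  rw [csq, ← Finset.add_sum_erase _ _ (Finset.mem_univ r)] at h1
  refine (Ideal.add_mem_iff_left _ ?_).mp h1
  refine Ideal.sum_mem _ fun r' hr' => p.mul_mem_right _ (dead_mem hp hc (fun h => ?_) j)
  exact hno ⟨r, r', (Finset.ne_of_mem_erase hr').symm, ⟨j, hj⟩, h⟩

theorem eqs (hY : CydAPI) (I : Ideal (By (ρ × γ) K)) (hI : T.Adm I)
    (s : PrimeSpectrum (By (ρ × γ × γ) K)) (hs : s ∈ (cycD I).support) (r₀ : ρ)
    (hr₀ : ¬ Alive s r₀) (r : ρ) (j : γ) :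
    ∑ k, C (algebraMap κ K (T.β k)) * X (r, j, k) ^ 2 ∈ s.asIdeal := by
  obtain ⟨p, hp, -, hle, hc⟩ := hY.lie ρ γ K I hI.hom hI.lin s hs
  have hd := (dead T p r₀ (eqs_mono T hI.eqs hle) (dead_mem hp hc hr₀)).1 r
  rw [mem_iff hc]
  have e : nu ρ γ K (∑ k, C (algebraMap κ K (T.β k)) * X (r, j, k) ^ 2) =
      X (r, j) ^ 2 * T.nrm K r := by
    simp only [map_sum, map_mul, map_pow, nu_X, nu_C, Setup2.nrm, Finset.mul_sum]
    exact Finset.sum_congr rfl fun k _ => by ring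
  rw [e]
  exact p.mul_mem_left _ hd

end

/-- The splitting of the multiplicity along a product of two elements which are comaximal at
`s`. -/
theorem len_split (hY : CydAPI) {ρ γ K : Type} [Field K] (I : Ideal (By (ρ × γ) K))
    (s : PrimeSpectrum (By (ρ × γ × γ) K)) (u v : By (ρ × γ) K) (w y : By (ρ × γ × γ) K)
    (hw : w ∉ s.asIdeal) (hy : y ∉ s.asIdeal) (huv : nu ρ γ K w * (u * v) ∈ I)
    (hyuv : nu ρ γ K y ∈ Ideal.span {u, v}) :
    lenD I s = lenD (I ⊔ Ideal.span {u}) s + lenD (I ⊔ Ideal.span {v}) s := by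
  rw [hY.len_add ρ γ K I u s]
  congr 1
  have hmem : nu ρ γ K w * v ∈ I ⊔ Ideal.span {nu ρ γ K w * v} :=
    Ideal.mem_sup_right (Ideal.mem_span_singleton_self _)
  have h1 : lenD (I ⊔ Ideal.span {nu ρ γ K w * v}) s = lenD (I.colon {u}) s := by
    refine hY.loc ρ γ K _ _ s (w * y) ?_ ?_ ?_
    · refine sup_le (fun f hf => ?_) ?_
      · rw [Submodule.mem_colon_singleton, smul_eq_mul]
        exact I.mul_mem_right _ hf
      · rw [Ideal.span_singleton_le_iff_mem, Submodule.mem_colon_singleton, smul_eq_mul]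
        have e : nu ρ γ K w * v * u = nu ρ γ K w * (u * v) := by ring
        rwa [e]
    · exact fun h => (s.isPrime.mem_or_mem h).elim hw hy
    · intro f hf
      rw [Submodule.mem_colon_singleton, smul_eq_mul] at hf
      obtain ⟨a, b, hab⟩ := Ideal.mem_span_pair.mp hyuv
      have e : nu ρ γ K (w * y) * f =
          (nu ρ γ K w * a) * (f * u) + (b * f) * (nu ρ γ K w * v) := by
        rw [map_mul, ← hab]; ring
      rw [e]
      exact Ideal.add_mem _ (Ideal.mem_sup_left (I.mul_mem_left _ hf))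
        (Ideal.mul_mem_left _ _ hmem)
  have h2 : lenD (I ⊔ Ideal.span {nu ρ γ K w * v}) s = lenD (I ⊔ Ideal.span {v}) s := by
    refine hY.loc ρ γ K _ _ s w ?_ hw ?_
    · refine sup_le_sup_left ?_ _
      rw [Ideal.span_singleton_le_iff_mem]
      exact Ideal.mul_mem_left _ _ (Ideal.mem_span_singleton_self _)
    · intro f hf
      obtain ⟨g, hg, h, hh, rfl⟩ := Submodule.mem_sup.mp hf
      obtain ⟨c, rfl⟩ := Ideal.mem_span_singleton'.mp hh
      have e : nu ρ γ K w * (g + c * v) = nu ρ γ K w * g + c * (nu ρ γ K w * v) := by ring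
      rw [e]
      exact Ideal.add_mem _ (Ideal.mem_sup_left (I.mul_mem_left _ hg))
        (Ideal.mul_mem_left _ _ hmem)
  rw [← h1, h2]

section

variable {A ρ γ κ K : Type} [Group A] [Fintype γ] [Field κ] [Field K]
  [MulSemiringAction A K] (T : Setup2 A ρ γ κ)

theorem act_X (a : A) (x : ρ × γ) :
    T.act a (X x : By (ρ × γ) K) = ((T.χ x.1 a : ℤˣ) : ℤ) • X x := by
  simp [Setup2.act]

theorem act_C (a : A) (c : K) : T.act a (C c : By (ρ × γ) K) = C (a • c) := by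
  simp [Setup2.act]

theorem act_lin (a : A) {r r' : ρ} (j : γ) {c : K} (hc : a • c = c) (hne : T.χ r a ≠ T.χ r' a) :
    T.act a (X (r, j) + C c * X (r', j) : By (ρ × γ) K) =
      ((T.χ r a : ℤˣ) : ℤ) • (X (r, j) + C (-c) * X (r', j)) := by
  have h : T.χ r' a = -T.χ r a := by
    rcases Int.units_eq_one_or (T.χ r a) with h | h <;>
      rcases Int.units_eq_one_or (T.χ r' a) with h' | h' <;> simp_all
  rw [map_add, map_mul, act_X, act_X, act_C, hc]
  simp only [h, Units.val_neg, map_neg, zsmul_eq_mul, Int.cast_neg]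
  ring

theorem act_sup {I : Ideal (By (ρ × γ) K)} (hst : ∀ (a : A), ∀ f ∈ I, T.act a f ∈ I) (a : A)
    {r r' : ρ} (j : γ) {c : K} (hc : a • c = c) (hne : T.χ r a ≠ T.χ r' a) (N : ℕ) :
    I ⊔ Ideal.span {(X (r, j) + C c * X (r', j)) ^ N} ≤
      (I ⊔ Ideal.span {(X (r, j) + C (-c) * X (r', j)) ^ N}).comap (T.act a) := by
  refine sup_le (fun f hf => Ideal.mem_sup_left (hst a f hf)) ?_
  rw [Ideal.span_singleton_le_iff_mem, Ideal.mem_comap, map_pow, act_lin T a j hc hne,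
    zsmul_eq_mul, mul_pow]
  exact Ideal.mul_mem_left _ _ (Ideal.mem_sup_right (Ideal.mem_span_singleton_self _))

theorem comap_eq (hSy : SymAPI) {I : Ideal (By (ρ × γ) K)}
    (hst : ∀ (a : A), ∀ f ∈ I, T.act a f ∈ I) (a : A)
    {r r' : ρ} (j : γ) {c : K} (hc : ∀ b : A, b • c = c) (hne : T.χ r a ≠ T.χ r' a) (N : ℕ) :
    (I ⊔ Ideal.span {(X (r, j) + C (-c) * X (r', j)) ^ N}).comap (T.act a) =
      I ⊔ Ideal.span {(X (r, j) + C c * X (r', j)) ^ N} := by
  refine le_antisymm (fun f hf => ?_) (act_sup T hst a j (hc a) hne N)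
  have hne' : T.χ r a⁻¹ ≠ T.χ r' a⁻¹ := by
    rw [map_inv, map_inv]
    exact fun h => hne (inv_injective h)
  have h1 := act_sup T hst a⁻¹ j (c := -c) (by rw [smul_neg, hc]) hne' N hf
  rw [Ideal.mem_comap, neg_neg, ← (hSy.mul A ρ γ κ K T a⁻¹ a f).1, inv_mul_cancel,
    (hSy.mul A ρ γ κ K T 1 1 f).2] at h1
  exact h1

end

theorem hom_lin {ρ γ K : Type} [Field K] (hM : ModAPI) (r r' : ρ) (j : γ) (c : K) (N : ℕ) :
    IsWeightedHomogeneous (yw (ρ × γ))
      ((X (r, j) + C c * X (r', j)) ^ N : By (ρ × γ) K) (0, N) := by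
  rw [hM.yw_iff]
  have h : (X (r, j) + C c * X (r', j) : By (ρ × γ) K).IsHomogeneous 1 :=
    (isHomogeneous_X K _).add ((isHomogeneous_X K _).C_mul c)
  simpa using h.pow N

theorem lin_mono {σ K : Type} [Finite σ] [Field K] (hH : HfAPI) {I J : Ideal (By σ K)}
    (hI : Lin (yw σ) I) (h : I ≤ J) : Lin (yw σ) J := by
  obtain ⟨C, hC⟩ := hI
  exact ⟨C, fun d n => (hH.mono σ K _ I J _ (isW σ) h).trans (hC d n)⟩

/-- Characters with values in signs which agree on the kernel of `η` and are different differ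
everywhere outside the kernel. -/
theorem chi_ne {A : Type} [Group A] {η χ χ' : A →* ℤˣ} (h : ∀ a, η a = 1 → χ a = χ' a)
    (hne : χ ≠ χ') {a : A} (ha : η a ≠ 1) : χ a ≠ χ' a := by
  obtain ⟨b, hb⟩ : ∃ b, χ b ≠ χ' b := by
    by_contra hno
    exact hne (MonoidHom.ext fun b => by_contra fun hb => hno ⟨b, hb⟩)
  have hb1 : η b ≠ 1 := fun h1 => hb (h b h1)
  have hab : η (a * b) = 1 := by
    rw [map_mul]
    rcases Int.units_eq_one_or (η a) with h1 | h1
    · exact absurd h1 ha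
    rcases Int.units_eq_one_or (η b) with h2 | h2
    · exact absurd h2 hb1
    rw [h1, h2]; simp
  intro hc
  have := h _ hab
  rw [map_mul, map_mul, hc] at this
  exact hb (mul_left_cancel this)

theorem four (hH : HfAPI) (hM : ModAPI) (hY : CydAPI) (hE : EvdAPI) (hSy : SymAPI)
    {A ρ γ κ K : Type} [Group A] [Fintype ρ] [Fintype γ] [Field κ] [CharZero κ] [Field K]
    [Algebra κ K] [MulSemiringAction A K] (T : Setup2 A ρ γ κ) (η : A →* ℤˣ)
    (I : Ideal (By (ρ × γ) K)) (s : PrimeSpectrum (By (ρ × γ × γ) K))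
    (hκ : ∀ (a : A) (c : κ), a • algebraMap κ K c = algebraMap κ K c)
    (hη : ∀ a, η a = 1 → ∀ c : K, a • c = c) (hI : T.Adm I)
    (hinv : ∀ a : A, s.comap (actB (ρ × γ × γ) a) = s) : 4 ∣ cycD I s := by
  classical
  have : CharZero K := charZero_of_injective_algebraMap (algebraMap κ K).injective
  by_cases hs : s ∈ (cycD I).support
  swap
  · rw [Finsupp.notMem_support_iff.mp hs]
    exact dvd_zero _
  by_cases hA : ∃ a, η a = 1 ∧ ∃ r₀ r₁, Alive s r₀ ∧ Alive s r₁ ∧ T.χ r₀ a ≠ T.χ r₁ a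
  · obtain ⟨a, ha, r₀, r₁, h0, h1, hne⟩ := hA
    refine hE.ev4 ρ γ K I s (fun r => T.χ r a) r₀ r₁ hI.hom hI.lin (fun f hf => ?_) h0 h1 hne
    rw [← hSy.sgn A ρ γ κ K T a f (hη a ha)]
    exact hI.stab a f hf
  have hB : ∀ r₀ r₁, Alive s r₀ → Alive s r₁ → ∀ a, η a = 1 → T.χ r₀ a = T.χ r₁ a :=
    fun r₀ r₁ h0 h1 a ha => by_contra fun hne => hA ⟨a, ha, r₀, r₁, h0, h1, hne⟩
  obtain ⟨r, r', hrr, hr, hr'⟩ := two T hM hY I hI s hs
  obtain ⟨a, ha⟩ : ∃ a, T.χ r a ≠ T.χ r' a := by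
    by_contra hno
    exact hrr (T.inj (MonoidHom.ext fun b => by_contra fun hb => hno ⟨b, hb⟩))
  have ha1 : η a ≠ 1 := fun h => ha (hB r r' hr hr' a h)
  have hoth : ∀ r'', r'' ≠ r → r'' ≠ r' → ¬ Alive s r'' := by
    intro r'' h1 h2 h3
    have e1 := chi_ne (hB r'' r h3 hr) (T.inj.ne h1) ha1
    have e2 := chi_ne (hB r'' r' h3 hr') (T.inj.ne h2) ha1
    rcases Int.units_eq_one_or (T.χ r a) with h | h <;>
      rcases Int.units_eq_one_or (T.χ r' a) with h' | h' <;>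
      rcases Int.units_eq_one_or (T.χ r'' a) with h'' | h'' <;> simp_all
  obtain ⟨r₀, hr₀⟩ : ∃ r₀, ¬ Alive s r₀ := by
    obtain ⟨h₁, -, r₀, r₁, -, hh, -, hne, -⟩ := T.big η
    by_contra hno
    exact hne (hB r₀ r₁ (by_contra fun h => hno ⟨_, h⟩) (by_contra fun h => hno ⟨_, h⟩) h₁ hh)
  obtain ⟨p, hp, -, hle, hc⟩ := hY.lie ρ γ K I hI.hom hI.lin s hs
  have hd := (dead T p r₀ (eqs_mono T hI.eqs hle) (dead_mem hp hc hr₀)).2
  obtain ⟨j, hj⟩ := hr
  have hz : X (r, j, j) + X (r', j, j) ∈ s.asIdeal := by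
    rw [mem_iff hc, map_add, nu_X, nu_X]
    have h1 := hd j j
    rw [csq, ← Finset.add_sum_erase _ _ (Finset.mem_univ r),
      ← Finset.add_sum_erase _ _ (Finset.mem_erase.mpr ⟨hrr.symm, Finset.mem_univ r'⟩),
      ← add_assoc] at h1
    refine (Ideal.add_mem_iff_left _ ?_).mp h1
    refine Ideal.sum_mem _ fun r'' hr'' => p.mul_mem_right _ (dead_mem hp hc ?_ j)
    exact hoth r'' (Finset.ne_of_mem_erase (Finset.mem_of_mem_erase hr''))
      (Finset.ne_of_mem_erase hr'')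
  obtain ⟨hcyc, hmin⟩ := hY.spec ρ γ K I hI.hom hI.lin
  obtain ⟨w, hw, N, hN⟩ := min_pow (hmin s hs) hz
  set c : K := algebraMap κ K T.im with hcdef
  have hc2 : c ^ 2 = -1 := by rw [hcdef, ← map_pow, T.im_sq, map_neg, map_one]
  set u : By (ρ × γ) K := X (r, j) + C c * X (r', j) with hu
  set v : By (ρ × γ) K := X (r, j) + C (-c) * X (r', j) with hv
  have huv : u * v = nu ρ γ K (X (r, j, j) + X (r', j, j)) := by
    have e : (C c : By (ρ × γ) K) ^ 2 = -1 := by rw [← map_pow, hc2, map_neg, map_one]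
    rw [map_add, nu_X, nu_X, hu, hv, map_neg]
    linear_combination (-(X (r', j) : By (ρ × γ) K) ^ 2) * e
  have hsplit := len_split hY I s (u ^ N) (v ^ N) w (X (r, j, j) ^ N) hw
    (fun h => hj (s.isPrime.mem_of_pow_mem _ h))
    (by rw [← mul_pow, huv, ← map_pow, ← map_mul]; exact hN)
    (by
      have h1 : (u + v) ^ (2 * N) ∈ Ideal.span {u ^ N, v ^ N} :=
        Ideal.add_pow_mem_of_pow_mem_of_le _ (Ideal.subset_span (by simp))
          (Ideal.subset_span (by simp)) (m := N) (n := N) (by omega)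
      have e : nu ρ γ K (X (r, j, j) ^ N) = C (2⁻¹ : K) ^ (2 * N) * (u + v) ^ (2 * N) := by
        have e2 : (C (2⁻¹ : K) : By (ρ × γ) K) * 2 = 1 := by
          rw [← map_ofNat (C : K →+* By (ρ × γ) K) 2, ← map_mul, inv_mul_cancel₀ two_ne_zero,
            map_one]
        have e3 : (C (2⁻¹ : K) : By (ρ × γ) K) * (u + v) = X (r, j) := by
          rw [hu, hv, map_neg]
          linear_combination (X (r, j) : By (ρ × γ) K) * e2
        rw [← mul_pow, e3, map_pow, nu_X, pow_mul, pow_two]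
      rw [e]
      exact Ideal.mul_mem_left _ _ h1)
  have hcrv := hcyc.1 s hs
  have hU : IsHom (yw (ρ × γ)) (I ⊔ Ideal.span {u ^ N}) :=
    hH.sup _ _ _ I _ _ hI.hom (hom_lin hM r r' j c N)
  have hV : IsHom (yw (ρ × γ)) (I ⊔ Ideal.span {v ^ N}) :=
    hH.sup _ _ _ I _ _ hI.hom (hom_lin hM r r' j (-c) N)
  have lU : Lin (yw (ρ × γ)) (I ⊔ Ideal.span {u ^ N}) := lin_mono hH hI.lin le_sup_left
  have lV : Lin (yw (ρ × γ)) (I ⊔ Ideal.span {v ^ N}) := lin_mono hH hI.lin le_sup_left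
  rw [hcyc.2 s hcrv, (hY.spec ρ γ K _ hU lU).1.2 s hcrv, (hY.spec ρ γ K _ hV lV).1.2 s hcrv]
    at hsplit
  have hsym := (hSy.comap A ρ γ κ K T _ a hV lV).2.2 s
  rw [hinv a, comap_eq T hSy hI.stab a j (fun b => hκ b T.im) ha N] at hsym
  obtain ⟨m, hm⟩ := hE.ev2 ρ γ K _ s hV lV
  have hn : cycD I s = cycD (I ⊔ Ideal.span {u ^ N}) s + cycD (I ⊔ Ideal.span {v ^ N}) s := by
    exact_mod_cast hsplit
  exact ⟨m, by rw [hn, hsym, hm]; ring⟩

end FourX

theorem fourAPI (hH : HfAPI) (hM : ModAPI) (hY : CydAPI) (hE : EvdAPI) (hSy : SymAPI) :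
    FourAPI where
  dead := fun _ _ _ _ _ _ _ _ _ _ _ _ T p r₀ h h0 => FourX.dead T p r₀ h h0
  two := fun _ _ _ _ _ _ _ _ _ _ _ _ _ T I hI s hs => FourX.two T hM hY I hI s hs
  eqs := fun _ _ _ _ _ _ _ _ _ _ _ _ _ T I hI s hs r₀ hr₀ r j => FourX.eqs T hY I hI s hs r₀ hr₀ r j
  four := fun _ _ _ _ _ _ _ _ _ _ _ _ _ T η I s h1 h2 h3 h4 =>
    FourX.four hH hM hY hE hSy T η I s h1 h2 h3 h4

end Pool.Agent.MP_d45d16_ag.Sp14
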