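import Pool.Agent.MP_d45d16_ag.sp.Spec
import Mathlib.FieldTheory.KummerPolynomial
import Mathlib.RingTheory.AdjoinRoot
import Mathlib.LinearAlgebra.LinearIndependent.BaseChange

/-!
The discriminant is not a square, and the normal form gives a pair of conjugate frames.
-/

set_option autoImplicit false

open MvPolynomial Matrix

namespace Pool.Agent.MP_d45d16_ag.Sp14

open Yag

namespace FrmX

theorem two_ne : (2 : L1) ≠ 0 := by
  have h : (2 : L1) = algebraMap ℂ L1 2 := (map_ofNat _ 2).symm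
  rw [h]
  exact (map_ne_zero _).mpr two_ne_zero

/-- Linear independence of the vectors `P + δ Q` does not depend on the field. -/
theorem indep_move {F ι κ L Ω : Type} [Field F] [Field L] [Field Ω] [Finite ι] (d : F)
    (hd : ¬ IsSquare d) (P Q : κ → ι → F) (c : F →+* L) (δ : L) (hδ : δ ^ 2 = c d)
    (c' : F →+* Ω) (δ' : Ω) (hδ' : δ' ^ 2 = c' d)
    (h : LinearIndependent L fun k => ev2 c δ (P k) (Q k)) :
    LinearIndependent Ω fun k => ev2 c' δ' (P k) (Q k) := by
  have hirr : Irreducible (Polynomial.X ^ 2 - Polynomial.C d : Polynomial F) :=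
    X_pow_sub_C_irreducible_of_prime Nat.prime_two fun b hb => hd ⟨b, by rw [← hb]; ring⟩
  have : Fact (Irreducible (Polynomial.X ^ 2 - Polynomial.C d : Polynomial F)) := ⟨hirr⟩
  have key : ∀ (M : Type) [Field M] (e : F →+* M) (s : M), s ^ 2 = e d →
      ((LinearIndependent M fun k => ev2 e s (P k) (Q k)) ↔
        LinearIndependent (AdjoinRoot (Polynomial.X ^ 2 - Polynomial.C d : Polynomial F))
          fun k => ev2 (AdjoinRoot.of (Polynomial.X ^ 2 - Polynomial.C d : Polynomial F))
            (AdjoinRoot.root _) (P k) (Q k)) := by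
    intro M _ e s hs
    have h0 : (Polynomial.X ^ 2 - Polynomial.C d : Polynomial F).eval₂ e s = 0 := by
      simp [hs]
    let : Algebra (AdjoinRoot (Polynomial.X ^ 2 - Polynomial.C d : Polynomial F)) M :=
      (AdjoinRoot.lift e s h0).toAlgebra
    have h1 : (fun k => ev2 e s (P k) (Q k)) = fun k =>
        algebraMap (AdjoinRoot (Polynomial.X ^ 2 - Polynomial.C d : Polynomial F)) M ∘
          ev2 (AdjoinRoot.of (Polynomial.X ^ 2 - Polynomial.C d : Polynomial F))
            (AdjoinRoot.root _) (P k) (Q k) := by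
      funext k i
      simp only [ev2, Function.comp_apply, RingHom.algebraMap_toAlgebra, map_add, map_mul,
        AdjoinRoot.lift_root, AdjoinRoot.lift_of]
    rw [h1]
    exact linearIndependent_algebraMap_comp_iff
  exact (key Ω c' δ' hδ').mpr ((key L c δ hδ).mp h)

theorem sw {K : Type} [Field K] (h2 : (2 : K) ≠ 0) {δ p q p' q' : K} (hδ : δ ≠ 0)
    (h : p + -δ * q = -(p' + δ * q')) (h' : p' + -δ * q' = -(p + δ * q)) : p' = -p ∧ q' = q := by
  constructor
  · apply mul_left_cancel₀ h2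
    linear_combination h + h'
  · apply mul_left_cancel₀ (mul_ne_zero h2 hδ)
    linear_combination h - h'

theorem prd {K : Type} [Field K] (h2 : (2 : K) ≠ 0) {δ d a b a₀ b₀ a₁ b₁ : K} (hδ : δ ≠ 0)
    (hd : δ ^ 2 = d) (h : a + δ * b = (a₀ + δ * b₀) * (a₁ + δ * b₁))
    (h' : a + -δ * b = (a₀ + -δ * b₀) * (a₁ + -δ * b₁)) :
    a = a₀ * a₁ + d * (b₀ * b₁) ∧ b = a₀ * b₁ + b₀ * a₁ := by
  constructor
  · apply mul_left_cancel₀ h2
    rw [← hd]
    linear_combination h + h'
  · apply mul_left_cancel₀ (mul_ne_zero h2 hδ)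
    linear_combination h - h'

end FrmX

open FrmX

theorem nsq_stmt (hCl : ClifAPI) (hG0 : G0Stmt) (hSu : SubStmt) (hG : GgAPI) : NsqStmt := by
  classical
  rintro F _ I N ⟨e, he⟩
  obtain ⟨h, hh, ζ, hζ, hrow⟩ := hG0
  obtain ⟨k, ρ, ρ', hrel⟩ := hCl.rel ℂ h hh
  have hζ0 : ζ ≠ 0 := by
    rintro rfl
    norm_num at hζ
  obtain ⟨σ, hσ⟩ := hSu
    (fun i => if i = r0 then diagonal (fun j => if j = r0 then ζ else 1) else h)
    (fun i => if i = r0 then diagonal (fun j => if j = r0 then ζ⁻¹ else 1) else k) (by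
      intro i
      by_cases hi : i = r0
      · simp only [if_pos hi, diagonal_mul_diagonal]
        rw [← diagonal_one]
        congr 1
        funext j
        by_cases hj : j = r0
        · simp [hj, hζ0]
        · simp [hj]
      · simp only [if_neg hi]
        exact hrel.hk)
  have h0 : ∀ j, σ (gen r0 j) = gen r0 j * algebraMap ℂ L1 (if j = r0 then ζ else 1) := by
    intro j
    rw [hσ, Finset.sum_eq_single j]
    · simp only [if_true, diagonal_apply_eq]
    · intro l _ hl
      simp only [if_true, diagonal_apply_ne _ hl, map_zero, mul_zero]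
    · intro hj
      exact absurd (Finset.mem_univ j) hj
  have hlam : σ lam = lam * algebraMap ℂ L1 ζ := by
    have := h0 r0
    rwa [if_pos rfl] at this
  have hgg : gg.map (σ : L1 →ₐ[ℂ] L1) = gg * h.map (algebraMap ℂ L1) := by
    ext i j
    rw [map_apply, mul_apply]
    by_cases hi : i = r0
    · subst hi
      have hr : h r0 j = ζ * (Pi.single r0 1 : S → ℂ) j := by rw [hrow]; rfl
      rw [Finset.sum_eq_single r0]
      · rw [map_apply, hr]
        by_cases hj : j = r0
        · subst hj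
          simp only [gg, of_apply, if_true, Pi.single_eq_same, mul_one]
          exact hlam
        · simp only [gg, of_apply, if_true, if_neg hj, Pi.single_eq_of_ne hj, mul_zero, map_zero]
      · intro l _ hl
        simp only [gg, of_apply, if_true, if_neg hl, zero_mul]
      · intro hj
        exact absurd (Finset.mem_univ _) hj
    · have := hσ i j
      simp only [if_neg hi] at this
      simp only [gg, of_apply, if_neg hi, map_apply]
      exact this
  have hth : ∀ z, (σ : L1 →ₐ[ℂ] L1) (th z) =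
      th (aeval (fun r : S => C (if r = r0 then ζ else 1) * (X r : MvPolynomial S ℂ)) z) := by
    have : (σ : L1 →ₐ[ℂ] L1).comp th =
        th.comp (aeval fun r : S => C (if r = r0 then ζ else 1) * (X r : MvPolynomial S ℂ)) := by
      refine MvPolynomial.algHom_ext fun r => ?_
      simp only [AlgHom.comp_apply, th, aeval_X, map_mul, aeval_C]
      rw [mul_comm]
      exact h0 r
    intro z
    exact AlgHom.congr_fun this z
  have hfix := N.fix σ h _ hh hgg hth e
  have hl : lam ≠ 0 := hG.row.2.2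
  have hsq : N.c e ^ 2 = (lam ^ 4) ^ 2 := by
    rw [← map_pow, pow_two e, ← he, N.hd]
    ring
  have h4 : (σ : L1 →ₐ[ℂ] L1) (lam ^ 4) = -lam ^ 4 := by
    have h5 : (σ : L1 →ₐ[ℂ] L1) lam = lam * algebraMap ℂ L1 ζ := hlam
    rw [map_pow, h5, mul_pow, ← map_pow, hζ, map_neg, map_one]
    ring
  have h6 : (σ : L1 →ₐ[ℂ] L1) (lam ^ 4) = lam ^ 4 := by
    rcases sq_eq_sq_iff_eq_or_eq_neg.mp hsq with h7 | h7
    · rwa [h7] at hfix
    · rw [h7, map_neg, neg_inj] at hfix
      exact hfix
  refine mul_ne_zero two_ne (pow_ne_zero 4 hl) ?_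
  linear_combination h4 - h6

theorem frm_stmt (hG : GgAPI) (hNq : NsqStmt) (hSa : SatAPI) : FrmStmt := by
  classical
  intro F _ I N
  have hl : lam ≠ 0 := hG.row.2.2
  have hδ : lam ^ 4 ≠ 0 := pow_ne_zero 4 hl
  have hd : (lam ^ 4) ^ 2 = N.c N.d := by
    rw [N.hd]
    ring
  have hinj := N.c.injective
  have hsw : ∀ k m i, N.c (N.P k m i) + -lam ^ 4 * N.c (N.Q k m i) =
      -(N.c (N.P m k i) + lam ^ 4 * N.c (N.Q m k i)) := by
    intro k m i
    have h1 := congrFun (N.hE' k m) i
    have h2 := congrFun (N.hE m k) i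
    simp only [ev2] at h1 h2
    rw [h1, h2, smul_vecMul, smul_vecMul]
    simp only [Pi.smul_apply, smul_eq_mul]
    ring
  have hnorm : ∀ k, N.c (N.a k ^ 2 - N.d * N.b k ^ 2) =
      X7 gg k ⬝ᵥ X7 gg k * (Y7 gg k ⬝ᵥ Y7 gg k) := by
    intro k
    rw [← N.hp, ← N.hm]
    simp only [ev2, map_sub, map_mul, map_pow, ← hd]
    ring
  have hprd : ∀ k l m, X7 gg k ⬝ᵥ X7 gg k = X7 gg l ⬝ᵥ X7 gg l * (X7 gg m ⬝ᵥ X7 gg m) →
      Y7 gg k ⬝ᵥ Y7 gg k = Y7 gg l ⬝ᵥ Y7 gg l * (Y7 gg m ⬝ᵥ Y7 gg m) →
      N.a k = N.a l * N.a m + N.d * (N.b l * N.b m) ∧ N.b k = N.a l * N.b m + N.b l * N.a m := by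
    intro k l m h1 h2
    simp only [← N.hp] at h1
    simp only [← N.hm] at h2
    simp only [ev2] at h1 h2
    obtain ⟨h3, h4⟩ := prd two_ne hδ hd h1 h2
    refine ⟨hinj ?_, hinj ?_⟩
    · simp only [map_add, map_mul]
      exact h3
    · simp only [map_add, map_mul]
      exact h4
  have hind : LinearIndependent L1 fun km : Fin 7 × Fin 7 =>
      ev2 N.c (lam ^ 4) (N.P km.1 km.2) (N.Q km.1 km.2) := by
    have hu : (-4 * lam ^ 5 : L1) ≠ 0 := by
      refine mul_ne_zero (neg_ne_zero.mpr ?_) (pow_ne_zero 5 hl)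
      have : (4 : L1) = 2 * 2 := by norm_num
      rw [this]
      exact mul_ne_zero two_ne two_ne
    have hdet : IsUnit (gg : Matrix S S L1).det := (isUnit_iff_isUnit_det _).mp hG.unit.2
    have hker : LinearMap.ker ((-4 * lam ^ 5 : L1) • (gg⁻¹ : Matrix S S L1).vecMulLinear) = ⊥ := by
      rw [LinearMap.ker_eq_bot']
      intro v hv
      rw [LinearMap.smul_apply, vecMulLinear_apply, smul_eq_zero] at hv
      rcases hv with hv | hv
      · exact absurd hv hu
      · have h1 : (v ᵥ* gg⁻¹) ᵥ* gg = v := by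
          rw [vecMul_vecMul, nonsing_inv_mul _ hdet, vecMul_one]
        rw [← h1, hv, zero_vecMul]
    have h2 := hG.indep.map' _ hker
    have h3 : (fun km : Fin 7 × Fin 7 => ev2 N.c (lam ^ 4) (N.P km.1 km.2) (N.Q km.1 km.2)) =
        ((-4 * lam ^ 5 : L1) • (gg⁻¹ : Matrix S S L1).vecMulLinear) ∘
          fun km : Fin 7 × Fin 7 => tens (X7 gg km.1) (Y7 gg km.2) := by
      funext km
      rw [N.hE, Function.comp_apply, LinearMap.smul_apply, vecMulLinear_apply, smul_vecMul]
    rw [h3]
    exact h2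
  refine ⟨{ d := N.d, a := N.a, b := N.b, P := N.P, Q := N.Q
            anti := fun k m i => hinj ?_
            symm := fun k m i => hinj ?_
            ne := fun k hk => ?_
            two := hprd 2 0 1 (Frm.fr_two _ _ _) (Frm.fr_two _ _ _)
            four := hprd 4 0 3 (Frm.fr_four _ _ _) (Frm.fr_four _ _ _)
            indep := fun Ω _ c δ hc => indep_move N.d (hNq F I N)
              (fun km : Fin 7 × Fin 7 => N.P km.1 km.2) (fun km => N.Q km.1 km.2) N.c (lam ^ 4) hd
              c δ hc hind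
            sat₁ := fun C _ c δ w w' => hSa.sat₁ F I N C c δ w w'
            sat₂ := fun C _ c δ r r' w => hSa.sat₂ F I N C c δ r r' w
            nsq := hNq F I N
            ns := ⟨L1, inferInstance, N.c, lam ^ 4, hd, ?_, ?_, ?_⟩ }, rfl, rfl, rfl⟩
  · rw [map_neg]
    exact (sw two_ne hδ (hsw k m i) (hsw m k i)).1
  · exact (sw two_ne hδ (hsw k m i) (hsw m k i)).2
  · have h1 := hnorm k
    rw [hk, map_zero] at h1
    exact mul_ne_zero (hG.neX k) (hG.neY k) h1.symm
  · rw [N.hp]
    exact hG.nsX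
  · rw [N.hm]
    exact hG.nsY
  · rw [hnorm]
    exact hG.nsXY

end Pool.Agent.MP_d45d16_ag.Sp14
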