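import Pool.Agent.MP_d45d16_ag.sp.Spec
import Pool.Agent.MP_d45d16_ag.yag.Ev

/-!
GG: the generic matrix in normal form.
-/

set_option autoImplicit false

open MvPolynomial Matrix

namespace Pool.Agent.MP_d45d16_ag.Sp14

open Yag

namespace GgX

/-- The coordinate ring of the matrices. -/
abbrev R1 : Type := MvPolynomial (S × S) ℂ

theorem inj : Function.Injective (algebraMap R1 L1) := IsFractionRing.injective R1 L1

/-- Evaluation at the identity matrix. -/
noncomputable def evI : R1 →+* ℂ := eval fun p => if p.1 = p.2 then 1 else 0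

theorem unit_of (M : Matrix S S R1) (h : M.map evI = 1) : IsUnit (M.map (algebraMap R1 L1)) := by
  rw [Matrix.isUnit_iff_isUnit_det, isUnit_iff_ne_zero, ← RingHom.mapMatrix_apply,
    ← RingHom.map_det, map_ne_zero_iff _ inj]
  intro h3
  have h4 := RingHom.map_det evI M
  rw [RingHom.mapMatrix_apply, h, h3, det_one, map_zero] at h4
  exact zero_ne_one h4

/-- The polynomial matrix. -/
noncomputable def ggP : Matrix S S R1 :=
  Matrix.of fun i j => if i = r0 then (if j = r0 then X (r0, r0) else 0) else X (i, j)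

theorem gg_eq : gg = ggP.map (algebraMap R1 L1) := by
  ext i j
  simp only [gg, ggP, of_apply, map_apply]
  split_ifs
  · rfl
  · exact (map_zero _).symm
  · rfl

theorem pr_ne (i : Fin 3) : pr i ≠ r0 := by simp [pr, r0]

theorem gg_zero : gg r0 r0 = lam := by simp [gg]

theorem gg_pr (i : Fin 3) (j : S) : gg (pr i) j = algebraMap R1 L1 (X (pr i, j)) := by
  simp only [gg, of_apply, if_neg (pr_ne i)]
  rfl

/-- The first three vectors. -/
noncomputable def xP (i : Fin 3) : Fin 7 → R1 :=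
  fun a => X (r0, r0) ^ 3 * X (pr i, (some a, none))

/-- The second three vectors. -/
noncomputable def yP (i : Fin 3) : Fin 7 → R1 :=
  fun a => -(X (r0, r0) ^ 3 * X (pr i, (none, some a)))

theorem X7_eq (k : Fin 7) : X7 gg k = algebraMap R1 L1 ∘ Frm.fr (xP 0) (xP 1) (xP 2) k := by
  have h : ∀ i, (fun a => gg r0 r0 ^ 3 * gg (pr i) (some a, none)) = algebraMap R1 L1 ∘ xP i := by
    intro i
    ext a
    rw [gg_zero, gg_pr, Function.comp_apply, xP, map_mul, map_pow]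
    rfl
  rw [X7, h, h, h, (Frm.pres_map _).fr]

theorem Y7_eq (k : Fin 7) : Y7 gg k = algebraMap R1 L1 ∘ Frm.fr (yP 0) (yP 1) (yP 2) k := by
  have h : ∀ i, (fun a => -(gg r0 r0 ^ 3 * gg (pr i) (none, some a)))
      = algebraMap R1 L1 ∘ yP i := by
    intro i
    ext a
    rw [gg_zero, gg_pr, Function.comp_apply, yP, map_neg, map_mul, map_pow]
    rfl
  rw [Y7, h, h, h, (Frm.pres_map _).fr]

theorem norm_ne (p : Fin 3 → Fin 7 → R1) (ev : R1 →+* ℂ)
    (h : ∀ i a, ev (p i a) = if a = Alg.f3 i then 1 else 0) (k : Fin 7) :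
    (algebraMap R1 L1 ∘ Frm.fr (p 0) (p 1) (p 2) k) ⬝ᵥ
      (algebraMap R1 L1 ∘ Frm.fr (p 0) (p 1) (p 2) k) ≠ 0 := by
  intro h0
  rw [(Frm.pres_map _).dot, map_eq_zero_iff _ inj] at h0
  have h1 : ∀ i, ev ∘ p i = Int.castRingHom ℂ ∘ (Pi.single (Alg.f3 i) 1 : Fin 7 → ℤ) := fun i => by
    ext a
    rw [Function.comp_apply, h]
    by_cases hk : a = Alg.f3 i
    · subst hk; simp
    · simp [hk]
  have h2 := congrArg ev h0
  rw [← (Frm.pres_map ev).dot, ← (Frm.pres_map ev).fr, h1, h1, h1, (Frm.pres_map _).fr,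
    (Frm.pres_map _).dot] at h2
  have h3 := Frm.fr_std k
  rw [show Alg.f3 0 = 0 from rfl, show Alg.f3 1 = 1 from rfl, show Alg.f3 2 = 2 from rfl, h3] at h2
  simp at h2

/-- The evaluation used for the second frame. -/
noncomputable def evY : R1 →+* ℂ :=
  eval fun p => if p.1 = r0 then 1 else if p.2.2 = p.1.1 then -1 else 0

theorem not_isSquare {p : R1} (φ : R1 →+* Polynomial ℂ) (h : (φ p).natDegree = 1) :
    ¬ IsSquare (algebraMap R1 L1 p) := by
  rintro ⟨y, hy⟩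
  have h1 : y ^ 2 = algebraMap R1 L1 p := by rw [hy, sq]
  obtain ⟨u, hu⟩ := IsIntegrallyClosed.exists_algebraMap_eq_of_isIntegral_pow (R := R1)
    two_pos (h1 ▸ isIntegral_algebraMap)
  rw [← hu, ← map_pow, inj.eq_iff] at h1
  rw [← h1, map_pow, Polynomial.natDegree_pow] at h
  omega

/-- A specialisation to one variable. -/
noncomputable def spec (s t : Fin 7 → Polynomial ℂ) : R1 →+* Polynomial ℂ :=
  eval₂Hom Polynomial.C fun p => if p.1 = r0 then 1 else p.2.1.elim (p.2.2.elim 0 t) s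

theorem spec_x (s t : Fin 7 → Polynomial ℂ) : spec s t (xP 0 ⬝ᵥ xP 0) = s ⬝ᵥ s := by
  simp [spec, xP, dotProduct, pr_ne]

theorem spec_y (s t : Fin 7 → Polynomial ℂ) : spec s t (yP 0 ⬝ᵥ yP 0) = t ⬝ᵥ t := by
  simp [spec, yP, dotProduct, pr_ne]

theorem X7_zero : X7 gg 0 ⬝ᵥ X7 gg 0 = algebraMap R1 L1 (xP 0 ⬝ᵥ xP 0) := by
  rw [X7_eq, (Frm.pres_map _).dot, Frm.fr_zero]

theorem Y7_zero : Y7 gg 0 ⬝ᵥ Y7 gg 0 = algebraMap R1 L1 (yP 0 ⬝ᵥ yP 0) := by
  rw [Y7_eq, (Frm.pres_map _).dot, Frm.fr_zero]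

theorem tens_dot {R : Type} [CommRing R] (x y x' y' : Fin 7 → R) :
    tens x y ⬝ᵥ tens x' y' = (x ⬝ᵥ x') * (y ⬝ᵥ y') := by
  have h : ∀ a b : Fin 7 → R, ∑ o, oe a o * oe b o = a ⬝ᵥ b := fun a b => by
    simp [oe, Fintype.sum_option, dotProduct]
  rw [← h, ← h, Finset.sum_mul_sum, dotProduct, Fintype.sum_prod_type]
  refine Finset.sum_congr rfl fun o _ => Finset.sum_congr rfl fun o' _ => ?_
  simp only [tens]
  ring

theorem neX (k : Fin 7) : X7 gg k ⬝ᵥ X7 gg k ≠ 0 := by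
  rw [X7_eq]
  refine norm_ne xP evI (fun i a => ?_) k
  simp [evI, xP, pr, eq_comm]

theorem neY (k : Fin 7) : Y7 gg k ⬝ᵥ Y7 gg k ≠ 0 := by
  rw [Y7_eq]
  refine norm_ne yP evY (fun i a => ?_) k
  have h := pr_ne i
  by_cases ha : a = Alg.f3 i
  · simp [evY, yP, h, ha]; simp [pr]
  · simp [evY, yP, h, ha]; simp [pr, ha]

end GgX

open GgX

theorem ggAPI : GgAPI := by
  have h4 : (Polynomial.C 4 * Polynomial.X : Polynomial ℂ).natDegree = 1 :=
    Polynomial.natDegree_C_mul_X _ (by norm_num)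
  refine ⟨⟨?_, ?_⟩, ⟨?_, gg_zero, ?_⟩, neX, neY, ?_, ?_, ?_, ?_⟩
  · refine unit_of (Matrix.of fun i j => X (i, j)) ?_
    ext i j
    simp [evI, one_apply]
  · rw [gg_eq]
    refine unit_of ggP ?_
    ext i j
    simp only [ggP, map_apply, of_apply, one_apply]
    by_cases hi : i = r0
    · by_cases hj : j = r0
      · simp [hi, hj, evI]
      · simp [hi, hj, Ne.symm hj]
    · simp [hi, evI]
  · ext j
    by_cases hj : j = r0
    · simp [hj]
    · simp [gg, hj]
  · exact (map_ne_zero_iff _ inj).2 (X_ne_zero _)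
  · rw [X7_zero, ← map_neg]
    refine not_isSquare (spec Frm.s1 Frm.s1) ?_
    rw [map_neg, spec_x, Frm.s1_norm, Polynomial.natDegree_neg, h4]
  · rw [Y7_zero, ← map_neg]
    refine not_isSquare (spec Frm.s1 Frm.s1) ?_
    rw [map_neg, spec_y, Frm.s1_norm, Polynomial.natDegree_neg, h4]
  · rw [X7_zero, Y7_zero, ← map_mul]
    refine not_isSquare (spec Frm.s1 (Pi.single 0 1)) ?_
    rw [map_mul, spec_x, spec_y, Frm.s1_norm, single_dotProduct, Pi.single_eq_same, mul_one,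
      mul_one, h4]
  · rw [Fintype.linearIndependent_iff]
    intro c hc l
    have h3 := congrArg (tens (X7 gg l.1) (Y7 gg l.2) ⬝ᵥ ·) hc
    simp only [dotProduct_sum, dotProduct_smul, smul_eq_mul, dotProduct_zero, tens_dot] at h3
    rw [Finset.sum_eq_single l (fun k _ hk => ?_) (fun h => absurd (Finset.mem_univ l) h)] at h3
    · exact (mul_eq_zero.mp h3).resolve_right (mul_ne_zero (neX _) (neY _))
    · by_cases h1 : l.1 = k.1
      · have h2 : l.2 ≠ k.2 := fun h2 => hk (Prod.ext h1 h2).symm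
        rw [Y7, Frm.fr_orth _ _ _ _ _ h2, mul_zero, mul_zero]
      · rw [X7, Frm.fr_orth _ _ _ _ _ h1, zero_mul, mul_zero]

end Pool.Agent.MP_d45d16_ag.Sp14
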