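import Pool.Agent.MP_d45d16_ag.sp.Spec
import Pool.Agent.MP_d45d16_ag.yag.Hf2

/-!
The Hilbert function of a pair of conjugate conics, and the birationality of the conic.
-/

set_option autoImplicit false

namespace Pool.Agent.MP_d45d16_ag.Sp14

open Yag

namespace HfcX

/-- The span of the coordinates of a combination of independent vectors is the span of the
coefficients. -/
theorem span_comb {F E ι κ : Type} [Field F] [Field E] [Algebra F E] [Finite ι] [Fintype κ]
    (v : κ → ι → F) (hv : LinearIndependent F v) (w : κ → E) (b : ι → E)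
    (hb : ∀ i, b i = ∑ k, w k * algebraMap F E (v k i)) :
    Submodule.span F (Set.range b) = Submodule.span F (Set.range w) := by
  classical
  have := Fintype.ofFinite ι
  apply le_antisymm
  · rw [Submodule.span_le]
    rintro _ ⟨i, rfl⟩
    rw [hb]
    refine Submodule.sum_mem _ fun k _ => ?_
    rw [mul_comm, ← Algebra.smul_def]
    exact Submodule.smul_mem _ _ (Submodule.subset_span ⟨k, rfl⟩)
  · rw [Submodule.span_le]
    rintro _ ⟨l, rfl⟩
    obtain ⟨G, hG⟩ := (Fintype.linearCombination F v).exists_leftInverse_of_injective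
      (LinearMap.ker_eq_bot.2 (linearIndependent_iff_injective_fintypeLinearCombination.1 hv))
    have h1 : ∀ k, ∑ i, v k i * G (fun j => if i = j then 1 else 0) l =
        if k = l then 1 else 0 := by
      intro k
      have h2 := congrFun (LinearMap.congr_fun hG (Pi.single k 1)) l
      rw [LinearMap.comp_apply, Fintype.linearCombination_apply_single, one_smul,
        LinearMap.pi_apply_eq_sum_univ, Finset.sum_apply] at h2
      simpa [Pi.single_apply, eq_comm] using h2
    have h3 : w l = ∑ i, G (fun j => if i = j then 1 else 0) l • b i := by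
      simp only [hb, Finset.smul_sum]
      rw [Finset.sum_comm]
      have h4 : ∀ k, ∑ i, G (fun j => if i = j then 1 else 0) l • (w k * algebraMap F E (v k i)) =
          if k = l then w k else 0 := by
        intro k
        have h5 := congrArg (fun t => w k * algebraMap F E t) (h1 k)
        simp only [map_sum, map_mul, Finset.mul_sum] at h5
        rw [apply_ite (algebraMap F E), map_one, map_zero, mul_ite, mul_one, mul_zero] at h5
        rw [← h5]
        refine Finset.sum_congr rfl fun i _ => ?_
        rw [Algebra.smul_def]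
        ring
      simp [h4]
    rw [SetLike.mem_coe, h3]
    exact Submodule.sum_mem _ fun i _ => Submodule.smul_mem _ _ (Submodule.subset_span ⟨i, rfl⟩)

/-- The span over the small field of `u` and `r u` is the span of `u` over the quadratic
extension. -/
theorem span_quad {K L E τ : Type} [Field K] [Field L] [Field E] [Algebra K L] [Algebra L E]
    [Algebra K E] [IsScalarTower K L E] {β : K} {r : L} (h : Quad (algebraMap K L) β r)
    (u : τ → E) :
    Submodule.span K (Set.range (Sum.elim u fun l => u l * algebraMap L E r)) =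
      (Submodule.span L (Set.range u)).restrictScalars K := by
  apply le_antisymm
  · rw [Submodule.span_le]
    rintro _ ⟨k | k, rfl⟩
    · exact Submodule.subset_span ⟨k, rfl⟩
    · change u k * algebraMap L E r ∈ Submodule.span L (Set.range u)
      rw [mul_comm, ← Algebra.smul_def]
      exact Submodule.smul_mem _ _ (Submodule.subset_span ⟨k, rfl⟩)
  · intro z hz
    rw [Submodule.restrictScalars_mem] at hz
    have hr : ∀ a ∈ Submodule.span K (Set.range (Sum.elim u fun l => u l * algebraMap L E r)),
        algebraMap L E r * a ∈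
          Submodule.span K (Set.range (Sum.elim u fun l => u l * algebraMap L E r)) := by
      refine Evg.mul_mem_span _ _ ?_
      rintro (k | k)
      · exact Submodule.subset_span ⟨Sum.inr k, mul_comm _ _⟩
      · have e : algebraMap L E r * (u k * algebraMap L E r) = β • u k := by
          rw [Algebra.smul_def, IsScalarTower.algebraMap_apply K L E, ← h.sq, map_pow]
          ring
        change algebraMap L E r * (u k * algebraMap L E r) ∈ _
        rw [e]
        exact Submodule.smul_mem _ _ (Submodule.subset_span ⟨Sum.inl k, rfl⟩)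
    induction hz using Submodule.span_induction with
    | mem b hb =>
      obtain ⟨k, rfl⟩ := hb
      exact Submodule.subset_span ⟨Sum.inl k, rfl⟩
    | zero => exact zero_mem _
    | add a b _ _ ha hb => exact add_mem ha hb
    | smul l z _ hz =>
      obtain ⟨s, t, rfl⟩ := h.gen l
      have e : (algebraMap K L s + algebraMap K L t * r) • z =
          s • z + t • (algebraMap L E r * z) := by
        simp only [Algebra.smul_def, map_add, map_mul, IsScalarTower.algebraMap_apply K L E]
        ring
      rw [e]
      exact add_mem (Submodule.smul_mem _ _ hz) (Submodule.smul_mem _ _ (hr z hz))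

/-- The symmetric and antisymmetric parts of a pair of frames are independent. -/
theorem indep_PQ {F ι K κ : Type} [Field F] [CharZero F] [Field K] [Fintype κ]
    {I : Set (MvPolynomial ι F)} (f : BiFrame I) {c : F →+* K} {δ : K} (h : Quad c f.d δ)
    (j : κ → Fin 7 × Fin 7) (hj : Function.Injective (Sum.elim j fun a => (j a).swap)) :
    LinearIndependent F (Sum.elim (fun a => f.P (j a).1 (j a).2) fun a => f.Q (j a).1 (j a).2) := by
  have h2 : (2 : K) ≠ 0 := by
    rw [← map_ofNat c 2]
    exact (map_ne_zero c).2 two_ne_zero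
  have hδ : δ ≠ 0 := fun h0 => h.ne ⟨0, by rw [map_zero, h0]⟩
  have hi := Fintype.linearIndependent_iff.1 ((f.indep K c δ h.sq).comp _ hj)
  rw [Fintype.linearIndependent_iff]
  intro g hg
  have h3 := hi (Sum.elim (fun a => δ * c (g (Sum.inl a)) + c (g (Sum.inr a)))
    fun a => -(δ * c (g (Sum.inl a))) + c (g (Sum.inr a))) (by
      funext i
      have h4 := congrArg c (congrFun hg i)
      simp only [Fintype.sum_sum_type, Sum.elim_inl, Sum.elim_inr, Finset.sum_apply,
        Pi.smul_apply, smul_eq_mul, map_add, map_sum, map_mul, Pi.zero_apply, map_zero] at h4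
      simp only [Fintype.sum_sum_type, Sum.elim_inl, Sum.elim_inr, Finset.sum_apply,
        Pi.smul_apply, smul_eq_mul, Pi.zero_apply, Function.comp_apply, Prod.fst_swap,
        Prod.snd_swap, ev2]
      rw [← Finset.sum_add_distrib] at h4 ⊢
      rw [← mul_zero (2 * δ), ← h4, Finset.mul_sum]
      refine Finset.sum_congr rfl fun a _ => ?_
      rw [f.anti (j a).1 (j a).2 i, f.symm (j a).1 (j a).2 i, map_neg]
      ring)
  have h5 : ∀ a, c (g (Sum.inr a)) = 0 := fun a => by
    have e1 := h3 (Sum.inl a)
    have e2 := h3 (Sum.inr a)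
    simp only [Sum.elim_inl, Sum.elim_inr] at e1 e2
    apply mul_left_cancel₀ h2
    linear_combination e1 + e2
  rintro (a | a)
  · have e1 := h3 (Sum.inl a)
    simp only [Sum.elim_inl, h5, add_zero, mul_eq_zero, hδ, false_or] at e1
    exact (map_eq_zero c).1 e1
  · exact (map_eq_zero c).1 (h5 a)

/-- The index pairs of the twelve vectors. -/
def jj : Fin 3 ⊕ Fin 3 → Fin 7 × Fin 7 :=
  Sum.elim (fun l => (Alg.f3 l, 4)) fun l => (Alg.f3 l, 3)

theorem jj_inj : Function.Injective (Sum.elim jj fun a => (jj a).swap) := by
  decide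

end HfcX

theorem hfc_stmt (hR : PrmAPI) : HfcStmt := by
  intro ι K L E _ _ _ _ _ _ _ c β r α x y i₀ e e' hq hα hc hi d n
  let := c.toAlgebra
  let := ((algebraMap L E).comp c).toAlgebra
  have : IsScalarTower K L E := IsScalarTower.of_algebraMap_eq fun _ => rfl
  have : CharZero L := charZero_of_injective_algebraMap (algebraMap K L).injective
  have hq' : Quad (algebraMap K L) β r := hq
  have hA : Submodule.span K (Set.range fun i => algebraMap L E ((Pi.single i₀ 1 : ι → L) i)) =
      (1 : Submodule K E) := by
    rw [Submodule.one_eq_span]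
    apply le_antisymm
    · rw [Submodule.span_le]
      rintro _ ⟨i, rfl⟩
      by_cases h : i = i₀
      · subst h
        exact Submodule.subset_span (by simp)
      · simp [h]
    · apply Submodule.span_mono
      rintro _ rfl
      exact ⟨i₀, by simp⟩
  have hB := HfcX.span_comb (Sum.elim e e') hi
    (Sum.elim ![1, x, y] fun l => ![1, x, y] l * algebraMap L E r)
    (fun i => ∑ l, ![1, x, y] l * algebraMap L E (c (e l i) + r * c (e' l i))) (fun i => by
      rw [Fintype.sum_sum_type, ← Finset.sum_add_distrib]
      refine Finset.sum_congr rfl fun l _ => ?_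
      simp only [Sum.elim_inl, Sum.elim_inr, map_add, map_mul,
        IsScalarTower.algebraMap_apply K L E]
      change _ = _ * algebraMap L E (c _) + _ * algebraMap L E (c _)
      ring)
  have hy : y ^ 2 = algebraMap L E (-α 0 / α 2) + algebraMap L E (-α 1 / α 2) * x ^ 2 := by
    have h2 : algebraMap L E (α 2) ≠ 0 := (map_ne_zero _).2 (hα 2)
    simp only [map_div₀, map_neg]
    field_simp
    linear_combination hc.eqn
  have hu : Set.range (![1, x, y] : Fin 3 → E) = {1, x, y} := by
    apply Set.Subset.antisymm
    · rintro _ ⟨k, rfl⟩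
      fin_cases k <;> simp
    · rintro w (rfl | rfl | rfl)
      exacts [⟨0, rfl⟩, ⟨1, rfl⟩, ⟨2, rfl⟩]
  refine (hR.prm_hf ι K E _ _ d (n + 1)).trans ?_
  rw [hA, one_pow, one_mul, hB, HfcX.span_quad hq', hu,
    ← Submodule.restrictScalars_pow (Nat.succ_ne_zero n), Evg.finrank_restrict,
    Evg.quad_finrank hq', Evg.finrank_pow (div_ne_zero (neg_ne_zero.2 (hα 0)) (hα 2))
      (div_ne_zero (neg_ne_zero.2 (hα 1)) (hα 2)) hy hc.trans]
  omega

theorem rat_stmt : RatStmt := by
  intro F ι K L E _ _ _ _ _ _ _ I f c c' δ β r x y a hδ hr hgen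
  let := ((algebraMap L E).comp (c'.comp c)).toAlgebra
  have hF : ∀ s : F, algebraMap F E s = algebraMap L E (c' (c s)) := fun _ => rfl
  have hB := HfcX.span_comb _ (HfcX.indep_PQ f hδ HfcX.jj HfcX.jj_inj)
    (Sum.elim (Sum.elim ![1, x, y] fun l => ![1, x, y] l * algebraMap L E r)
      (Sum.elim (fun l => ![1, x, y] l * algebraMap L E (c' δ))
        fun l => ![1, x, y] l * (algebraMap L E r * algebraMap L E (c' δ))))
    (fun i => ∑ l, ![1, x, y] l * algebraMap L E (f.cv (c'.comp c) (c' δ) r l i)) (fun i => by
      simp only [Fintype.sum_sum_type, ← Finset.sum_add_distrib]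
      refine Finset.sum_congr rfl fun l _ => ?_
      simp only [Sum.elim_inl, Sum.elim_inr, HfcX.jj, hF, BiFrame.cv, ev2, map_add, map_mul,
        RingHom.comp_apply]
      ring)
  set T := ratF ((algebraMap L E).comp (c'.comp c)) a
    (fun i => ∑ l, ![1, x, y] l * algebraMap L E (f.cv (c'.comp c) (c' δ) r l i)) with hT
  have k0 : ∀ s : F, algebraMap F E s ∈ T := fun s =>
    Subfield.subset_closure (Or.inl (Or.inl ⟨s, rfl⟩))
  have k1 : ∀ k, Sum.elim (Sum.elim ![1, x, y] fun l => ![1, x, y] l * algebraMap L E r)
      (Sum.elim (fun l => ![1, x, y] l * algebraMap L E (c' δ))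
        fun l => ![1, x, y] l * (algebraMap L E r * algebraMap L E (c' δ))) k ∈ T := fun k => by
    have h := Evg.div_mem T k0 _ (fun i k => Subfield.subset_closure (Or.inr ⟨i, k, rfl⟩))
      (hB.ge (Submodule.subset_span (Set.mem_range_self k))) (t := 1)
      (hB.ge (Submodule.subset_span ⟨Sum.inl (Sum.inl 0), rfl⟩))
    rwa [div_one] at h
  have kr : algebraMap L E r ∈ T := by simpa using k1 (Sum.inl (Sum.inr 0))
  have kδ : algebraMap L E (c' δ) ∈ T := by simpa using k1 (Sum.inr (Sum.inl 0))
  have kK : ∀ s : K, algebraMap L E (c' s) ∈ T := fun s => by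
    obtain ⟨u, v, rfl⟩ := hδ.gen s
    simp only [map_add, map_mul]
    exact add_mem (k0 u) (mul_mem (k0 v) kδ)
  have kL : ∀ s : L, algebraMap L E s ∈ T := fun s => by
    obtain ⟨u, v, rfl⟩ := hr.gen s
    simp only [map_add, map_mul]
    exact add_mem (kK u) (mul_mem (kK v) kr)
  have k3 : IntermediateField.adjoin L {x, y} ≤ T.toIntermediateField kL := by
    rw [IntermediateField.adjoin_le_iff]
    rintro w (rfl | rfl)
    exacts [k1 (Sum.inl (Sum.inl 1)), k1 (Sum.inl (Sum.inl 2))]
  rw [eq_top_iff]
  intro z _
  exact k3 (hgen ▸ IntermediateField.mem_top)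

end Pool.Agent.MP_d45d16_ag.Sp14
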