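import Pool.Agent.MP_d45d16_ag.sp.Spec
import Pool.Agent.MP_d45d16_ag.yag.Sp

/-!
The key relation for a frame over the closed field.
-/

set_option autoImplicit false

open AlgebraicGeometry MvPolynomial

namespace Pool.Agent.MP_d45d16_ag.Sp14

open Yag

namespace Key2X

variable {F k ι : Type} [Field F] [Field k] [Algebra F k]

theorem indep_comb {I : Set (MvPolynomial ι F)} (g : KFrame I k) {n : ℕ} {w : Fin n → Fin 7 → k}
    (h : LinearIndependent k w) : LinearIndependent k fun l => g.comb (w l) := by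
  have h0 := g.indep
  rw [Fintype.linearIndependent_iff] at h h0 ⊢
  intro c hc
  refine h c (funext (h0 _ ?_))
  rw [← hc]
  ext i
  simp only [KFrame.comb, Finset.sum_apply, Pi.smul_apply, smul_eq_mul, Finset.sum_mul,
    Finset.mul_sum]
  rw [Finset.sum_comm]
  simp [mul_assoc]

theorem sat_alg {I : Set (MvPolynomial ι F)} (g : KFrame I k) {n : ℕ} (c : Fin n → Fin 7 → k)
    (C : Type) [CommRing C] [Algebra k C] (w : Fin n → C)
    (h : ∑ j, algebraMap k C (g.α j) * (∑ l, w l * algebraMap k C (c l j)) ^ 2 = 0) :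
    Sat I ((algebraMap k C).comp (algebraMap F k))
      fun i => ∑ l, w l * algebraMap k C (g.comb (c l) i) := by
  refine (congrArg _ ?_).mp (g.sat C (fun j => ∑ l, w l * algebraMap k C (c l j)) h)
  ext i
  simp only [KFrame.comb, map_sum, map_mul, Finset.sum_mul, Finset.mul_sum]
  rw [Finset.sum_comm]
  simp [mul_assoc]

theorem line [Finite ι] (mv : MoveAPI) (N : Amb F k ι) (g : KFrame N.I₂ k) (p : ι → k)
    (hp : p ≠ 0) (hs : Sat N.I₁ (algebraMap F k) p) (u v w : Fin 7 → k)
    (hi : ∀ x y z : k, x • w + y • v + z • u = 0 → x = 0 ∧ y = 0 ∧ z = 0)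
    (h : ∀ (C : Type) [CommRing C] [Algebra k C] (x y z : C), ∑ j, algebraMap k C (g.α j) *
        (x * algebraMap k C (w j) + y * algebraMap k C (v j) + z * algebraMap k C (u j)) ^ 2 = 0) :
    ∃ x : Omega1 N.s, N.HasCls (vec ![p] ![1]) (vec ![g.comb u, g.comb v] ![1, RatFunc.X]) x ∧
      N.HasCls (vec ![p] ![1]) (vec ![g.comb v, g.comb w] ![1, RatFunc.X]) x := by
  have hi' : LinearIndependent k ![w, v, u] := by
    rw [Fintype.linearIndependent_iff]
    intro c hc l
    obtain ⟨h0, h1, h2⟩ := hi (c 0) (c 1) (c 2) (by simpa [Fin.sum_univ_three] using hc)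
    fin_cases l <;> assumption
  exact mv.plane F k ι N p (fun l => g.comb (![w, v, u] l)) hp hs
    (indep_comb g hi') fun C _ _ z => sat_alg g _ C z (by
      simpa [Fin.sum_univ_three] using h C (z 0) (z 1) (z 2))

end Key2X

open Key2X in
/-- The key relation. -/
theorem key2_stmt (hMv : MoveAPI) (hIs : IsoAPI) : Key2Stmt := by
  intro F k ι _ _ _ _ _ _ N g r hr
  have hk : CharZero k := charZero_of_injective_algebraMap (algebraMap F k).injective
  have hne := g.ne
  have h2 := g.two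
  have h4 := g.four
  have hr0 : r ≠ 0 := by
    rintro rfl
    exact hne 0 (by simpa using hr.symm)
  obtain ⟨ρ, hρ⟩ := IsAlgClosed.exists_pow_nat_eq (-g.α 6 / g.α 5) (n := 2) (by norm_num)
  have h6 : g.α 6 = -(g.α 5 * ρ ^ 2) := by
    rw [hρ]; field_simp [hne 5]
  have h0 : g.α 0 = -r ^ 2 := by rw [hr, neg_neg]
  refine ⟨_, _, Move.conicField (fun l : Fin 3 => g.α (Alg.f3 l)) r (hne 0) (hne 1) h2 hr,
    fun p xC xL xE hp hs hC hL hE => ?_⟩
  set β := (g.α 1)⁻¹ with hβ
  have hβ1 : g.α 1 * β = 1 := mul_inv_cancel₀ (hne 1)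
  have hβ0 : β ≠ 0 := inv_ne_zero (hne 1)
  have hi : LinearIndependent k (![![0, r, 1, 0, 0, 0, 0], ![2, 0, 0, 0, 0, 0, 0],
      ![0, r * β, -β, 0, 0, 0, 0], ![0, 0, 0, -r, 1, 0, 0], ![0, 0, 0, 0, 0, ρ, 1]] :
      Fin 5 → Fin 7 → k) := by
    rw [Fintype.linearIndependent_iff]
    intro c hc l
    have e0 := congrFun hc 0
    have e1 := congrFun hc 1
    have e2 := congrFun hc 2
    have e4 := congrFun hc 4
    have e6 := congrFun hc 6
    simp [Fin.sum_univ_five] at e0 e1 e2 e4 e6
    have e7 : c 0 = 0 := by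
      have : (2 * r) * c 0 = 0 := by linear_combination e1 + r * e2
      simpa [hr0] using this
    have e8 : c 2 = 0 := by simpa [e7, hβ0] using e2
    fin_cases l <;> assumption
  obtain ⟨yC, yA, yB, yE, k1, k2, k3, k4, k5⟩ := hMv.conic F k ι N p _ hp hs
    (indep_comb g hi) fun C _ _ w hw => sat_alg g _ C w (by
      have a1 := congrArg (algebraMap k C) hβ1
      simp only [map_mul, map_one] at a1
      simp only [Fin.sum_univ_seven, Fin.sum_univ_five, h2, h4, h6, h0]
      simp only [Matrix.cons_val, map_mul, map_neg, map_pow, map_zero, map_one, map_ofNat]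
      linear_combination (4 * algebraMap k C r ^ 2) * hw +
        (4 * algebraMap k C r ^ 2 * w 0 * w 2) * a1)
  obtain ⟨z₁, l1, l2⟩ := line hMv N g p hp hs ![0, 0, 0, 0, 0, ρ, 1] ![0, 0, 0, -r, 1, 0, 0]
    ![0, r, 1, 0, 0, ρ, 1]
    (fun x y z h => by
      have e2 : x = 0 := by simpa using congrFun h 2
      exact ⟨e2, by simpa using congrFun h 4, by simpa [e2] using congrFun h 6⟩)
    (fun C _ _ x y z => by
      simp only [Fin.sum_univ_seven, h2, h4, h6, h0]
      simp only [Matrix.cons_val, map_mul, map_neg, map_pow, map_zero, map_one]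
      ring)
  obtain ⟨z₂, l3, l4⟩ := line hMv N g p hp hs ![0, r, 1, 0, 0, 0, 0] ![0, 0, 0, -r, 1, 0, 0]
    ![0, r, 1, 0, 0, ρ, 1]
    (fun x y z h => by
      have e6 : x = 0 := by simpa using congrFun h 6
      exact ⟨e6, by simpa using congrFun h 4, by simpa [e6] using congrFun h 2⟩)
    (fun C _ _ x y z => by
      simp only [Fin.sum_univ_seven, h2, h4, h6, h0]
      simp only [Matrix.cons_val, map_mul, map_neg, map_pow, map_zero, map_one]
      ring)
  have q1 : yB = xL := Move.same hIs k3 hL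
  have q2 : yA = xL :=
    (Move.same hIs k2 l1).trans ((Move.same hIs l2 l4).trans (Move.same hIs l3 hL))
  have q4 : yE = xE := Move.same hIs k4 hE
  have q3 : xC = yC := by
    refine hIs.uniq F k ι N _ _ _ _ 1 (2 * RatFunc.X) xC yC (by simp) (fun i => ?_) hC k1
    have hX : (RatFunc.X : RatFunc k) ≠ 0 := RatFunc.X_ne_zero
    have hc : CharZero (RatFunc k) := algebraRat.charZero _
    simp only [vec, KFrame.comb, Fin.sum_univ_seven, Fin.sum_univ_five, Fin.sum_univ_three]
    simp only [Matrix.cons_val, map_add, map_mul, map_neg, map_zero, map_one, map_ofNat, hβ,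
      map_inv₀]
    change _ = _ * (1 * algebraMap k (RatFunc k) (g.f 0 i) +
      algebraMap k (RatFunc k) r * (RatFunc.X ^ 2 + (algebraMap k (RatFunc k) (g.α 1))⁻¹) /
        (2 * RatFunc.X) * algebraMap k (RatFunc k) (g.f 1 i) +
      (RatFunc.X ^ 2 - (algebraMap k (RatFunc k) (g.α 1))⁻¹) /
        (2 * RatFunc.X) * algebraMap k (RatFunc k) (g.f 2 i))
    generalize (algebraMap k (RatFunc k) (g.α 1))⁻¹ = γ
    field_simp
    ring
  rw [q3, k5, q1, q2, q4]

end Pool.Agent.MP_d45d16_ag.Sp14
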