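import Mathlib.Algebra.QuadraticAlgebra.Basic
import Mathlib.FieldTheory.IsAlgClosed.AlgebraicClosure
import Pool.Agent.MP_d45d16_ag.sp.Spec

/-!
The line over the quartic extension, and one conic against one line and one point.
-/

set_option autoImplicit false

open AlgebraicGeometry CategoryTheory Limits MvPolynomial Filter Matrix

namespace Pool.Agent.MP_d45d16_ag.Sp14

open Yag

namespace Ln0X

variable {F ι : Type} [Field F] {I : Set (MvPolynomial ι F)} (f : BiFrame I)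

theorem diag [CharZero F] (k : Fin 7) (i : ι) : f.P k k i = 0 := by
  have h := f.anti k k i
  linear_combination (1 / 2 : F) * h

theorem d_ne : f.d ≠ 0 := fun h => f.nsq ⟨0, by rw [h, mul_zero]⟩

/-- The values of the bilinear map on the null vectors. -/
theorem bil_nv {C : Type} [CommRing C] (c : F →+* C) (δ r r' : C) (i : ι) :
    (bil c δ f.P f.Q (nv r 0) (nv r' 0) i = r * r' * ev2 c δ (f.P 1 1) (f.Q 1 1) i +
      r * ev2 c δ (f.P 1 2) (f.Q 1 2) i + r' * ev2 c δ (f.P 2 1) (f.Q 2 1) i +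
      ev2 c δ (f.P 2 2) (f.Q 2 2) i) ∧
    bil c δ f.P f.Q (nv r 1) (nv r' 1) i = r * r' * ev2 c δ (f.P 3 3) (f.Q 3 3) i -
      r * ev2 c δ (f.P 3 4) (f.Q 3 4) i - r' * ev2 c δ (f.P 4 3) (f.Q 4 3) i +
      ev2 c δ (f.P 4 4) (f.Q 4 4) i := by
  constructor <;> simp [bil, nv, Fin.sum_univ_seven] <;> ring

/-- The core identity. -/
theorem core [CharZero F] {E C : Type} [Field E] [CommRing C] (c : F →+* E) (j : E →+* C)
    (m t : E) (δ r r' : C) (hm : r * r' = j m) (ht : r + r' = j t)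
    (hs : r - r' = -(j (2 * c (f.b 0) / t) * δ)) (l : Fin 2) (i : ι) :
    bil (j.comp c) δ f.P f.Q (nv r l) (nv r' l) i = δ * j (f.lv c m t l i) := by
  have h := bil_nv f (j.comp c) δ r r' i
  fin_cases l
  · refine h.1.trans ?_
    simp only [ev2, diag, f.anti 1 2, f.symm 1 2, BiFrame.lv, RingHom.comp_apply, map_zero,
      map_neg, Fin.zero_eta, Matrix.cons_val_zero, map_sub, map_add, map_mul j m, map_mul j t,
      map_mul j (2 * c (f.b 0) / t)]
    linear_combination (δ * j (c (f.Q 1 1 i))) * hm + (δ * j (c (f.Q 1 2 i))) * ht +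
      j (c (f.P 1 2 i)) * hs
  · refine h.2.trans ?_
    simp only [ev2, diag, f.anti 3 4, f.symm 3 4, BiFrame.lv, RingHom.comp_apply, map_zero,
      map_neg, Fin.mk_one, Matrix.cons_val_one, Matrix.cons_val_zero, map_sub, map_add,
      map_mul j m, map_mul j t, map_mul j (2 * c (f.b 0) / t)]
    linear_combination (δ * j (c (f.Q 3 3 i))) * hm - (δ * j (c (f.Q 3 4 i))) * ht -
      j (c (f.P 3 4 i)) * hs

/-- The two roots attached to a point of the quartic extension. -/
theorem roots [CharZero F] {E C : Type} [Field E] [CommRing C] (c : F →+* E) (j : E →+* C)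
    (m t : E) (δ : C) (hm : m ^ 2 = c (f.a 0 ^ 2 - f.d * f.b 0 ^ 2))
    (ht : t ^ 2 = 2 * m - 2 * c (f.a 0)) (h0 : t ≠ 0) (hδ : δ ^ 2 = j (c f.d)) :
    ∃ r r' : C, r * r' = j m ∧ r + r' = j t ∧ r - r' = -(j (2 * c (f.b 0) / t) * δ) ∧
      r ^ 2 = -ev2 (j.comp c) δ f.a f.b 0 ∧ r' ^ 2 = -ev2 (j.comp c) (-δ) f.a f.b 0 := by
  have : CharZero E := c.charZero_iff c.injective |>.mp inferInstance
  set s : E := 2 * c (f.b 0) / t with hs
  have h1 : s * t = 2 * c (f.b 0) := by rw [hs]; field_simp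
  have h2 : s ^ 2 * c f.d = -2 * (c (f.a 0) + m) := by
    simp only [map_sub, map_mul, map_pow] at hm
    refine mul_left_cancel₀ (pow_ne_zero 2 h0) ?_
    linear_combination (c f.d * (s * t + 2 * c (f.b 0))) * h1 + (2 * (c (f.a 0) + m)) * ht +
      4 * hm
  have h3 : j (1 / 2) * 2 = 1 := by
    rw [← map_ofNat j 2, ← map_mul, one_div, inv_mul_cancel₀ two_ne_zero, map_one]
  have h1' := congrArg j h1
  have h2' := congrArg j h2
  have ht' := congrArg j ht
  simp only [map_mul, map_pow, map_add, map_sub, map_neg, map_ofNat] at h1' h2' ht'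
  set u := j (1 / 2)
  refine ⟨u * (j t - j s * δ), u * (j t + j s * δ), ?_, ?_, ?_, ?_, ?_⟩
  · linear_combination (u ^ 2) * ht' - (u ^ 2 * j s ^ 2) * hδ - (u ^ 2) * h2' +
      (j m * (2 * u + 1)) * h3
  · linear_combination (j t) * h3
  · linear_combination (-(j s * δ)) * h3
  · simp only [ev2, RingHom.comp_apply]
    linear_combination (u ^ 2) * ht' + (u ^ 2 * j s ^ 2) * hδ + (u ^ 2) * h2' -
      (2 * u ^ 2 * δ) * h1' - ((j (c (f.a 0)) + δ * j (c (f.b 0))) * (2 * u + 1)) * h3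
  · simp only [ev2, RingHom.comp_apply]
    linear_combination (u ^ 2) * ht' + (u ^ 2 * j s ^ 2) * hδ + (u ^ 2) * h2' +
      (2 * u ^ 2 * δ) * h1' - ((j (c (f.a 0)) - δ * j (c (f.b 0))) * (2 * u + 1)) * h3

/-- Vanishing combinations of the vectors have vanishing coefficients. -/
theorem coef {Ω : Type} [Field Ω] (c : F →+* Ω) (δ : Ω) (hδ : δ ^ 2 = c f.d)
    (g : Fin 7 → Fin 7 → Ω) (h : ∀ i, ∑ k, ∑ m, g k m * ev2 c δ (f.P k m) (f.Q k m) i = 0)
    (k m : Fin 7) : g k m = 0 := by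
  refine Fintype.linearIndependent_iff.mp (f.indep Ω c δ hδ) (fun km => g km.1 km.2) ?_ (k, m)
  funext i
  rw [Finset.sum_apply, Fintype.sum_prod_type]
  exact h i

/-- The four vectors of the three-space are independent. -/
theorem four {Ω : Type} [Field Ω] (c : F →+* Ω) (δ r r' : Ω) (hδ : δ ^ 2 = c f.d)
    (w : Fin 2 → Fin 2 → Ω)
    (h : ∀ i, ∑ l, ∑ l', w l l' * bil c δ f.P f.Q (nv r l) (nv r' l') i = 0) :
    w 0 0 = 0 ∧ w 0 1 = 0 ∧ w 1 0 = 0 ∧ w 1 1 = 0 := by
  have h1 := coef f c δ hδ (fun k m => ∑ l, ∑ l', w l l' * (nv r l k * nv r' l' m)) fun i => by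
    rw [← h i]
    simp only [bil, Fin.sum_univ_two, Finset.mul_sum, ← Finset.sum_add_distrib]
    refine Finset.sum_congr rfl fun k _ => Finset.sum_congr rfl fun m _ => by ring
  refine ⟨?_, ?_, ?_, ?_⟩
  · simpa [nv] using h1 2 2
  · simpa [nv] using h1 2 4
  · simpa [nv] using h1 4 2
  · simpa [nv] using h1 4 4

theorem two {C : Type} [CommRing C] (c : F →+* C) (δ : C) (hδ : δ ^ 2 = c f.d) :
    ev2 c δ f.a f.b 2 = ev2 c δ f.a f.b 0 * ev2 c δ f.a f.b 1 := by
  simp only [ev2, f.two.1, f.two.2, map_add, map_mul]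
  linear_combination (-(c (f.b 0) * c (f.b 1))) * hδ

theorem fou {C : Type} [CommRing C] (c : F →+* C) (δ : C) (hδ : δ ^ 2 = c f.d) :
    ev2 c δ f.a f.b 4 = ev2 c δ f.a f.b 0 * ev2 c δ f.a f.b 3 := by
  simp only [ev2, f.four.1, f.four.2, map_add, map_mul]
  linear_combination (-(c (f.b 0) * c (f.b 3))) * hδ

theorem bil_snd {C : Type} [CommRing C] (c : F →+* C) (δ r : C) (w : Fin 7 → C) (i : ι) :
    bil c δ f.P f.Q w (nv r 1) i = ∑ k, w k *
      (ev2 c δ (f.P k 4) (f.Q k 4) i + -r * ev2 c δ (f.P k 3) (f.Q k 3) i) := by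
  refine Finset.sum_congr rfl fun k _ => ?_
  simp [nv, Fin.sum_univ_seven]
  ring

theorem map_ev2 {C C' : Type} [CommRing C] [CommRing C'] (c : F →+* C) (j : C →+* C') (δ : C)
    (P Q : ι → F) (i : ι) : j (ev2 c δ P Q i) = ev2 (j.comp c) (j δ) P Q i := by
  simp [ev2]

theorem map_nv {C C' : Type} [CommRing C] [CommRing C'] (j : C →+* C') (r : C) (l : Fin 2)
    (k : Fin 7) : j (nv r l k) = nv (j r) l k := by
  fin_cases l <;> fin_cases k <;> simp [nv]

theorem map_bil {C C' : Type} [CommRing C] [CommRing C'] (c : F →+* C) (j : C →+* C')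
    (δ r r' : C) (l l' : Fin 2) (i : ι) : j (bil c δ f.P f.Q (nv r l) (nv r' l') i) =
      bil (j.comp c) (j δ) f.P f.Q (nv (j r) l) (nv (j r') l') i := by
  simp only [bil, map_sum, map_mul, map_ev2, map_nv]

/-- The frame obtained by fixing a null vector in the second factor. -/
def kfr {k : Type} [Field k] [Algebra F k] (δ r : k) (hδ : δ ^ 2 = algebraMap F k f.d)
    (hr : r ^ 2 = -ev2 (algebraMap F k) (-δ) f.a f.b 0) : KFrame I k where
  f := fun l i => ev2 (algebraMap F k) δ (f.P l 4) (f.Q l 4) i +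
    -r * ev2 (algebraMap F k) δ (f.P l 3) (f.Q l 3) i
  α := ev2 (algebraMap F k) δ f.a f.b
  ne := fun l h => (map_ne_zero (algebraMap F k)).mpr (f.ne l) (by
    simp only [ev2] at h
    simp only [map_sub, map_mul, map_pow]
    linear_combination (algebraMap F k (f.a l) - δ * algebraMap F k (f.b l)) * h +
      (algebraMap F k (f.b l)) ^ 2 * hδ)
  two := two f _ δ hδ
  four := fou f _ δ hδ
  indep := Fintype.linearIndependent_iff.mpr fun g hg l => by
    have h := coef f (algebraMap F k) δ hδ (fun a b => g a * nv r 1 b) (fun i => by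
      refine (bil_snd f (algebraMap F k) δ r g i).trans ?_
      have h1 := congrFun hg i
      rw [Finset.sum_apply] at h1
      exact h1) l 4
    simpa [nv] using h
  sat := fun C _ _ w hw => by
    have h1 : algebraMap k C δ ^ 2 = ((algebraMap k C).comp (algebraMap F k)) f.d := by
      rw [← map_pow, hδ, RingHom.comp_apply]
    have h2 := congrArg (algebraMap k C) hr
    rw [map_pow, map_neg, map_ev2, map_neg] at h2
    have h3 := f.sat₁ C ((algebraMap k C).comp (algebraMap F k)) (algebraMap k C δ) w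
      (nv (algebraMap k C r) 1) h1 (by simpa only [map_ev2] using hw) (by
        have h4 := fou f ((algebraMap k C).comp (algebraMap F k)) (-algebraMap k C δ)
          (by rw [neg_sq, h1])
        simp [nv, Fin.sum_univ_seven, h4]
        linear_combination (ev2 ((algebraMap k C).comp (algebraMap F k)) (-algebraMap k C δ)
          f.a f.b 3) * h2)
    convert h3 using 2 with i
    simp only [bil_snd, map_add, map_mul, map_neg, map_ev2]

theorem ind3 {k : Type} [Field k] (v : Fin 2 → Fin 2 → ι → k)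
    (h4 : ∀ w : Fin 2 → Fin 2 → k, (∀ i, ∑ l, ∑ l', w l l' * v l l' i = 0) →
      w 0 0 = 0 ∧ w 0 1 = 0 ∧ w 1 0 = 0 ∧ w 1 1 = 0) :
    LinearIndependent k ![v 1 0, v 1 1, v 0 1] ∧ LinearIndependent k ![v 1 0, v 1 1, v 0 0] ∧
      LinearIndependent k ![v 1 1, v 0 0] := by
  refine ⟨Fintype.linearIndependent_iff.mpr fun g hg l => ?_,
    Fintype.linearIndependent_iff.mpr fun g hg l => ?_,
    Fintype.linearIndependent_iff.mpr fun g hg l => ?_⟩
  · have h := h4 ![![0, g 2], ![g 0, g 1]] fun i => by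
      have h5 := congrFun hg i
      simp [Fin.sum_univ_three] at h5
      simp [Fin.sum_univ_two]
      linear_combination h5
    fin_cases l
    · exact h.2.2.1
    · exact h.2.2.2
    · exact h.2.1
  · have h := h4 ![![g 2, 0], ![g 0, g 1]] fun i => by
      have h5 := congrFun hg i
      simp [Fin.sum_univ_three] at h5
      simp [Fin.sum_univ_two]
      linear_combination h5
    fin_cases l
    · exact h.2.2.1
    · exact h.2.2.2
    · exact h.1
  · have h := h4 ![![g 1, 0], ![0, g 0]] fun i => by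
      have h5 := congrFun hg i
      simp [Fin.sum_univ_two] at h5
      simp [Fin.sum_univ_two]
      linear_combination h5
    fin_cases l
    · exact h.2.2.2
    · exact h.1

theorem sat3 {k C : Type} [Field k] [CommRing C] (c : F →+* C) (j : k →+* C)
    (v : Fin 2 → Fin 2 → ι → k)
    (hS : ∀ w : Fin 2 → Fin 2 → C, Sat I c fun i => ∑ l, ∑ l', w l l' * j (v l l' i)) :
    (∀ w : Fin 3 → C, Sat I c fun i => ∑ l, w l * j (![v 1 0, v 1 1, v 0 1] l i)) ∧
    (∀ w : Fin 3 → C, Sat I c fun i => ∑ l, w l * j (![v 1 0, v 1 1, v 0 0] l i)) ∧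
    ∀ w : Fin 2 → C, Sat I c fun i => ∑ l, w l * j (![v 1 1, v 0 0] l i) := by
  refine ⟨fun w => ?_, fun w => ?_, fun w => ?_⟩
  · refine (congrArg (Sat I c) (funext fun i => ?_)).mp (hS ![![0, w 2], ![w 0, w 1]])
    simp [Fin.sum_univ_three, Fin.sum_univ_two]
    ring
  · refine (congrArg (Sat I c) (funext fun i => ?_)).mp (hS ![![w 2, 0], ![w 0, w 1]])
    simp [Fin.sum_univ_three, Fin.sum_univ_two]
    ring
  · refine (congrArg (Sat I c) (funext fun i => ?_)).mp (hS ![![w 1, 0], ![0, w 0]])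
    simp [Fin.sum_univ_two]
    ring

theorem vec2 {k : Type} [Field k] (δ : k) (A B : ι → k) (e : Fin 2 → ι → k)
    (hA : ∀ i, A i = δ * e 0 i) (hB : ∀ i, B i = δ * e 1 i) (i : ι) :
    vec ![A, B] ![1, RatFunc.X] i = algebraMap k (RatFunc k) δ * vec e ![1, RatFunc.X] i ∧
      vec ![B] ![1] i = algebraMap k (RatFunc k) δ * vec ![e 1] ![1] i := by
  constructor
  · simp only [vec, Fin.sum_univ_two, Matrix.cons_val_zero, Matrix.cons_val_one, hA, hB, map_mul]
    ring
  · simp only [vec, Fin.sum_univ_one, Matrix.cons_val_zero, hB, map_mul]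
    ring

/-- The moves inside the three-space. -/
theorem moves (hMv : MoveAPI) (hIs : IsoAPI) {k : Type} [Field k] [Algebra F k] [Finite ι]
    (N : Amb F k ι) (v : Fin 2 → Fin 2 → ι → k) (e : Fin 2 → ι → k) (δ : k)
    (hv : ∀ l i, v l l i = δ * e l i)
    (h4 : ∀ w : Fin 2 → Fin 2 → k, (∀ i, ∑ l, ∑ l', w l l' * v l l' i = 0) →
      w 0 0 = 0 ∧ w 0 1 = 0 ∧ w 1 0 = 0 ∧ w 1 1 = 0)
    (hS : ∀ (C : Type) [CommRing C] [Algebra k C] (w : Fin 2 → Fin 2 → C),
      Sat N.I₂ ((algebraMap k C).comp (algebraMap F k))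
        fun i => ∑ l, ∑ l', w l l' * algebraMap k C (v l l' i))
    (p : ι → k) (xL xE : Omega1 N.s) (hp : p ≠ 0) (hs : Sat N.I₁ (algebraMap F k) p)
    (hL : N.HasCls (vec ![p] ![1]) (vec e ![1, RatFunc.X]) xL)
    (hE : N.HasCls (vec ![p] ![1]) (vec ![e 1] ![1]) xE) :
    N.HasCls (vec ![p] ![1]) (vec ![v 0 1, v 1 1] ![1, RatFunc.X]) xL ∧
      N.HasCls (vec ![p] ![1]) (vec ![v 1 1] ![1]) xE := by
  obtain ⟨z, hz, hz'⟩ := hMv.plane F k ι N p _ hp hs (ind3 v h4).1
    fun C _ _ => (sat3 _ _ v (hS C)).1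
  obtain ⟨z', hw, hw'⟩ := hMv.plane F k ι N p _ hp hs (ind3 v h4).2.1
    fun C _ _ => (sat3 _ _ v (hS C)).2.1
  obtain ⟨y, hy, -⟩ := hMv.point F k ι N p _ hp hs (ind3 v h4).2.2
    fun C _ _ => (sat3 _ _ v (hS C)).2.2
  have e1 : z = z' := hIs.uniq F k ι N _ _ _ (vec ![v 1 1, v 1 0] ![1, RatFunc.X]) 1 1 z z'
    (fun i => (one_mul _).symm) (fun i => (one_mul _).symm) hz' hw'
  have e2 : xL = z' := hIs.uniq F k ι N _ _ _ (vec ![v 0 0, v 1 1] ![1, RatFunc.X]) 1
    (algebraMap k (RatFunc k) δ) xL z' (fun i => (one_mul _).symm)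
    (fun i => (vec2 δ _ _ e (hv 0) (hv 1) i).1) hL hw
  have e3 : xE = y := hIs.uniq F k ι N _ _ _ (vec ![v 1 1] ![1]) 1
    (algebraMap k (RatFunc k) δ) xE y (fun i => (one_mul _).symm)
    (fun i => (vec2 δ _ _ e (hv 0) (hv 1) i).2) hE hy
  rw [e2, e3, ← e1]
  exact ⟨hz, hy⟩

end Ln0X

open Ln0X

theorem ln0_stmt : Ln0Stmt := by
  intro F E ι _ _ _ I f c m t _ hm ht h0
  refine ⟨Fintype.linearIndependent_iff.mpr fun g hg => ?_, fun C _ _ w => ?_⟩
  · let j := algebraMap E (AlgebraicClosure E)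
    obtain ⟨δ, hδ⟩ := IsAlgClosed.exists_pow_nat_eq (j (c f.d)) (n := 2) two_pos
    obtain ⟨r, r', h1, h2, h3, -, -⟩ := roots f c j m t δ hm ht h0 hδ
    have h4 := four f (j.comp c) δ r r' hδ ![![j (g 0), 0], ![0, j (g 1)]] fun i => by
      have h5 := congrArg j (congrFun hg i)
      simp only [Fin.sum_univ_two, Pi.add_apply, Pi.smul_apply, smul_eq_mul, map_add, map_mul,
        Pi.zero_apply, map_zero] at h5
      simp only [Fin.sum_univ_two, core f c j m t δ r r' h1 h2 h3, Matrix.cons_val_zero,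
        Matrix.cons_val_one]
      linear_combination δ * h5
    intro l
    refine j.injective ?_
    rw [map_zero]
    fin_cases l
    · exact h4.1
    · exact h4.2.2.2
  · let C' := QuadraticAlgebra C (algebraMap E C (c f.d)) 0
    let φ := algebraMap C C'
    let j := φ.comp (algebraMap E C)
    let δ : C' := QuadraticAlgebra.omega
    have hδ : δ ^ 2 = j (c f.d) := by
      rw [sq]
      exact QuadraticAlgebra.omega_mul_omega_eq_mk
    obtain ⟨r, r', h1, h2, h3, h4, h5⟩ := roots f c j m t δ hm ht h0 hδ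
    have h6 : δ * j (c f.d)⁻¹ * δ = 1 := by
      rw [mul_right_comm, ← sq, hδ, ← map_mul,
        mul_inv_cancel₀ ((map_ne_zero c).mpr (d_ne f)), map_one]
    have h7 := f.sat₂ C' (j.comp c) δ r r'
      ![![φ (w 0) * (δ * j (c f.d)⁻¹), 0], ![0, φ (w 1) * (δ * j (c f.d)⁻¹)]] hδ h4 h5
    intro p hp
    refine QuadraticAlgebra.algebraMap_injective (a := algebraMap E C (c f.d)) (b := 0) ?_
    rw [map_zero, ← h7 p hp, eval₂_comp_left]
    congr 1
    funext i
    simp only [Fin.sum_univ_two, core f c j m t δ r r' h1 h2 h3, Matrix.cons_val_zero,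
      Matrix.cons_val_one, Function.comp_apply, map_add, map_mul]
    change φ (w 0) * j _ + φ (w 1) * j _ = _
    linear_combination (-(φ (w 0) * j (f.lv c m t 0 i) + φ (w 1) * j (f.lv c m t 1 i))) * h6

theorem half2_stmt (hMv : MoveAPI) (hIs : IsoAPI) (hK : Key2Stmt) : Half2Stmt := by
  intro F k ι _ _ _ _ _ _ N f δ r₁ r₂ hδ h₁ h₂ ht
  obtain ⟨x, y, hxy, H⟩ := hK F k ι N (kfr f δ r₂ hδ h₂) r₁ h₁
  refine ⟨x, y, hxy, fun p xC xL xE hp hs hC hL hE => ?_⟩
  have hc : ∀ l, (kfr f δ r₂ hδ h₂).comb (nv r₁ l) =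
      bil (algebraMap F k) δ f.P f.Q (nv r₁ l) (nv r₂ 1) := fun l =>
    funext fun i => (bil_snd f (algebraMap F k) δ r₂ (nv r₁ l) i).symm
  have h := moves hMv hIs N (fun l l' => bil (algebraMap F k) δ f.P f.Q (nv r₁ l) (nv r₂ l'))
    (f.lv (algebraMap F k) (r₁ * r₂) (r₁ + r₂)) δ (fun l i => ?_)
    (four f (algebraMap F k) δ r₁ r₂ hδ) (fun C _ _ w => ?_) p xL xE hp hs hL hE
  · refine H p xC xL xE hp hs hC ?_ ?_
    · rw [hc, hc]
      exact h.1
    · rw [hc]
      exact h.2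
  · refine core f (algebraMap F k) (RingHom.id k) (r₁ * r₂) (r₁ + r₂) δ r₁ r₂ rfl rfl ?_ l i
    simp only [ev2] at h₁ h₂
    rw [RingHom.id_apply]
    field_simp
    linear_combination h₁ - h₂
  · have h := f.sat₂ C ((algebraMap k C).comp (algebraMap F k)) (algebraMap k C δ)
      (algebraMap k C r₁) (algebraMap k C r₂) w (by rw [← map_pow, hδ, RingHom.comp_apply])
      (by rw [← map_pow, h₁, map_neg, map_ev2]) (by rw [← map_pow, h₂, map_neg, map_ev2, map_neg])
    simpa only [map_bil] using h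

end Pool.Agent.MP_d45d16_ag.Sp14
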