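import Pool.Agent.MP_d45d16_ag.sp.Spec
import Pool.Agent.MP_d45d16_ag.yag.Fin

/-!
Assembly of the abstract theorem for a pair of conjugate frames.
-/

set_option autoImplicit false

open AlgebraicGeometry CategoryTheory Limits MvPolynomial

namespace Pool.Agent.MP_d45d16_ag.Sp14

open Yag

namespace Main2X

section Alg

variable {F ι : Type} [Field F] {I : Set (MvPolynomial ι F)} (f : BiFrame I)

/-- Transport of a pair of frames. -/
def cast {J : Set (MvPolynomial ι F)} (h : J = I) : BiFrame J :=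
  ⟨f.d, f.a, f.b, f.P, f.Q, f.anti, f.symm, f.ne, f.two, f.four, f.indep,
    fun C _ c δ w w' h1 h2 h3 => h ▸ f.sat₁ C c δ w w' h1 h2 h3,
    fun C _ c δ r r' w h1 h2 h3 => h ▸ f.sat₂ C c δ r r' w h1 h2 h3, f.nsq, f.ns⟩

theorem map_ev2 {C D : Type} [CommRing C] [CommRing D] (τ : C →+* D) (c : F →+* C) (δ : C)
    {κ : Type} (P Q : κ → F) (i : κ) : τ (ev2 c δ P Q i) = ev2 (τ.comp c) (τ δ) P Q i := by
  simp [ev2]

theorem ev2_mul {C : Type} [CommRing C] (c : F →+* C) {δ : C} (h : δ ^ 2 = c f.d) (k : Fin 7) :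
    ev2 c δ f.a f.b k * ev2 c (-δ) f.a f.b k = c (f.a k ^ 2 - f.d * f.b k ^ 2) := by
  simp only [ev2, map_sub, map_mul, map_pow, ← h]
  ring

theorem ev2_ne {C : Type} [Field C] (c : F →+* C) {δ : C} (h : δ ^ 2 = c f.d) (k : Fin 7) :
    ev2 c δ f.a f.b k ≠ 0 := by
  intro h0
  have := ev2_mul f c h k
  rw [h0, zero_mul, eq_comm, map_eq_zero] at this
  exact f.ne k this

theorem ev2_four {C : Type} [CommRing C] (c : F →+* C) {δ : C} (h : δ ^ 2 = c f.d) :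
    ev2 c δ f.a f.b 4 = ev2 c δ f.a f.b 0 * ev2 c δ f.a f.b 3 := by
  simp only [ev2, f.four.1, f.four.2, map_add, map_mul, ← h]
  ring

theorem map_cv {C D : Type} [CommRing C] [CommRing D] (τ : C →+* D) (c : F →+* C) (δ r : C)
    (l : Fin 3) (i : ι) : τ (f.cv c δ r l i) = f.cv (τ.comp c) (τ δ) (τ r) l i := by
  simp [BiFrame.cv, ev2]

theorem map_lv {C D : Type} [Field C] [Field D] (τ : C →+* D) (c : F →+* C) (m t : C)
    (l : Fin 2) (i : ι) : τ (f.lv c m t l i) = f.lv (τ.comp c) (τ m) (τ t) l i := by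
  fin_cases l <;> simp [BiFrame.lv, map_ofNat]

theorem cv_indep {L : Type} [Field L] (c : F →+* L) {δ : L} (h : δ ^ 2 = c f.d) (r : L) :
    LinearIndependent L (f.cv c δ r) := by
  have h1 := f.indep L c δ h
  rw [Fintype.linearIndependent_iff] at h1 ⊢
  intro g hg l
  have h2 := h1 (fun km => ![g 0, g 1, g 2, 0, 0, 0, 0] km.1 * ![0, 0, 0, r, 1, 0, 0] km.2) (by
    rw [← hg]
    ext i
    simp [Fintype.sum_prod_type, Fin.sum_univ_seven, Fin.sum_univ_three, BiFrame.cv, Alg.f3]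
    ring)
  fin_cases l
  · simpa using h2 (0, 4)
  · simpa using h2 (1, 4)
  · simpa using h2 (2, 4)

theorem cv_sat {C : Type} [CommRing C] (c : F →+* C) {δ r : C} (h : δ ^ 2 = c f.d)
    (hr : r ^ 2 = -ev2 c (-δ) f.a f.b 0) (w : Fin 3 → C)
    (hw : ∑ l, ev2 c δ f.a f.b (Alg.f3 l) * w l ^ 2 = 0) :
    Sat I c fun i => ∑ l, w l * f.cv c δ r l i := by
  have h1 := f.sat₁ C c δ ![w 0, w 1, w 2, 0, 0, 0, 0] ![0, 0, 0, r, 1, 0, 0] h
    (by simpa [Fin.sum_univ_seven, Fin.sum_univ_three, Alg.f3] using hw)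
    (by
      have h4 := ev2_four f c (δ := -δ) (by rw [neg_sq, h])
      simp only [Fin.sum_univ_seven]
      simp
      rw [h4, hr]
      ring)
  refine (congrArg (Sat I c) ?_).mp h1
  ext i
  simp [bil, Fin.sum_univ_seven, Fin.sum_univ_three, BiFrame.cv, Alg.f3]
  ring

theorem nsq_norm : ¬ IsSquare (f.a 0 ^ 2 - f.d * f.b 0 ^ 2) := by
  obtain ⟨Ω, _, c, δ, -, -, -, h⟩ := f.ns
  exact fun h' => h (h'.map c)

theorem nsq_neg {K : Type} [Field K] {c : F →+* K} {δ : K} (hl : Lft c f.d δ) :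
    ¬ IsSquare (-ev2 c (-δ) f.a f.b 0) := by
  obtain ⟨Ω, _, c', δ', h0, -, h2, -⟩ := f.ns
  obtain ⟨τ, h3, h4⟩ := hl Ω c' δ' h0
  intro h
  have := h.map τ
  rw [map_neg, map_ev2, map_neg, h3, h4] at this
  exact h2 this

theorem nsq_t [CharZero F] {E : Type} [Field E] {c : F →+* E} {m : E}
    (hl : Lft c (f.a 0 ^ 2 - f.d * f.b 0 ^ 2) m) : ¬ IsSquare (2 * m - 2 * c (f.a 0)) := by
  obtain ⟨Ω, _, c', δ, h0, h1, h2, h3⟩ := f.ns
  have : CharZero Ω := (RingHom.charZero_iff c'.injective).mp inferInstance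
  obtain ⟨Ω', _, _, μ, -, hq, -⟩ := exists_quad _ h3
  have : CharZero Ω' := charZero_of_injective_algebraMap (algebraMap Ω Ω').injective
  obtain ⟨τ, h4, h5⟩ := hl Ω' ((algebraMap Ω Ω').comp c') μ hq.sq
  rintro ⟨t, ht⟩
  have h6 : τ t ^ 2 = 2 * μ - 2 * algebraMap Ω Ω' (c' (f.a 0)) := by
    rw [sq, ← map_mul, ← ht, map_sub, map_mul, map_mul, map_ofNat, h5]
    exact congrArg (fun z => 2 * μ - 2 * z) (RingHom.congr_fun h4 _)
  have h7 : τ t ≠ 0 := fun h => hq.ne ⟨c' (f.a 0), by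
    rw [h] at h6
    linear_combination h6 / 2⟩
  refine hq.not_isSquare h1 (fun ⟨z, hz⟩ => h2 ⟨z / ev2 c' δ f.a f.b 0, ?_⟩)
    ⟨(τ t - 2 * algebraMap Ω Ω' (c' (f.b 0)) * algebraMap Ω Ω' δ / τ t) / 2, ?_⟩
  · have h8 := ev2_ne f c' h0 0
    rw [← ev2_mul f c' h0] at hz
    field_simp
    linear_combination hz
  · have h8 := hq.sq
    have h9 := congrArg (algebraMap Ω Ω') h0
    simp only [map_sub, map_mul, map_pow] at h8 h9
    simp only [ev2, map_neg, map_add, map_mul]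
    field_simp
    linear_combination (-(τ t) ^ 2 - 2 * μ - 2 * algebraMap Ω Ω' (c' (f.a 0))) * h6 - 4 * h8 -
      4 * algebraMap Ω Ω' (c' (f.b 0)) ^ 2 * h9

theorem sat_pt [DecidableEq ι] (i₀ : ι) {C : Type} [CommRing C] (c : F →+* C) :
    Sat (ptI F i₀) c (Pi.single i₀ 1) := by
  rintro _ ⟨i, hi, rfl⟩
  rw [eval₂_X, Pi.single_eq_of_ne hi]

theorem map_pt [DecidableEq ι] (i₀ : ι) {C D : Type} [CommRing C] [CommRing D] (τ : C →+* D) :
    τ ∘ (Pi.single i₀ 1 : ι → C) = Pi.single i₀ 1 := by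
  ext i
  by_cases h : i = i₀
  · subst h; simp
  · simp [Pi.single_eq_of_ne h]

theorem pt_ne [DecidableEq ι] (i₀ : ι) (C : Type) [Field C] : (Pi.single i₀ 1 : ι → C) ≠ 0 :=
  fun h => by simpa using congrFun h i₀

theorem contr (P : PrmAPI) [Finite ι] {L E : Type} [Field L] [Field E] [Algebra F L]
    [FiniteDimensional F L] {I₁ I₂ : Set (MvPolynomial ι F)} {Φ : Ideal (Pxy ι F) → ZMod 2}
    (τ : L →+* E) (a b : ι → L) (h₁ : HomSet I₁) (h₂ : HomSet I₂) (hΦ : GoodN I₁ I₂ Φ)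
    (ha : Sat I₁ (algebraMap F L) a) (hb : Sat I₂ (algebraMap F L) b)
    (ht : td (τ.comp (algebraMap F L)) ≤ 1) :
    valR Φ (τ.comp (algebraMap F L)) (τ ∘ a) (τ ∘ b) = 0 := by
  have ha' : Sat I₁ (τ.comp (algebraMap F L)) (τ ∘ a) := fun f hf => by
    rw [← eval₂_comp_left, ha f hf, map_zero]
  have hb' : Sat I₂ (τ.comp (algebraMap F L)) (τ ∘ b) := fun f hf => by
    rw [← eval₂_comp_left, hb f hf, map_zero]
  let := τ.toAlgebra
  let := (τ.comp (algebraMap F L)).toAlgebra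
  have : IsScalarTower F L E := IsScalarTower.of_algebraMap_eq fun _ => rfl
  rw [valR, hΦ.zero _ (Evg.adm P h₁ h₂ ha' hb' ht) (P.prm_bdd ι F E (τ ∘ a) (τ ∘ b) fun j =>
    (Algebra.IsAlgebraic.isAlgebraic (R := F) (b j)).algebraMap), mul_zero]

end Alg

variable {F k ι : Type} [Field F] [Field k] [Algebra F k]

/-- Splitting along a tower of two quadratic extensions. -/
theorem split4 (hP : ProjAPI) (hB : BcAPI) [CharZero F] {K L : Type} [Field K] [Field L]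
    [Algebra F K] [Algebra K L] [FiniteDimensional K L] {M : Amb F F ι} {N : Amb F k ι}
    {q : N.X ⟶ M.X} (hq : M.IsBC N q) (G : Curve M.s) (t : G.Y ⟶ Spec (CommRingCat.of L))
    {d : F} {δ β : K} {r : L} (h1 : Quad (algebraMap F K) d δ) (l1 : Lft (algebraMap F K) d δ)
    (h2 : Quad (algebraMap K L) β r) (l2 : Lft (algebraMap K L) β r)
    (ht : t ≫ Spec.map (CommRingCat.ofHom ((algebraMap K L).comp (algebraMap F K))) = G.f ≫ M.s)
    (hs : SmoothOfRelativeDimension 1 t) (z s s' : k) (hz : z ^ 2 = algebraMap F k d)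
    (e1 : ∀ σ : K →+* k, σ.comp (algebraMap F K) = algebraMap F k → σ δ = z → s ^ 2 = σ β)
    (e2 : ∀ σ : K →+* k, σ.comp (algebraMap F K) = algebraMap F k → σ δ = -z → s' ^ 2 = σ β)
    (Pr : k → k → Omega1 N.s → Prop)
    (hPr : ∀ (τ : L →+* k) (C' : Curve N.s),
      τ.comp ((algebraMap K L).comp (algebraMap F K)) = algebraMap F k → CurveBC q G t τ C' →
      Pr (τ (algebraMap K L δ)) (τ r) (cls C'))
    (C₀ : Curve N.s) (h₀ : CurveBC q G (G.f ≫ M.s) (algebraMap F k) C₀) :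
    ∃ x₁ x₂ x₃ x₄ : Omega1 N.s, Pr z s x₁ ∧ Pr z (-s) x₂ ∧ Pr (-z) s' x₃ ∧ Pr (-z) (-s') x₄ ∧
      cls C₀ = x₁ + x₂ + (x₃ + x₄) := by
  have : CharZero K := charZero_of_injective_algebraMap (algebraMap F K).injective
  have hsm : SmoothOfRelativeDimension 1
      (t ≫ Spec.map (CommRingCat.ofHom (algebraMap K L))) := by
    have := hP.etale K L
    exact smoothOfRelativeDimension_comp 1 0 _ _
  have ht' : (t ≫ Spec.map (CommRingCat.ofHom (algebraMap K L))) ≫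
      Spec.map (CommRingCat.ofHom (algebraMap F K)) = G.f ≫ M.s := by
    rw [← ht, Category.assoc, ← Spec.map_comp]; rfl
  rw [← ht'] at h₀
  obtain ⟨σ₁, σ₂, D₁, D₂, a1, a2, a3, a4, hD₁, hD₂, hD⟩ := Main.split2 hB hq G _ (RingHom.id F)
    (algebraMap F K) h1 l1 ht' hsm (algebraMap F k) rfl z hz C₀ h₀
  have key : ∀ (σ : K →+* k) (y u : k) (D : Curve N.s),
      σ.comp (algebraMap F K) = algebraMap F k → σ δ = y → u ^ 2 = σ β →
      CurveBC q G (t ≫ Spec.map (CommRingCat.ofHom (algebraMap K L))) σ D →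
      ∃ x₁ x₂, Pr y u x₁ ∧ Pr y (-u) x₂ ∧ cls D = x₁ + x₂ := by
    intro σ y u D b1 b2 b3 hD
    obtain ⟨τ₁, τ₂, B₁, B₂, u1, u2, u3, u4, hB₁, hB₂, hBB⟩ := Main.split2 hB hq G t
      (algebraMap F K) (algebraMap K L) h2 l2 ht hs σ b1 u b3 D hD
    have w1 := hPr τ₁ B₁ (by rw [← RingHom.comp_assoc, u1, b1]) hB₁
    have w2 := hPr τ₂ B₂ (by rw [← RingHom.comp_assoc, u2, b1]) hB₂
    rw [show τ₁ (algebraMap K L δ) = y from (RingHom.congr_fun u1 δ).trans b2, u3] at w1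
    rw [show τ₂ (algebraMap K L δ) = y from (RingHom.congr_fun u2 δ).trans b2, u4] at w2
    exact ⟨_, _, w1, w2, hBB⟩
  obtain ⟨x₁, x₂, p1, p2, p3⟩ := key σ₁ z s D₁ a1 a3 (e1 σ₁ a1 a3) hD₁
  obtain ⟨x₃, x₄, p4, p5, p6⟩ := key σ₂ (-z) s' D₂ a2 a4 (e2 σ₂ a2 a4) hD₂
  exact ⟨x₁, x₂, x₃, x₄, p1, p2, p4, p5, by rw [hD, p3, p6]⟩

/-- One conic against one line and one point. -/
theorem one (hH : Half2Stmt) [CharZero F] [IsAlgClosed k] [Finite ι] (N : Amb F k ι)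
    {I : Set (MvPolynomial ι F)} (f : BiFrame I) (hI : N.I₂ = I) {p : ι → k} (hp : p ≠ 0)
    (hp' : Sat N.I₁ (algebraMap F k) p) (δ r₁ r₂ : k) {r m t : k}
    (h0 : δ ^ 2 = algebraMap F k f.d) (h1 : r₁ ^ 2 = -ev2 (algebraMap F k) δ f.a f.b 0)
    (h2 : r₂ ^ 2 = -ev2 (algebraMap F k) (-δ) f.a f.b 0) (ht0 : t ≠ 0) (hr : r = -r₂)
    (hm : m = r₁ * r₂) (ht : t = r₁ + r₂) {xC xL xE : Omega1 N.s}
    (hC : ∀ x y : RatFunc k,
      ConicField (fun l : Fin 3 => ev2 (algebraMap F k) δ f.a f.b (Alg.f3 l)) x y →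
      N.HasCls (vec ![p] ![1]) (vec (f.cv (algebraMap F k) δ r) ![1, x, y]) xC)
    (hL : N.HasCls (vec ![p] ![1]) (vec (f.lv (algebraMap F k) m t) ![1, RatFunc.X]) xL)
    (hE : N.HasCls (vec ![p] ![1]) (vec ![f.lv (algebraMap F k) m t 1] ![1]) xE) :
    xC = xL + xL - xE := by
  subst hr hm ht
  obtain ⟨x, y, hxy, h⟩ := hH F k ι N (cast f hI) δ r₁ r₂ h0 h1 h2 ht0
  exact h p xC xL xE hp hp' (hC x y hxy) hL hE

end Main2X

open Main2X in
theorem main2_stmt (hR : PrmAPI) (hPj : ProjAPI) (hBc : BcAPI) (hLi : LineStmt) (hCn : ConicStmt)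
    (hCo : ConstStmt) (hIs : IsoAPI) (hLn : Ln0Stmt) (hHf : Half2Stmt) (hPh : PhiNStmt) :
    Main2Stmt := by
  intro F k ι _ _ _ _ _ _ _ M N q i₀ f Φ hq hI hG hV
  have _ := hIs
  obtain ⟨K, _, _, δ, hK1, hK2, hK3⟩ := exists_quad _ f.nsq
  obtain ⟨L, _, _, r, hL1, hL2, hL3⟩ := exists_quad _ (nsq_neg f hK3)
  obtain ⟨E₁, _, _, m, hE1, hE2, hE3⟩ := exists_quad _ (nsq_norm f)
  obtain ⟨E, _, _, t, hT1, hT2, hT3⟩ := exists_quad _ (nsq_t f hE3)
  let : Algebra F L := ((algebraMap K L).comp (algebraMap F K)).toAlgebra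
  have hFL : algebraMap F L = (algebraMap K L).comp (algebraMap F K) := rfl
  have : IsScalarTower F K L := IsScalarTower.of_algebraMap_eq' hFL
  have : FiniteDimensional F L := Module.Finite.trans K L
  let : Algebra F E := ((algebraMap E₁ E).comp (algebraMap F E₁)).toAlgebra
  have hFE : algebraMap F E = (algebraMap E₁ E).comp (algebraMap F E₁) := rfl
  have : IsScalarTower F E₁ E := IsScalarTower.of_algebraMap_eq' hFE
  have : FiniteDimensional F E := Module.Finite.trans E₁ E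
  have hδL : algebraMap K L δ ^ 2 = algebraMap F L f.d := by rw [← map_pow, hK2.sq]; rfl
  have hrL : r ^ 2 = -ev2 (algebraMap F L) (-algebraMap K L δ) f.a f.b 0 := by
    rw [hL2.sq, map_neg, map_ev2, map_neg, hFL]
  have hpt : ∀ (C : Type) [Field C] (c : F →+* C), Sat M.I₁ c (Pi.single i₀ 1) := fun C _ c => by
    rw [hI]; exact sat_pt i₀ c
  obtain ⟨G₁, t₁, ht₁, hs₁, ⟨E', _, _, x, y, γ₁, a1, a2, a3⟩, hb₁⟩ := hCn F L ι M (Pi.single i₀ 1)
    (f.cv (algebraMap F L) (algebraMap K L δ) r)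
    (fun l => ev2 (algebraMap F L) (algebraMap K L δ) f.a f.b (Alg.f3 l)) (pt_ne i₀ L) (hpt L _)
    (cv_indep f _ hδL r) (fun l => ev2_ne f _ hδL _) (fun C _ _ w hw => by
      simp only [map_cv, map_ev2] at hw ⊢
      refine cv_sat f _ ?_ ?_ w hw
      · rw [← map_pow, hδL]; rfl
      · rw [← map_pow, hrL, map_neg, map_ev2, map_neg])
  obtain ⟨hl1, hl2⟩ := hLn F E ι M.I₂ f (algebraMap F E) (algebraMap E₁ E m) t M.hom₂
    (by rw [← map_pow, hE2.sq]; rfl)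
    (by rw [hT2.sq, map_sub, map_mul, map_mul, map_ofNat]; rfl)
    (fun h => hT2.ne ⟨0, by rw [h, map_zero]⟩)
  obtain ⟨G₂, t₂, ht₂, hs₂, -, hb₂⟩ := hLi F E ι M (Pi.single i₀ 1) _ (pt_ne i₀ E) (hpt E _) hl1 hl2
  have hl3 : Sat M.I₂ (algebraMap F E) (f.lv (algebraMap F E) (algebraMap E₁ E m) t 1) := by
    simpa using hl2 E ![0, 1]
  obtain ⟨G₃, t₃, ht₃, hs₃, ⟨γ₃, c1, c2⟩, hb₃⟩ := hCo F E ι M (Pi.single i₀ 1) _ (pt_ne i₀ E)
    (hpt E _) (hl1.ne_zero 1) hl3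
  obtain ⟨φ, hφ⟩ := hPh F ι M Φ hG
  refine ⟨G₁, G₂, G₃, fun h => ?_, fun C₁ C₂ C₃ h1 h2 h3 => ?_⟩
  · have e1 := (hφ G₁ E' γ₁ _ _ _ a2 a3).trans
      (hV K L E' (algebraMap F K) (algebraMap K L) δ r x y hK2 hK3 hL2 a1)
    rw [Main.vec_one, Main.vec_one] at c2
    have e3 := (hφ G₃ _ γ₃ _ _ _ c1 c2).trans
      (contr hR (algebraMap E (RatFunc E)) _ _ M.hom₁ M.hom₂ hG (hpt E _) hl3 Main.td_ratFunc)
    have := congrArg φ h
    rw [map_add, map_sub, map_sub, e1, e3, map_zero] at this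
    revert this
    generalize φ (cls G₂) = z
    revert z
    decide
  · have : CharZero k := charZero_of_injective_algebraMap (algebraMap F k).injective
    obtain ⟨z, hz⟩ := IsAlgClosed.exists_pow_nat_eq (algebraMap F k f.d) two_pos
    obtain ⟨s₁, hs1⟩ := IsAlgClosed.exists_pow_nat_eq (-ev2 (algebraMap F k) z f.a f.b 0) two_pos
    obtain ⟨s₂, hs2⟩ :=
      IsAlgClosed.exists_pow_nat_eq (-ev2 (algebraMap F k) (-z) f.a f.b 0) two_pos
    have hz' : (-z) ^ 2 = algebraMap F k f.d := by rw [neg_sq, hz]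
    have hm : (s₁ * s₂) ^ 2 = algebraMap F k (f.a 0 ^ 2 - f.d * f.b 0 ^ 2) := by
      rw [mul_pow, hs1, hs2, neg_mul_neg, ev2_mul f _ hz]
    have hsum : s₁ ^ 2 + s₂ ^ 2 = -2 * algebraMap F k (f.a 0) := by
      rw [hs1, hs2, ev2, ev2]; ring
    have hne : (s₁ + s₂) * (s₁ - s₂) ≠ 0 := by
      have b1 : (s₁ + s₂) * (s₁ - s₂) = -2 * z * algebraMap F k (f.b 0) := by
        rw [ev2] at hs1 hs2
        linear_combination hs1 - hs2
      rw [b1]
      refine mul_ne_zero (mul_ne_zero (by norm_num) fun h => f.nsq ⟨0, ?_⟩)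
        ((map_ne_zero _).mpr fun h => nsq_norm f ⟨f.a 0, ?_⟩)
      · rw [h, zero_pow two_ne_zero, eq_comm, map_eq_zero] at hz
        rw [hz, mul_zero]
      · rw [h]; ring
    have n1 : s₁ + s₂ ≠ 0 := left_ne_zero_of_mul hne
    have n2 : s₁ - s₂ ≠ 0 := right_ne_zero_of_mul hne
    have u1 : ∀ σ : E₁ →+* k, σ.comp (algebraMap F E₁) = algebraMap F k → σ m = s₁ * s₂ →
        (s₁ + s₂) ^ 2 = σ (2 * m - 2 * algebraMap F E₁ (f.a 0)) := fun σ b1 b2 => by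
      rw [map_sub, map_mul, map_mul, map_ofNat, b2,
        show σ (algebraMap F E₁ (f.a 0)) = _ from RingHom.congr_fun b1 _]
      linear_combination hsum
    have u2 : ∀ σ : E₁ →+* k, σ.comp (algebraMap F E₁) = algebraMap F k → σ m = -(s₁ * s₂) →
        (s₁ - s₂) ^ 2 = σ (2 * m - 2 * algebraMap F E₁ (f.a 0)) := fun σ b1 b2 => by
      rw [map_sub, map_mul, map_mul, map_ofNat, b2,
        show σ (algebraMap F E₁ (f.a 0)) = _ from RingHom.congr_fun b1 _]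
      linear_combination hsum
    obtain ⟨x₁, x₂, x₃, x₄, p1, p2, p3, p4, hx⟩ := split4 hPj hBc hq G₁ t₁ hK2 hK3 hL2 hL3 ht₁ hs₁
      z s₂ s₁ hz (fun σ b1 b2 => by rw [hs2, map_neg, map_ev2, map_neg, b1, b2])
      (fun σ b1 b2 => by rw [hs1, map_neg, map_ev2, map_neg, b1, b2, neg_neg])
      (fun δ' r' w => ∀ x y : RatFunc k,
        ConicField (fun l : Fin 3 => ev2 (algebraMap F k) δ' f.a f.b (Alg.f3 l)) x y →
        N.HasCls (vec ![Pi.single i₀ 1] ![1]) (vec (f.cv (algebraMap F k) δ' r') ![1, x, y]) w)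
      (fun τ C' b1 b2 x y b3 => by
        have b4 := hb₁ k N q τ C' x y hq b1 b2 (by
          refine (congrArg (fun a => ConicField a x y) ?_).mp b3
          ext l
          rw [Function.comp_apply, map_ev2, hFL, b1])
        rw [map_pt] at b4
        refine (congrArg (fun a => N.HasCls _ (vec a _) _) ?_).mp b4
        ext l i
        rw [Function.comp_apply, map_cv, hFL, b1]) C₁ h1
    obtain ⟨y₁, y₂, y₃, y₄, q1, q2, q3, q4, hy⟩ := split4 hPj hBc hq G₂ t₂ hE2 hE3 hT2 hT3 ht₂ hs₂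
      (s₁ * s₂) (s₁ + s₂) (s₁ - s₂) hm u1 u2
      (fun m' t' w => N.HasCls (vec ![Pi.single i₀ 1] ![1])
        (vec (f.lv (algebraMap F k) m' t') ![1, RatFunc.X]) w)
      (fun τ C' b1 b2 => by
        have b4 := hb₂ k N q τ C' hq b1 b2
        rw [map_pt] at b4
        refine (congrArg (fun a => N.HasCls _ (vec a _) _) ?_).mp b4
        ext l i
        rw [← b1, ← hFE, ← map_lv]
        fin_cases l <;> rfl) C₂ h2
    obtain ⟨w₁, w₂, w₃, w₄, r1, r2, r3, r4, hw⟩ := split4 hPj hBc hq G₃ t₃ hE2 hE3 hT2 hT3 ht₃ hs₃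
      (s₁ * s₂) (s₁ + s₂) (s₁ - s₂) hm u1 u2
      (fun m' t' w => N.HasCls (vec ![Pi.single i₀ 1] ![1])
        (vec ![f.lv (algebraMap F k) m' t' 1] ![1]) w)
      (fun τ C' b1 b2 => by
        have b4 := hb₃ k N q τ C' hq b1 b2
        rw [map_pt] at b4
        refine (congrArg (fun a => N.HasCls _ (vec ![a] _) _) ?_).mp b4
        ext i
        rw [Function.comp_apply, map_lv, hFE, b1]) C₃ h3
    have hp' : Sat N.I₁ (algebraMap F k) (Pi.single i₀ 1) := by rw [hq.h₁]; exact hpt k _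
    have v1 := one hHf N f hq.h₂ (pt_ne i₀ k) hp' z (-s₁) (-s₂) hz (by rw [neg_sq, hs1])
      (by rw [neg_sq, hs2]) (neg_ne_zero.mpr n1) (neg_neg _).symm (neg_mul_neg _ _).symm
      (neg_add _ _) p1 q2 r2
    have v2 := one hHf N f hq.h₂ (pt_ne i₀ k) hp' z s₁ s₂ hz hs1 hs2 n1 rfl rfl rfl p2 q1 r1
    have v3 := one hHf N f hq.h₂ (pt_ne i₀ k) hp' (-z) s₂ (-s₁) hz' hs2
      (by rw [neg_sq, hs1, neg_neg]) (neg_ne_zero.mpr n2) (neg_neg _).symm (by ring) (by ring)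
      p3 q4 r4
    have v4 := one hHf N f hq.h₂ (pt_ne i₀ k) hp' (-z) (-s₂) s₁ hz' (by rw [neg_sq, hs2])
      (by rw [hs1, neg_neg]) n2 rfl (by ring) (by ring) p4 q3 r3
    rw [hx, hy, hw, v1, v2, v3, v4]
    abel

end Pool.Agent.MP_d45d16_ag.Sp14
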