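import Pool.Agent.MP_d45d16_ag.sp.Spec

/-!
A form vanishing at the point over the tensor product lies in the transported prime.
-/

set_option autoImplicit false

open MvPolynomial Matrix

namespace Pool.Agent.MP_d45d16_ag.Sp14

open Yag

namespace MemX

variable {ι F K E : Type} [Field F] [Field K] [Field E] [Algebra F K] [Algebra F E]

/-- Apply a linear form to the coefficients. -/
noncomputable def fl (l : K →ₗ[F] F) (f : By ι K) : By ι F :=
  ∑ d ∈ f.support, monomial d (l (coeff d f))

theorem coeff_fl (l : K →ₗ[F] F) (f : By ι K) (d : ι →₀ ℕ) :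
    coeff d (fl l f) = l (coeff d f) := by
  classical
  simp only [fl, coeff_sum, coeff_monomial, Finset.sum_ite_eq']
  split_ifs with h
  · rfl
  · rw [notMem_support_iff.1 h, map_zero]

theorem fl_hom (l : K →ₗ[F] F) {f : By ι K} {n : ℕ} (hf : f.IsHomogeneous n) :
    (fl l f).IsHomogeneous n := by
  intro d hd
  apply hf
  intro h0
  apply hd
  rw [coeff_fl, h0, map_zero]

theorem fl_eval (l : K →ₗ[F] F) (b : ι → E) (f : By ι K)
    (h : aeval (fun i => TensorProduct.tmul F (1 : K) (b i)) f = 0) :
    aeval b (fl l f) = 0 := by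
  have key : ∀ (d : ι →₀ ℕ) (c : K),
      aeval (fun i => TensorProduct.tmul F (1 : K) (b i)) (monomial d c : By ι K) =
        TensorProduct.tmul F c (d.prod fun i k => b i ^ k) := by
    intro d c
    have h1 : (d.prod fun i k => (TensorProduct.tmul F (1 : K) (b i)) ^ k) =
        TensorProduct.tmul F (1 : K) (d.prod fun i k => b i ^ k) := by
      have h2 := map_finsuppProd
        (Algebra.TensorProduct.includeRight : E →ₐ[F] TensorProduct F K E) d fun i k => b i ^ k
      simp only [map_pow, Algebra.TensorProduct.includeRight_apply] at h2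
      exact h2.symm
    rw [aeval_monomial, h1, Algebra.TensorProduct.algebraMap_apply,
      Algebra.TensorProduct.tmul_mul_tmul]
    simp
  have h3 := congrArg (fun t => TensorProduct.lid F E (LinearMap.rTensor E l t)) h
  rw [f.as_sum] at h3
  simp only [map_sum, key, LinearMap.rTensor_tmul, TensorProduct.lid_tmul, map_zero] at h3
  rw [fl, map_sum, ← h3]
  refine Finset.sum_congr rfl fun d _ => ?_
  rw [aeval_monomial, Algebra.smul_def]

theorem exists_sum (f : By ι K) : ∃ (s : Finset K) (l : K → K →ₗ[F] F),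
    f = ∑ c ∈ s, C c * map (algebraMap F K) (fl (l c) f) := by
  classical
  let e := Module.Basis.ofVectorSpace F K
  let s := f.support.biUnion fun d => (e.repr (coeff d f)).support
  let l : K → K →ₗ[F] F := fun c =>
    if h : c ∈ Module.Basis.ofVectorSpaceIndex F K then e.coord ⟨c, h⟩ else 0
  refine ⟨s.image Subtype.val, l, ?_⟩
  rw [Finset.sum_image fun x _ y _ h => Subtype.ext h]
  ext d
  simp only [coeff_sum, coeff_C_mul, coeff_map, coeff_fl]
  have hs : (e.repr (coeff d f)).support ⊆ s := by
    by_cases hd : d ∈ f.support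
    · exact Finset.subset_biUnion_of_mem (fun d => (e.repr (coeff d f)).support) hd
    · rw [notMem_support_iff.1 hd, map_zero]
      simp
  have h1 := e.linearCombination_repr (coeff d f)
  rw [Finsupp.linearCombination_apply,
    Finsupp.sum_of_support_subset _ hs (fun i a => a • e i) (fun i _ => zero_smul F _)] at h1
  refine h1.symm.trans (Finset.sum_congr rfl fun x _ => ?_)
  have h2 : l x.1 = e.coord x := dif_pos x.2
  have h3 : e x = x.1 := Module.Basis.ofVectorSpace_apply_self F K x
  rw [h2, h3, Algebra.smul_def, mul_comm]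
  rfl

theorem mem_prm (a b : ι → E) {h : By ι F} {n : ℕ} (hh : h.IsHomogeneous n)
    (h0 : aeval b h = 0) : rename Sum.inr h ∈ prm (algebraMap F E) a b := by
  rw [prm, RingHom.mem_ker, coe_eval₂Hom, eval₂_rename]
  have h1 : eval₂ (C.comp (algebraMap F E))
      ((Sum.elim (fun i => C (a i) * X 0) fun j => C (b j) * X 1) ∘ Sum.inr) h =
      C (aeval b h) * (X 1 : MvPolynomial (Fin 2) E) ^ n := by
    rw [eval₂_eq, aeval_def, eval₂_eq, map_sum, Finset.sum_mul]
    refine Finset.sum_congr rfl fun d hd => ?_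
    have hn : ∑ i ∈ d.support, d i = n := by
      have := hh (mem_support_iff.1 hd)
      simpa [Finsupp.weight_apply, Finsupp.sum] using this
    simp only [Function.comp, Sum.elim_inr, mul_pow, Finset.prod_mul_distrib,
      Finset.prod_pow_eq_pow_sum, hn, map_mul, map_prod, map_pow, RingHom.comp_apply, mul_assoc]
  rw [h1, h0, map_zero, zero_mul]

variable [Fintype ι] [DecidableEq ι]

/-- The linear substitution given by a matrix. -/
noncomputable def sb (g : Matrix ι ι K) : By ι K →ₐ[K] By ι K :=
  aeval fun i => ∑ j, C (g i j) * X j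

omit [DecidableEq ι] in
theorem sb_hom (g : Matrix ι ι K) {f : By ι K} {n : ℕ} (hf : f.IsHomogeneous n) :
    (sb g f).IsHomogeneous n := by
  have h := hf.aeval (fun i => ∑ j, C (g i j) * X j : ι → By ι K)
    (fun i => IsHomogeneous.sum _ _ 1 fun j _ => isHomogeneous_C_mul_X _ _)
  rw [one_mul] at h
  exact h

omit [DecidableEq ι] in
theorem aeval_sb {A : Type} [CommRing A] [Algebra K A] (g : Matrix ι ι K) (w : ι → A)
    (f : By ι K) : aeval w (sb g f) = aeval (fun i => ∑ j, g i j • w j) f := by
  have h : (aeval w).comp (sb g) = (aeval (fun i => ∑ j, g i j • w j) : By ι K →ₐ[K] A) := by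
    ext i
    simp [sb, Algebra.smul_def]
  exact DFunLike.congr_fun h f

theorem inv_comb {A : Type} [AddCommGroup A] [Module K A] {g : Matrix ι ι K} (hg : IsUnit g)
    (z : ι → A) (i : ι) : ∑ j, g⁻¹ i j • ∑ k, g j k • z k = z i := by
  have h1 : g⁻¹ * g = 1 := Matrix.nonsing_inv_mul g ((Matrix.isUnit_iff_isUnit_det g).1 hg)
  simp only [Finset.smul_sum, smul_smul]
  rw [Finset.sum_comm]
  simp only [← Finset.sum_smul, ← Matrix.mul_apply, h1]
  simp [Matrix.one_apply]

theorem sb_sb {g : Matrix ι ι K} (hg : IsUnit g) (f : By ι K) : sb g (sb g⁻¹ f) = f := by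
  have h1 := aeval_sb g⁻¹ (fun i => ∑ j, C (g i j) * X j : ι → By ι K) f
  have h2 : (fun i => ∑ j, g⁻¹ i j • ∑ k, C (g j k) * X k : ι → By ι K) = X := by
    funext i
    simp only [← smul_eq_C_mul]
    exact inv_comb hg X i
  rw [h2, aeval_X_left_apply] at h1
  exact h1

theorem sb_map (g : Matrix ι ι K) (i₀ : ι) (h : By ι F) :
    sb g (map (algebraMap F K) h) =
      dh K i₀ (theta (algebraMap F K) 1 g (rename Sum.inr h)) := by
  induction h using MvPolynomial.induction_on with
  | C c => simp [sb, dh, theta]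
  | add p q hp hq => simp only [map_add, hp, hq]
  | mul_X p j hp =>
    simp only [map_mul, hp]
    congr 1
    simp [sb, dh, theta]

end MemX

open MemX in
theorem mem_stmt (hR : PrmAPI) (hM : ModAPI) : MemStmt := by
  intro ι F K E _ _ _ _ _ _ _ g i₀ a b z f n hg hz hf h0
  have _ := hR
  have _ := hM
  have h1 : aeval (fun i => TensorProduct.tmul F (1 : K) (b i)) (sb g⁻¹ f) = 0 := by
    rw [aeval_sb, ← h0]
    congr 2
    funext i
    simp only [← hz]
    exact inv_comb hg z i
  obtain ⟨s, l, hs⟩ := exists_sum (F := F) (sb g⁻¹ f)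
  rw [← sb_sb hg f, hs, map_sum]
  refine Ideal.sum_mem _ fun c _ => ?_
  rw [map_mul]
  refine Ideal.mul_mem_left _ _ ?_
  rw [sb_map g i₀]
  exact Ideal.mem_map_of_mem _ (Ideal.mem_map_of_mem _
    (mem_prm a b (fl_hom _ (sb_hom _ hf)) (fl_eval _ b _ h1)))

end Pool.Agent.MP_d45d16_ag.Sp14
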