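import Pool.Agent.MP_d45d16_ag.sp.Spec
import Pool.Agent.MP_d45d16_ag.yag.Chart

/-!
More on Hilbert functions in the singly graded case.
-/

set_option autoImplicit false

open MvPolynomial Filter

namespace Pool.Agent.MP_d45d16_ag.Sp14

open Yag

namespace ModX

theorem yw_W (σ : Type) : IsW (yw σ) := fun _ => Or.inr rfl

theorem weight_yw {σ : Type} (d : σ →₀ ℕ) :
    Finsupp.weight (yw σ) d = (0, Finsupp.weight (1 : σ → ℕ) d) := by
  induction d using Finsupp.induction_linear with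
  | zero => rw [map_zero, map_zero]; rfl
  | add f g hf hg => rw [map_add, map_add, hf, hg]; rfl
  | single a b => simp [Finsupp.weight_single, yw]

theorem yw_iff {σ R : Type} [CommRing R] {f : MvPolynomial σ R} {n : ℕ} :
    IsWeightedHomogeneous (yw σ) f (0, n) ↔ f.IsHomogeneous n :=
  forall_congr' fun d => imp_congr_right fun _ => by rw [weight_yw, Prod.mk.injEq]; simp

variable {σ τ K : Type} [Field K]

theorem ren_cmp (e : σ → τ) (m : ℕ × ℕ) (f : By σ K) :
    rename e (weightedHomogeneousComponent (yw σ) m f) =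
      weightedHomogeneousComponent (yw τ) m (rename e f) := by
  induction f using MvPolynomial.induction_on' with
  | add p q hp hq => simp only [map_add, hp, hq]
  | monomial d r =>
    have h1 := isWeightedHomogeneous_monomial (yw σ) d r (weight_yw d)
    have h2 := yw_iff.2 ((yw_iff.1 h1).rename_isHomogeneous (f := e))
    rw [weightedHomogeneousComponent_of_mem h1, weightedHomogeneousComponent_of_mem h2]
    split_ifs
    exacts [rfl, map_zero _]

theorem ren_hom (e : σ → τ) {I : Ideal (By τ K)} (h : IsHom (yw τ) I) :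
    IsHom (yw σ) (I.comap (rename e : By σ K →ₐ[K] By τ K)) := fun f hf m => by
  rw [Ideal.mem_comap, ren_cmp]
  exact h _ hf m

variable [Finite σ]

theorem inf (w : σ → ℕ × ℕ) (I J : Ideal (MvPolynomial σ K)) (hw : IsW w) (hI : IsHom w I)
    (hJ : IsHom w J) : IsHom w (I ⊓ J) ∧ IsHom w (I ⊔ J) ∧
      ∀ k, hf w (I ⊓ J) k + hf w (I ⊔ J) k = hf w I k + hf w J k := by
  refine ⟨fun f h m => ⟨hI f h.1 m, hJ f h.2 m⟩, fun f h m => ?_, fun k => ?_⟩
  · obtain ⟨a, ha, b, hb, rfl⟩ := Submodule.mem_sup.1 h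
    rw [map_add]
    exact Submodule.add_mem_sup (hI a ha m) (hJ b hb m)
  have := Hf.fd (K := K) hw k
  obtain ⟨A, hA⟩ : ∃ A : Ideal (MvPolynomial σ K) → Submodule K (MvPolynomial σ K),
      A = fun L => weightedHomogeneousSubmodule K w k ⊓
        LinearMap.ker (Ideal.Quotient.mkₐ K L).toLinearMap := ⟨_, rfl⟩
  have e : ∀ L, hf w L k + Module.finrank K (A L) =
      Module.finrank K (weightedHomogeneousSubmodule K w k) := fun L => by
    rw [hA]; exact Hf.map_add_inf _ _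
  have m : ∀ L x, x ∈ A L ↔ IsWeightedHomogeneous w x k ∧ x ∈ L := fun L x => by
    rw [hA]; exact and_congr Iff.rfl Hf.mk_zero
  have fin : ∀ L, Module.Finite K (A L) := fun L =>
    Submodule.finiteDimensional_of_le (S₂ := weightedHomogeneousSubmodule K w k) fun x hx =>
      ((m L x).1 hx).1
  have e1 : A (I ⊓ J) = A I ⊓ A J := Submodule.ext fun x => by
    rw [Submodule.mem_inf, m, m, m, Ideal.mem_inf]; tauto
  have e2 : A (I ⊔ J) = A I ⊔ A J := by
    refine le_antisymm (fun x hx => ?_) (sup_le (fun x hx => ?_) fun x hx => ?_)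
    · obtain ⟨h1, h2⟩ := (m _ x).1 hx
      obtain ⟨a, ha, b, hb, rfl⟩ := Submodule.mem_sup.1 h2
      rw [← h1.weightedHomogeneousComponent_same, map_add]
      exact Submodule.add_mem_sup ((m _ _).2 ⟨weightedHomogeneousComponent_mem w a k, hI a ha k⟩)
        ((m _ _).2 ⟨weightedHomogeneousComponent_mem w b k, hJ b hb k⟩)
    · exact (m _ x).2 ⟨((m _ x).1 hx).1, Ideal.mem_sup_left ((m _ x).1 hx).2⟩
    · exact (m _ x).2 ⟨((m _ x).1 hx).1, Ideal.mem_sup_right ((m _ x).1 hx).2⟩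
  have := fin I
  have := fin J
  have e3 := Submodule.finrank_sup_add_finrank_inf_eq (A I) (A J)
  rw [← e1, ← e2] at e3
  have := e I
  have := e J
  have := e (I ⊓ J)
  have := e (I ⊔ J)
  omega

theorem sat (I I' b : Ideal (By σ K)) (hI : IsHom (yw σ) I) (hI' : IsHom (yw σ) I') (h : I ≤ I')
    (hb : b * I' ≤ I) (h0 : ∀ᶠ n in atTop, hf (yw σ) b (0, n) = 0) :
    ∀ᶠ n in atTop, hf (yw σ) I (0, n) = hf (yw σ) I' (0, n) := by
  induction I using IsNoetherian.induction with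
  | hgt I ih =>
    by_cases k : I' ≤ I
    · exact Eventually.of_forall fun n => by rw [le_antisymm h k]
    obtain ⟨f, f1, f2⟩ := SetLike.not_le_iff_exists.1 k
    obtain ⟨m, hm⟩ := not_forall.1 fun a => f2 (Hf.mem_of_cmp (w := yw σ) a)
    have g1 := hI' f f1 m
    have g2 := weightedHomogeneousComponent_isWeightedHomogeneous (w := yw σ) m f
    generalize weightedHomogeneousComponent (yw σ) m f = g at hm g1 g2
    have h1 := ih (I ⊔ Ideal.span {g}) (lt_of_le_of_ne le_sup_left fun e => hm (by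
      rw [e]; exact Ideal.mem_sup_right (Ideal.mem_span_singleton_self g))) (Hf.sup_hom hI g2)
      (sup_le h ((Ideal.span_singleton_le_iff_mem _).2 g1)) (hb.trans le_sup_left)
    obtain ⟨N, hN⟩ := eventually_atTop.1 h0
    filter_upwards [h1, eventually_ge_atTop (N + m.2)] with n a1 a2
    rw [← a1]
    by_cases l : m ≤ (0, n)
    · have e : ((0, n) : ℕ × ℕ) = (0, n - m.2) + m := by
        have := l.1
        ext <;> simp at this ⊢ <;> omega
      have a3 := Hf.hf_mono (yw_W σ) (show b ≤ I.colon {g} from fun x hx =>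
        Hf.mem_colon.2 (hb (Ideal.mul_mem_mul hx g1))) (0, n - m.2)
      rw [hN _ (by omega)] at a3
      rw [e, Hf.hf_add (yw_W σ) _ hI g2]
      omega
    · exact Hf.hf_low (yw_W σ) hI g2 l

theorem nil (b : Ideal (By σ K)) (N : ℕ) (h : ∀ v, X v ^ N ∈ b) :
    (∀ᶠ n in atTop, hf (yw σ) b (0, n) = 0) ∧ ¬ Unb (yw σ) b := by
  classical
  have := Fintype.ofFinite σ
  have h0 : ∀ n, Fintype.card σ * N < n → hf (yw σ) b (0, n) = 0 := fun n hn => by
    refine (Hf.hf_zero (yw_W σ) b _).2 fun f hf => ?_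
    rw [f.as_sum]
    refine Ideal.sum_mem _ fun d hd => ?_
    have e : ∑ v, d v = n := by
      rw [← (yw_iff.1 hf) (mem_support_iff.1 hd), Finsupp.weight_apply,
        Finsupp.sum_fintype _ _ (by simp)]
      simp
    obtain ⟨v, hv⟩ : ∃ v, N ≤ d v := by
      by_contra k
      have := Finset.sum_le_card_nsmul Finset.univ d N fun v _ => (not_le.1 fun a => k ⟨v, a⟩).le
      rw [e, Finset.card_univ, smul_eq_mul] at this
      omega
    obtain ⟨c, rfl⟩ := exists_add_of_le (Finsupp.single_le_iff.2 hv)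
    rw [monomial_single_add]
    exact Ideal.mul_mem_right _ _ (h v)
  refine ⟨eventually_atTop.2 ⟨_, fun n hn => h0 n hn⟩, fun u => ?_⟩
  obtain ⟨n, hn⟩ := u (∑ i ∈ Finset.range (Fintype.card σ * N + 1), hf (yw σ) b (0, i))
  rcases lt_or_ge (Fintype.card σ * N) n with k | k
  · rw [h0 n k] at hn; omega
  · exact hn.not_ge (Finset.single_le_sum (f := fun i => hf (yw σ) b (0, i))
      (fun _ _ => Nat.zero_le _) (Finset.mem_range.2 (by omega)))

theorem le {M : Type} [AddCommGroup M] [Module K M] (I : Ideal (By σ K)) (φ : By σ K →ₗ[K] M)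
    (W : Submodule K M) (n : ℕ) (hW : Module.Finite K W)
    (h1 : ∀ f : By σ K, f.IsHomogeneous n → φ f ∈ W)
    (h2 : ∀ f : By σ K, f.IsHomogeneous n → φ f = 0 → f ∈ I) :
    hf (yw σ) I (0, n) ≤ Module.finrank K W := by
  have := Hf.fd (K := K) (yw_W σ) (0, n)
  refine (Hf.map_le_of_ker _ φ _ fun x hx e => Hf.mk_zero.2 (h2 x (yw_iff.1 hx) e)).trans
    (Submodule.finrank_mono ?_)
  rintro _ ⟨x, hx, rfl⟩
  exact h1 x (yw_iff.1 hx)

theorem ren [Finite τ] (e : σ → τ) (I : Ideal (By τ K)) :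
    (∀ n, hf (yw σ) (I.comap (rename e : By σ K →ₐ[K] By τ K)) (0, n) ≤ hf (yw τ) I (0, n)) ∧
      ((∀ v, ∃ l : By σ K, l.IsHomogeneous 1 ∧ X v - rename e l ∈ I) →
        ∀ n, hf (yw σ) (I.comap (rename e : By σ K →ₐ[K] By τ K)) (0, n) = hf (yw τ) I (0, n)) := by
  obtain ⟨V, hV⟩ : ∃ V : ℕ → Submodule K (By τ K ⧸ I), V = fun n =>
      (weightedHomogeneousSubmodule K (yw σ) (0, n)).map ((Ideal.Quotient.mkₐ K I).toLinearMap ∘ₗ
        (rename e : By σ K →ₐ[K] By τ K).toLinearMap) := ⟨_, rfl⟩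
  have m : ∀ n z, z ∈ V n ↔ ∃ g : By σ K, g.IsHomogeneous n ∧
      Ideal.Quotient.mk I (rename e g) = z := fun n z => by
    rw [hV]; exact exists_congr fun g => and_congr yw_iff Iff.rfl
  have e1 : ∀ n, hf (yw σ) (I.comap (rename e : By σ K →ₐ[K] By τ K)) (0, n) =
      Module.finrank K (V n) := fun n => by
    have := Hf.fd (K := K) (yw_W σ) (0, n)
    rw [hV]
    exact Hf.map_eq_of_ker _ _ _ fun x _ => Hf.mk_zero.trans (Hf.mk_zero (J := I)).symm
  have e2 : ∀ n, V n ≤ (weightedHomogeneousSubmodule K (yw τ) (0, n)).map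
      (Ideal.Quotient.mkₐ K I).toLinearMap := fun n z hz => by
    obtain ⟨g, g1, rfl⟩ := (m n z).1 hz
    exact ⟨_, yw_iff.2 g1.rename_isHomogeneous, rfl⟩
  refine ⟨fun n => ?_, fun h n => ?_⟩
  · have := Hf.fd (K := K) (yw_W τ) (0, n)
    rw [e1]
    exact Submodule.finrank_mono (e2 n)
  · rw [e1, le_antisymm (e2 n) (Submodule.map_le_iff_le_comap.2 ?_)]
    · rfl
    induction n with
    | zero =>
      exact fun f hf => Hf.zero_mem (yw_W τ) _
        ((m 0 _).2 ⟨1, isHomogeneous_one _ _, by simp⟩) hf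
    | succ n ih =>
      refine fun f hf => Hf.succ_mem (yw_W τ) _ n (fun v _ g hg => ?_) hf
      obtain ⟨l, l1, l2⟩ := h v
      obtain ⟨g', g1, g2⟩ := (m n _).1 (ih hg)
      refine (m _ _).2 ⟨g' * l, g1.mul l1, ?_⟩
      rw [map_mul, map_mul, g2, ← Ideal.Quotient.eq.2 l2]
      rfl

end ModX

theorem modAPI (_hH : HfAPI) : ModAPI where
  inf _ _ _ _ := ModX.inf
  sat _ _ _ _ := ModX.sat
  nil _ _ _ _ := ModX.nil
  le _ _ _ _ _ _ _ := ModX.le
  yw_iff _ _ _ _ _ := ModX.yw_iff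
  ren _ _ _ _ _ _ e I h := ⟨ModX.ren_hom e h, ModX.ren e I⟩
  colrow _ _ _ _ _ _ _ h :=
    ⟨fun f hf m => Ideal.mem_iInf.2 fun j => ModX.ren_hom _ h f (Ideal.mem_iInf.1 hf j) m,
      fun f hf m => Ideal.mem_iInf.2 fun r => ModX.ren_hom _ h f (Ideal.mem_iInf.1 hf r) m⟩

end Pool.Agent.MP_d45d16_ag.Sp14
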