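import Pool.Agent.MP_d45d16_ag.sp.Spec

/-!
NAT and QUAD: the covariants commute with field embeddings, and the quadrics.
-/

set_option autoImplicit false

open MvPolynomial Matrix

namespace Pool.Agent.MP_d45d16_ag.Sp14

open Yag

namespace NatX

section Ring

variable {R R' : Type} [CommRing R] [CommRing R'] (φ : R →+* R')

lemma comp_single {ι : Type} [DecidableEq ι] (k : ι) :
    φ ∘ (Pi.single k 1 : ι → R) = Pi.single k 1 := by
  ext i
  by_cases h : i = k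
  · subst h; simp
  · simp [h]

lemma comp_mulVec {ι κ : Type} [Fintype κ] (A : Matrix ι κ R) (u : κ → R) :
    φ ∘ (A *ᵥ u) = A.map φ *ᵥ (φ ∘ u) := by
  ext i; exact φ.map_mulVec A u i

lemma comp_vecMul {ι κ : Type} [Fintype ι] (A : Matrix ι κ R) (u : ι → R) :
    φ ∘ (u ᵥ* A) = (φ ∘ u) ᵥ* A.map φ := by
  ext i; exact φ.map_vecMul A u i

lemma comp_sub {ι : Type} (u v : ι → R) : φ ∘ (u - v) = φ ∘ u - φ ∘ v := by
  ext i; simp

lemma comp_add {ι : Type} (u v : ι → R) : φ ∘ (u + v) = φ ∘ u + φ ∘ v := by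
  ext i; simp

lemma comp_neg {ι : Type} (u : ι → R) : φ ∘ (-u) = -(φ ∘ u) := by
  ext i; simp

lemma comp_smul {ι : Type} (c : R) (u : ι → R) : φ ∘ (c • u) = φ c • (φ ∘ u) := by
  ext i; simp

lemma map_eV (k : V) : φ (eV R k) = eV R' k := by
  cases k <;> simp [eV]

lemma map_bq (v w : V → R) : φ (bq v w) = bq (φ ∘ v) (φ ∘ w) := by
  simp only [bq, map_sum, map_mul, map_eV, Function.comp_apply]

lemma cl_pos (hCl : ClifAPI) (v : V → R) : (cl 1 v).map φ = cl 1 (φ ∘ v) := by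
  rw [hCl.cl_map, map_one]

lemma cl_neg (hCl : ClifAPI) (v : V → R) : (cl (-1) v).map φ = cl (-1) (φ ∘ v) := by
  rw [hCl.cl_map, map_neg, map_one]

lemma map_beta (hCl : ClifAPI) (u u' : S → R) :
    φ ∘ beta u u' = beta (φ ∘ u) (φ ∘ u') := by
  ext k
  simp only [Function.comp_apply, beta]
  rw [map_mul, map_eV, φ.map_dotProduct, comp_mulVec, cl_pos φ hCl, comp_single]

lemma map_cc (hCl : ClifAPI) (u : S → R) (v w : V → R) :
    φ ∘ cc u v w = cc (φ ∘ u) (φ ∘ v) (φ ∘ w) := by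
  rw [cc, cc, comp_mulVec, comp_mulVec, cl_pos φ hCl, cl_neg φ hCl]

lemma map_cr (hCl : ClifAPI) (u : S → R) (v w : V → R) :
    φ ∘ cr u v w = cr (φ ∘ u) (φ ∘ v) (φ ∘ w) := by
  rw [cr, cr, comp_neg, map_beta φ hCl, map_cc φ hCl]

lemma map_tt (hCl : ClifAPI) (u : S → R) (v w : V → R) :
    φ (tt u v w) = tt (φ ∘ u) (φ ∘ v) (φ ∘ w) := by
  rw [tt, tt, map_sum]
  refine Finset.sum_congr rfl fun k _ => ?_
  have h := congrFun (map_cr φ hCl u v (cr u w (Pi.single k 1))) k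
  rwa [map_cr φ hCl u w, comp_single] at h

lemma map_tri (hCl : ClifAPI) (u v w : V → R) :
    (cl 1 u * cl (-1) v * cl 1 w).map φ = cl 1 (φ ∘ u) * cl (-1) (φ ∘ v) * cl 1 (φ ∘ w) := by
  rw [Matrix.map_mul, Matrix.map_mul, cl_pos φ hCl, cl_pos φ hCl, cl_neg φ hCl]

end Ring

section Fld

variable {Ω Ω' : Type} [Field Ω] [Field Ω'] (φ : Ω →+* Ω')

lemma map_TT (hCl : ClifAPI) (u : S → Ω) (v : V → Ω) : φ ∘ TT u v = TT (φ ∘ u) (φ ∘ v) := by
  ext k
  simp only [Function.comp_apply, TT]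
  rw [map_div₀, map_neg, map_mul, map_eV, map_tt φ hCl, comp_single, map_ofNat]

lemma map_DD (hCl : ClifAPI) (u : S → Ω) (v w z : V → Ω) :
    φ ∘ DD u v w z = DD (φ ∘ u) (φ ∘ v) (φ ∘ w) (φ ∘ z) := by
  rw [DD, DD, comp_smul, comp_add, comp_smul, comp_smul, map_bq, map_bq, map_TT φ hCl,
    map_TT φ hCl, map_div₀, map_one, map_ofNat]

lemma map_dd (hCl : ClifAPI) (u : S → Ω) : φ (dd u) = dd (φ ∘ u) := by
  rw [dd, dd, map_div₀, map_ofNat, map_sum]
  congr 1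
  refine Finset.sum_congr rfl fun k _ => ?_
  have h := congrFun (map_TT φ hCl u (TT u (Pi.single k 1))) k
  rwa [map_TT φ hCl u (Pi.single k 1), comp_single] at h

lemma map_G1 (hCl : ClifAPI) (u : S → Ω) (a v : V → Ω) :
    φ ∘ G1 u a v = G1 (φ ∘ u) (φ ∘ a) (φ ∘ v) := by
  rw [G1, G1, comp_sub, map_DD φ hCl, map_DD φ hCl]

lemma map_G2 (hCl : ClifAPI) (u : S → Ω) (a b v : V → Ω) :
    φ ∘ G2' u a b v = G2' (φ ∘ u) (φ ∘ a) (φ ∘ b) (φ ∘ v) := by
  simp only [G2', comp_sub, map_DD φ hCl, map_cr φ hCl]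

lemma map_sevV (hCl : ClifAPI) (u : S → Ω) (a b c : V → Ω) (k : Fin 7) :
    φ ∘ sevV u a b c k = sevV (φ ∘ u) (φ ∘ a) (φ ∘ b) (φ ∘ c) k := by
  fin_cases k <;> simp only [sevV, ← map_cr φ hCl] <;> rfl

lemma map_row (g : Matrix S S Ω) (p : S) : (g.map φ) p = φ ∘ g p := rfl

lemma map_vv (hCl : ClifAPI) (g : Matrix S S Ω) (p : S) : φ ∘ vv g p = vv (g.map φ) p := by
  rw [vv, vv, map_beta φ hCl, map_row, map_row]

lemma map_ff (hCl : ClifAPI) (g : Matrix S S Ω) (k : Fin 7) : φ ∘ ff g k = ff (g.map φ) k := by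
  rw [ff, ff, frV, frV, map_sevV φ hCl, map_G2 φ hCl, map_G1 φ hCl, map_vv φ hCl, map_vv φ hCl,
    map_vv φ hCl, map_row]

lemma map_inv {g : Matrix S S Ω} (hg : IsUnit g) : g⁻¹.map φ = (g.map φ)⁻¹ := by
  refine (Matrix.inv_eq_right_inv ?_).symm
  rw [← Matrix.map_mul, Matrix.mul_nonsing_inv g ((Matrix.isUnit_iff_isUnit_det g).1 hg),
    Matrix.map_one _ (map_zero φ) (map_one φ)]

end Fld

lemma quad_form {A : Type} [CommRing A] {ι : Type} [Fintype ι] (G M : Matrix ι ι A) (x : ι → A) :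
    (x ᵥ* G) ⬝ᵥ M *ᵥ (x ᵥ* G) = ∑ i, ∑ j, (G * M * Gᵀ) i j * x i * x j := by
  rw [← Matrix.mulVec_transpose G x, Matrix.mulVec_mulVec, Matrix.mulVec_transpose,
    ← Matrix.dotProduct_mulVec, Matrix.mulVec_mulVec, ← Matrix.mul_assoc]
  simp only [dotProduct, mulVec, Finset.mul_sum]
  refine Finset.sum_congr rfl fun i _ => Finset.sum_congr rfl fun j _ => ?_
  ring

end NatX

open NatX

theorem nat_stmt (hCl : ClifAPI) : NatStmt := by
  intro Ω Ω' _ _ φ g hg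
  refine ⟨map_dd φ hCl _, fun k => ?_, fun k => ?_, fun k m i => ?_, fun k m i => ?_,
    fun p q r i j => ?_⟩
  · rw [da, da, map_div₀, map_bq, map_TT φ hCl, map_ff φ hCl, map_ofNat, map_row]
  · rw [db, db, map_div₀, map_bq, map_ff φ hCl, map_ofNat]
  · have h : φ ∘ dP g k m = dP (g.map φ) k m := by
      rw [dP, dP, comp_vecMul, comp_sub, comp_smul, map_cc φ hCl, map_cc φ hCl, map_TT φ hCl,
        map_TT φ hCl, map_ff φ hCl, map_ff φ hCl, map_dd φ hCl, NatX.map_inv φ hg, map_row]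
    exact congrFun h i
  · have h : φ ∘ dQ g k m = dQ (g.map φ) k m := by
      rw [dQ, dQ, comp_vecMul, comp_sub, map_cc φ hCl, map_cc φ hCl, map_TT φ hCl,
        map_TT φ hCl, map_ff φ hCl, map_ff φ hCl, NatX.map_inv φ hg, map_row]
    exact congrFun h i
  · have h : (dM g p q r).map φ = dM (g.map φ) p q r := by
      rw [dM, dM, Matrix.map_mul, Matrix.map_mul, map_tri φ hCl, map_vv φ hCl, map_vv φ hCl,
        map_vv φ hCl, Matrix.transpose_map]
    exact congrFun (congrFun h i) j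

theorem quadAPI (hCl : ClifAPI) : QuadAPI := by
  have mat : ∀ (L : Type) [Field L] (g : Matrix S S L) u v w, quadric g u v w =
      ∑ i, ∑ j, C ((g * (cl 1 u * cl (-1) v * cl 1 w) * gᵀ) i j) * X i * X j := by
    intro L _ g u v w
    rw [quadric, quad_form, ← Matrix.transpose_map, ← Matrix.map_mul, ← Matrix.map_mul]
    rfl
  refine ⟨mat, fun L L' _ _ φ g u v w => ?_, fun L _ g h hh u v w => ?_,
    fun L A _ _ c g x u v w => ?_⟩
  · rw [mat, mat, ← map_tri φ hCl, ← Matrix.transpose_map, ← Matrix.map_mul, ← Matrix.map_mul]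
    simp only [map_sum, map_mul, map_C, map_X, Matrix.map_apply]
  · obtain ⟨k, ρ, ρ', hr⟩ := hCl.rel L h hh
    refine ⟨ρ' *ᵥ u, ρ' *ᵥ v, ρ' *ᵥ w, ?_⟩
    have e : ∀ z : V → L, ρ *ᵥ ρ' *ᵥ z = z := fun z => by
      rw [Matrix.mulVec_mulVec, hr.inv, Matrix.one_mulVec]
    have p1 := hr.pos (ρ' *ᵥ u)
    have p2 := hr.neg (ρ' *ᵥ v)
    have p3 := hr.pos (ρ' *ᵥ w)
    rw [e] at p1 p2 p3
    have key : h * (cl 1 u * cl (-1) v * cl 1 w) * hᵀ
        = cl 1 (ρ' *ᵥ u) * cl (-1) (ρ' *ᵥ v) * cl 1 (ρ' *ᵥ w) := by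
      calc h * (cl 1 u * cl (-1) v * cl 1 w) * hᵀ
          = h * cl 1 u * cl (-1) v * (cl 1 w * hᵀ) := by simp only [Matrix.mul_assoc]
        _ = h * cl 1 u * (cl (-1) v * k) * cl 1 (ρ' *ᵥ w) := by
            rw [← p3]; simp only [Matrix.mul_assoc]
        _ = h * (cl 1 u * hᵀ) * cl (-1) (ρ' *ᵥ v) * cl 1 (ρ' *ᵥ w) := by
            rw [← p2]; simp only [Matrix.mul_assoc]
        _ = _ := by rw [← p1, ← Matrix.mul_assoc h k, hr.hk, Matrix.one_mul]
    rw [mat, mat, ← key, Matrix.transpose_mul]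
    simp only [Matrix.mul_assoc]
  · rw [mat, quad_form, ← map_tri c hCl, ← Matrix.transpose_map, ← Matrix.map_mul,
      ← Matrix.map_mul]
    simp only [eval₂_sum, eval₂_mul, eval₂_C, eval₂_X, Matrix.map_apply]

end Pool.Agent.MP_d45d16_ag.Sp14
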