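import Pool.Agent.MP_d45d16_ag.sp.Spec

/-!
The normal form of the data exists.
-/

set_option autoImplicit false

open MvPolynomial Matrix

namespace Pool.Agent.MP_d45d16_ag.Sp14

open Yag

namespace NfX

theorem same_of (hCl : ClifAPI) (hN : NatStmt) (hCv : CovStmt) {Ω Ω' : Type} [Field Ω] [Field Ω']
    [CharZero Ω'] (φ : Ω →+* Ω') (g : Matrix S S Ω) (g2 h : Matrix S S Ω') (hu : IsUnit g)
    (hh : h ∈ Spin Ω') (e : g.map φ = g2 * h) : Same φ g g2 := by
  obtain ⟨k, ρ, ρ', hr⟩ := hCl.rel Ω' h hh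
  have h1 := hN Ω Ω' φ g hu
  have h2 := hCv Ω' g2 h k ρ ρ' hr
  rw [e] at h1
  exact ⟨h1.d.trans h2.d, fun k => (h1.a k).trans (h2.a k), fun k => (h1.b k).trans (h2.b k),
    fun k m i => (h1.P k m i).trans (h2.P k m i), fun k m i => (h1.Q k m i).trans (h2.Q k m i),
    fun p q r i j => (h1.M p q r i j).trans (h2.M p q r i j)⟩

theorem mem_FF (z : L1) (h : ∀ φ ∈ transl gen, φ z = z) : z ∈ FF gen := by
  refine (IntermediateField.mem_fixedField_iff _ _).mpr fun φ hφ => ?_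
  exact (Subgroup.closure_le (MulAction.stabilizer (L1 ≃ₐ[ℂ] L1) z)).mpr
    (fun ψ hψ => h ψ hψ) hφ

theorem same_tr (hCl : ClifAPI) (hN : NatStmt) (hCv : CovStmt) (hG : GgAPI)
    (φ : L1 ≃ₐ[ℂ] L1) (hφ : φ ∈ transl gen) : Same (φ : L1 →+* L1) gen gen := by
  obtain ⟨h, h1, h2⟩ := hφ
  exact same_of hCl hN hCv (φ : L1 →+* L1) gen gen _ hG.unit.1 (hCl.map _ _ _ h h1) h2

theorem map_form {F L : Type} [Field F] [Field L] (c : F →+* L) (M : S → S → F) :
    MvPolynomial.map c (∑ i, ∑ j, C (M i j) * X i * X j : MvPolynomial S F) =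
      ∑ i, ∑ j, C (c (M i j)) * X i * X j := by
  simp only [map_sum, map_mul, map_C, map_X]

theorem hom_form {F : Type} [Field F] (M : S → S → F) :
    (∑ i, ∑ j, C (M i j) * X i * X j : MvPolynomial S F).IsHomogeneous (1 + 1) := by
  refine IsHomogeneous.sum _ _ _ fun i _ => IsHomogeneous.sum _ _ _ fun j _ => ?_
  have := ((isHomogeneous_C S (M i j)).mul (isHomogeneous_X F i)).mul (isHomogeneous_X F j)
  simpa using this

end NfX

open NfX in
theorem nf_stmt (hCl : ClifAPI) (hN : NatStmt) (hCv : CovStmt) (hQ : QuadAPI) (hE1 : Ev1Stmt)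
    (hEm : EmbStmt) (hFx : FixStmt) (hG : GgAPI) : NfStmt := by
  obtain ⟨j, h0, hh0, hj⟩ := hEm
  have hth : h0.map th ∈ Spin L1 := hCl.map _ _ (th : MvPolynomial S ℂ →+* L1) h0 hh0
  have hS : Same (j : L1 →+* L1) gen gg :=
    same_of hCl hN hCv (j : L1 →+* L1) gen gg _ hG.unit.1 hth hj
  have T := same_tr hCl hN hCv hG
  obtain ⟨e1, e2, e3, e4, e5⟩ := hE1 L1 gg hG.row.1
  rw [hG.row.2.1] at e1 e2 e3 e4 e5
  let c : FF gen →+* L1 := (j : L1 →+* L1).comp (algebraMap (FF gen) L1)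
  have hc : ∀ (z : L1) (hz : z ∈ FF gen), c ⟨z, hz⟩ = (j : L1 →+* L1) z := fun _ _ => rfl
  have md : dd (gen r0) ∈ FF gen := mem_FF _ fun φ hφ => (T φ hφ).d
  have ma : ∀ k, da gen k ∈ FF gen := fun k => mem_FF _ fun φ hφ => (T φ hφ).a k
  have mb : ∀ k, db gen k ∈ FF gen := fun k => mem_FF _ fun φ hφ => (T φ hφ).b k
  have mP : ∀ k m i, dP gen k m i ∈ FF gen := fun k m i => mem_FF _ fun φ hφ => (T φ hφ).P k m i
  have mQ : ∀ k m i, dQ gen k m i ∈ FF gen := fun k m i => mem_FF _ fun φ hφ => (T φ hφ).Q k m i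
  have mM : ∀ p q r i l, dM gen p q r i l ∈ FF gen :=
    fun p q r i l => mem_FF _ fun φ hφ => (T φ hφ).M p q r i l
  refine ⟨⟨c, ⟨_, md⟩, fun k => ⟨_, ma k⟩, fun k => ⟨_, mb k⟩, fun k m i => ⟨_, mP k m i⟩,
    fun k m i => ⟨_, mQ k m i⟩, ?_, ?_, ?_, ?_, ?_, ?_, ?_, ?_, ?_⟩⟩
  · rw [hc, hS.d, e1]
  · intro k
    unfold ev2
    rw [hc, hc, hS.a, hS.b, e2]
  · intro k
    unfold ev2
    rw [hc, hc, hS.a, hS.b, ← e3, neg_mul, sub_eq_add_neg]
  · intro k m
    rw [← e4]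
    funext i
    unfold ev2
    rw [hc, hc, hS.P, hS.Q]
    rfl
  · intro k m
    rw [← e5]
    funext i
    unfold ev2
    rw [hc, hc, hS.P, hS.Q, neg_mul, ← sub_eq_add_neg]
    rfl
  · intro f hf
    exact hf.1
  · intro f hf
    have h1 : MvPolynomial.map c f =
        MvPolynomial.map (j : L1 →+* L1) (MvPolynomial.map (algebraMap (FF gen) L1) f) := by
      rw [MvPolynomial.map_map]
    rw [h1]
    have h2 := Ideal.mem_map_of_mem (MvPolynomial.map (σ := S) (j : L1 →+* L1)) hf.2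
    rw [Ideal.map_span] at h2
    refine Ideal.span_mono ?_ h2
    rintro _ ⟨_, ⟨u, v, w, rfl⟩, rfl⟩
    have h3 : gen.map (j : L1 →+* L1) = gg * h0.map th := hj
    rw [hQ.nat, h3]
    exact hQ.cov L1 gg _ hth _ _ _
  · intro p q r
    refine ⟨∑ i, ∑ l, C (⟨_, mM p q r i l⟩ : FF gen) * X i * X l, ⟨⟨1, hom_form _⟩, ?_⟩, ?_⟩
    · rw [map_form]
      refine Ideal.subset_span ⟨vv gen p, vv gen q, vv gen r, ?_⟩
      rw [hQ.mat]
      rfl
    · rw [map_form, hQ.mat]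
      refine Finset.sum_congr rfl fun i _ => Finset.sum_congr rfl fun l _ => ?_
      rw [hc, hS.M]
      rfl
  · intro σ h s hh hσ hs z
    have k2 : h.map (C : ℂ →+* MvPolynomial S ℂ) * h0.map s ∈ Spin (MvPolynomial S ℂ) :=
      Submonoid.mul_mem _ (hCl.map _ _ _ h hh)
        (hCl.map _ _ (s : MvPolynomial S ℂ →+* MvPolynomial S ℂ) h0 hh0)
    have a1 : gen.map (σ.comp j) = (gen.map j).map σ := rfl
    have a2 : (gg * h0.map th).map σ = gg.map σ * (h0.map th).map σ :=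
      Matrix.map_mul (f := (σ : L1 →+* L1))
    have a3 : (h.map (C : ℂ →+* MvPolynomial S ℂ) * h0.map s).map th =
        (h.map (C : ℂ →+* MvPolynomial S ℂ)).map th * (h0.map s).map th :=
      Matrix.map_mul (f := (th : MvPolynomial S ℂ →+* L1))
    have a4 : (h.map (C : ℂ →+* MvPolynomial S ℂ)).map th = h.map (algebraMap ℂ L1) := by
      ext a b
      exact th.commutes (h a b)
    have a5 : (h0.map th).map σ = (h0.map s).map th := by
      ext a b
      exact hs (h0 a b)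
    have a6 : gen.map (σ.comp j) =
        gg * (h.map (C : ℂ →+* MvPolynomial S ℂ) * h0.map s).map th := by
      rw [a1, hj, a2, hσ, a3, a4, a5, Matrix.mul_assoc]
    exact (hFx L1 S j (σ.comp j) gg th h0 _ hh0 k2 hj a6 z.1 z.2).symm

end Pool.Agent.MP_d45d16_ag.Sp14
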