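import Pool.Agent.MP_d45d16_ag.sp.Spec
import Pool.Agent.MP_d45d16_ag.yag.All
import Pool.Agent.MP_d45d16_ag.yag.Phi

/-!
The invariant of a curve descends to cobordism.
-/

set_option autoImplicit false

open AlgebraicGeometry CategoryTheory Limits MvPolynomial

namespace Pool.Agent.MP_d45d16_ag.Sp14

open Yag

namespace PhiNX

open Yag.Phi (geo geo_comp fin sum_image not_gen proper_fst locGen_ker locGen_inf supp_ker supp_inf)

variable {F ι : Type} [Field F] [Finite ι]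

theorem zero {Y : Scheme.{0}} {u v : Y ⟶ PP F ι} {I₁ I₂ : Set (MvPolynomial ι F)}
    {s : Y ⟶ Spec (CommRingCat.of F)} {Φ : Ideal (Pxy ι F) → ZMod 2} (y : Y) (h₁ : HomSet I₁)
    (h₂ : HomSet I₂) (hΦ : GoodN I₁ I₂ Φ) (G : Geo I₁ I₂ s u v)
    (hs : SmoothOfRelativeDimension 1 s) (hU : ¬ UnbAt u v y) : valAt Φ u v y = 0 := by
  obtain ⟨c, a, b, h⟩ := Val.ex ptAPI (E := Y.residueField y) (Y.fromSpecResidueField y)
    (G.us.trans G.vs.symm)
  obtain ⟨e1, e2⟩ := Val.eq_res ptAPI y c a b Φ h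
  obtain ⟨s1, s2, e⟩ := Val.sat ptAPI h₁ h₂ G h
  have h1 := smAPI.le F (Y.residueField y) Y s 1 (Y.fromSpecResidueField y) c hs inferInstance e
  rw [Nat.cast_one] at h1
  have hA : AdmF I₁ I₂ (prm c a b) :=
    prmAPI.prm_sat ι F F (Y.residueField y) I₁ I₂ c a b h₁ h₂ s1 s2 h1
  rw [e1]
  unfold valR
  rw [hΦ.zero _ hA (fun hh => hU (e2.mpr hh)), mul_zero]

theorem phi_eq (M : Amb F F ι) {Φ : Ideal (Pxy ι F) → ZMod 2}
    (hΦ : GoodN M.I₁ M.I₂ Φ) (C : Curve M.s) (U : Finset C.Y)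
    (hU : ∀ y, UnbAt (C.f ≫ M.u) (C.f ≫ M.v) y → y ∈ U) :
    phi Φ (C.f ≫ M.u) (C.f ≫ M.v) = ∑ y ∈ U, valAt Φ (C.f ≫ M.u) (C.f ≫ M.v) y := by
  refine finsum_eq_sum_of_support_subset _ fun y hy => hU y ?_
  by_contra h
  exact hy (zero y M.hom₁ M.hom₂ hΦ (geo_comp (geo M) C.f) C.smooth h)

theorem union (hJ : ProjAPI) (hS : SmAPI) (hV : ValAPI) (M : Amb F F ι)
    {Φ : Ideal (Pxy ι F) → ZMod 2} (hΦ : GoodN M.I₁ M.I₂ Φ) {C A B : Curve M.s}
    (h : IsUnion C A B) : phi Φ (C.f ≫ M.u) (C.f ≫ M.v) =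
      phi Φ (A.f ≫ M.u) (A.f ≫ M.v) + phi Φ (B.f ≫ M.u) (B.f ≫ M.v) := by
  classical
  obtain ⟨a, b, ha, hb, ⟨hc⟩⟩ := h
  let e : A.Y ⨿ B.Y ≅ C.Y := (coprodIsCoprod A.Y B.Y).coconePointUniqueUpToIso hc
  have ea : coprod.inl ≫ e.hom = a :=
    (coprodIsCoprod A.Y B.Y).comp_coconePointUniqueUpToIso_hom hc ⟨.left⟩
  have eb : coprod.inr ≫ e.hom = b :=
    (coprodIsCoprod A.Y B.Y).comp_coconePointUniqueUpToIso_hom hc ⟨.right⟩
  have hia : IsPreimmersion a := by rw [← ea]; infer_instance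
  have hib : IsPreimmersion b := by rw [← eb]; infer_instance
  have hne : ∀ x y, a x ≠ b y := fun x y hxy => by
    rw [← ea, ← eb, Scheme.Hom.comp_apply, Scheme.Hom.comp_apply] at hxy
    exact inl_ne_inr _ _ x y (e.hom.isOpenEmbedding.injective hxy)
  have hsur : ∀ z, (∃ x, a x = z) ∨ ∃ y, b y = z := fun z => by
    obtain ⟨w, rfl⟩ := e.hom.surjective z
    obtain ⟨t, rfl⟩ := (coprodMk A.Y B.Y).surjective w
    rcases t with x | y
    · exact .inl ⟨x, by rw [coprodMk_inl, ← ea, Scheme.Hom.comp_apply]⟩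
    · exact .inr ⟨y, by rw [coprodMk_inr, ← eb, Scheme.Hom.comp_apply]⟩
  have hg := geo_comp (geo M) C.f
  have huv := hg.us.trans hg.vs.symm
  have hA := fin hJ hS hV M A
  have hB := fin hJ hS hV M B
  rw [phi_eq M hΦ A hA.toFinset fun y hy => hA.mem_toFinset.2 hy,
    phi_eq M hΦ B hB.toFinset fun y hy => hB.mem_toFinset.2 hy,
    phi_eq M hΦ C (hA.toFinset.image a ∪ hB.toFinset.image b) ?_, Finset.sum_union ?_,
    sum_image hV Φ huv a hia, sum_image hV Φ huv b hib]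
  · simp only [← Category.assoc, ha, hb]
  · rw [Finset.disjoint_left]
    intro z h1 h2
    obtain ⟨x, -, rfl⟩ := Finset.mem_image.1 h1
    obtain ⟨y, -, h3⟩ := Finset.mem_image.1 h2
    exact hne x y h3.symm
  · intro z hz
    rcases hsur z with ⟨x, rfl⟩ | ⟨y, rfl⟩
    · refine Finset.mem_union_left _ (Finset.mem_image_of_mem _ (hA.mem_toFinset.2 ?_))
      have h1 := (hV.comp F ι _ _ _ _ a x Φ huv).1.2 hz
      simp only [← Category.assoc, ha] at h1
      exact h1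
    · refine Finset.mem_union_right _ (Finset.mem_image_of_mem _ (hB.mem_toFinset.2 ?_))
      have h1 := (hV.comp F ι _ _ _ _ b y Φ huv).1.2 hz
      simp only [← Category.assoc, hb] at h1
      exact h1

theorem double (hP : PtAPI) (hJ : ProjAPI) (hI : IdlAPI) (hS : SmAPI) (hV : ValAPI)
    (hR : RecNStmt) (M : Amb F F ι) {Φ : Ideal (Pxy ι F) → ZMod 2} (hΦ : GoodN M.I₁ M.I₂ Φ)
    {C A B E : Curve M.s} (h : IsDouble C A B E) :
    phi Φ (E.f ≫ M.u) (E.f ≫ M.v) = 0 ∧ phi Φ (C.f ≫ M.u) (C.f ≫ M.v) =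
      phi Φ (A.f ≫ M.u) (A.f ≫ M.v) + phi Φ (B.f ≫ M.u) (B.f ≫ M.v) := by
  classical
  obtain ⟨T, g, π, c, a, b, e, hT, hpr, hc, ha, hb, he, hpb, hia, hib, hker, hD⟩ := h
  have hgA := geo_comp (geo M) A.f
  have hgB := geo_comp (geo M) B.f
  have hgC := geo_comp (geo M) C.f
  have hg := geo_comp (geo M) g
  have huv := hg.us.trans hg.vs.symm
  have hDA : ∀ z, ¬ UnbAt (A.f ≫ M.u) (A.f ≫ M.v) (pullback.fst a b z) := fun z hz =>
    not_gen hS (A.f ≫ M.s) (pullback.fst a b) 0 1 one_pos inferInstance hD A.smooth z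
      (hV.gen F ι _ _ _ _ _ A.smooth hgA.us hgA.vs hz)
  have hD' : SmoothOfRelativeDimension 0 (pullback.snd a b ≫ B.f ≫ M.s) := by
    rw [← hb, Category.assoc, ← pullback.condition_assoc, ← Category.assoc a, ha]
    exact hD
  have hDB : ∀ z, ¬ UnbAt (B.f ≫ M.u) (B.f ≫ M.v) (pullback.snd a b z) := fun z hz =>
    not_gen hS (B.f ≫ M.s) (pullback.snd a b) 0 1 one_pos inferInstance hD' B.smooth z
      (hV.gen F ι _ _ _ _ _ B.smooth hgB.us hgB.vs hz)
  refine ⟨?_, ?_⟩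
  · rw [phi_eq M hΦ E ∅ ?_, Finset.sum_empty]
    intro y hy
    refine (hDA ((e.hom ≫ prod.fst) y) ?_).elim
    rw [← Scheme.Hom.comp_apply]
    refine (hV.comp F ι _ _ _ _ _ y Φ (hgA.us.trans hgA.vs.symm)).1.1 ?_
    simpa only [← he, Category.assoc] using hy
  have hA := fin hJ hS hV M A
  have hB := fin hJ hS hV M B
  have hC := fin hJ hS hV M C
  have hic : IsClosedImmersion c :=
    MorphismProperty.of_isPullback (P := @IsClosedImmersion) hpb.flip (hP.vtx_closed 1)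
  have hv0 := hP.vtx_closed 0
  have hprop : IsProper (g ≫ M.s) := by
    have h1 := hJ.proper _ _ _ hpr
    have h2 := proper_fst hP M.X
    have h3 := M.proper
    rw [← prod.lift_fst g π]
    infer_instance
  have hunb : ∀ (D : Curve M.s) (d : D.Y ⟶ T), d ≫ g = D.f → ∀ y,
      UnbAt (D.f ≫ M.u) (D.f ≫ M.v) y ↔ UnbAt (g ≫ M.u) (g ≫ M.v) (d y) := fun D d hd y => by
    have h1 := (hV.comp F ι _ _ _ _ d y Φ huv).1
    simpa only [← Category.assoc, hd] using h1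
  have hloc : ∀ (D : Curve M.s) (d : D.Y ⟶ T), d ≫ g = D.f → IsClosedImmersion d → ∀ y,
      UnbAt (D.f ≫ M.u) (D.f ≫ M.v) y → ¬ IsGenPt (d y) ∧ LocGen d.ker (d y) := by
    intro D d hd hid y hy
    have hgD := geo_comp (geo M) D.f
    refine ⟨not_gen hS (g ≫ M.s) d 1 2 one_lt_two inferInstance ?_ hT y, locGen_ker hI d hid y
      (hS.field F _ _ 1 y D.smooth (hV.gen F ι _ _ _ _ y D.smooth hgD.us hgD.vs hy))⟩
    rw [← Category.assoc, hd]
    exact D.smooth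
  have hr0 : ∀ x, π x ∈ Set.range (vtx 0) ↔ x ∈ Set.range a ∨ x ∈ Set.range b := fun x => by
    rw [← supp_ker a, ← supp_ker b, ← supp_inf, ← hker, supp_ker, Scheme.Pullback.range_fst,
      Set.mem_preimage]
  have hr1 : ∀ x, π x ∈ Set.range (vtx 1) ↔ x ∈ Set.range c := fun x => by
    constructor
    · rintro ⟨t, ht⟩
      obtain ⟨p, hp, -⟩ := Scheme.exists_preimage_of_isPullback hpb x t ht.symm
      exact ⟨p, hp⟩
    · rintro ⟨p, rfl⟩
      rw [← Scheme.Hom.comp_apply, hpb.w, Scheme.Hom.comp_apply]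
      exact ⟨_, rfl⟩
  have hk1 : (pullback.fst π (vtx 1)).ker = c.ker := by
    rw [← hpb.isoPullback_hom_fst, Scheme.Hom.ker_comp_of_isIso]
  have hab : ∀ x y, a x = b y → ¬ UnbAt (A.f ≫ M.u) (A.f ≫ M.v) x ∧
      ¬ UnbAt (B.f ≫ M.u) (B.f ≫ M.v) y := fun x y hxy => by
    obtain ⟨z, rfl, rfl⟩ := Scheme.Pullback.exists_preimage_pullback x y hxy
    exact ⟨hDA z, hDB z⟩
  have key := hR F ι M.I₁ M.I₂ Φ T (g ≫ M.s) (g ≫ M.u) (g ≫ M.v) π
    ![hA.toFinset.image a ∪ hB.toFinset.image b, hC.toFinset.image c] M.hom₁ M.hom₂ hΦ hprop hT hg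
    (by
      refine Fin.forall_fin_two.2 ⟨fun x => ?_, fun x => ?_⟩
      · rw [hr0]
        simp only [Matrix.cons_val_zero, Finset.mem_union, Finset.mem_image,
          Set.Finite.mem_toFinset, Set.mem_ofPred_eq]
        constructor
        · rintro (⟨y, hy, rfl⟩ | ⟨y, hy, rfl⟩)
          · exact ⟨.inl ⟨y, rfl⟩, (hunb A a ha y).1 hy⟩
          · exact ⟨.inr ⟨y, rfl⟩, (hunb B b hb y).1 hy⟩
        · rintro ⟨⟨y, rfl⟩ | ⟨y, rfl⟩, hy⟩
          · exact .inl ⟨y, (hunb A a ha y).2 hy, rfl⟩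
          · exact .inr ⟨y, (hunb B b hb y).2 hy, rfl⟩
      · rw [hr1]
        simp only [Matrix.cons_val_one, Matrix.cons_val_zero, Finset.mem_image,
          Set.Finite.mem_toFinset, Set.mem_ofPred_eq]
        constructor
        · rintro ⟨y, hy, rfl⟩
          exact ⟨⟨y, rfl⟩, (hunb C c hc y).1 hy⟩
        · rintro ⟨⟨y, rfl⟩, hy⟩
          exact ⟨y, (hunb C c hc y).2 hy, rfl⟩)
    (by
      refine Fin.forall_fin_two.2 ⟨fun x hx => ?_, fun x hx => ?_⟩
      · simp only [Matrix.cons_val_zero, Finset.mem_union, Finset.mem_image,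
          Set.Finite.mem_toFinset, Set.mem_ofPred_eq] at hx
        rw [hker]
        rcases hx with ⟨y, hy, rfl⟩ | ⟨y, hy, rfl⟩
        · obtain ⟨h1, h2⟩ := hloc A a ha hia y hy
          refine ⟨h1, locGen_inf hI _ _ _ h2 fun h3 => ?_⟩
          obtain ⟨y', h4⟩ := (supp_ker b _).1 h3
          exact (hab y y' h4.symm).1 hy
        · obtain ⟨h1, h2⟩ := hloc B b hb hib y hy
          rw [inf_comm]
          refine ⟨h1, locGen_inf hI _ _ _ h2 fun h3 => ?_⟩
          obtain ⟨y', h4⟩ := (supp_ker a _).1 h3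
          exact (hab y' y h4).2 hy
      · simp only [Matrix.cons_val_one, Matrix.cons_val_zero, Finset.mem_image,
          Set.Finite.mem_toFinset, Set.mem_ofPred_eq] at hx
        obtain ⟨y, hy, rfl⟩ := hx
        rw [hk1]
        exact hloc C c hc hic y hy)
  simp only [Matrix.cons_val_one, Matrix.cons_val_zero] at key
  rw [Finset.sum_union ?_, sum_image hV Φ huv a inferInstance, sum_image hV Φ huv b inferInstance,
    sum_image hV Φ huv c inferInstance] at key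
  · rw [phi_eq M hΦ A hA.toFinset fun y hy => hA.mem_toFinset.2 hy,
      phi_eq M hΦ B hB.toFinset fun y hy => hB.mem_toFinset.2 hy,
      phi_eq M hΦ C hC.toFinset fun y hy => hC.mem_toFinset.2 hy]
    simpa only [← Category.assoc, ha, hb, hc] using key.symm
  · rw [Finset.disjoint_left]
    intro z h1 h2
    obtain ⟨x, hx, rfl⟩ := Finset.mem_image.1 h1
    obtain ⟨y, -, h3⟩ := Finset.mem_image.1 h2
    exact (hab x y h3.symm).1 (hA.mem_toFinset.1 hx)

theorem value (hV : ValAPI) (M : Amb F F ι) {Φ : Ideal (Pxy ι F) → ZMod 2}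
    (hΦ : GoodN M.I₁ M.I₂ Φ) (C : Curve M.s) (E : Type) [Field E]
    (γ : Spec (CommRingCat.of E) ⟶ M.X) (c : F →+* E) (a b : ι → E) (h : Rep C γ)
    (hγ : M.At γ c a b) : phi Φ (C.f ≫ M.u) (C.f ≫ M.v) = valR Φ c a b := by
  obtain ⟨-, j, ⟨hd, hj⟩, rfl⟩ := h
  let x : Spec (CommRingCat.of E) := IsLocalRing.closedPoint _
  have hg := geo_comp (geo M) C.f
  have hco : Coord (C.f ≫ M.u) (C.f ≫ M.v) j c a b := by
    obtain ⟨h1, h2, h3, h4⟩ := hγ.2
    exact ⟨h1, h2, by rw [← Category.assoc]; exact h3, by rw [← Category.assoc]; exact h4⟩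
  rw [phi_eq M hΦ C {j x} ?_, Finset.sum_singleton]
  · exact (hV.eq F E ι _ _ _ j c a b x Φ hj hco).1
  · intro y hy
    have h1 := hV.gen F ι _ _ _ _ y C.smooth hg.us hg.vs hy
    have h2 : Set.range j = {j x} := by
      ext z
      constructor
      · rintro ⟨t, rfl⟩
        exact congrArg j (Subsingleton.elim (α := PrimeSpectrum E) t x)
      · rintro rfl
        exact ⟨x, rfl⟩
    have h3 : j x ⤳ y := by
      rw [specializes_iff_mem_closure, ← h2]
      exact j.denseRange y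
    exact Finset.mem_singleton.2 (h1 _ h3).symm

end PhiNX

theorem phiN_stmt (hRn : RecNStmt) : PhiNStmt := by
  have hV := valAPI ptAPI prmAPI smAPI
  intro F ι _ _ M Φ hΦ
  let ψ : FreeAbelianGroup (Curve M.s) →+ ZMod 2 :=
    FreeAbelianGroup.lift fun C => phi Φ (C.f ≫ M.u) (C.f ≫ M.v)
  have hψ : ∀ C, ψ (FreeAbelianGroup.of C) = phi Φ (C.f ≫ M.u) (C.f ≫ M.v) := fun C =>
    FreeAbelianGroup.lift_apply_of _ _
  have hker : AddSubgroup.closure (rels M.s) ≤ ψ.ker := by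
    rw [AddSubgroup.closure_le]
    rintro x (⟨C, A, B, h, rfl⟩ | ⟨C, A, B, E, h, rfl⟩)
    · rw [SetLike.mem_coe, AddMonoidHom.mem_ker, map_sub, map_sub, hψ, hψ, hψ,
        PhiNX.union projAPI smAPI hV M hΦ h]
      ring
    · obtain ⟨h1, h2⟩ := PhiNX.double ptAPI projAPI (idlAPI ptAPI) smAPI hV hRn M hΦ h
      rw [SetLike.mem_coe, AddMonoidHom.mem_ker, map_add, map_sub, map_sub, hψ, hψ, hψ, hψ, h1, h2]
      ring
  refine ⟨QuotientAddGroup.lift _ ψ hker, fun C E _ γ c a b h hγ => ?_⟩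
  rw [cls, QuotientAddGroup.lift_mk, hψ]
  exact PhiNX.value hV M hΦ C E γ c a b h hγ

end Pool.Agent.MP_d45d16_ag.Sp14
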