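import Mathlib.LinearAlgebra.Matrix.Kronecker
import Pool.Agent.MP_d45d16_ag.sp.Spec

/-!
Tensor products of special subspaces consist of pure spinors.
-/

set_option autoImplicit false

open Matrix

namespace Pool.Agent.MP_d45d16_ag.Sp14

open Yag

namespace PureX

variable {A : Type} [CommRing A]

theorem key (x y x' y' : Fin 7 → A) (M N : Matrix O O A) :
    tens x y ⬝ᵥ kroneckerMap (· * ·) M N *ᵥ tens x' y' =
      (oe x ⬝ᵥ M *ᵥ oe x') * (oe y ⬝ᵥ N *ᵥ oe y') := by
  rw [mul_comm]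
  simp only [dotProduct, mulVec, tens, Fintype.sum_prod_type, kroneckerMap_apply,
    Finset.mul_sum, Finset.sum_mul]
  refine Finset.sum_congr rfl fun i _ => ?_
  rw [Finset.sum_comm]
  refine Finset.sum_congr rfl fun j _ => Finset.sum_congr rfl fun k _ =>
    Finset.sum_congr rfl fun l _ => ?_
  ring

theorem oe_dot (x : Fin 7 → A) (c : A) (z : Fin 7 → A) :
    (oe x ⬝ᵥ fun o : O => o.elim c z) = x ⬝ᵥ z := by
  simp [dotProduct, oe, Fintype.sum_option]

theorem one_zero {x x' : Fin 7 → A} (h : x ⬝ᵥ x' = 0) : oe x ⬝ᵥ oe x' = 0 :=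
  (oe_dot x 0 x').trans h

theorem lm_zero (hCl : ClifAPI) {x x' : Fin 7 → A} (h : cross x' x = 0) (z : Fin 7 → A) :
    oe x ⬝ᵥ lm z *ᵥ oe x' = 0 := by
  rw [hCl.lm_oe, oe_dot, dotProduct_comm, Frm.dot_cyc, h, zero_dotProduct]

theorem term (hCl : ClifAPI) {x y x' y' : Fin 7 → A} (h1 : x ⬝ᵥ x' = 0) (h2 : cross x' x = 0)
    (h3 : y ⬝ᵥ y' = 0) (h4 : cross y' y = 0) (a b c : V → A) :
    tens x y ⬝ᵥ (cl 1 a * cl (-1) b * cl 1 c) *ᵥ tens x' y' = 0 := by
  simp only [cl, one_smul, neg_smul, add_mul, mul_add, neg_mul, mul_neg, ← mul_kronecker_mul,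
    Matrix.mul_one, Matrix.one_mul, add_mulVec, neg_mulVec, dotProduct_add, dotProduct_neg, key,
    one_mulVec, one_zero h1, one_zero h3, lm_zero hCl h2, lm_zero hCl h4, mul_zero, zero_mul,
    neg_zero, add_zero]

theorem self (x : Fin 7 → A) : cross x x = 0 := by
  ext k
  simp only [cross, Pi.zero_apply]
  ring

theorem anti (x y : Fin 7 → A) : cross x y = -cross y x := by
  ext k
  simp only [cross, Pi.neg_apply]
  ring

theorem neg_right (x y : Fin 7 → A) : cross x (-y) = -cross x y := by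
  ext k
  simp only [cross, Pi.neg_apply]
  ring

theorem alt (x y : Fin 7 → A) : cross x (cross x y) = (x ⬝ᵥ y) • x - (x ⬝ᵥ x) • y := by
  ext k
  fin_cases k <;>
    simp only [cross, dotProduct, Fin.sum_univ_seven, Pi.sub_apply, Pi.smul_apply, smul_eq_mul,
      Fin.reduceFinMk, Fin.reduceAdd, Fin.zero_eta, Fin.mk_one, Fin.isValue] <;> ring

theorem lin (x z y : Fin 7 → A) : cross x (cross z y) =
    (x ⬝ᵥ y) • z + (z ⬝ᵥ y) • x - (2 * (x ⬝ᵥ z)) • y - cross z (cross x y) := by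
  ext k
  fin_cases k <;>
    simp only [cross, dotProduct, Fin.sum_univ_seven, Pi.sub_apply, Pi.add_apply, Pi.smul_apply,
      smul_eq_mul, Fin.reduceFinMk, Fin.reduceAdd, Fin.zero_eta, Fin.mk_one, Fin.isValue] <;> ring

theorem lin0 {x z y : Fin 7 → A} (h1 : x ⬝ᵥ y = 0) (h2 : z ⬝ᵥ y = 0) (h3 : x ⬝ᵥ z = 0) :
    cross x (cross z y) = -cross z (cross x y) := by
  rw [lin, h1, h2, h3]
  simp

theorem expand (r : A) (b c p q : Fin 7 → A) : cross (r • b + p) (-r • c + q) =
    -(r ^ 2) • cross b c + r • cross b q - r • cross p c + cross p q := by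
  ext k
  simp only [cross, Pi.add_apply, Pi.sub_apply, Pi.smul_apply, smul_eq_mul]
  ring

theorem mixed {a b c : Fin 7 → A} {r : A} (hr : r ^ 2 = -(a ⬝ᵥ a)) (hab : a ⬝ᵥ b = 0)
    (hac : a ⬝ᵥ c = 0) (hbc : b ⬝ᵥ c = 0) (h : cross a b ⬝ᵥ c = 0) :
    cross (r • b + cross a b) (-r • c + cross a c) = 0 := by
  have e1 : cross b (cross a c) = -cross a (cross b c) :=
    lin0 hbc hac (by rw [dotProduct_comm, hab])
  have e2 : cross (cross a b) c = -cross a (cross b c) := by
    rw [anti, lin0 (by rw [dotProduct_comm, hbc]) hab (by rw [dotProduct_comm, hac]), anti c b,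
      neg_right, neg_neg]
  have e3 : cross (cross a b) (cross a c) = -(a ⬝ᵥ a) • cross b c := by
    rw [lin0 h hac (Frm.dot_self a b), e2, neg_right, neg_neg, alt, dotProduct_comm,
      ← Frm.dot_cyc, h]
    simp
  rw [expand, e1, e2, e3, hr]
  simp

theorem nv0 (r : A) (f : Fin 7 → Fin 7 → A) : ∑ k, nv r 0 k • f k = r • f 1 + f 2 := by
  simp [nv, Fin.sum_univ_seven]

theorem nv1 (r : A) (f : Fin 7 → Fin 7 → A) : ∑ k, nv r 1 k • f k = -r • f 3 + f 4 := by
  simp [nv, Fin.sum_univ_seven]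

end PureX

theorem pureAPI (hCl : ClifAPI) : PureAPI where
  pure A n _ _ x y w hx hy a b c := by
    simp only [mulVec_sum, sum_dotProduct, dotProduct_sum, mulVec_smul, smul_dotProduct,
      dotProduct_smul, PureX.term hCl (hx _ _).1 (hx _ _).2 (hy _ _).1 (hy _ _).2, smul_zero,
      Finset.sum_const_zero]
  self A _ x := PureX.self x
  special A _ a v w r hr l l' := by
    have o := Frm.fr_orth a v w
    have m : cross (r • Frm.fr a v w 1 + Frm.fr a v w 2) (-r • Frm.fr a v w 3 + Frm.fr a v w 4) =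
        0 := PureX.mixed hr (o 0 1 (by decide)) (o 0 3 (by decide)) (o 1 3 (by decide))
          (o 2 3 (by decide))
    have t := Frm.fr_two a v w
    have f := Frm.fr_four a v w
    rw [Frm.fr_zero] at t f
    fin_cases l <;> fin_cases l' <;>
      simp only [Fin.zero_eta, Fin.mk_one, Fin.isValue, PureX.nv0, PureX.nv1, add_dotProduct,
        dotProduct_add, smul_dotProduct, dotProduct_smul, smul_eq_mul, PureX.self, m, and_true]
    · rw [o 1 2 (by decide), o 2 1 (by decide), t]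
      linear_combination (Frm.fr a v w 1 ⬝ᵥ Frm.fr a v w 1) * hr
    · rw [o 1 3 (by decide), o 2 3 (by decide), o 1 4 (by decide), o 2 4 (by decide)]
      ring
    · rw [o 3 1 (by decide), o 3 2 (by decide), o 4 1 (by decide), o 4 2 (by decide), PureX.anti,
        m, neg_zero]
      exact ⟨by ring, rfl⟩
    · rw [o 3 4 (by decide), o 4 3 (by decide), f]
      linear_combination (Frm.fr a v w 3 ⬝ᵥ Frm.fr a v w 3) * hr

end Pool.Agent.MP_d45d16_ag.Sp14
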