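import Pool.Agent.MP_d45d16_ag.sp.Spec
import Pool.Agent.MP_d45d16_ag.yag.All

/-!
The two fibres of a family have the same invariant.
-/

set_option autoImplicit false

open AlgebraicGeometry CategoryTheory Limits MvPolynomial Filter

namespace Pool.Agent.MP_d45d16_ag.Sp14

open Yag

namespace RecNX

open Dec in
theorem dec (hL : LenAPI) (hH : HfAPI) {ι F : Type} [Finite ι] [Field F]
    {I₁ I₂ : Set (MvPolynomial ι F)} {Φ : Ideal (Pxy ι F) → ZMod 2} (hΦ : GoodN I₁ I₂ Φ)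
    {J : Ideal (Pxy ι F)} (hJ : AdmF I₁ I₂ J) : ∃ m : PrimeSpectrum (Pxy ι F) →₀ ℕ,
      (∀ q ∈ m.support, CrvP q) ∧
      (∀ q, CrvP q → ∀ (i j : ι) (n : PrimeSpectrum (Pxy ι F)),
        n.asIdeal = q.asIdeal ⊔ deh F i j → lenAt n (Pxy ι F ⧸ (J ⊔ deh F i j)) = m q) ∧
      Φ J = m.sum fun q k => (k : ZMod 2) * Φ q.asIdeal := by
  refine hH.ind _ F (bw ι) J (fun J => ∃ m : PrimeSpectrum (Pxy ι F) →₀ ℕ,
    (∀ q ∈ m.support, CrvP q) ∧
    (∀ q, CrvP q → ∀ (i j : ι) (n : PrimeSpectrum (Pxy ι F)),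
      n.asIdeal = q.asIdeal ⊔ deh F i j → lenAt n (Pxy ι F ⧸ (J ⊔ deh F i j)) = m q) ∧
    Φ J = m.sum fun q k => (k : ZMod 2) * Φ q.asIdeal) ?_ ?_ ?_ J hJ.hom le_rfl
  · refine ⟨0, by simp, fun q _ i j n _ => ?_, ?_⟩
    · rw [Finsupp.zero_apply, Nat.cast_zero]
      exact len_zero hL n _ fun h => n.isPrime.ne_top (top_le_iff.1 (le_sup_left.trans h))
    · rw [Finsupp.sum_zero_index]
      refine hΦ.zero ⊤ (adm_mono hH hJ (fun _ _ _ => Submodule.mem_top) le_top) fun h => ?_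
      obtain ⟨n, hn⟩ := h 0
      rw [(hH.zero _ F _ ⊤ _ isW).2 fun _ _ => Submodule.mem_top] at hn
      exact lt_irrefl _ hn
  · intro J' h1 h2 h3
    have hA := adm_mono hH hJ h1 h2
    by_cases hc : CrvP ⟨J', h3⟩
    · refine ⟨Finsupp.single ⟨J', h3⟩ 1, fun q hq => ?_, fun q hq i j n hn => ?_, ?_⟩
      · rw [Finset.mem_singleton.1 (Finsupp.support_single_subset hq)]
        exact hc
      · by_cases he : (⟨J', h3⟩ : PrimeSpectrum (Pxy ι F)) = q
        · subst he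
          rw [Finsupp.single_eq_same, Nat.cast_one, ← hn]
          exact hL.one _ n
        · rw [Finsupp.single_eq_of_ne' he, Nat.cast_zero]
          exact len_zero hL n _ fun h =>
            he (PrimeSpectrum.ext (eq_of_le hH h1 h3 hA.lin hq hn h))
      · rw [Finsupp.sum_single_index (by simp)]
        simp
    · refine ⟨0, by simp, fun q hq i j n hn => ?_, ?_⟩
      · rw [Finsupp.zero_apply, Nat.cast_zero]
        refine len_zero hL n _ fun h => hc ?_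
        have he : (⟨J', h3⟩ : PrimeSpectrum (Pxy ι F)) = q :=
          PrimeSpectrum.ext (eq_of_le hH h1 h3 hA.lin hq hn h)
        exact he ▸ hq
      · rw [Finsupp.sum_zero_index]
        by_cases hu : Unb (bw ι) J'
        · have hx : ∀ i, X (Sum.inl i) ∈ J' := fun i => by
            by_contra hi
            exact hc ⟨h1, ⟨i, hi⟩, hu⟩
          exact hΦ.irr J' hA hx
        · exact hΦ.zero J' hA hu
  · rintro J' f m h1 h2 h3 ⟨m₁, a1, a2, a3⟩ ⟨m₂, b1, b2, b3⟩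
    classical
    refine ⟨m₁ + m₂, fun q hq => ?_, fun q hq i j n hn => ?_, ?_⟩
    · rcases Finset.mem_union.1 (Finsupp.support_add hq) with h | h
      · exact a1 q h
      · exact b1 q h
    · rw [len_add hL n _ f, ← colon_sup h1 i j h3, sup_right_comm, a2 q hq i j n hn,
        b2 q hq i j n hn, Finsupp.add_apply, Nat.cast_add, add_comm]
    · rw [hΦ.add J' f m (adm_mono hH hJ h1 h2) h3, a3, b3,
        Finsupp.sum_add_index' (by simp) (fun _ _ _ => by rw [Nat.cast_add, add_mul])]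

open Rec in
theorem rec_stmt (hL : LenAPI) (hH : HfAPI) (hH2 : HfAPI2) (hR : PrmAPI) (hPl : PlaceAPI)
    (hD : DecAPI) (hP : PtAPI) (hI : IdlAPI) (hS : SmAPI) (hV : ValAPI) (hRL : RecLocStmt)
    (hC : ChartStmt) (hK : LinkStmt) : RecNStmt := by
  classical
  intro F ι _ _ I₁ I₂ Φ S s u v π H h₁ h₂ hG hs hsm geo hH1 hH3
  obtain ⟨D⟩ := exists_dat (π := π) hP hV (geo.us.trans geo.vs.symm)
  have hval := fun x : S => hV.eq F _ ι S u v (fr S x) _ _ _ (IsLocalRing.closedPoint _) Φ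
    (fr_pre S x) (D.co x)
  simp only [fr_apply] at hval
  have hsat := fun x : S => hV.sat F _ ι S I₁ I₂ s u v (fr S x) _ _ _ h₁ h₂ geo (D.co x)
  let Ξ : Finset S := (hS.fin F S s hs).toFinset.filter fun x => Tr (D.c x) (D.t x 1 / D.t x 0)
  have hΞ : ∀ x, x ∈ Ξ ↔ IsGenPt x ∧ Tr (D.c x) (D.t x 1 / D.t x 0) := fun x => by simp [Ξ]
  have hex : ∀ x : S, ∃ (n : ℕ) (J : Ideal (Pxy ι (RatFunc F))), x ∈ Ξ → AdmF I₁ I₂ J ∧
      ∃ e : RatFunc F →+* S.residueField x, e.comp (algebraMap F (RatFunc F)) = D.c x ∧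
        e RatFunc.X = D.t x 1 / D.t x 0 ∧ J = prm e (D.a x) (D.b x) ∧
        n = Module.finrank (ratF e (D.a x) (D.b x)) (S.residueField x) := fun x => by
    by_cases hx : x ∈ Ξ
    · obtain ⟨e, e1, e2, e3⟩ := ((hΞ x).mp hx).2.exists_lift
        (by simpa using hS.le F _ S s 2 (fr S x) (D.c x) hsm (fr_pre S x) (hsat x).2.2)
      exact ⟨_, _, fun _ => ⟨hR.prm_sat ι F _ _ I₁ I₂ e _ _ h₁ h₂ (e1 ▸ (hsat x).1)
        (e1 ▸ (hsat x).2.1) e3, e, e1, e2, rfl, rfl⟩⟩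
    · exact ⟨0, ⊥, fun h => absurd h hx⟩
  choose n J hJ using hex
  have key : ∀ (k : Fin 2) (y : RatFunc F) (p : Place (RatFunc F) F), Simple F y → p.Over F →
      p.Val y 0 → (∀ x, x ∈ Ξ ↔ IsGenPt x ∧ Tr (D.c x) (D.t x k.rev / D.t x k)) →
      (∀ x (e : RatFunc F →+* S.residueField x), e RatFunc.X = D.t x 1 / D.t x 0 →
        e y = D.t x k.rev / D.t x k) →
      ∑ x ∈ H k, valAt Φ u v x = ∑ x ∈ Ξ, (n x : ZMod 2) * Φ (p.init (J x)) := by
    intro k y p hy hp hv hk hk'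
    have hm : ∀ x : S, ∃ m : PrimeSpectrum (Pxy ι F) →₀ ℕ, x ∈ Ξ → (∀ q ∈ m.support, CrvP q) ∧
        (∀ q, CrvP q → ∀ (i j : ι) (r : PrimeSpectrum (Pxy ι F)),
          r.asIdeal = q.asIdeal ⊔ deh F i j →
          lenAt r (Pxy ι F ⧸ (p.init (J x) ⊔ deh F i j)) = m q) ∧
        Φ (p.init (J x)) = m.sum fun q k => (k : ZMod 2) * Φ q.asIdeal := fun x => by
      by_cases hx : x ∈ Ξ
      · obtain ⟨m, hm⟩ := RecNX.dec hL hH hG (admF_init hH2 hPl p hp (hJ x hx).1)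
        exact ⟨m, fun _ => hm⟩
      · exact ⟨0, fun h => absurd h hx⟩
    choose m hm using hm
    have hk1 : ∀ x, x ∈ H k ↔ D.t x k.rev = 0 ∧ Unb (bw ι) (prm (D.c x) (D.a x) (D.b x)) :=
      fun x => by rw [hH1, D.vtx_iff hP, (hval x).2]
    rw [Finset.sum_congr rfl fun x _ => (hval x).1,
      Finset.sum_congr rfl fun x hx => congrArg ((n x : ZMod 2) * ·) (hm x hx).2.2]
    refine sum_regroup (H k) Ξ
      (fun x => (⟨prm (D.c x) (D.a x) (D.b x), (hR.prm_hom ι F _ _ _ _).2⟩ : PrimeSpectrum _))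
      (fun x => Module.finrank (ratF (D.c x) (D.a x) (D.b x)) (S.residueField x)) n m
      (fun q => Φ q.asIdeal) CrvP (fun x hx => ?_) (fun x hx => (hm x hx).1) fun q hq => ?_
    · obtain ⟨i, hi⟩ := exists_ne (D.co x).choose
      refine ⟨(hR.prm_hom ι F _ _ _ _).1, ⟨i, ?_⟩, ((hk1 x).mp hx).2⟩
      rwa [hR.prm_mem ι F _ _ _ _ _ _ (hom_inl i), eval₂_X]
    · simp only [PrimeSpectrum.ext_iff]
      refine count hL hH hR hPl hD hP hI hRL hC hK hs geo.us geo.vs D k (H k) Ξ hk1 (hH3 k) hk y p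
        hy hp hv n J (fun x hx => ?_) q hq (fun x => m x q) fun x hx => (hm x hx).2.1 q hq
      obtain ⟨e, e1, e2, e3⟩ := (hJ x hx).2
      exact ⟨e, e1, hk' x e e2, e3⟩
  have hX : Simple F (RatFunc.X : RatFunc F) := ⟨RatFunc.transcendental_X, RatFunc.adjoin_X⟩
  have hX' := hPl.simple_inv _ F _ hX
  obtain ⟨p, hp, hv⟩ := hPl.ex _ F _ hX
  obtain ⟨p', hp', hv'⟩ := hPl.ex _ F _ hX'
  rw [key 0 _ p hX hp hv hΞ fun _ _ h => h, key 1 _ p' hX' hp' hv' (fun x => (hΞ x).trans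
    (and_congr_right fun _ => ⟨fun h => by simpa using h.inv, fun h => by simpa using h.inv⟩))
    fun x e h => by rw [map_inv₀, h, inv_div]; rfl]
  exact Finset.sum_congr rfl fun x hx => by
    rw [hG.move _ _ p p' _ hX hp hp' hv hv' (hJ x hx).1]

end RecNX

theorem recN_stmt : RecNStmt :=
  have h2 := hfAPI2 hfAPI
  have pl := placeAPI hfAPI h2
  RecNX.rec_stmt lenAPI hfAPI h2 prmAPI pl (decAPI lenAPI hfAPI) ptAPI (idlAPI ptAPI) smAPI
    (valAPI ptAPI prmAPI smAPI) (recLoc_stmt lenAPI (herbAPI lenAPI)) (chart_stmt ptAPI)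
    (link_stmt prmAPI pl)

end Pool.Agent.MP_d45d16_ag.Sp14
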