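import Pool.Agent.MP_d45d16_ag.sp.Spec
import Mathlib.FieldTheory.KummerPolynomial
import Mathlib.RingTheory.Flat.Basic

/-!
The Segre image lies on the variety.
-/

set_option autoImplicit false

open MvPolynomial Matrix

namespace Pool.Agent.MP_d45d16_ag.Sp14

open Yag

namespace SatX

theorem common {F L A : Type} [Field F] [Field L] [CommRing A] {d : F} (hd : ¬ IsSquare d)
    (c₁ : F →+* L) (c : F →+* A) {l : L} {δ : A} (h₁ : l ^ 2 = c₁ d) (h : δ ^ 2 = c d) :
    ∃ (B : Type) (_ : CommRing B) (j : A →+* B) (e : L →+* B), Function.Injective j ∧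
      j.comp c = e.comp c₁ ∧ j δ = e l := by
  have : Fact (Irreducible (Polynomial.X ^ 2 - Polynomial.C d)) :=
    ⟨X_pow_sub_C_irreducible_of_prime Nat.prime_two fun b hb => hd ⟨b, by rw [← hb, sq]⟩⟩
  have e1 : (Polynomial.X ^ 2 - Polynomial.C d).eval₂ c₁ l = 0 := by simp [h₁]
  have e2 : (Polynomial.X ^ 2 - Polynomial.C d).eval₂ c δ = 0 := by simp [h]
  let _ := (AdjoinRoot.lift c₁ l e1).toAlgebra
  let _ := (AdjoinRoot.lift c δ e2).toAlgebra
  have k : ∀ z : AdjoinRoot (Polynomial.X ^ 2 - Polynomial.C d),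
      (Algebra.TensorProduct.includeRight (AdjoinRoot.lift c δ e2 z) :
        TensorProduct (AdjoinRoot (Polynomial.X ^ 2 - Polynomial.C d)) L A) =
      Algebra.TensorProduct.includeLeftRingHom (AdjoinRoot.lift c₁ l e1 z) := fun z =>
    (Algebra.TensorProduct.includeRight.commutes z).trans rfl
  refine ⟨TensorProduct (AdjoinRoot (Polynomial.X ^ 2 - Polynomial.C d)) L A, inferInstance,
    Algebra.TensorProduct.includeRight.toRingHom, Algebra.TensorProduct.includeLeftRingHom,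
    Algebra.TensorProduct.includeRight_injective
      (algebraMap (AdjoinRoot (Polynomial.X ^ 2 - Polynomial.C d)) L).injective, ?_, ?_⟩
  · ext z
    simpa using k (AdjoinRoot.of _ z)
  · simpa using k (AdjoinRoot.root _)

theorem down {F A B ι : Type} [Field F] [CommRing A] [CommRing B] {I : Set (MvPolynomial ι F)}
    {c : F →+* A} {j : A →+* B} (hj : Function.Injective j) {x : ι → A}
    (h : Sat I (j.comp c) (j ∘ x)) : Sat I c x := fun f hf =>
  hj (by rw [eval₂_comp_left, h f hf, map_zero])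

theorem bil_map {F A B ι : Type} [Field F] [CommRing A] [CommRing B] (c : F →+* A) (j : A →+* B)
    (δ : A) (P Q : Fin 7 → Fin 7 → ι → F) (w w' : Fin 7 → A) (i : ι) :
    j (bil c δ P Q w w' i) = bil (j.comp c) (j δ) P Q (j ∘ w) (j ∘ w') i := by
  simp [bil, ev2]

theorem nv_map {A B : Type} [CommRing A] [CommRing B] (j : A →+* B) (r : A) (l : Fin 2) :
    j ∘ nv r l = nv (j r) l := by
  ext k
  fin_cases l <;> fin_cases k <;> simp [nv]

theorem ev2_map {F A B ι : Type} [Field F] [CommRing A] [CommRing B] (c : F →+* A) (j : A →+* B)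
    (δ : A) (P Q : ι → F) (i : ι) : j (ev2 c δ P Q i) = ev2 (j.comp c) (j δ) P Q i := by
  simp [ev2]

theorem tens_sum {L B : Type} [CommRing L] [CommRing B] (e : L →+* B) (x y : Fin 7 → Fin 7 → L)
    (w w' : Fin 7 → B) : tens (∑ k, w k • e ∘ x k) (∑ m, w' m • e ∘ y m) =
      ∑ k, ∑ m, (w k * w' m) • e ∘ tens (x k) (y m) := by
  ext ⟨a, b⟩
  cases a <;> cases b <;>
    simp [tens, oe, Finset.sum_apply, Finset.sum_mul_sum, mul_mul_mul_comm]

theorem null {L B : Type} [CommRing L] [CommRing B] (e : L →+* B) (a v u : Fin 7 → L)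
    (w : Fin 7 → B) : (∑ k, w k • e ∘ Frm.fr a v u k) ⬝ᵥ (∑ k, w k • e ∘ Frm.fr a v u k) =
      ∑ k, e (Frm.fr a v u k ⬝ᵥ Frm.fr a v u k) * w k ^ 2 := by
  rw [sum_dotProduct]
  refine Finset.sum_congr rfl fun k _ => ?_
  rw [dotProduct_sum, Finset.sum_eq_single k]
  · rw [smul_dotProduct, dotProduct_smul, (Frm.pres_map e).dot, smul_eq_mul, smul_eq_mul]
    ring
  · intro l _ hl
    rw [smul_dotProduct, dotProduct_smul, (Frm.pres_map e).dot, Frm.fr_orth a v u k l hl.symm]
    simp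
  · simp

variable {F B : Type} [Field F] [CommRing B] {I : Set (MvPolynomial S F)} (N : NF I)
  (e : L1 →+* B)

theorem point (hG : GgAPI) (w w' : Fin 7 → B) :
    bil (e.comp N.c) (e (lam ^ 4)) N.P N.Q w w' ᵥ* gg.map e =
      e (-4 * lam ^ 5) • tens (∑ k, w k • e ∘ X7 gg k) (∑ m, w' m • e ∘ Y7 gg m) := by
  have h : bil (e.comp N.c) (e (lam ^ 4)) N.P N.Q w w' =
      ∑ k, ∑ m, (w k * w' m) • e ∘ ev2 N.c (lam ^ 4) (N.P k m) (N.Q k m) := by
    ext i
    simp only [bil, Finset.sum_apply, Pi.smul_apply, Function.comp_apply, smul_eq_mul, ev2_map]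
  have u := (isUnit_iff_isUnit_det _).1 hG.unit.2
  rw [h, tens_sum, sum_vecMul, Finset.smul_sum]
  refine Finset.sum_congr rfl fun k _ => ?_
  rw [sum_vecMul, Finset.smul_sum]
  refine Finset.sum_congr rfl fun m _ => ?_
  rw [smul_vecMul, smul_comm]
  refine congrArg _ (funext fun i => ?_)
  rw [← RingHom.map_vecMul, N.hE, vecMul_vecMul, nonsing_inv_mul _ u, vecMul_one]
  simp only [Pi.smul_apply, smul_eq_mul, map_mul, Function.comp_apply]

theorem key (hQ : QuadAPI) {y Z : S → B} {t : B} (hy : y ᵥ* gg.map e = t • Z)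
    (hZ : ∀ a b c : V → B, Z ⬝ᵥ (cl 1 a * cl (-1) b * cl 1 c) *ᵥ Z = 0) :
    Sat I (e.comp N.c) y := fun f hf => by
  rw [← eval₂_map]
  have : Ideal.span {q | ∃ u v w, q = quadric gg u v w} ≤ RingHom.ker (eval₂Hom e y) := by
    rw [Ideal.span_le]
    rintro _ ⟨u, v, w, rfl⟩
    show eval₂ e y _ = 0
    rw [hQ.eval, hy, mulVec_smul, smul_dotProduct, dotProduct_smul, hZ, smul_zero, smul_zero]
  exact this (N.sub f hf)

end SatX

open SatX in
theorem satAPI (hQ : QuadAPI) (hPu : PureAPI) (hG : GgAPI) (hNq : NsqStmt) : SatAPI where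
  sat₁ F _ I N A _ c δ w w' hδ h h' := by
    obtain ⟨B, _, j, e, hj, hc, hl⟩ := common (hNq F I N) N.c c (l := lam ^ 4)
      (by rw [N.hd]; ring) hδ
    refine down hj ?_
    rw [show j ∘ bil c δ N.P N.Q w w' = _ from funext (bil_map c j δ N.P N.Q w w'), hc, hl]
    refine key N e hQ (point N e hG _ _) fun a b c' => ?_
    have := hPu.pure B Unit (fun _ => ∑ k, (j ∘ w) k • e ∘ X7 gg k)
      (fun _ => ∑ k, (j ∘ w') k • e ∘ Y7 gg k) (fun _ _ => 1) (fun _ _ => ⟨?_, hPu.self _ _⟩)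
      (fun _ _ => ⟨?_, hPu.self _ _⟩) a b c'
    · simpa only [Finset.univ_unique, Finset.sum_singleton, one_smul] using this
    · have k := congrArg j h
      rw [map_sum, map_zero] at k
      refine (null e _ _ _ _).trans (Eq.trans (Finset.sum_congr rfl fun i _ => ?_) k)
      rw [map_mul, map_pow, ev2_map, hc, hl, ← ev2_map, N.hp]
      rfl
    · have k := congrArg j h'
      rw [map_sum, map_zero] at k
      refine (null e _ _ _ _).trans (Eq.trans (Finset.sum_congr rfl fun i _ => ?_) k)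
      rw [map_mul, map_pow, ev2_map, hc, map_neg, hl, ← map_neg, ← ev2_map, N.hm]
      rfl
  sat₂ F _ I N A _ c δ r r' w hδ h h' := by
    obtain ⟨B, _, j, e, hj, hc, hl⟩ := common (hNq F I N) N.c c (l := lam ^ 4)
      (by rw [N.hd]; ring) hδ
    refine down hj ?_
    have k : (j ∘ fun i => ∑ l, ∑ l', w l l' * bil c δ N.P N.Q (nv r l) (nv r' l') i) =
        ∑ l, ∑ l', j (w l l') •
          bil (e.comp N.c) (e (lam ^ 4)) N.P N.Q (nv (j r) l) (nv (j r') l') := by
      ext i
      simp only [Function.comp_apply, map_sum, map_mul, bil_map, nv_map, hc, hl,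
        Finset.sum_apply, Pi.smul_apply, smul_eq_mul]
    rw [k, hc]
    refine key N e hQ (t := e (-4 * lam ^ 5)) (Z := ∑ l, ∑ l', j (w l l') •
      tens (∑ k, nv (j r) l k • e ∘ X7 gg k) (∑ k, nv (j r') l' k • e ∘ Y7 gg k)) ?_
      (hPu.pure B (Fin 2) _ _ _ ?_ ?_)
    · rw [sum_vecMul, Finset.smul_sum]
      refine Finset.sum_congr rfl fun l _ => ?_
      rw [sum_vecMul, Finset.smul_sum]
      refine Finset.sum_congr rfl fun l' _ => ?_
      rw [smul_vecMul, point N e hG, smul_comm]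
    · simp only [X7, ← (Frm.pres_map e).fr]
      refine hPu.special B _ _ _ _ ?_
      rw [(Frm.pres_map e).dot, ← map_pow, h, map_neg, ev2_map, hc, hl, ← ev2_map, N.hp]
      rfl
    · simp only [Y7, ← (Frm.pres_map e).fr]
      refine hPu.special B _ _ _ _ ?_
      rw [(Frm.pres_map e).dot, ← map_pow, h', map_neg, ev2_map, hc, map_neg, hl, ← map_neg,
        ← ev2_map, N.hm]
      rfl

end Pool.Agent.MP_d45d16_ag.Sp14
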