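import Pool.Agent.MP_d45d16_ag.sp.Spec
import Mathlib.NumberTheory.Zsqrtd.GaussianInt

/-! Explicit elements of the spin group. -/

set_option autoImplicit false

open Matrix

namespace Pool.Agent.MP_d45d16_ag.Sp14

open Yag

namespace SgnX

/-- The units over the integers. -/
def LZ (p : Fin 7) : Matrix O O ℤ := lm (Pi.single p 1)

/-- The Kronecker product. -/
noncomputable abbrev kr (A B : Matrix O O ℂ) : Matrix S S ℂ := kroneckerMap (· * ·) A B

/-- The complex matrix of an integer matrix. -/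
noncomputable abbrev cx (A : Matrix O O ℤ) : Matrix O O ℂ := (Int.castRingHom ℂ).mapMatrix A

theorem lm_single (c : ℂ) (p : Fin 7) : lm (Pi.single p c) = c • cx (LZ p) := by
  have e : ∀ k, (Pi.single p c : Fin 7 → ℂ) k = c * ((Pi.single p 1 : Fin 7 → ℤ) k : ℤ) :=
    fun k => by by_cases h : k = p <;> simp [h]
  have e' : ∀ j k, (Pi.single j 1 : Fin 7 → ℂ) k = ((Pi.single j 1 : Fin 7 → ℤ) k : ℤ) :=
    fun j k => by by_cases h : k = j <;> simp [h]
  ext (_ | i) (_ | j)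
  · simp [lm, LZ]
  · simp [lm, LZ, e]
  · simp [lm, LZ, e]
  · simp only [lm, LZ, Flag.cross, e, e', of_apply, Matrix.smul_apply, RingHom.mapMatrix_apply,
      map_apply, eq_intCast, smul_eq_mul]
    push_cast
    ring

theorem cl_elim (ε c d : ℂ) (p : Fin 7) : cl ε (Sum.elim (Pi.single p c) (Pi.single p d)) =
    (ε * c) • kr (cx (LZ p)) 1 + d • kr 1 (cx (LZ p)) := by
  rw [cl, Sum.elim_comp_inl, Sum.elim_comp_inr, lm_single, lm_single, smul_kronecker,
    kronecker_smul, smul_smul]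

theorem qf_elim (c d : ℂ) (p : Fin 7) :
    qf (Sum.elim (Pi.single p c) (Pi.single p d)) = c ^ 2 - d ^ 2 := by
  simp [qf, Pi.single_apply]

theorem kr_mul (A B C D : Matrix O O ℂ) : kr A B * kr C D = kr (A * C) (B * D) :=
  (mul_kronecker_mul A C B D).symm

theorem gen_mem {c d c' d' : ℂ} (h : c ^ 2 - d ^ 2 = 1) (h' : c' ^ 2 - d' ^ 2 = 1) (p q : Fin 7) :
    (c • kr (cx (LZ p)) 1 + d • kr 1 (cx (LZ p))) *
      (-c' • kr (cx (LZ q)) 1 + d' • kr 1 (cx (LZ q))) ∈ Spin ℂ :=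
  Submonoid.subset_closure ⟨_, _, (qf_elim c d p).trans h, (qf_elim c' d' q).trans h', by
    rw [cl_elim, cl_elim, one_mul, neg_one_mul]⟩

theorem two_mem (p q : Fin 7) :
    -kr (cx (LZ p * LZ q)) 1 ∈ Spin ℂ ∧ -kr 1 (cx (LZ p * LZ q)) ∈ Spin ℂ := by
  have h1 := gen_mem (c := 1) (d := 0) (c' := 1) (d' := 0) (by simp) (by simp) p q
  have h2 := gen_mem (c := 0) (d := Complex.I) (c' := 0) (d' := Complex.I) (by simp) (by simp) p q
  simp only [one_smul, zero_smul, add_zero, neg_smul, mul_neg, kr_mul, mul_one, zero_add, neg_zero,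
    smul_mul_smul_comm, Complex.I_mul_I] at h1 h2
  rw [← map_mul] at h1 h2
  exact ⟨h1, h2⟩

theorem four_mem (p q r s : Fin 7) : kr (cx (LZ p * LZ q * (LZ r * LZ s))) 1 ∈ Spin ℂ ∧
    kr 1 (cx (LZ p * LZ q * (LZ r * LZ s))) ∈ Spin ℂ := by
  have h1 := mul_mem (two_mem p q).1 (two_mem r s).1
  have h2 := mul_mem (two_mem p q).2 (two_mem r s).2
  rw [neg_mul_neg, kr_mul, mul_one, ← map_mul] at h1 h2
  exact ⟨h1, h2⟩

/-- The four units attached to a sign vector. -/
def qd (x y z : ℤˣ) : Fin 7 × Fin 7 × Fin 7 × Fin 7 :=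
  if x = 1 then
    if y = 1 then if z = 1 then (0, 0, 0, 0) else (2, 4, 6, 5)
    else if z = 1 then (1, 3, 5, 4) else (1, 2, 3, 6)
  else
    if y = 1 then if z = 1 then (0, 3, 5, 6) else (0, 2, 4, 3)
    else if z = 1 then (0, 1, 6, 4) else (0, 1, 2, 5)

theorem diag_eq : ∀ x y z : ℤˣ, (diagonal fun o => ((osg ![x, y, z] o : ℤˣ) : ℤ)) =
    LZ (qd x y z).1 * LZ (qd x y z).2.1 * (LZ (qd x y z).2.2.1 * LZ (qd x y z).2.2.2) := by
  decide +kernel

theorem diag_mem (a : Fin 3 → ℤˣ) :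
    kr (diagonal fun o => ((Alg.toC (osg a o) : ℂˣ) : ℂ)) 1 ∈ Spin ℂ ∧
      kr 1 (diagonal fun o => ((Alg.toC (osg a o) : ℂˣ) : ℂ)) ∈ Spin ℂ := by
  have e : a = ![a 0, a 1, a 2] := by ext1 i; fin_cases i <;> rfl
  have h := four_mem (qd (a 0) (a 1) (a 2)).1 (qd (a 0) (a 1) (a 2)).2.1
    (qd (a 0) (a 1) (a 2)).2.2.1 (qd (a 0) (a 1) (a 2)).2.2.2
  rw [← diag_eq, ← e, cx, RingHom.mapMatrix_apply, diagonal_map (map_zero _)] at h
  exact h

/-- The permutation of the octonion units given by a unit. -/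
def pm (a : Fin 7) (o : O) : O :=
  o.elim (some a) fun j => if j = a then none else some (a + ![0, 3, 6, 1, 5, 4, 2] (j - a))

theorem LZ_sq : ∀ a, LZ a * LZ a = -1 := by decide +kernel

theorem LZ_row : ∀ a c j k, LZ a c j * LZ a c k = if j = k ∧ c = pm a j then 1 else 0 := by
  decide +kernel

/-- A vector on the diagonal. -/
def dv (w : O → ℂ) : S → ℂ := fun s => if s.1 = s.2 then w s.1 else 0

theorem dv_kr (w : O → ℂ) (a : Fin 7) :
    dv w ᵥ* kr (cx (LZ a)) (cx (LZ a)) = dv fun j => w (pm a j) := by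
  funext s
  have e : ∀ c, cx (LZ a) c s.1 * cx (LZ a) c s.2 = if s.1 = s.2 ∧ c = pm a s.1 then 1 else 0 :=
    fun c => by
      simp only [RingHom.mapMatrix_apply, map_apply, ← map_mul, LZ_row]
      split_ifs <;> simp
  simp only [vecMul, dotProduct, dv, Fintype.sum_prod_type, kroneckerMap_apply, ite_mul, zero_mul,
    Finset.sum_ite_eq, Finset.mem_univ, if_true, e]
  by_cases h : s.1 = s.2 <;> simp [h]

/-- One step on Gaussian integers. -/
def st (a : Fin 7) (w : O → GaussianInt) : O → GaussianInt := fun j => w j - ⟨0, 1⟩ * w (pm a j)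

theorem st_all : st 6 (st 5 (st 4 (st 3 (st 2 (st 1 (st 0 (Pi.single none 1))))))) =
    Pi.single none ⟨8, 8⟩ := by decide +kernel

theorem step {s : ℂ} (hs : 2 * s ^ 2 = 1) (a : Fin 7) : ∃ F ∈ Spin ℂ, ∀ (c : ℂ) (w : O → GaussianInt),
    dv (fun j => c * (w j : ℂ)) ᵥ* F = dv fun j => c * s * (st a w j : ℂ) := by
  refine ⟨_, gen_mem (c := s) (d := s * Complex.I) (c' := 1) (d' := 0)
    (by rw [mul_pow, Complex.I_sq]; linear_combination hs) (by simp) a a, fun c w => ?_⟩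
  have e : ((⟨0, 1⟩ : GaussianInt) : ℂ) = Complex.I := by simp [GaussianInt.toComplex_def']
  rw [zero_smul, add_zero, neg_smul, one_smul, mul_neg, add_mul, smul_mul_assoc, smul_mul_assoc,
    kr_mul, kr_mul, ← map_mul, LZ_sq, map_neg, map_one, mul_one, mul_one, one_mul, vecMul_neg,
    vecMul_add, vecMul_smul, vecMul_smul, dv_kr]
  have e1 : kr (-1) 1 = -1 := by
    rw [← neg_one_smul ℂ (1 : Matrix O O ℂ), kr, smul_kronecker, one_kronecker_one, neg_one_smul]
  rw [e1, vecMul_neg, vecMul_one]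
  funext x
  simp only [dv, st, Pi.neg_apply, Pi.add_apply, Pi.smul_apply, smul_eq_mul, map_sub, map_mul, e]
  split_ifs <;> ring

end SgnX

open SgnX in
theorem sgn_stmt (hCl : ClifAPI) : SgnStmt := fun a b => by
  have h := mul_mem (diag_mem a).1 (diag_mem b).2
  rw [kr_mul, mul_one, one_mul, kr, diagonal_kronecker_diagonal] at h
  simpa only [map_mul, Units.val_mul] using h

open SgnX in
theorem g0_stmt (hCl : ClifAPI) : G0Stmt := by
  obtain ⟨s, hs'⟩ : ∃ s : ℂ, 2 * s ^ 2 = 1 := ⟨(√(1 / 2) : ℝ), by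
    rw [← Complex.ofReal_pow, Real.sq_sqrt (by norm_num)]; norm_num⟩
  choose F hF h using step hs'
  refine ⟨F 0 * F 1 * F 2 * F 3 * F 4 * F 5 * F 6, ?_, s * (1 + Complex.I), ?_, ?_⟩
  · exact mul_mem (mul_mem (mul_mem (mul_mem (mul_mem (mul_mem (hF 0) (hF 1)) (hF 2)) (hF 3))
      (hF 4)) (hF 5)) (hF 6)
  · have := Complex.I_sq
    have e : (s * (1 + Complex.I)) ^ 2 = Complex.I := by
      linear_combination Complex.I * hs' + s ^ 2 * this
    rw [show 4 = 2 * 2 from rfl, pow_mul, e, this]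
  · have e0 : (Pi.single r0 1 : S → ℂ) =
        dv fun j => 1 * ((Pi.single none 1 : O → GaussianInt) j : ℂ) := by
      funext ⟨x, y⟩
      cases x <;> cases y <;> simp [dv, r0]
    have e1 : ∀ M : Matrix S S ℂ, M r0 = Pi.single r0 1 ᵥ* M := fun M => by
      rw [single_one_vecMul]; rfl
    refine (e1 _).trans ?_
    conv_lhs => rw [e0]
    simp only [← vecMul_vecMul, h, st_all]
    funext ⟨x, y⟩
    cases x <;> cases y <;> simp [dv, r0, GaussianInt.toComplex_def']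
    linear_combination (s * (1 + Complex.I) * (4 * s ^ 4 + 2 * s ^ 2 + 1)) * hs'

end Pool.Agent.MP_d45d16_ag.Sp14
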