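import Pool.Agent.MP_d45d16_ag.sp.Spec
import Pool.Agent.MP_d45d16_ag.yag.Sp

/-!
The push-forward cycle of a specialisation.
-/

set_option autoImplicit false

open MvPolynomial

namespace Pool.Agent.MP_d45d16_ag.Sp14

open Yag Yag.Sp

namespace SpdX

variable {ρ γ A B : Type} [CommRing A] [CommRing B]

theorem map_nu (φ : A →+* B) (b : By (ρ × γ × γ) A) :
    MvPolynomial.map φ (nu ρ γ A b) = nu ρ γ B (MvPolynomial.map φ b) := by
  induction b using MvPolynomial.induction_on with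
  | C a => simp [nu]
  | add p q hp hq => simp only [map_add, hp, hq]
  | mul_X p s hp => rw [map_mul, map_mul, hp]; simp [nu]

theorem smul_q (J : Ideal (By (ρ × γ) A)) (b : By (ρ × γ × γ) A) (f : By (ρ × γ) A) :
    b • Ideal.Quotient.mk J f = Ideal.Quotient.mk J (nu ρ γ A b * f) := rfl

theorem smul_c (J : Ideal (By (ρ × γ) A)) (c : A) (f : By (ρ × γ) A) :
    (C c : By (ρ × γ × γ) A) • Ideal.Quotient.mk J f = Ideal.Quotient.mk J (C c * f) := by
  rw [smul_q, nu, aeval_C, algebraMap_eq]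

/-- The semilinear map between the quotients. -/
noncomputable def qs (φ : A →+* B) (J : Ideal (By (ρ × γ) A)) (J' : Ideal (By (ρ × γ) B))
    (h : J ≤ J'.comap (MvPolynomial.map φ)) : (By (ρ × γ) A ⧸ J) →ₛₗ[(MvPolynomial.map φ :
      By (ρ × γ × γ) A →+* By (ρ × γ × γ) B)] (By (ρ × γ) B ⧸ J') where
  toFun := Ideal.quotientMap J' (MvPolynomial.map φ) h
  map_add' := map_add _
  map_smul' := fun b x => by
    obtain ⟨x, rfl⟩ := Ideal.Quotient.mk_surjective x
    rw [smul_q, Ideal.quotientMap_mk, Ideal.quotientMap_mk, smul_q, map_mul, map_nu]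

theorem len (hL : LenAPI) (φ : A →+* B) (J : Ideal (By (ρ × γ) B))
    (s : PrimeSpectrum (By (ρ × γ × γ) B))
    (h : ∀ (σ : Type) (x : By σ B), ∃ v : A, (C v : By (ρ × γ × γ) A) ∉
      s.asIdeal.comap (MvPolynomial.map φ) ∧ ∃ r, MvPolynomial.map φ r = C (φ v) * x) :
    lenAt (s.comap (MvPolynomial.map φ : By (ρ × γ × γ) A →+* _))
      (By (ρ × γ) A ⧸ J.comap (MvPolynomial.map φ)) = lenAt s (By (ρ × γ) B ⧸ J) := by
  refine hL.loc _ _ _ _ _ (qs φ _ J le_rfl) s _ rfl (fun x => ?_) (fun x => ?_) fun x h0 => ?_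
  · obtain ⟨v, hv, r, hr⟩ := h _ x
    exact ⟨C v, r, hv, by rw [hr, map_C]⟩
  · obtain ⟨x, rfl⟩ := Ideal.Quotient.mk_surjective x
    obtain ⟨v, hv, r, hr⟩ := h _ x
    exact ⟨C v, Ideal.Quotient.mk _ r, hv, by rw [map_C, smul_c, ← hr]; rfl⟩
  · exact ⟨1, fun h => (PrimeSpectrum.isPrime _).ne_top ((Ideal.eq_top_iff_one _).mpr h), by
      rw [one_smul]
      exact Ideal.quotientMap_injective (h0.trans (map_zero _).symm)⟩

end SpdX

open SpdX in
theorem spd_stmt (hL : LenAPI) (hB : HerbAPI) (hH : HfAPI) (hH2 : HfAPI2) (hC : CycAPI)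
    (hY : CydAPI) : SpdStmt := by
  classical
  intro ρ γ E K _ _ _ _ p t J hV ht0 ht hJ hl
  set φ : By (ρ × γ × γ) p.V →+* By (ρ × γ × γ) E := MvPolynomial.map p.V.subtype with hφ
  set ψ : By (ρ × γ × γ) p.V →+* By (ρ × γ × γ) K := MvPolynomial.map p.r with hψ
  set IE : Ideal (By (ρ × γ × γ) E) := J.comap (nu ρ γ E) with hIE
  set JV : Ideal (By (ρ × γ) p.V) := J.comap (MvPolynomial.map p.V.subtype) with hJV
  have hIEh : IsHom (yw _) IE := (hY.contr ρ γ E J hJ).1
  have hIEl : Lin (yw _) IE := (hY.contr ρ γ E J hJ).2.2 hl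
  obtain ⟨hc, hcm⟩ := hY.spec ρ γ E J hJ hl
  obtain ⟨hc0, -⟩ := hY.spec ρ γ K _ (hH2.init _ E K _ p J (isW_yw _) hJ).1
    (lin_init p hH2 _ (isW_yw _) J hJ hl)
  have hmin : ∀ s : PrimeSpectrum (By (ρ × γ × γ) E), s.asIdeal ∈ IE.minimalPrimes →
      IsCycB (p.init s.asIdeal) (cycB (p.init s.asIdeal)) := by
    intro s hs
    have hsh := hH.min _ _ _ _ _ hIEh hs
    exact (hC.specB _ K _ (hH2.init _ E K _ p _ (isW_yw _) hsh).1
      (lin_init p hH2 _ (isW_yw _) _ hsh (lin_of_le hH _ _ hs.1.2 hIEl))).1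
  ext r
  rw [Finsupp.sum_apply, Finsupp.sum]
  simp only [Finsupp.smul_apply, smul_eq_mul]
  by_cases hr : Crv r
  swap
  · rw [Finsupp.notMem_support_iff.mp fun h => hr (hc0.1 r h)]
    refine (Finset.sum_eq_zero fun s hs => ?_).symm
    rw [Finsupp.notMem_support_iff.mp fun h => hr ((hmin s (hcm s hs)).1 r h), mul_zero]
  have hfin : {s : PrimeSpectrum (By (ρ × γ × γ) E) |
      s.asIdeal ∈ IE.minimalPrimes ∧ Crv s}.Finite :=
    Set.Finite.subset (Set.Finite.preimage (f := PrimeSpectrum.asIdeal)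
      (fun _ _ _ _ h => PrimeSpectrum.ext h) (Ideal.finite_minimalPrimes_of_isNoetherianRing _ IE))
      fun s hs => hs.1
  have one : ∀ {R : Type} [CommRing R] (q : PrimeSpectrum R), 1 ∉ q.asIdeal :=
    fun q h => q.isPrime.ne_top ((Ideal.eq_top_iff_one _).mpr h)
  have key : lenD (p.init J) r =
      ∑ s ∈ hfin.toFinset, lenD J s * (cycB (p.init s.asIdeal) r : ℕ∞) := by
    have := hY.fin ρ γ p.V
    have : Module.Finite (By (ρ × γ × γ) p.V) (By (ρ × γ) p.V ⧸ JV) :=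
      .of_surjective (Ideal.Quotient.mkₐ _ JV).toLinearMap Ideal.Quotient.mk_surjective
    have h := hB.herb (By (ρ × γ × γ) p.V) (By (ρ × γ) p.V ⧸ JV)
      (By (ρ × γ) p.V ⧸ (p.init J).comap (MvPolynomial.map p.r))
      (Ideal.Quotient.factorₐ _ (Ideal.le_comap_map (I := JV))).toLinearMap
      (PrimeSpectrum.comap ψ r) (C t) (IE.comap φ) (hfin.toFinset.image (PrimeSpectrum.comap φ))
      (Ideal.Quotient.factor_surjective Ideal.le_comap_map) ?_ ?_ ?_ ?_ ?_ ?_ ?_
    · have hinj : Set.InjOn (PrimeSpectrum.comap φ) hfin.toFinset := fun s _ s' _ h => comap_inj p h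
      rw [Finset.sum_image hinj] at h
      refine (len hL p.r _ r fun σ x => ⟨1, by rw [C_1]; exact one (r.comap ψ),
        (map_surjective _ p.surj x).imp fun y hy => by
          rw [hy, map_one, C_1, one_mul]⟩).symm.trans (h.trans (Finset.sum_congr rfl fun s hs => ?_))
      rw [← (hmin s (hfin.mem_toFinset.mp hs).1).2 r hr]
      exact congrArg₂ (· * ·) (len hL p.V.subtype J s fun σ x => (clear p x).imp fun v hv =>
        ⟨C_notMem p s v hv.1, hv.2⟩) (len_cyc p hL t ht _ r)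
    · intro z
      obtain ⟨f, rfl⟩ := Ideal.Quotient.mk_surjective z
      refine Ideal.Quotient.eq_zero_iff_mem.trans ?_
      rw [mem_map_r p t ht, sup_comm, Ideal.mem_span_singleton_sup]
      refine ⟨fun ⟨a, b, hb, e⟩ => ⟨Ideal.Quotient.mk _ a, ?_⟩, fun ⟨z, e⟩ => ?_⟩
      · rw [smul_c, ← e, map_add, Ideal.Quotient.eq_zero_iff_mem.2 hb, add_zero, mul_comm]
      · obtain ⟨a, rfl⟩ := Ideal.Quotient.mk_surjective z
        rw [smul_c] at e
        exact ⟨a, _, Ideal.Quotient.eq.1 e, by ring⟩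
    · change ψ (C t) ∈ r.asIdeal
      rw [hψ, map_C, (ht t).mpr dvd_rfl, C_0]
      exact r.asIdeal.zero_mem
    · intro x hx z
      obtain ⟨f, rfl⟩ := Ideal.Quotient.mk_surjective z
      have hx' : nu ρ γ p.V x ∈ JV := by
        rw [hJV, Ideal.mem_comap, map_nu]
        exact hx
      rw [smul_q, map_mul, Ideal.Quotient.eq_zero_iff_mem.mpr hx', zero_mul]
    · intro q haq htq hqm
      have hker : RingHom.ker ψ ≤ q.asIdeal := by
        rw [hψ, ker_r p t ht, Ideal.span_singleton_le_iff_mem]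
        exact htq
      have hsurj : Function.Surjective ψ := map_surjective _ p.surj
      have hq' : (q.asIdeal.map ψ).IsPrime := Ideal.map_isPrime_of_surjective hsurj hker
      have h1 : p.init IE ≤ q.asIdeal.map ψ := Ideal.map_mono haq
      have h2 : q.asIdeal.map ψ ≤ r.asIdeal := Ideal.map_le_iff_le_comap.mpr hqm
      obtain ⟨q', hq'm, hq'le⟩ := Ideal.exists_minimalPrimes_le h1
      have hI0h := (hH2.init _ E K _ p IE (isW_yw _) hIEh).1
      have h3 : q' = r.asIdeal := hH.rigid _ _ _ _ _ (isW_yw _) hr.1 (hH.min _ _ _ _ _ hI0h hq'm)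
        r.isPrime hq'm.1.1 (hq'le.trans h2)
        (lin_of_le hH _ _ hq'm.1.2 (lin_init p hH2 _ (isW_yw _) _ hIEh hIEl)) hr.2
        (Or.inr fun _ => rfl)
      refine le_antisymm hqm ?_
      change r.asIdeal.comap ψ ≤ q.asIdeal
      rw [← h3]
      refine (Ideal.comap_mono hq'le).trans ?_
      rw [Ideal.comap_map_of_surjective _ hsurj]
      exact sup_le le_rfl hker
    · intro z h0
      obtain ⟨f, rfl⟩ := Ideal.Quotient.mk_surjective z
      refine ⟨1, one _, ?_⟩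
      rw [smul_c, Ideal.Quotient.eq_zero_iff_mem, hJV, Ideal.mem_comap, map_mul, map_C] at h0
      rw [one_smul, Ideal.Quotient.eq_zero_iff_mem]
      exact (Ideal.unit_mul_mem_iff_mem J ((IsUnit.mk0 _
        (show (p.V.subtype t : E) ≠ 0 from fun h => ht0 (Subtype.ext h))).map C)).mp h0
    · intro q hq
      obtain ⟨s, -, rfl⟩ := Finset.mem_image.mp hq
      exact C_notMem p s t ht0
    · intro q hq _ hqm
      obtain ⟨s, hs, hsq⟩ := Ideal.exists_minimalPrimes_comap_eq φ _ hq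
      have hsh := hH.min _ _ _ _ _ hIEh hs
      refine Finset.mem_image.mpr ⟨⟨s, hs.1.1⟩, hfin.mem_toFinset.mpr ⟨hs, hsh, fun c => ?_⟩,
        PrimeSpectrum.ext hsq⟩
      obtain ⟨n, hn⟩ := hr.2 c
      refine ⟨n, hn.trans_le ?_⟩
      rw [← (hH2.init _ E K _ p s (isW_yw _) hsh).2]
      refine hH.mono _ _ _ _ _ _ (isW_yw _) (Ideal.map_le_iff_le_comap.mpr ?_)
      change s.comap φ ≤ _
      rw [hsq]
      exact hqm
  rw [hc0.2 r hr, Finset.sum_congr rfl fun s hs => by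
    rw [hc.2 s (hfin.mem_toFinset.mp hs).2]] at key
  have h' : cycD (p.init J) r = ∑ s ∈ hfin.toFinset, cycD J s * cycB (p.init s.asIdeal) r := by
    exact_mod_cast key
  rw [h']
  refine (Finset.sum_subset (fun s hs => hfin.mem_toFinset.mpr ⟨hcm s hs, hc.1 s hs⟩)
    fun s _ hs => ?_).symm
  rw [Finsupp.notMem_support_iff.mp hs, zero_mul]

end Pool.Agent.MP_d45d16_ag.Sp14
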