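import Pool.Agent.MP_d45d16_ag.sp.Spec

/-!
Splitting of a prime along a quadratic extension, and additivity of the cycle.
-/

set_option autoImplicit false

open MvPolynomial Filter Matrix

namespace Pool.Agent.MP_d45d16_ag.Sp14

open Yag

namespace SplX

theorem decomp {σ F K : Type} [Field F] [Field K] (c : F →+* K) (d : F) (δ : K)
    (h : Quad c d δ) (f : MvPolynomial σ K) :
    ∃ f₀ f₁ : MvPolynomial σ F, f = MvPolynomial.map c f₀ + C δ * MvPolynomial.map c f₁ := by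
  induction f using MvPolynomial.induction_on with
  | C z =>
    obtain ⟨x, y, rfl⟩ := h.gen z
    refine ⟨C x, C y, ?_⟩
    rw [map_C, map_C, C_add, C_mul]
    ring
  | add p q hp hq =>
    obtain ⟨p₀, p₁, rfl⟩ := hp
    obtain ⟨q₀, q₁, rfl⟩ := hq
    refine ⟨p₀ + q₀, p₁ + q₁, ?_⟩
    rw [map_add, map_add]
    ring
  | mul_X p i hp =>
    obtain ⟨p₀, p₁, rfl⟩ := hp
    refine ⟨p₀ * X i, p₁ * X i, ?_⟩
    rw [map_mul, map_mul, map_X]
    ring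

theorem ev_map {σ F K E R : Type} [Field F] [Field K] [Field E] [CommRing R] (c : F →+* K)
    (c' : K →+* E) (k : E →+* R) (v : σ → R) (f : MvPolynomial σ F) :
    eval₂Hom (k.comp c') v (MvPolynomial.map c f) = eval₂Hom (k.comp (c'.comp c)) v f := by
  rw [coe_eval₂Hom, coe_eval₂Hom, eval₂_map, RingHom.comp_assoc]

theorem split {ι F K E : Type} [Field F] [CharZero F] [Field K] [Field E] (c : F →+* K) (d : F)
    (δ : K) (c₁ c₂ : K →+* E) (a b : ι → E) (h : Quad c d δ) (h₁ : c₂.comp c = c₁.comp c)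
    (h₂ : c₂ δ = -c₁ δ) :
    (prm (c₁.comp c) a b).map (MvPolynomial.map c) = prm c₁ a b ⊓ prm c₂ a b := by
  unfold prm
  apply le_antisymm
  · rw [Ideal.map_le_iff_le_comap]
    intro f hf
    rw [RingHom.mem_ker] at hf
    rw [Ideal.mem_comap, Ideal.mem_inf, RingHom.mem_ker, RingHom.mem_ker, ev_map, ev_map, h₁]
    exact ⟨hf, hf⟩
  · intro f hf
    obtain ⟨f₀, f₁, rfl⟩ := decomp c d δ h f
    rw [Ideal.mem_inf, RingHom.mem_ker, RingHom.mem_ker, map_add, map_add, map_mul, map_mul,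
      ev_map, ev_map, ev_map, ev_map, h₁, eval₂Hom_C, eval₂Hom_C, RingHom.comp_apply,
      RingHom.comp_apply, h₂, map_neg] at hf
    obtain ⟨e₁, e₂⟩ := hf
    have h2 : (2 : E) ≠ 0 := by
      have : (c₁.comp c) 2 ≠ 0 := (map_ne_zero _).2 two_ne_zero
      rwa [map_ofNat] at this
    have h2' : (C 2 : MvPolynomial (Fin 2) E) ≠ 0 := C_ne_zero.2 h2
    rw [map_ofNat] at h2'
    have hδ : δ ≠ 0 := fun e => h.ne ⟨0, by rw [map_zero, e]⟩
    have hδ' : (C (c₁ δ) : MvPolynomial (Fin 2) E) ≠ 0 := C_ne_zero.2 ((map_ne_zero _).2 hδ)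
    refine Ideal.add_mem _ (Ideal.mem_map_of_mem _ ?_)
      (Ideal.mul_mem_left _ _ (Ideal.mem_map_of_mem _ ?_))
    · rw [RingHom.mem_ker]
      apply mul_left_cancel₀ h2'
      linear_combination e₁ + e₂
    · rw [RingHom.mem_ker]
      apply mul_left_cancel₀ hδ'
      apply mul_left_cancel₀ h2'
      linear_combination e₁ - e₂

theorem theta_comp {ι F K K' : Type} [Fintype ι] [Field F] [Field K] [Field K'] (c : F →+* K)
    (φ : K →+* K') (g₁ g₂ : Matrix ι ι K') :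
    theta (φ.comp c) g₁ g₂ = (theta φ g₁ g₂).comp (MvPolynomial.map c) := by
  refine RingHom.ext fun f => ?_
  unfold theta
  rw [RingHom.comp_apply, ev_map]

theorem isW_bw (ι : Type) : IsW (bw ι) := by
  rintro (v | v)
  · exact Or.inl rfl
  · exact Or.inr rfl

theorem colon_prime {R : Type} [CommRing R] (J : Ideal R) (l : R) (hJ : J.IsPrime) (hl : l ∉ J) :
    J.colon {l} = J := by
  ext f
  rw [Submodule.mem_colon_singleton, smul_eq_mul]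
  exact ⟨fun h => (hJ.mem_or_mem h).resolve_right hl, fun h => J.mul_mem_right _ h⟩

theorem colon_inf {R : Type} [CommRing R] (J₁ J₂ : Ideal R) (l : R) (hJ : J₂.IsPrime)
    (h₁ : l ∈ J₁) (hl : l ∉ J₂) : (J₁ ⊓ J₂).colon {l} = J₂ := by
  ext f
  rw [Submodule.mem_colon_singleton, smul_eq_mul, Ideal.mem_inf]
  exact ⟨fun h => (hJ.mem_or_mem h.2).resolve_right hl,
    fun h => ⟨J₁.mul_mem_left _ h₁, J₂.mul_mem_right _ h⟩⟩

theorem lin_tr (hH : HfAPI) (hT : TrAPI) {ι F K : Type} [Fintype ι] [DecidableEq ι] [Field F]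
    [Field K] (φ : F →+* K) (g : Matrix ι ι K) (i₀ : ι) (J : Ideal (Pxy ι F)) (hg : IsUnit g)
    (hJ : IsHom (bw ι) J) (hX : ∀ i, i ≠ i₀ → X (Sum.inl i) ∈ J) (hL : Lin (bw ι) J) :
    Lin (yw ι) (tr φ g i₀ J) := by
  obtain ⟨c, hc⟩ := hL
  refine ⟨c, fun d n => ?_⟩
  cases d with
  | zero => exact ((hT.hom ι F K φ g i₀ J hg hJ hX).2.1 n).trans (hc 0 n)
  | succ d =>
    rw [hH.ypos]
    exact Nat.zero_le _

theorem tr_mono {ι F K : Type} [Fintype ι] [DecidableEq ι] [Field F] [Field K] (φ : F →+* K)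
    (g : Matrix ι ι K) (i₀ : ι) {J J' : Ideal (Pxy ι F)} (h : J ≤ J') :
    tr φ g i₀ J ≤ tr φ g i₀ J' :=
  Ideal.map_mono (Ideal.map_mono h)

theorem tr_mul {ι F K : Type} [Fintype ι] [DecidableEq ι] [Field F] [Field K] (φ : F →+* K)
    (g : Matrix ι ι K) (i₀ : ι) (J J' : Ideal (Pxy ι F)) :
    tr φ g i₀ (J * J') = tr φ g i₀ J * tr φ g i₀ J' := by
  unfold tr
  rw [Ideal.map_mul, Ideal.map_mul]

end SplX

open SplX in
theorem splAPI (hH : HfAPI) (hH2 : HfAPI2) (hM : ModAPI) (hY : CydAPI) (hT : TrAPI) : SplAPI where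
  split := fun _ _ _ _ _ _ _ _ c d δ c₁ c₂ a b h h₁ h₂ => SplX.split c d δ c₁ c₂ a b h h₁ h₂
  comp := fun ι F K K' _ _ _ _ _ c φ g i₀ J => by
    unfold tr
    rw [theta_comp, Ideal.map_map (MvPolynomial.map c)]
  add := fun ρ γ K K' _ _ _ _ _ _ φ g i₀ J₁ J₂ l u v hg o₁ o₂ l₁ l₂ x₁ x₂ hp hl m₁ m₂ hu => by
    have _ := hH2
    have hW := isW_bw (ρ × γ)
    obtain ⟨oJ, -, hsum⟩ := hM.inf _ K (bw (ρ × γ)) J₁ J₂ hW o₁ o₂
    have xJ : ∀ i, i ≠ i₀ → X (Sum.inl i) ∈ J₁ ⊓ J₂ := fun i hi => ⟨x₁ i hi, x₂ i hi⟩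
    have lJ : Lin (bw (ρ × γ)) (J₁ ⊓ J₂) := by
      obtain ⟨c₁, hc₁⟩ := l₁
      obtain ⟨c₂, hc₂⟩ := l₂
      refine ⟨c₁ + c₂, fun d n => ?_⟩
      have := hsum (d, n)
      have := hc₁ d n
      have := hc₂ d n
      rw [add_mul]
      omega
    obtain ⟨oT, -, -, hT'⟩ := hT.hom _ K K' φ g i₀ (J₁ ⊓ J₂) hg oJ xJ
    obtain ⟨hl', hcol, hsup⟩ := hT' l (0, 1) hl
    have e := hY.add ρ γ K' (tr φ g i₀ (J₁ ⊓ J₂)) _ _ oT
      (lin_tr hH hT φ g i₀ _ hg oJ xJ lJ) hl'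
    rw [← hcol, ← hsup, colon_inf J₁ J₂ l hp m₁ m₂] at e
    rw [e]
    congr 1
    have o₃ := hH.sup _ K (bw (ρ × γ)) (J₁ ⊓ J₂) l _ oJ hl
    have x₃ : ∀ i, i ≠ i₀ → X (Sum.inl i) ∈ J₁ ⊓ J₂ ⊔ Ideal.span {l} := fun i hi =>
      Ideal.mem_sup_left (xJ i hi)
    have l₃ : Lin (bw (ρ × γ)) (J₁ ⊓ J₂ ⊔ Ideal.span {l}) := by
      obtain ⟨c, hc⟩ := lJ
      exact ⟨c, fun d n => (hH.mono _ K _ _ _ _ hW le_sup_left).trans (hc d n)⟩
    have ob := hH.sup _ K (bw (ρ × γ)) J₂ l _ o₂ hl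
    have xb : ∀ i, i ≠ i₀ → X (Sum.inl i) ∈ J₂ ⊔ Ideal.span {l} := fun i hi =>
      Ideal.mem_sup_left (x₂ i hi)
    obtain ⟨oTb, hb, -, -⟩ := hT.hom _ K K' φ g i₀ (J₂ ⊔ Ideal.span {l}) hg ob xb
    refine hY.sat ρ γ K' _ _ (tr φ g i₀ (J₂ ⊔ Ideal.span {l}))
      (hT.hom _ K K' φ g i₀ _ hg o₃ x₃).1 (lin_tr hH hT φ g i₀ _ hg o₃ x₃ l₃)
      (hT.hom _ K K' φ g i₀ _ hg o₁ x₁).1 oTb ?_ ?_ ?_
    · intro hU
      obtain ⟨n, hn⟩ := hU (u + hf (bw (ρ × γ)) (J₂ ⊔ Ideal.span {l}) (0, 0) +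
        hf (bw (ρ × γ)) (J₂ ⊔ Ideal.span {l}) (0, 1))
      have h1 := hb n
      rcases n with _ | _ | n
      · omega
      · simp only [zero_add] at h1 hn
        omega
      · have h2 := hH.add _ K (bw (ρ × γ)) J₂ l (0, 1) (0, n + 1) hW o₂ hl
        rw [colon_prime J₂ l hp m₂, hu n] at h2
        have h3 : ((0, n + 1) : ℕ × ℕ) + (0, 1) = (0, n + 1 + 1) := rfl
        rw [h3, hu (n + 1), mul_add] at h2
        omega
    · refine tr_mono φ g i₀ (sup_le inf_le_left ?_)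
      rwa [Ideal.span_singleton_le_iff_mem]
    · rw [← tr_mul]
      refine tr_mono φ g i₀ ?_
      rw [Ideal.sup_mul]
      exact sup_le_sup (le_inf Ideal.mul_le_right Ideal.mul_le_left) Ideal.mul_le_left

end Pool.Agent.MP_d45d16_ag.Sp14
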