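import Pool.Agent.MP_d45d16_ag.sp.Spec
import Pool.Agent.MP_d45d16_ag.yag.Phi

/-!
STEP2: the invariant passes to a simple transcendental extension.
-/

set_option autoImplicit false

open MvPolynomial Filter IntermediateField

namespace Pool.Agent.MP_d45d16_ag.Sp14

open Yag Step

namespace Step2X

theorem isW_yw (ι : Type) : IsW (yw ι) := fun _ => Or.inr rfl

theorem init_mono {σ E K : Type} [Field E] [Field K] (p : Place E K)
    {I J : Ideal (MvPolynomial σ E)} (h : I ≤ J) : p.init I ≤ p.init J :=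
  Ideal.map_mono (Ideal.comap_mono h)

theorem init_ren {σ τ E K : Type} [Field E] [Field K] (p : Place E K) (e : σ → τ)
    (I : Ideal (By τ E)) : p.init (I.comap (rename e : By σ E →ₐ[E] By τ E)) ≤
      (p.init I).comap (rename e : By σ K →ₐ[K] By τ K) := by
  unfold Place.init
  rw [Ideal.map_le_iff_le_comap]
  intro g hg
  rw [Ideal.mem_comap, Ideal.mem_comap] at hg
  rw [Ideal.mem_comap, Ideal.mem_comap, ← map_rename]
  refine Ideal.mem_map_of_mem _ ?_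
  rwa [Ideal.mem_comap, map_rename]

theorem init_col {ρ γ E K : Type} [Field E] [Field K] (p : Place E K) (I : Ideal (By (ρ × γ) E)) :
    p.init (colI I) ≤ colI (p.init I) :=
  le_iInf fun j => (init_mono p (iInf_le _ j)).trans (init_ren p _ I)

theorem init_row {ρ γ E K : Type} [Field E] [Field K] (p : Place E K) (I : Ideal (By (ρ × γ) E)) :
    p.init (rowI I) ≤ rowI (p.init I) :=
  le_iInf fun r => (init_mono p (iInf_le _ r)).trans (init_ren p _ I)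

section Core

variable {A E K : Type} [Group A] [Field E] [Field K] [Algebra K E] [MulSemiringAction A E]
  [MulSemiringAction A K] {ρ γ κ : Type} [Fintype ρ] [Fintype γ] [Field κ] [Algebra κ K]
  [Algebra κ E] [IsScalarTower κ K E] {T : Setup2 A ρ γ κ} {Φ : Ideal (By (ρ × γ) K) → ZMod 2}
  {J : Ideal (By (ρ × γ) E)}

theorem wm (Pl : PlaceAPI) (Sy : SymAPI) (H : Two K E)
    (hc : ∀ (a : A) (c : K), a • algebraMap K E c = algebraMap K E (a • c)) (hΦ : T.Good Φ)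
    (hJ : T.Adm J) {u v : E} (h : GP A K u v) :
    ∃ P P' : Place E K, Lex u v P ∧ Lex u v⁻¹ P' ∧ Φ (P.init J) = Φ (P'.init J) := by
  let := subAct hc v h.s₂
  have : IsScalarTower κ K⟮v⟯ E := IsScalarTower.of_algebraMap_eq fun _ => rfl
  have s1 := simple_top H h.gen
  have s2 := simple_gen (trans_snd H h.gen)
  obtain ⟨q, hq, hqu⟩ := Pl.ex E K⟮v⟯ u s1
  obtain ⟨p, hp, hpv⟩ := Pl.ex K⟮v⟯ K _ s2
  obtain ⟨p', hp', hpv'⟩ := Pl.ex K⟮v⟯ K _ (Pl.simple_inv _ _ _ s2)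
  obtain ⟨P, hP, hi⟩ := Pl.comp E K⟮v⟯ K q p
  obtain ⟨P', hP', hi'⟩ := Pl.comp E K⟮v⟯ K q p'
  refine ⟨P, P', lex_comp Pl hP hq hp hqu hpv, ?_, ?_⟩
  · simpa using lex_comp Pl hP' hq hp' hqu hpv'
  · obtain ⟨η, hη⟩ := h.s₁
    obtain ⟨η', hη'⟩ := h.s₂
    have hadm : T.Adm (q.init J) := Sy.init A ρ γ κ E K⟮v⟯ T q J (over_bot hq)
      (Pl.eqv A E K⟮v⟯ u η q (fun _ _ => rfl) hη s1 hq hqu) hJ
    rw [hi _ _ J (isW_yw _) hJ.hom, hi' _ _ J (isW_yw _) hJ.hom]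
    exact hΦ.move K⟮v⟯ (AdjoinSimple.gen K v) η' p p' _ (fun a c => Subtype.ext (hc a c))
      (fun a => Subtype.ext (hη' a)) s2 hp hp' hpv hpv' hadm

/-- The two lexicographic places give the same value. -/
def Comm (Φ : Ideal (By (ρ × γ) K) → ZMod 2) (J : Ideal (By (ρ × γ) E)) (u v : E) : Prop :=
  ∀ P P' : Place E K, Lex u v P → Lex v u P' → Φ (P.init J) = Φ (P'.init J)

theorem comm_step (Pl : PlaceAPI) (Sy : SymAPI) (H : Two K E)
    (hc : ∀ (a : A) (c : K), a • algebraMap K E c = algebraMap K E (a • c)) (hΦ : T.Good Φ)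
    (hJ : T.Adm J) {u v : E} (h : GP A K u v) (h1 : Comm Φ J (u / v) v)
    (h2 : Comm Φ J u (v / u)) : Comm Φ J u v := by
  intro P P' hP hP'
  have hv := ne_snd H h.gen
  have hu := ne_snd H h.swap.gen
  obtain ⟨Q, Q', hQ, hQ', e⟩ := wm Pl Sy H hc hΦ hJ (h.div H).swap
  rw [inv_div] at hQ'
  have a : Lex (u / v) v P := ⟨hP.1, hP.2.1, fun n => by
    rw [div_div, ← pow_succ']; exact hP.2.2 _⟩
  have b : Lex (v / u) u P' := ⟨hP'.1, hP'.2.1, fun n => by
    rw [div_div, ← pow_succ']; exact hP'.2.2 _⟩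
  have c : Lex u (v / u) Q' := ⟨hQ'.1, hQ'.2.1, fun n => by
    have e : u / (v / u) ^ n = v / (v / u) ^ (n + 1) := by
      rw [pow_succ]
      field_simp
    rw [e]; exact hQ'.2.2 _⟩
  rw [h1 P Q a hQ, e, h2 Q' P' c b]

theorem comm (Hf : HfAPI) (Hf2 : HfAPI2) (Pl : PlaceAPI) (Sy : SymAPI) (H : Two K E)
    (hc : ∀ (a : A) (c : K), a • algebraMap K E c = algebraMap K E (a • c)) (hΦ : T.Good Φ)
    (hJ : T.Adm J) {u v : E} (h : GP A K u v) : Comm Φ J u v := by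
  by_contra hn
  have nxt : ∀ x : {x : E × E // GP A K x.1 x.2 ∧ ¬ Comm Φ J x.1 x.2},
      ∃ x' : {x : E × E // GP A K x.1 x.2 ∧ ¬ Comm Φ J x.1 x.2}, Nx x.1 x'.1 := by
    rintro ⟨⟨a, b⟩, hg, hb⟩
    by_cases h1 : Comm Φ J (a / b) b
    · exact ⟨⟨(a, b / a), (hg.swap.div H).swap,
        fun h2 => hb (comm_step Pl Sy H hc hΦ hJ hg h1 h2)⟩, Or.inr rfl⟩
    · exact ⟨⟨(a / b, b), hg.div H, h1⟩, Or.inl rfl⟩
  choose f hf using nxt
  let y := fun m : ℕ => f^[m] ⟨(u, v), h, hn⟩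
  have hy : ∀ m, Nx (y m).1 (y (m + 1)).1 := fun m => by
    simp only [y, Function.iterate_succ_apply']
    exact hf _
  have bad : ∀ m, ∃ P P' : Place E K, Dom P (y m).1 ∧ Dom P' (y m).1 ∧
      Φ (P.init J) ≠ Φ (P'.init J) := by
    intro m
    have := (y m).2.2
    simp only [Comm, not_forall] at this
    obtain ⟨P, P', hP, hP', hne⟩ := this
    exact ⟨P, P', ⟨hP.1, by simpa using hP.2.2 0, hP.2.1⟩,
      ⟨hP'.1, hP'.2.1, by simpa using hP'.2.2 0⟩, hne⟩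
  choose P P' hP hP' hne using bad
  obtain ⟨N, hN⟩ := init_stab Pl Hf Hf2 (yw (ρ × γ)) (isW_yw _) J hJ.hom (fun m => (y m).1)
    (fun m => ne_snd H (y m).2.1.swap.gen) (fun m => ne_snd H (y m).2.1.gen) hy h.gen P hP
  exact hne N (by rw [hN _ _ (hP N) (hP' N)])

end Core

end Step2X

open Step2X in
theorem step2_stmt (hH : HfAPI) (hH2 : HfAPI2) (hPl : PlaceAPI) (hM : ModAPI) (hSp : SpdStmt)
    (hSy : SymAPI) : Step2Stmt := by
  intro A ρ γ κ K K' _ _ _ _ _ _ _ _ _ _ _ _ T Φ y η p hc hy hs hp hpy hΦ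
  have adm : ∀ J : Ideal (By (ρ × γ) K'), T.Adm J → T.Adm (p.init J) := fun J hJ =>
    hSy.init A ρ γ κ K' K T p J (over_bot hp) (hPl.eqv A K' K y η p hc hy hs hp hpy) hJ
  refine ⟨fun J J₁ J₂ h h₁ h₂ e => ?_, fun J h h1 e he => ?_, fun J h h1 => ?_, ?_⟩
  · obtain ⟨hN, t, ht, htv⟩ := hPl.dvr K' K y p hs hp hpy
    refine hΦ.add _ _ _ (adm J h) (adm J₁ h₁) (adm J₂ h₂) ?_
    rw [hSp ρ γ K' K p t J hN ht htv h.hom h.lin, hSp ρ γ K' K p t J₁ hN ht htv h₁.hom h₁.lin,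
      hSp ρ γ K' K p t J₂ hN ht htv h₂.hom h₂.lin, e]
    exact Finsupp.sum_add_index' (fun _ => zero_smul _ _) fun _ _ _ => add_smul _ _ _
  · have a := (hH2.init _ K' K (yw (ρ × γ)) p J (isW_yw _) h.hom).2
    have b := (hH2.init _ K' K (yw ρ) p _ (isW_yw _) (hM.colrow ρ γ K' J h.hom).1).2
    refine hΦ.evalA _ (adm J h)
      ((hH.mono _ K (yw ρ) _ _ _ (isW_yw _) (init_col p J)).trans (by rwa [b])) e ?_
    simpa only [a] using he
  · have b := (hH2.init _ K' K (yw γ) p _ (isW_yw _) (hM.colrow ρ γ K' J h.hom).2).2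
    refine hΦ.evalB _ (adm J h) fun k => h1 fun C => ?_
    obtain ⟨n, hn⟩ := k C
    exact ⟨n, hn.trans_le ((hH.mono _ K (yw γ) _ _ _ (isW_yw _) (init_row p J)).trans (b _).le)⟩
  · intro E _ _ _ _ _ z η' q q' J hc' hz hs' hq hq' hqz hqz' hJ
    let : Algebra K E := ((algebraMap K' E).comp (algebraMap K K')).toAlgebra
    have : IsScalarTower K K' E := IsScalarTower.of_algebraMap_eq fun _ => rfl
    have : IsScalarTower κ K E := IsScalarTower.of_algebraMap_eq fun c => by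
      rw [IsScalarTower.algebraMap_apply κ K' E, IsScalarTower.algebraMap_apply κ K K']
      rfl
    have hcE : ∀ (a : A) (c : K), a • algebraMap K E c = algebraMap K E (a • c) := fun a c => by
      rw [IsScalarTower.algebraMap_apply K K' E, hc', hc, ← IsScalarTower.algebraMap_apply]
    have H : Two K E := two_of hs.1 hs'.1
    have g : GP A K z (algebraMap K' E y) :=
      ⟨gen_tower hs.2 hs'.2, ⟨η', hz⟩, ⟨η, fun a => by rw [hc', hy, map_zsmul]⟩⟩
    obtain ⟨P, hP, hi⟩ := hPl.comp E K' K q p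
    obtain ⟨P', hP', hi'⟩ := hPl.comp E K' K q' p
    obtain ⟨Q, Q', hQ, hQ', e⟩ := Step2X.wm hPl hSy H hcE hΦ hJ g.swap
    have e1 := Step2X.comm hH hH2 hPl hSy H hcE hΦ hJ g P Q (lex_comp hPl hP hq hp hqz hpy) hQ
    have e2 := Step2X.comm hH hH2 hPl hSy H hcE hΦ hJ g.inv P' Q'
      (lex_comp hPl hP' hq' hp hqz' hpy) hQ'
    rw [hi _ _ J (isW_yw _) hJ.hom] at e1
    rw [hi' _ _ J (isW_yw _) hJ.hom] at e2
    exact e1.trans (e.trans e2.symm)

end Pool.Agent.MP_d45d16_ag.Sp14
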