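import Pool.Agent.MP_d45d16_ag.sp.Spec
import Pool.Agent.MP_d45d16_ag.yag.Ev
import Pool.Agent.MP_d45d16_ag.yag.Cyc

/-!
Transport of the push-forward cycle by the group, and admissibility of specialisations.
-/

set_option autoImplicit false

open MvPolynomial Filter

namespace Pool.Agent.MP_d45d16_ag.Sp14

open Yag

namespace SymX

section Act

variable {A ρ γ κ K : Type} [Group A] [Fintype γ] [Field κ] [Field K] [MulSemiringAction A K]
  (T : Setup2 A ρ γ κ)

theorem act_C (a : A) (c : K) : T.act a (C c : By (ρ × γ) K) = C (a • c) := by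
  simp [Setup2.act]

theorem act_X (a : A) (x : ρ × γ) :
    T.act a (X x : By (ρ × γ) K) = ((T.χ x.1 a : ℤˣ) : ℤ) • X x := by
  simp [Setup2.act]

theorem act_act (a b : A) (f : By (ρ × γ) K) : T.act a (T.act b f) = T.act (a * b) f := by
  have h : (T.act (K := K) a).comp (T.act b) = T.act (a * b) := by
    refine MvPolynomial.ringHom_ext (fun c => ?_) fun x => ?_
    · simp only [RingHom.comp_apply, act_C, mul_smul]
    · simp only [RingHom.comp_apply, act_X, map_zsmul, map_mul, Units.val_mul, smul_smul,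
        mul_comm]
  exact RingHom.congr_fun h f

theorem act_one (f : By (ρ × γ) K) : T.act 1 f = f := by
  have h : T.act (K := K) 1 = RingHom.id _ := by
    refine MvPolynomial.ringHom_ext (fun c => ?_) fun x => ?_
    · simp only [act_C, one_smul, RingHom.id_apply]
    · simp only [act_X, map_one, Units.val_one, one_smul, RingHom.id_apply]
  rw [h, RingHom.id_apply]

theorem act_inv (a : A) (f : By (ρ × γ) K) : T.act a (T.act a⁻¹ f) = f := by
  rw [act_act, mul_inv_cancel, act_one]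

theorem act_inv' (a : A) (f : By (ρ × γ) K) : T.act a⁻¹ (T.act a f) = f := by
  rw [act_act, inv_mul_cancel, act_one]

theorem sgn_sq {R : Type} [CommRing R] (ε : ℤˣ) (u v : R) :
    ((ε : ℤ) • u) * ((ε : ℤ) • v) = u * v := by
  rcases Int.units_eq_one_or ε with rfl | rfl <;> simp

theorem act_nu (a : A) (b : By (ρ × γ × γ) K) :
    T.act a (nu ρ γ K b) = nu ρ γ K (actB (ρ × γ × γ) a b) := by
  have h : (T.act (K := K) a).comp (nu ρ γ K).toRingHom =
      (nu ρ γ K).toRingHom.comp (actB (ρ × γ × γ) a) := by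
    refine MvPolynomial.ringHom_ext (fun c => ?_) fun y => ?_
    · simp [nu, act_C, actB]
    · simp only [nu, actB, RingHom.comp_apply, AlgHom.toRingHom_eq_coe, RingHom.coe_coe, aeval_X,
        map_X, map_mul, act_X, sgn_sq]
  exact RingHom.congr_fun h b

theorem act_hom {M : Type} [AddCommMonoid M] (w : ρ × γ → M) (a : A) {f : By (ρ × γ) K} {m : M}
    (hf : IsWeightedHomogeneous w f m) : IsWeightedHomogeneous w (T.act a f) m := by
  have h : T.act (K := K) a = eval₂Hom (C.comp (MulSemiringAction.toRingHom A K a))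
      fun v => C (((T.χ v.1 a : ℤˣ) : ℤ) : K) * X v := by
    refine MvPolynomial.ringHom_ext (fun c => ?_) fun x => ?_
    · simp [act_C]
    · simp [act_X]
  rw [h]
  exact Ev.hom_scale w _ _ hf

theorem act_comp {M : Type} [AddCommMonoid M] (w : ρ × γ → M) (a : A) (f : By (ρ × γ) K)
    (m : M) : weightedHomogeneousComponent w m (T.act a f) =
      T.act a (weightedHomogeneousComponent w m f) := by
  classical
  induction f using MvPolynomial.induction_on' with
  | monomial d c =>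
    have h : IsWeightedHomogeneous w (monomial d c : By (ρ × γ) K) (Finsupp.weight w d) :=
      isWeightedHomogeneous_monomial _ _ _ rfl
    rw [weightedHomogeneousComponent_of_mem h,
      weightedHomogeneousComponent_of_mem (act_hom T w a h)]
    split_ifs
    · rfl
    · rw [map_zero]
  | add f g hf hg => rw [map_add, map_add, hf, hg, map_add, map_add]

theorem isHom_comap (w : ρ × γ → ℕ × ℕ) (a : A) {J : Ideal (By (ρ × γ) K)} (hJ : IsHom w J) :
    IsHom w (J.comap (T.act a)) := by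
  intro f hf m
  change T.act a _ ∈ J
  rw [← act_comp]
  exact hJ _ hf m

theorem hf_act (w : ρ × γ → ℕ × ℕ) (a : A) (I : Ideal (By (ρ × γ) K)) (m : ℕ × ℕ) :
    hf w (I.comap (T.act a)) m = hf w I m := by
  let θ := Ideal.quotientMap I (T.act a) (le_refl (I.comap (T.act a)))
  let W := weightedHomogeneousSubmodule K w m
  let U := W.map (Ideal.Quotient.mkₐ K (I.comap (T.act a))).toLinearMap
  let V := W.map (Ideal.Quotient.mkₐ K I).toLinearMap
  have hθ : ∀ f, θ (Ideal.Quotient.mk _ f) = Ideal.Quotient.mk I (T.act a f) :=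
    fun f => Ideal.quotientMap_mk
  have hUV : ∀ z ∈ U, θ z ∈ V := by
    rintro _ ⟨f, hf, rfl⟩
    exact ⟨T.act a f, act_hom T _ a hf, (hθ f).symm⟩
  let j : U →+ V :=
    { toFun := fun z => ⟨θ z, hUV z z.2⟩
      map_zero' := Subtype.ext (map_zero θ)
      map_add' := fun x y => Subtype.ext (map_add θ _ _) }
  have hj : Function.Bijective j := by
    refine ⟨fun x y h => Subtype.ext (Ideal.quotientMap_injective (congrArg Subtype.val h)), ?_⟩
    rintro ⟨_, f, hf, rfl⟩
    refine ⟨⟨_, T.act a⁻¹ f, act_hom T _ a⁻¹ hf, rfl⟩, Subtype.ext ?_⟩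
    exact (hθ _).trans (by rw [act_inv]; rfl)
  have h := rank_eq_of_equiv_equiv (R := K) (R' := K) (fun c => a • c) (AddEquiv.ofBijective j hj)
    (MulAction.bijective a) (by
      rintro c ⟨_, f, hf, rfl⟩
      refine Subtype.ext ?_
      change θ (c • Ideal.Quotient.mkₐ K _ f) = (a • c) • θ (Ideal.Quotient.mk _ f)
      rw [← map_smul, hθ]
      change θ (Ideal.Quotient.mk _ _) = (a • c) • Ideal.Quotient.mkₐ K I _
      rw [hθ, ← map_smul, smul_eq_C_mul, smul_eq_C_mul, map_mul, act_C]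
      rfl)
  exact congrArg Cardinal.toNat h

omit [Fintype γ] in
theorem smul_mk (J : Ideal (By (ρ × γ) K)) (b : By (ρ × γ × γ) K) (f : By (ρ × γ) K) :
    b • Ideal.Quotient.mk J f = Ideal.Quotient.mk J (nu ρ γ K b * f) := by
  rw [← algNu_apply, ← Algebra.smul_def]
  rfl

/-- The action on quotients. -/
noncomputable def tau (J : Ideal (By (ρ × γ) K)) (a : A) :
    (By (ρ × γ) K ⧸ J.comap (T.act a)) →ₛₗ[actB (ρ × γ × γ) (K := K) a] (By (ρ × γ) K ⧸ J) where
  toFun := Ideal.quotientMap J (T.act a) (le_refl _)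
  map_add' := map_add _
  map_smul' := fun b z => by
    obtain ⟨f, rfl⟩ := Ideal.Quotient.mk_surjective z
    rw [smul_mk, Ideal.quotientMap_mk, Ideal.quotientMap_mk, smul_mk, map_mul, act_nu]

theorem tau_bij (J : Ideal (By (ρ × γ) K)) (a : A) : Function.Bijective (tau T J a) := by
  refine ⟨fun x y h => Ideal.quotientMap_injective h, fun z => ?_⟩
  obtain ⟨f, rfl⟩ := Ideal.Quotient.mk_surjective z
  refine ⟨Ideal.Quotient.mk _ (T.act a⁻¹ f), ?_⟩
  exact (Ideal.quotientMap_mk (H := le_refl (J.comap (T.act a)))).trans (by rw [act_inv])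

theorem len_act (hL : LenAPI) (J : Ideal (By (ρ × γ) K)) (a : A)
    (s : PrimeSpectrum (By (ρ × γ × γ) K)) :
    lenD (J.comap (T.act a)) (s.comap (actB (ρ × γ × γ) a)) = lenD J s :=
  Ev.len_bij hL (actB (ρ × γ × γ) a) (tau T J a) s _ rfl (Ev.actB_surj a) (tau_bij T J a)

omit [Fintype γ] [MulSemiringAction A K] in
theorem cyc_eq_zero (hY : CydAPI) [Finite ρ] [Finite γ] {J : Ideal (By (ρ × γ) K)}
    (h1 : IsHom (yw (ρ × γ)) J) (h2 : Lin (yw (ρ × γ)) J)
    {s : PrimeSpectrum (By (ρ × γ × γ) K)} (hs : ¬ Crv s) : cycD J s = 0 := by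
  by_contra h
  exact hs ((hY.spec ρ γ K J h1 h2).1.1 s (Finsupp.mem_support_iff.2 h))

theorem cyc_act (hL : LenAPI) (hY : CydAPI) [Finite ρ] (J : Ideal (By (ρ × γ) K)) (a : A)
    (h1 : IsHom (yw (ρ × γ)) J) (h2 : Lin (yw (ρ × γ)) J)
    (s : PrimeSpectrum (By (ρ × γ × γ) K)) :
    cycD (J.comap (T.act a)) (s.comap (actB (ρ × γ × γ) a)) = cycD J s := by
  have h1' := isHom_comap T _ a h1
  have h2' : Lin (yw (ρ × γ)) (J.comap (T.act a)) := by
    obtain ⟨c, hc⟩ := h2
    exact ⟨c, fun d n => by rw [hf_act]; exact hc d n⟩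
  by_cases hs : Crv s
  · have e1 := (hY.spec ρ γ K J h1 h2).1.2 s hs
    have e2 := (hY.spec ρ γ K _ h1' h2').1.2 _ (Ev.crv_actB a hs)
    rw [len_act T hL, e1] at e2
    exact_mod_cast e2.symm
  · have hs' : ¬ Crv (s.comap (actB (ρ × γ × γ) a)) := fun h => hs (by
      have h3 := Ev.crv_actB a⁻¹ h
      have h4 : (s.comap (actB (ρ × γ × γ) a)).comap (actB (ρ × γ × γ) a⁻¹) = s := by
        ext f
        simp only [PrimeSpectrum.comap_asIdeal, Ideal.mem_comap, Ev.actB_inv]
      rwa [h4] at h3)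
    rw [cyc_eq_zero hY h1 h2 hs, cyc_eq_zero hY h1' h2' hs']

theorem comap_eq {J : Ideal (By (ρ × γ) K)} (hJ : ∀ (a : A), ∀ f ∈ J, T.act a f ∈ J) (a : A) :
    J.comap (T.act a) = J := by
  refine le_antisymm (fun f hf => ?_) fun f hf => hJ a f hf
  have h := hJ a⁻¹ _ hf
  rwa [act_inv'] at h

theorem act_sgn (a : A) (f : By (ρ × γ) K) (ha : ∀ c : K, a • c = c) :
    T.act a f = sgn γ K (fun r => T.χ r a) f := by
  have h : T.act (K := K) a = (sgn γ K fun r => T.χ r a).toRingHom := by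
    refine MvPolynomial.ringHom_ext (fun c => ?_) fun x => ?_
    · simp [act_C, sgn, ha]
    · simp [act_X, sgn]
  exact RingHom.congr_fun h f

end Act

section Init

variable {E K σ : Type} [Field E] [Field K] {p : Place E K}

theorem rel_sub {g g' : MvPolynomial σ E} {f f' : MvPolynomial σ K} (h : Plc.Rel p g f)
    (h' : Plc.Rel p g' f') : Plc.Rel p (g - g') (f - f') := by
  obtain ⟨a, rfl, rfl⟩ := h
  obtain ⟨b, rfl, rfl⟩ := h'
  exact ⟨a - b, map_sub _ _ _, map_sub _ _ _⟩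

theorem rel_sum {τ : Type} (s : Finset τ) {g : τ → MvPolynomial σ E} {f : τ → MvPolynomial σ K}
    (h : ∀ i, Plc.Rel p (g i) (f i)) : Plc.Rel p (∑ i ∈ s, g i) (∑ i ∈ s, f i) := by
  choose a h1 h2 using h
  exact ⟨∑ i ∈ s, a i, by simp only [map_sum, h1], by simp only [map_sum, h2]⟩

theorem rel_sq (i : σ) : Plc.Rel p (X i ^ 2 : MvPolynomial σ E) (X i ^ 2) :=
  ⟨X i ^ 2, by rw [map_pow, map_X], by rw [map_pow, map_X]⟩

theorem rel_csq {ρ γ : Type} [Fintype ρ] (j k : γ) : Plc.Rel p (csq ρ E j k) (csq ρ K j k) :=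
  rel_sum _ fun _ => Plc.rel_mul (Plc.rel_X _) (Plc.rel_X _)

theorem adm (h2 : HfAPI2) {A ρ γ κ : Type} [Group A] [Fintype ρ] [Fintype γ] [Field κ]
    [Algebra κ E] [Algebra κ K] [MulSemiringAction A E] [MulSemiringAction A K]
    (T : Setup2 A ρ γ κ) (p : Place E K) (J : Ideal (By (ρ × γ) E)) (ho : p.Over κ)
    (he : p.Eqv A) (hJ : T.Adm J) : T.Adm (p.init J) := by
  obtain ⟨hh, hk⟩ := h2.init _ E K (yw (ρ × γ)) p J (Ev.isW_yw _) hJ.hom
  have hn : ∀ r, Plc.Rel p (T.nrm E r) (T.nrm K r) := fun r =>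
    rel_sum _ fun j => Plc.rel_mul (Plc.rel_C (ho _)) (rel_sq _)
  refine ⟨hh, ?_, fun a f hf => ?_, fun r r' => ?_, fun j k => ?_, fun j k hjk => ?_⟩
  · obtain ⟨c, hc⟩ := hJ.lin
    exact ⟨c, fun d n => by rw [hk]; exact hc d n⟩
  · obtain ⟨g, hg, g₀, rfl, rfl⟩ := (Plc.mem_init p J f).1 hf
    refine (Plc.mem_init p J _).2 ⟨_, hJ.stab a _ hg, ?_⟩
    clear hg hf
    induction g₀ using MvPolynomial.induction_on with
    | C v =>
      rw [map_C, map_C, act_C, act_C]
      exact Plc.rel_C (he a _ _ (Plc.val_coe p v))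
    | add f g hf hg =>
      rw [map_add, map_add, map_add, map_add]
      exact Plc.rel_add hf hg
    | mul_X f i hf =>
      rw [map_mul, map_mul, map_mul, map_mul, map_X, map_X, act_X, act_X]
      exact Plc.rel_mul hf (Plc.rel_zsmul_X _ _)
  · exact (Plc.mem_init p J _).2 ⟨_, hJ.eqs.row r r', rel_sub (hn r) (hn r')⟩
  · exact (Plc.mem_init p J _).2 ⟨_, hJ.eqs.dia j k,
      rel_sub (Plc.rel_mul (Plc.rel_C (ho _)) (rel_csq j j))
        (Plc.rel_mul (Plc.rel_C (ho _)) (rel_csq k k))⟩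
  · exact (Plc.mem_init p J _).2 ⟨_, hJ.eqs.off j k hjk, rel_csq j k⟩

end Init

end SymX

set_option linter.unusedVariables false in
theorem symAPI (hL : LenAPI) (hH : HfAPI) (hH2 : HfAPI2) (hPl : PlaceAPI) (hY : CydAPI) :
    SymAPI where
  comap := fun _ _ _ _ _ _ _ _ _ _ _ T J a h1 h2 =>
    ⟨SymX.isHom_comap T _ a h1, SymX.hf_act T _ a J, SymX.cyc_act T hL hY J a h1 h2⟩
  mul := fun _ _ _ _ _ _ _ _ _ _ T a b f => ⟨(SymX.act_act T a b f).symm, SymX.act_one T f⟩
  sym := fun _ _ _ _ _ _ _ _ _ _ _ _ T I s a hI => by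
    have h := SymX.cyc_act T hL hY I a hI.hom hI.lin s
    rwa [SymX.comap_eq T hI.stab a] at h
  sgn := fun _ _ _ _ _ _ _ _ _ _ T a f ha => SymX.act_sgn T a f ha
  init := fun _ _ _ _ _ _ _ _ _ _ _ _ _ _ _ _ T p I ho he hI => SymX.adm hH2 T p I ho he hI

end Pool.Agent.MP_d45d16_ag.Sp14
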