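import Pool.Agent.MP_d45d16_ag.sp.Spec

/-!
ACT and TOR: the torus action on the function field of `GL₆₄` and the tower of fixed fields.
-/

set_option autoImplicit false

open MvPolynomial Matrix

namespace Pool.Agent.MP_d45d16_ag.Sp14

open Yag

namespace TorX

theorem osg_mul {M : Type} [CommMonoid M] (a b : Fin 3 → M) (k : O) :
    osg (a * b) k = osg a k * osg b k := by
  rcases k with _ | k
  · exact (mul_one _).symm
  · exact Alg.sg_mul a b k

theorem osg_one {M : Type} [CommMonoid M] (k : O) : osg (1 : Fin 3 → M) k = 1 := by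
  rcases k with _ | k
  · rfl
  · exact Alg.sg_one k

theorem map_osg {M N F : Type} [CommMonoid M] [CommMonoid N] [FunLike F M N]
    [MonoidHomClass F M N] (f : F) (a : Fin 3 → M) (k : O) :
    f (osg a k) = osg (fun l => f (a l)) k := by
  rcases k with _ | k
  · exact map_one f
  · exact Alg.map_sg f a k

theorem osg_ne {M : Type} [Field M] (a : Fin 3 → M) (ha : ∀ l, a l ≠ 0) (k : O) :
    osg a k ≠ 0 := by
  rcases k with _ | k
  · exact one_ne_zero
  · exact Alg.sg_ne a ha k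

theorem osg_sq {M : Type} [CommMonoid M] (a : Fin 3 → M) (ha : ∀ l, a l ^ 2 = 1) (k : O) :
    osg a k ^ 2 = 1 := by
  rcases k with _ | k
  · exact one_pow 2
  · exact Alg.sg_sq a ha k

theorem osg_inj : ∀ k k' : O, (∀ a : Fin 3 → ℤˣ, osg a k = osg a k') → k = k' := by
  decide

theorem osg_single {M : Type} [CommMonoid M] (i : Fin 3) (k : O) :
    (∀ c : M, osg (Pi.mulSingle i c) k = 1) ∨ ∀ c : M, osg (Pi.mulSingle i c) k = c := by
  rcases k with _ | k
  · exact Or.inl fun _ => rfl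
  · exact Alg.sg_single i k

theorem osg_none {M : Type} [CommMonoid M] (a : Fin 3 → M) : osg a none = 1 := rfl

theorem osg_f3 {M : Type} [CommMonoid M] (a : Fin 3 → M) (l : Fin 3) :
    osg a (some (Alg.f3 l)) = a l := Alg.sg_f3 a l

theorem act_X (g : Alg.Tor) (i j : S) : actS g (gen i j) =
    algebraMap ℂ L1 ((if i = r0 then 1 else osg g.1 j.1 * osg g.2 j.2 : ℂˣ) : ℂ) * gen i j :=
  Alg.tau_X _ (i, j)

theorem act_gen (g : Alg.Tor) (i j : S) (h : i ≠ r0) :
    actS g (gen i j) = algebraMap ℂ L1 (osg g.1 j.1 * osg g.2 j.2 : ℂˣ) * gen i j := by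
  rw [act_X, if_neg h]

theorem act_row (g : Alg.Tor) (j : S) : actS g (gen r0 j) = gen r0 j := by
  rw [act_X, if_pos rfl, Units.val_one, map_one, one_mul]

theorem act_mul (g h : Alg.Tor) (z : L1) : actS (g * h) z = actS g (actS h z) := by
  rw [actS, actS, actS, ← Alg.tau_mul]
  congr 2
  funext ij
  rw [Pi.mul_apply]
  split_ifs
  · exact (mul_one _).symm
  · rw [Prod.fst_mul, Prod.snd_mul, osg_mul, osg_mul]
    exact mul_mul_mul_comm _ _ _ _

theorem act_one (z : L1) : actS 1 z = z := by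
  have h : (fun ij : S × S => if ij.1 = r0 then (1 : ℂˣ) else
      osg (1 : Alg.Tor).1 ij.2.1 * osg (1 : Alg.Tor).2 ij.2.2) = 1 := by
    funext ij
    rw [Prod.fst_one, Prod.snd_one, osg_one, osg_one, mul_one, ite_self, Pi.one_apply]
  rw [actS, h, Alg.tau_one]

theorem act_gg (g : Alg.Tor) : gg.map (actS g) =
    gg * diagonal fun j : S => algebraMap ℂ L1 (osg g.1 j.1 * osg g.2 j.2 : ℂˣ) := by
  ext i j
  rw [mul_diagonal, map_apply, gg, of_apply]
  by_cases hi : i = r0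
  · rw [if_pos hi]
    by_cases hj : j = r0
    · rw [if_pos hj, hj, lam, act_row]
      change _ = _ * algebraMap ℂ L1 ((1 * 1 : ℂˣ) : ℂ)
      rw [mul_one, Units.val_one, map_one, mul_one]
    · rw [if_neg hj, map_zero, zero_mul]
  · rw [if_neg hi, act_gen g i j hi, mul_comm]

/-- The fixed field of a set of elements of the torus. -/
def Fix (H : Set Alg.Tor) : Subfield L1 where
  carrier := {z | ∀ g ∈ H, actS g z = z}
  mul_mem' := fun ha hb g hg => by rw [map_mul, ha g hg, hb g hg]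
  one_mem' := fun g _ => map_one _
  add_mem' := fun ha hb g hg => by rw [map_add, ha g hg, hb g hg]
  zero_mem' := fun g _ => map_zero _
  neg_mem' := fun ha g hg => by rw [map_neg, ha g hg]
  inv_mem' := fun _ ha g hg => by rw [map_inv₀, ha g hg]

theorem act_mem {H : Set Alg.Tor} {z : L1} (hz : z ∈ Fix H) (h : Alg.Tor) : actS h z ∈ Fix H :=
  fun g hg => by rw [← act_mul, mul_comm, act_mul, hz g hg]

theorem alg_toC (u : ℤˣ) (z : L1) : algebraMap ℂ L1 (Alg.toC u) * z = (u : ℤ) • z := by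
  rw [zsmul_eq_mul]
  congr 1
  exact map_intCast (algebraMap ℂ L1) _

noncomputable scoped instance actL : MulSemiringAction Alg.Sgn L1 where
  smul a z := actS (Alg.emb a) z
  one_smul z := by change actS (Alg.emb 1) z = z; rw [Alg.emb_one, act_one]
  mul_smul a b z := by
    change actS (Alg.emb (a * b)) z = actS (Alg.emb a) (actS (Alg.emb b) z)
    rw [Alg.emb_mul, act_mul]
  smul_zero a := map_zero (actS (Alg.emb a))
  smul_add a := map_add (actS (Alg.emb a))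
  smul_one a := map_one (actS (Alg.emb a))
  smul_mul a := map_mul (actS (Alg.emb a))

scoped instance invF (H : Set Alg.Tor) : IsInvariantSubfield Alg.Sgn (Fix H) where
  smul_mem a _ hz := act_mem hz (Alg.emb a)

theorem coe_smul (H : Set Alg.Tor) (a : Alg.Sgn) (z : Fix H) :
    ((a • z : Fix H) : L1) = actS (Alg.emb a) z := rfl

/-- The tower. -/
abbrev Kn (n : ℕ) : Subfield L1 := Fix (Alg.Hn n)

theorem Kn_le {n m : ℕ} (h : n ≤ m) : Kn n ≤ Kn m :=
  fun _ hz g hg => hz g ⟨hg.1, fun l hl => hg.2 l (lt_of_lt_of_le hl h)⟩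

theorem gen_ne (i j : S) : gen i j ≠ 0 :=
  (map_ne_zero_iff _ (IsFractionRing.injective (MvPolynomial (S × S) ℂ) L1)).mpr (X_ne_zero _)

theorem pr_ne : pr 0 ≠ r0 := by decide

/-- The coordinates of the first torus. -/
noncomputable def s1 (l : Fin 3) : L1 := gen (pr 0) (some (Alg.f3 l), none)

/-- The coordinates of the second torus. -/
noncomputable def s2 (l : Fin 3) : L1 := gen (pr 0) (none, some (Alg.f3 l))

theorem act_s1 (g : Alg.Tor) (l : Fin 3) :
    actS g (s1 l) = algebraMap ℂ L1 (g.1 l) * s1 l := by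
  rw [s1, act_gen g _ _ pr_ne, osg_f3, osg_none, mul_one]

theorem act_s2 (g : Alg.Tor) (l : Fin 3) :
    actS g (s2 l) = algebraMap ℂ L1 (g.2 l) * s2 l := by
  rw [s2, act_gen g _ _ pr_ne, osg_f3, osg_none, one_mul]

theorem mon_ne (c : O) : osg s2 c ≠ 0 := osg_ne s2 (fun _ => gen_ne _ _) c

theorem act_mon (g : Alg.Tor) (c : O) :
    actS g (osg s2 c) = algebraMap ℂ L1 (osg g.2 c : ℂˣ) * osg s2 c := by
  have h : algebraMap ℂ L1 (osg g.2 c : ℂˣ) = osg (fun l => algebraMap ℂ L1 (g.2 l)) c :=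
    map_osg ((algebraMap ℂ L1).toMonoidHom.comp (Units.coeHom ℂ)) g.2 c
  rw [map_osg, h, ← osg_mul]
  congr 1
  funext l
  exact act_s2 g l

theorem algC_ne (c : ℂˣ) : algebraMap ℂ L1 c ≠ 0 :=
  (map_ne_zero_iff _ (algebraMap ℂ L1).injective).mpr c.ne_zero

theorem s1_mem (i : Fin 3) : s1 i ∈ Kn (i.val + 1) := fun g hg => by
  rw [act_s1, hg.2 i (Nat.lt_succ_self _), Units.val_one, map_one, one_mul]

theorem trans_s1 (i : Fin 3) {K : Type} [Field K] [Algebra K L1]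
    (h : ∀ x : K, algebraMap K L1 x ∈ Fix (Alg.Mi i)) : Transcendental K (s1 i) :=
  Alg.trans_of_scal (s1 i) (gen_ne _ _) fun c =>
    ⟨(actS (Alg.one i c) : L1 →+* L1), fun x => h x _ ⟨c, rfl⟩, by
      rw [RingHom.coe_coe, act_s1, Alg.one_self]⟩

theorem gen_Mi (i : Fin 3) (M : Subfield L1) (h : Fix (Alg.Mi i) ≤ M) (hs : s1 i ∈ M) (z : L1) :
    z ∈ M := by
  refine Alg.mem_of_gens M (fun a => h fun g _ => (actS g).commutes a) (fun ij => ?_) z
  obtain ⟨a, b⟩ := ij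
  change gen a b ∈ M
  by_cases ha : a = r0
  · exact h fun g _ => by rw [ha, act_row]
  rcases osg_single (M := ℂˣ) i b.1 with hb | hb
  · refine h ?_
    rintro _ ⟨c, rfl⟩
    rw [act_gen _ _ _ ha, Alg.one_fst, Alg.one_snd, hb, osg_one, mul_one, Units.val_one, map_one,
      one_mul]
  · have h1 : gen a b / s1 i ∈ M := by
      refine h ?_
      rintro _ ⟨c, rfl⟩
      rw [map_div₀, act_gen _ _ _ ha, act_s1, Alg.one_self, Alg.one_fst, Alg.one_snd, hb, osg_one,
        mul_one, mul_div_mul_left _ _ (algC_ne c)]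
    have h2 := M.mul_mem h1 hs
    rwa [div_mul_cancel₀ _ (show s1 i ≠ 0 from gen_ne _ _)] at h2

theorem Kn_Mi (i : Fin 3) : Kn i.val ≤ Fix (Alg.Mi i) := by
  rintro z hz _ ⟨c, rfl⟩
  refine hz _ ⟨fun l => one_pow 2, fun l hl => ?_⟩
  exact Alg.one_ne i c l fun h => by rw [h] at hl; exact lt_irrefl _ hl

theorem mem_Kn (i : Fin 3) (M : Subfield L1) (h : Kn i.val ≤ M) (hs : s1 i ∈ M) :
    Kn (i.val + 1) ≤ M := by
  intro z hz
  refine Alg.mem_of_fixed (Fix (Alg.Mi i)) M (s1 i) (trans_s1 i fun x => x.2) (gen_Mi i)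
    ((fun g => (actS g : L1 →+* L1)) '' Alg.Hn (i.val + 1)) ?_ ?_ ?_ hs z ?_
  · rintro _ ⟨g, -, rfl⟩ x hx
    exact act_mem hx g
  · rintro _ ⟨g, hg, rfl⟩
    exact s1_mem i g hg
  · intro x hx hfix
    refine h fun g hg => ?_
    obtain ⟨g', hg', e⟩ := Alg.split_Hn i g hg
    have h1 : actS g' x = x := hfix _ ⟨g', hg', rfl⟩
    rw [e, act_mul, h1]
    exact hx _ ⟨_, rfl⟩
  · rintro _ ⟨g, hg, rfl⟩
    exact hz g hg

theorem simple_Kn (i : Fin 3) [Algebra (Kn i.val) (Kn (i.val + 1))]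
    (h : ∀ c, ((algebraMap (Kn i.val) (Kn (i.val + 1)) c : Kn (i.val + 1)) : L1) = c) :
    Simple (Kn i.val) (⟨s1 i, s1_mem i⟩ : Kn (i.val + 1)) := by
  have : IsScalarTower (Kn i.val) (Kn (i.val + 1)) L1 :=
    IsScalarTower.of_algebraMap_eq fun c => (h c).symm
  refine ⟨?_, ?_⟩
  · rw [← transcendental_algebraMap_iff (A := L1) (algebraMap (Kn (i.val + 1)) L1).injective]
    exact trans_s1 i fun x => Kn_Mi i x.2
  · rw [eq_top_iff]
    intro z _
    obtain ⟨w, hw, hwz⟩ := mem_Kn i ((IntermediateField.adjoin (Kn i.val)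
      {(⟨s1 i, s1_mem i⟩ : Kn (i.val + 1))}).toSubfield.map (Kn (i.val + 1)).subtype)
      (fun x hx => ⟨algebraMap (Kn i.val) (Kn (i.val + 1)) ⟨x, hx⟩,
        IntermediateField.algebraMap_mem _ _, h ⟨x, hx⟩⟩)
      ⟨_, IntermediateField.mem_adjoin_simple_self _ _, rfl⟩ z.2
    have : w = z := Subtype.ext hwz
    exact this ▸ hw

/-- The characters of the sign group attached to the rows. -/
def chi (r : O) : Alg.Sgn →* ℤˣ where
  toFun a := osg (M := ℤˣ) a r
  map_one' := osg_one (M := ℤˣ) r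
  map_mul' a b := osg_mul (M := ℤˣ) a b r

theorem al_mem (c : O) : osg s2 c ^ 2 ∈ Kn 0 := fun g hg => by
  rw [map_pow, act_mon, mul_pow, ← map_pow, ← Units.val_pow_eq_pow_val, osg_sq _ hg.1,
    Units.val_one, map_one, one_mul]

/-- The coefficients of the norm form. -/
noncomputable def al (c : O) : Kn 0 := ⟨_, al_mem c⟩

theorem al_aniso (y : O → Kn 0) (h : ∑ k, al k * y k ^ 2 = 0) : y = 0 := by
  have h0 : (fun k => osg s2 k * (y k : L1)) = 0 := by
    refine Alg.aniso (σ := S × S) (Γ := Fin 3 → ℤˣ)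
      (fun a ij => if ij.1 = r0 then 1 else
        osg (1 : Fin 3 → ℂˣ) ij.2.1 * osg (fun l => Alg.toC (a l)) ij.2.2)
      (fun k a => Alg.toC (osg a k))
      (fun k k' hk => osg_inj k k' fun a => Alg.toC_inj (Units.ext (hk a))) _ (fun k a => ?_) ?_
    · change actS (1, fun l => Alg.toC (a l)) _ = _
      rw [map_mul, act_mon, (y k).2 _ ⟨fun l => Alg.toC_sq _, fun _ _ => rfl⟩,
        ← map_osg Alg.toC, mul_assoc]
    · have h1 := congrArg (Kn 0).subtype h
      rw [map_sum, map_zero] at h1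
      rw [← h1]
      refine Finset.sum_congr rfl fun k _ => ?_
      rw [mul_pow, map_mul, map_pow]
      rfl
  funext k
  have h1 := congrFun h0 k
  exact Subtype.ext ((mul_eq_zero.mp h1).resolve_left (mon_ne _))

theorem charZero_K0 : CharZero (Kn 0) :=
  haveI : CharZero L1 := charZero_of_injective_algebraMap (algebraMap ℂ L1).injective
  (Kn 0).subtype.charZero

theorem sep : ∀ a b : Fin 3 → ℤˣ, a ≠ 1 → b ≠ 1 → a ≠ b → ∃ r₁ r₂ : O,
    osg a none ≠ osg a r₁ ∧ osg a none = osg a r₂ ∧ osg b none ≠ osg b r₂ := by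
  decide

theorem two_ker (η : (Fin 3 → ℤˣ) →* ℤˣ) :
    ∃ a b : Fin 3 → ℤˣ, η a = 1 ∧ η b = 1 ∧ a ≠ 1 ∧ b ≠ 1 ∧ a ≠ b := by
  have m : ∀ a b : Fin 3 → ℤˣ, η a = -1 → η b = -1 → η (a * b) = 1 := fun a b ha hb => by
    rw [map_mul, ha, hb, neg_mul_neg, one_mul]
  rcases Int.units_eq_one_or (η ![-1, 1, 1]) with h0 | h0 <;>
    rcases Int.units_eq_one_or (η ![1, -1, 1]) with h1 | h1 <;>
    rcases Int.units_eq_one_or (η ![1, 1, -1]) with h2 | h2
  · exact ⟨_, _, h0, h1, by decide, by decide, by decide⟩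
  · exact ⟨_, _, h0, h1, by decide, by decide, by decide⟩
  · exact ⟨_, _, h0, h2, by decide, by decide, by decide⟩
  · exact ⟨_, _, h0, m _ _ h1 h2, by decide, by decide, by decide⟩
  · exact ⟨_, _, h1, h2, by decide, by decide, by decide⟩
  · exact ⟨_, _, h1, m _ _ h0 h2, by decide, by decide, by decide⟩
  · exact ⟨_, _, h2, m _ _ h0 h1, by decide, by decide, by decide⟩
  · exact ⟨_, _, m _ _ h0 h1, m _ _ h0 h2, by decide, by decide, by decide⟩

/-- The data at the bottom level. -/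
noncomputable def setup (hSr : SprStmt) : Setup2 Alg.Sgn O O (Kn 0) where
  χ := chi
  inj := fun i j h => osg_inj i j fun a => DFunLike.congr_fun h a
  big := fun η => by
    obtain ⟨a, b, ha, hb, n1, n2, n3⟩ := two_ker η
    obtain ⟨r₁, r₂, e⟩ := sep a b n1 n2 n3
    exact ⟨a, b, none, r₁, r₂, ha, hb, e⟩
  im := ⟨algebraMap ℂ L1 Complex.I, fun g _ => (actS g).commutes _⟩
  im_sq := Subtype.ext (by
    change algebraMap ℂ L1 Complex.I ^ 2 = -1
    rw [← map_pow, Complex.I_sq, map_neg, map_one])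
  β := al
  ne := fun c h => pow_ne_zero 2 (mon_ne c) (congrArg Subtype.val h)
  even := by
    intro E _ _ _ y hy h
    have := charZero_K0
    exact hSr (Kn 0) O al al_aniso E y hy h

theorem step' (hP : PlaceAPI) (hS : Step2Stmt) (T : Setup2 Alg.Sgn O O (Kn 0)) (i : Fin 3)
    [Algebra (Kn 0) (Kn i.val)] [Algebra (Kn 0) (Kn (i.val + 1))]
    (h1 : ∀ c, ((algebraMap (Kn 0) (Kn i.val) c : Kn i.val) : L1) = c)
    (h2 : ∀ c, ((algebraMap (Kn 0) (Kn (i.val + 1)) c : Kn (i.val + 1)) : L1) = c)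
    (Φ : Ideal (By (O × O) (Kn i.val)) → ZMod 2) (hΦ : T.Good Φ) :
    ∃ Φ' : Ideal (By (O × O) (Kn (i.val + 1))) → ZMod 2, T.Good Φ' := by
  let _ : Algebra (Kn i.val) (Kn (i.val + 1)) :=
    (Subfield.inclusion (Kn_le (Nat.le_succ _))).toAlgebra
  have h3 : ∀ c, ((algebraMap (Kn i.val) (Kn (i.val + 1)) c : Kn (i.val + 1)) : L1) = c :=
    fun _ => rfl
  have : IsScalarTower (Kn 0) (Kn i.val) (Kn (i.val + 1)) :=
    IsScalarTower.of_algebraMap_eq fun c => Subtype.ext (by rw [h3, h1, h2])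
  have hs := simple_Kn i h3
  obtain ⟨p, hp, hv⟩ := hP.ex _ _ _ hs
  refine ⟨_, hS Alg.Sgn O O (Kn 0) (Kn i.val) (Kn (i.val + 1)) T Φ _ (chi (some (Alg.f3 i))) p
    (fun a c => Subtype.ext rfl) (fun a => Subtype.ext ?_) hs hp hv hΦ⟩
  rw [coe_smul]
  change actS (Alg.emb a) (s1 i) = ((osg (M := ℤˣ) a (some (Alg.f3 i)) : ℤˣ) : ℤ) • s1 i
  rw [act_s1, osg_f3]
  exact alg_toC _ _

theorem step (hP : PlaceAPI) (hS : Step2Stmt) (T : Setup2 Alg.Sgn O O (Kn 0)) (n m : ℕ)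
    (hn : n < 3) (hm : m = n + 1) [Algebra (Kn 0) (Kn n)] [Algebra (Kn 0) (Kn m)]
    (h1 : ∀ c, ((algebraMap (Kn 0) (Kn n) c : Kn n) : L1) = c)
    (h2 : ∀ c, ((algebraMap (Kn 0) (Kn m) c : Kn m) : L1) = c)
    (Φ : Ideal (By (O × O) (Kn n)) → ZMod 2) (hΦ : T.Good Φ) :
    ∃ Φ' : Ideal (By (O × O) (Kn m)) → ZMod 2, T.Good Φ' := by
  subst hm
  exact step' hP hS T ⟨n, hn⟩ h1 h2 Φ hΦ

theorem mem_top (z : L1) (h : ∀ b : Fin 3 → ℤˣ, actS (1, fun l => Alg.toC (b l)) z = z) :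
    z ∈ Kn 3 := fun g hg => by
  have h1 : g.1 = 1 := funext fun l => hg.2 l l.2
  have h2 : ∀ l, ∃ u : ℤˣ, Alg.toC u = g.2 l := fun l => by
    have h3 : (g.2 l : ℂ) ^ 2 = 1 := by rw [← Units.val_pow_eq_pow_val, hg.1 l, Units.val_one]
    rcases sq_eq_one_iff.mp h3 with h4 | h4
    · exact ⟨1, by rw [map_one]; exact Units.ext h4.symm⟩
    · refine ⟨-1, Units.ext ?_⟩
      rw [h4]
      simp [Alg.toC]
  choose b hb using h2
  have h4 : g = (1, fun l => Alg.toC (b l)) := Prod.ext h1 (funext fun l => (hb l).symm)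
  rw [h4]
  exact h b

end TorX

open TorX

theorem actAPI : ActAPI := ⟨act_mul, act_one, act_gen, act_row, act_gg⟩

theorem tor_stmt (hPl : PlaceAPI) (hB2 : Base2Stmt) (hS2 : Step2Stmt) (hSr : SprStmt)
    (hAc : ActAPI) : TorStmt := by
  have _ := hAc
  have := charZero_K0
  let _ : Algebra (Kn 0) (Kn 1) := (Subfield.inclusion (Kn_le (Nat.zero_le _))).toAlgebra
  let _ : Algebra (Kn 0) (Kn 2) := (Subfield.inclusion (Kn_le (Nat.zero_le _))).toAlgebra
  let i3 : Algebra (Kn 0) (Kn 3) := (Subfield.inclusion (Kn_le (Nat.zero_le _))).toAlgebra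
  have h0 := hB2 Alg.Sgn O O (Kn 0) (setup hSr) fun a c => Subtype.ext
    (c.2 (Alg.emb a) ⟨fun _ => one_pow 2, fun _ h => absurd h (Nat.not_lt_zero _)⟩)
  obtain ⟨Φ₁, h1⟩ :=
    step hPl hS2 (setup hSr) 0 1 (by norm_num) rfl (fun _ => rfl) (fun _ => rfl) _ h0
  obtain ⟨Φ₂, h2⟩ :=
    step hPl hS2 (setup hSr) 1 2 (by norm_num) rfl (fun _ => rfl) (fun _ => rfl) _ h1
  obtain ⟨Φ₃, h3⟩ :=
    step hPl hS2 (setup hSr) 2 3 (by norm_num) rfl (fun _ => rfl) (fun _ => rfl) _ h2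
  exact ⟨Kn 0, Kn 3, inferInstance, inferInstance, i3, inferInstance,
    ⟨{ e := (Kn 3).subtype
       T := setup hSr
       Φ := Φ₃
       good := h3
       σ := osg s2
       ne := mon_ne
       hβ := fun _ => rfl
       hσ := act_mon
       hχ := fun _ _ => rfl
       mem := fun z h => ⟨⟨z, mem_top z h⟩, rfl⟩
       smul := fun _ _ => rfl }⟩⟩

end Pool.Agent.MP_d45d16_ag.Sp14
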