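import Pool.Agent.MP_d45d16_ag.sp.Spec

/-!
TRI: the equations of rows and columns follow from the quadrics.
-/

set_option autoImplicit false

open Matrix

namespace Pool.Agent.MP_d45d16_ag.Sp14

open Yag

namespace TriX

/-- The number of an octonion unit. -/
def enc (o : O) : ℕ := o.elim 7 Fin.val

/-- The octonion unit with a given number. -/
def dec (n : ℕ) : O := if h : n < 7 then some ⟨n, h⟩ else none

/-- The permutation underlying a left multiplication. -/
def pp (a : Fin 7) (j : O) : O :=
  dec (322581765738922650875286578655037216231777721013151 / 8 ^ (8 * a.val + enc j) % 8)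

/-- The sign of a left multiplication. -/
def ss (a : Fin 7) (j : O) : ℤ :=
  if 39342599199829142 / 2 ^ (8 * a.val + enc j) % 2 = 0 then 1 else -1

theorem lm_tab : ∀ (a : Fin 7) (j k : O),
    lm (Pi.single a (1 : ℤ) : Fin 7 → ℤ) j k = if k = pp a j then ss a j else 0 := by
  decide +kernel

/-- The triples. -/
abbrev T3 : Type := Fin 7 × Fin 7 × Fin 7

/-- The permutation of a triple product. -/
def p3 (t : T3) (j : O) : O := pp t.2.2 (pp t.2.1 (pp t.1 j))

/-- The sign of a triple product. -/
def s3 (t : T3) (j : O) : ℤ := ss t.1 j * ss t.2.1 (pp t.1 j) * ss t.2.2 (pp t.2.1 (pp t.1 j))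

/-- The increasing triples. -/
def tl : List T3 :=
  [(0, 1, 2), (0, 1, 3), (0, 1, 4), (0, 1, 5), (0, 1, 6), (0, 2, 3), (0, 2, 4), (0, 2, 5),
    (0, 2, 6), (0, 3, 4), (0, 3, 5), (0, 3, 6), (0, 4, 5), (0, 4, 6), (0, 5, 6), (1, 2, 3),
    (1, 2, 4), (1, 2, 5), (1, 2, 6), (1, 3, 4), (1, 3, 5), (1, 3, 6), (1, 4, 5), (1, 4, 6),
    (1, 5, 6), (2, 3, 4), (2, 3, 5), (2, 3, 6), (2, 4, 5), (2, 4, 6), (2, 5, 6), (3, 4, 5),
    (3, 4, 6), (3, 5, 6), (4, 5, 6)]

theorem key : ∀ j k j' k' : O,
    ((tl.filter fun t => decide (k = p3 t j)).map fun t =>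
      if k' = p3 t j' then s3 t j * s3 t j' else 0).sum =
      4 * ((if j' = j then (if k' = k then 1 else 0) else 0) +
        (if j' = k then (if k' = j then 1 else 0) else 0)) -
        (if j = k then (if k' = j' then 1 else 0) else 0) := by
  decide +kernel

variable {A : Type} [CommRing A]

theorem lm_map {R R' : Type} [CommRing R] [CommRing R'] (φ : R →+* R') (x : Fin 7 → R) :
    (lm x).map φ = lm (φ ∘ x) := by
  ext i j
  rcases i with _ | i <;> rcases j with _ | j <;>
    simp [lm, Flag.cross, Pi.single_apply, apply_ite φ]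

theorem lm_zero : lm (0 : Fin 7 → A) = 0 := by
  ext i j
  rcases i with _ | i <;> rcases j with _ | j <;> simp [lm, Flag.cross]

/-- Left multiplication by a unit. -/
def L (A : Type) [CommRing A] (a : Fin 7) : Matrix O O A := lm (Pi.single a 1)

theorem L_ent (a : Fin 7) (j k : O) :
    L A a j k = if k = pp a j then (ss a j : A) else 0 := by
  have h1 : (Pi.single a 1 : Fin 7 → A) = Int.castRingHom A ∘ (Pi.single a 1 : Fin 7 → ℤ) := by
    funext i
    simp [Pi.single_apply]
  rw [L, h1, ← lm_map, Matrix.map_apply, lm_tab]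
  split_ifs <;> simp

theorem L3_ent (t : T3) (j k : O) :
    (L A t.1 * L A t.2.1 * L A t.2.2) j k = if k = p3 t j then (s3 t j : A) else 0 := by
  simp only [Matrix.mul_apply, L_ent, ite_mul, zero_mul, Finset.sum_ite_eq', Finset.mem_univ,
    if_true, p3, s3]
  rw [Finset.sum_eq_single (pp t.2.1 (pp t.1 j)) (fun x _ hx => by simp [hx]) (by simp)]
  split_ifs <;> simp_all

theorem sum_swap {α β : Type} [Fintype β] (l : List α) (f : α → β → A) :
    (l.map fun t => ∑ x, f t x).sum = ∑ x, (l.map fun t => f t x).sum := by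
  induction l with
  | nil => simp
  | cons a l ih => simp [ih, Finset.sum_add_distrib]

theorem gram (J : Ideal A) (G : O → O → A) (hs : ∀ j k, G j k = G k j)
    (h : ∀ a b c, ∑ j, ∑ k, (L A a * L A b * L A c) j k * G j k ∈ J) (j k : O) :
    8 * G j k - (if j = k then ∑ i, G i i else 0) ∈ J := by
  have h1 : ((tl.filter fun t => decide (k = p3 t j)).map fun t =>
      (s3 t j : A) * ∑ j', ∑ k', (L A t.1 * L A t.2.1 * L A t.2.2) j' k' * G j' k').sum ∈ J := by
    refine list_sum_mem fun x hx => ?_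
    obtain ⟨t, -, rfl⟩ := List.mem_map.1 hx
    exact J.mul_mem_left _ (h _ _ _)
  have h2 : ∀ j' k', ((tl.filter fun t => decide (k = p3 t j)).map fun t =>
      (s3 t j : A) * ((L A t.1 * L A t.2.1 * L A t.2.2) j' k' * G j' k')).sum =
      (4 * ((if j' = j then (if k' = k then 1 else 0) else 0) +
        (if j' = k then (if k' = j then 1 else 0) else 0)) -
        (if j = k then (if k' = j' then 1 else 0) else 0)) * G j' k' := by
    intro j' k'
    have h3 := congrArg (Int.castRingHom A) (key j k j' k')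
    rw [map_list_sum, List.map_map] at h3
    simp only [map_sub, map_mul, map_add, apply_ite (Int.castRingHom A), map_one, map_zero,
      map_ofNat] at h3
    rw [← h3, ← List.sum_map_mul_right]
    congr 1
    refine List.map_congr_left fun t _ => ?_
    rw [L3_ent]
    simp only [Function.comp]
    split_ifs <;> simp [mul_assoc]
  simp only [Finset.mul_sum, sum_swap, h2] at h1
  convert h1 using 1
  simp only [sub_mul, mul_assoc, add_mul, ite_mul, one_mul, zero_mul, Finset.sum_sub_distrib,
    ← Finset.mul_sum, Finset.sum_add_distrib, Finset.sum_ite_irrel, Finset.sum_ite_eq',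
    Finset.mem_univ, if_true, Finset.sum_const_zero]
  rw [hs k j]
  ring

theorem cl_inl (ε : A) (a : Fin 7) :
    cl ε (Pi.single (Sum.inl a) 1 : V → A) = ε • kroneckerMap (· * ·) (L A a) 1 := by
  have h1 : (Pi.single (Sum.inl a) 1 : V → A) ∘ Sum.inl = Pi.single a 1 := by
    funext i
    simp [Pi.single_apply]
  have h2 : (Pi.single (Sum.inl a) 1 : V → A) ∘ Sum.inr = 0 := by
    funext i
    simp
  rw [cl, h1, h2, lm_zero, L]
  simp

theorem cl_inr (ε : A) (a : Fin 7) :
    cl ε (Pi.single (Sum.inr a) 1 : V → A) = kroneckerMap (· * ·) 1 (L A a) := by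
  have h1 : (Pi.single (Sum.inr a) 1 : V → A) ∘ Sum.inr = Pi.single a 1 := by
    funext i
    simp [Pi.single_apply]
  have h2 : (Pi.single (Sum.inr a) 1 : V → A) ∘ Sum.inl = 0 := by
    funext i
    simp
  rw [cl, h1, h2, lm_zero, L]
  simp

theorem pair_left (M : Matrix O O A) (ψ : S → A) :
    ψ ⬝ᵥ kroneckerMap (· * ·) M (1 : Matrix O O A) *ᵥ ψ =
      ∑ j, ∑ k, M j k * ∑ c, ψ (j, c) * ψ (k, c) := by
  simp only [dotProduct, mulVec, Fintype.sum_prod_type, kroneckerMap_apply, one_apply, mul_ite,
    ite_mul, mul_one, mul_zero, zero_mul, Finset.sum_ite_eq, Finset.mem_univ, if_true,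
    Finset.mul_sum]
  refine Finset.sum_congr rfl fun j _ => ?_
  rw [Finset.sum_comm]
  exact Finset.sum_congr rfl fun k _ => Finset.sum_congr rfl fun c _ => by ring

theorem pair_right (M : Matrix O O A) (ψ : S → A) :
    ψ ⬝ᵥ kroneckerMap (· * ·) (1 : Matrix O O A) M *ᵥ ψ =
      ∑ j, ∑ k, M j k * ∑ r, ψ (r, j) * ψ (r, k) := by
  simp only [dotProduct, mulVec, Fintype.sum_prod_type, kroneckerMap_apply, one_apply,
    ite_mul, one_mul, zero_mul, Finset.sum_ite_irrel, Finset.sum_const_zero, Finset.sum_ite_eq,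
    Finset.mem_univ, if_true, Finset.mul_sum]
  rw [Finset.sum_comm]
  refine Finset.sum_congr rfl fun j _ => ?_
  rw [Finset.sum_comm]
  exact Finset.sum_congr rfl fun k _ => Finset.sum_congr rfl fun c _ => by ring

end TriX

open TriX in
theorem tri_stmt (hCl : ClifAPI) : TriStmt := by
  intro A _ J ψ h6 h
  have h8 : ∀ x : A, 8 * x ∈ J → x ∈ J := by
    intro x hx
    obtain ⟨u, hu⟩ := h6.exists_left_inv
    have : x = (u ^ 3 * 27) * (8 * x) := by
      linear_combination (-(x * (1 + u * 6 + (u * 6) ^ 2))) * hu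
    rw [this]
    exact J.mul_mem_left _ hx
  have hr := gram J (fun j k => ∑ c, ψ (j, c) * ψ (k, c))
    (fun j k => Finset.sum_congr rfl fun c _ => mul_comm _ _) (fun a b c => by
      have h1 := h (Sum.inl a) (Sum.inl b) (Sum.inl c)
      rw [cl_inl, cl_inl, cl_inl, one_smul, one_smul, neg_one_smul, Matrix.mul_neg, Matrix.neg_mul,
        ← mul_kronecker_mul, ← mul_kronecker_mul, Matrix.one_mul, Matrix.one_mul, neg_mulVec,
        dotProduct_neg, pair_left] at h1
      exact (J.neg_mem_iff).1 h1)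
  have hc := gram J (fun j k => ∑ r, ψ (r, j) * ψ (r, k))
    (fun j k => Finset.sum_congr rfl fun c _ => mul_comm _ _) (fun a b c => by
      have h1 := h (Sum.inr a) (Sum.inr b) (Sum.inr c)
      rw [cl_inr, cl_inr, cl_inr,
        ← mul_kronecker_mul, ← mul_kronecker_mul, Matrix.one_mul, Matrix.one_mul, pair_right] at h1
      exact h1)
  refine ⟨fun r r' => h8 _ ?_, fun c c' => h8 _ ?_, fun c c' hcc => h8 _ ?_⟩
  · have := J.sub_mem (hr r r) (hr r' r')
    simp only [if_true, ← sq] at this
    convert this using 1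
    ring
  · have := J.sub_mem (hc c c) (hc c' c')
    simp only [if_true, ← sq] at this
    convert this using 1
    ring
  · have := hc c c'
    rwa [if_neg hcc, sub_zero] at this

end Pool.Agent.MP_d45d16_ag.Sp14
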