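import Pool.Agent.MP_d45d16_ag.sp.Evd

/-!
The Veronese embedding of one row.
-/

set_option autoImplicit false

open MvPolynomial Filter

namespace Pool.Agent.MP_d45d16_ag.Sp14

open Yag

namespace VerX

variable {ρ γ K : Type} [Field K]

theorem isW (σ : Type) : IsW (yw σ) := fun _ => Or.inr rfl

theorem nu_X (r : ρ) (j k : γ) : nu ρ γ K (X (r, j, k)) = X (r, j) * X (r, k) := by
  simp [nu]

theorem nu_C (c : K) : nu ρ γ K (C c) = C c := by
  simp [nu]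

/-- The map to the quotient. -/
noncomputable def pn (p : Ideal (By (ρ × γ) K)) : By (ρ × γ × γ) K →ₐ[K] By (ρ × γ) K ⧸ p :=
  (Ideal.Quotient.mkₐ K p).comp (nu ρ γ K)

theorem pn_apply (p : Ideal (By (ρ × γ) K)) (b : By (ρ × γ × γ) K) :
    pn p b = Ideal.Quotient.mk p (nu ρ γ K b) := rfl

variable {p : Ideal (By (ρ × γ) K)} {r : ρ} {c : ρ → K}

theorem prod (h : ∀ r' j, X (r', j) - C (c r') * X (r, j) ∈ p) (a b : ρ × γ) :
    Ideal.Quotient.mk p (X a) * Ideal.Quotient.mk p (X b) =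
      pn p ((c a.1 * c b.1) • X (r, a.2, b.2)) := by
  rw [Ideal.Quotient.eq.2 (h a.1 a.2), Ideal.Quotient.eq.2 (h b.1 b.2), pn_apply, ← map_mul,
    map_smul, nu_X, smul_eq_C_mul, C_mul, mul_mul_mul_comm]

theorem sub_eq (hM : ModAPI) (σ : Type) (n : ℕ) :
    weightedHomogeneousSubmodule K (yw σ) (0, n) = homogeneousSubmodule σ K n :=
  Submodule.ext fun f => hM.yw_iff σ K f n

theorem hf_eq (hM : ModAPI) (h : ∀ r' j, X (r', j) - C (c r') * X (r, j) ∈ p) (n : ℕ) :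
    hf (yw (ρ × γ)) p (0, 2 * n) = hf (yw (ρ × γ × γ)) (p.comap (nu ρ γ K)) (0, n) := by
  have e1 : (homogeneousSubmodule (ρ × γ × γ) K 1).map (pn p).toLinearMap =
      (homogeneousSubmodule (ρ × γ) K 1).map (Ideal.Quotient.mkₐ K p).toLinearMap ^ 2 := by
    rw [homogeneousSubmodule_one_eq_span_X, homogeneousSubmodule_one_eq_span_X,
      Submodule.map_span, Submodule.map_span, pow_two, Submodule.span_mul_span]
    refine le_antisymm (Submodule.span_le.2 ?_) (Submodule.span_le.2 ?_)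
    · rintro _ ⟨_, ⟨⟨r', j, k⟩, rfl⟩, rfl⟩
      refine Submodule.subset_span ⟨_, ⟨_, ⟨(r', j), rfl⟩, rfl⟩, _, ⟨_, ⟨(r', k), rfl⟩, rfl⟩, ?_⟩
      change _ = pn p _
      rw [pn_apply, nu_X, map_mul]
      rfl
    · rintro _ ⟨_, ⟨_, ⟨a, rfl⟩, rfl⟩, _, ⟨_, ⟨b, rfl⟩, rfl⟩, rfl⟩
      have := prod h a b
      rw [map_smul] at this
      change Ideal.Quotient.mk p (X a) * Ideal.Quotient.mk p (X b) ∈ _
      rw [this]
      exact Submodule.smul_mem _ _ (Submodule.subset_span ⟨_, ⟨_, rfl⟩, rfl⟩)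
  have inj : Function.Injective
      (Ideal.quotientMapₐ p (nu ρ γ K) (le_refl (p.comap (nu ρ γ K)))).toLinearMap :=
    Ideal.quotientMap_injective
  unfold hf
  rw [sub_eq hM, sub_eq hM, (Submodule.equivMapOfInjective _ inj _).finrank_eq,
    ← Submodule.map_comp, ← homogeneousSubmodule_one_pow _ (2 * n), Submodule.map_pow, pow_mul,
    ← e1, ← Submodule.map_pow, homogeneousSubmodule_one_pow]
  rfl

theorem split (h : ∀ r' j, X (r', j) - C (c r') * X (r, j) ∈ p) (f : By (ρ × γ) K) :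
    ∃ e o, Ideal.Quotient.mk p f = pn p e + o ∧
      ∀ a, ∃ b, Ideal.Quotient.mk p (X a) * o = pn p b := by
  induction f using MvPolynomial.induction_on with
  | C a => exact ⟨C a, 0, by rw [pn_apply, nu_C, add_zero], fun _ => ⟨0, by simp⟩⟩
  | add f g hf hg =>
    obtain ⟨e, o, h1, h2⟩ := hf
    obtain ⟨e', o', h3, h4⟩ := hg
    refine ⟨e + e', o + o', by rw [map_add, h1, h3, map_add]; ring, fun a => ?_⟩
    obtain ⟨b, hb⟩ := h2 a
    obtain ⟨b', hb'⟩ := h4 a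
    exact ⟨b + b', by rw [mul_add, hb, hb', map_add]⟩
  | mul_X f w hf =>
    obtain ⟨e, o, h1, h2⟩ := hf
    obtain ⟨b, hb⟩ := h2 w
    refine ⟨b, Ideal.Quotient.mk p (X w) * pn p e, by rw [map_mul, h1, ← hb]; ring, fun a => ?_⟩
    exact ⟨_, by rw [← mul_assoc, prod h, ← map_mul]⟩

theorem len_two (hL : LenAPI) [CharZero K] (hp : p.IsPrime) (hh : IsHom (yw (ρ × γ)) p)
    (h : ∀ r' j, X (r', j) - C (c r') * X (r, j) ∈ p) (s : PrimeSpectrum (By (ρ × γ × γ) K))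
    (hs : s.asIdeal = p.comap (nu ρ γ K)) {a : ρ × γ} (ha : X a ∉ p) : lenD p s = 2 := by
  have ms : ∀ b, b ∈ s.asIdeal ↔ nu ρ γ K b ∈ p := fun b => by rw [hs]; rfl
  let ι : (By (ρ × γ × γ) K ⧸ s.asIdeal) →ₐ[By (ρ × γ × γ) K] By (ρ × γ) K ⧸ p :=
    Ideal.Quotient.liftₐ s.asIdeal (Algebra.ofId _ _) fun b hb =>
      Ideal.Quotient.eq_zero_iff_mem.2 ((ms b).1 hb)
  have hι : ∀ b, ι (Ideal.Quotient.mk _ b) = pn p b := fun _ => rfl
  let g := ι.toLinearMap.coprod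
    (LinearMap.mulLeft (By (ρ × γ × γ) K) (Ideal.Quotient.mk p (X a)) ∘ₗ ι.toLinearMap)
  have hg : ∀ b b', g (Ideal.Quotient.mk _ b, Ideal.Quotient.mk _ b') =
      pn p b + Ideal.Quotient.mk p (X a) * pn p b' := fun _ _ => rfl
  have e := hL.loc _ _ _ _ (RingHom.id (By (ρ × γ × γ) K)) g s s rfl
    (fun x => ⟨1, x, s.asIdeal.primeCompl.one_mem, by simp⟩) (fun z => ?_) (fun z hz => ?_)
  · rw [lenD, ← e, hL.exact _ _ _ _ s (LinearMap.inl _ _ _) (LinearMap.snd _ _ _)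
      LinearMap.inl_injective LinearMap.snd_surjective Function.Exact.inl_snd, hL.one]
    rfl
  · obtain ⟨f, rfl⟩ := Ideal.Quotient.mk_surjective z
    obtain ⟨e, o, h1, h2⟩ := split h f
    obtain ⟨b, hb⟩ := h2 a
    refine ⟨X (a.1, a.2, a.2), (Ideal.Quotient.mk _ (X (a.1, a.2, a.2) * e),
      Ideal.Quotient.mk _ b), fun k => ?_, ?_⟩
    · rw [ms, nu_X] at k
      exact ha ((hp.mem_or_mem k).elim id id)
    · rw [hg, RingHom.id_apply, Algebra.smul_def, ← EvdX.sq_X, h1, ← hb, map_mul,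
        pn_apply p (X _), nu_X, map_mul]
      ring
  · obtain ⟨z, z'⟩ := z
    obtain ⟨b, rfl⟩ := Ideal.Quotient.mk_surjective z
    obtain ⟨b', rfl⟩ := Ideal.Quotient.mk_surjective z'
    rw [hg, pn_apply, pn_apply, ← map_mul, ← map_add, Ideal.Quotient.eq_zero_iff_mem] at hz
    have h1 := EvdX.stab_neg hh _ hz
    rw [map_add, map_mul, EvdX.sgn_nu, EvdX.sgn_nu, EvdX.sgn_X, Units.val_neg, Units.val_one,
      neg_smul, one_smul] at h1
    have h2 : nu ρ γ K b ∈ p := by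
      refine (p.unit_mul_mem_iff_mem (EvdX.two_unit (K := K) (ρ × γ))).1 ?_
      convert p.add_mem hz h1 using 1
      ring
    have h3 : nu ρ γ K b' ∈ p :=
      (hp.mem_or_mem ((p.add_mem_iff_right h2).1 hz)).resolve_left ha
    refine ⟨1, s.asIdeal.primeCompl.one_mem, ?_⟩
    rw [one_smul, Ideal.Quotient.eq_zero_iff_mem.2 ((ms b).2 h2),
      Ideal.Quotient.eq_zero_iff_mem.2 ((ms b').2 h3)]
    rfl

theorem cyc_two (hL : LenAPI) (hC : CycAPI) (hM : ModAPI) (hY : CydAPI) [CharZero K] [Finite ρ]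
    [Finite γ] (hp : p.IsPrime) (hh : IsHom (yw (ρ × γ)) p) (hl : Lin (yw (ρ × γ)) p)
    (h : ∀ r' j, X (r', j) - C (c r') * X (r, j) ∈ p) :
    cycD p = 2 • cycB (p.comap (nu ρ γ K)) := by
  obtain ⟨c1, -, c2⟩ := hY.contr ρ γ K p hh
  obtain ⟨⟨d1, d2⟩, d3⟩ := hY.spec ρ γ K p hh hl
  obtain ⟨⟨b1, b2⟩, b3⟩ := hC.specB _ K _ c1 (c2 hl)
  have hs : (p.comap (nu ρ γ K)).IsPrime := Ideal.comap_isPrime _ _
  rw [Ideal.minimalPrimes_eq_subsingleton_self] at d3 b3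
  ext s
  rw [Finsupp.smul_apply, smul_eq_mul]
  by_cases k : s.asIdeal = p.comap (nu ρ γ K) ∧ Crv s
  · obtain ⟨a, ha⟩ : ∃ a, X a ∉ p := by
      by_contra! hno
      refine (hM.nil _ K s.asIdeal 1 fun ⟨r', j, j'⟩ => ?_).2 k.2.2
      rw [pow_one, k.1, Ideal.mem_comap, nu_X]
      exact p.mul_mem_left _ (hno _)
    have e1 := d2 s k.2
    have e2 := b2 s k.2
    rw [len_two hL hp hh h s k.1 ha] at e1
    rw [← k.1, hL.one] at e2
    have e3 : cycD p s = 2 := by exact_mod_cast e1.symm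
    have e4 : cycB s.asIdeal s = 1 := by exact_mod_cast e2.symm
    rw [e3, ← k.1, e4]
  · rw [Finsupp.notMem_support_iff.1 fun m => k ⟨d3 s m, d1 s m⟩,
      Finsupp.notMem_support_iff.1 fun m => k ⟨b3 s m, b1 s m⟩, mul_zero]

theorem psi_add {σ : Type} (m m' : PrimeSpectrum (By σ K) →₀ ℕ) :
    psi (m + m') = psi m + psi m' :=
  Finsupp.sum_add_index' (fun _ => by simp) fun _ _ _ => by rw [Nat.cast_add, add_mul]

end VerX

open VerX in
theorem ver_stmt (hL : LenAPI) (hH : HfAPI) (hC : CycAPI) (hM : ModAPI) (hY : CydAPI)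
    (hPs : Psi2Stmt) : VerStmt := by
  intro A ρ γ κ _ _ _ _ _ T J r c N hJ hl hn hc
  have lin : ∀ I, J ≤ I → Lin (yw (ρ × γ)) I := fun I h => by
    obtain ⟨C, hC⟩ := hl
    exact ⟨C, fun d n => (hH.mono _ κ _ J I _ (isW _) h).trans (hC d n)⟩
  refine hH.ind _ κ (yw (ρ × γ)) J (fun I => ∃ m, cycD I = 2 • m ∧
    ∀ᶠ n in atTop, (hf (yw (ρ × γ)) I (0, n) : ZMod 2) = psi m) ?_ ?_ ?_ J hJ le_rfl
  · have z : ∀ k, hf (yw (ρ × γ)) (⊤ : Ideal (By (ρ × γ) κ)) k = 0 := fun k =>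
      (hH.zero _ κ _ _ k (isW _)).2 fun _ _ => trivial
    refine ⟨0, ?_, Eventually.of_forall fun n => by rw [z]; simp [psi]⟩
    rw [smul_zero]
    refine hY.zero ρ γ κ ⊤ (fun _ _ _ => trivial) (lin _ le_top) fun h => ?_
    obtain ⟨n, hn⟩ := h 0
    rw [z] at hn
    exact lt_irrefl _ hn
  · intro p hh hle hp
    have h : ∀ r' j, X (r', j) - C (c r') * X (r, j) ∈ p := fun r' j =>
      hp.mem_of_pow_mem N (hle (hc r' j))
    obtain ⟨c1, -, c2⟩ := hY.contr ρ γ κ p hh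
    have p1 := (hPs _ κ T.im (Set.range (T.nrm κ)) p T.im_sq (fun E _ _ _ y hy he => by
      obtain ⟨⟨r', j⟩, hj⟩ := Function.ne_iff.1 hy
      refine T.even E (fun j => y (r', j)) (Function.ne_iff.2 ⟨j, hj⟩) ?_
      simpa [Setup2.nrm] using he _ ⟨r', rfl⟩) hh (lin p hle) (by
        rintro _ ⟨r', rfl⟩
        exact hle (hn r'))).1
    obtain ⟨p2, p3⟩ := hPs _ κ T.im (Set.range fun x : ρ × γ =>
      ∑ k, C (T.β k) * X (x.1, x.2, k) ^ 2) (p.comap (nu ρ γ κ)) T.im_sq (fun E _ _ _ y hy he => by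
      obtain ⟨⟨r', j, k⟩, hj⟩ := Function.ne_iff.1 hy
      refine T.even E (fun k => y (r', j, k)) (Function.ne_iff.2 ⟨k, hj⟩) ?_
      simpa using he _ ⟨(r', j), rfl⟩) c1 (c2 (lin p hle)) (by
        rintro _ ⟨⟨r', j⟩, rfl⟩
        rw [Ideal.mem_comap]
        convert p.mul_mem_left (X (r', j) ^ 2) (hle (hn r')) using 1
        simp only [map_sum, map_mul, map_pow, nu_C, nu_X, Setup2.nrm, Finset.mul_sum,
          Algebra.algebraMap_self, RingHom.id_apply]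
        exact Finset.sum_congr rfl fun _ _ => by ring)
    refine ⟨_, cyc_two hL hC hM hY hp hh (lin p hle) h, ?_⟩
    obtain ⟨n, q1, q2⟩ := (((tendsto_id.const_mul_atTop' two_pos).eventually p1).and p2).exists
    rw [id, hf_eq hM h, q2] at q1
    rw [← p3, q1]
    exact p1
  · rintro I f ⟨a, b⟩ hh hle hf ⟨m, m1, m2⟩ ⟨m', m3, m4⟩
    rcases a with _ | a
    · refine ⟨m + m', by rw [hY.add ρ γ κ I f _ hh (lin I hle) hf, m1, m3, smul_add], ?_⟩
      obtain ⟨n₁, h₁⟩ := eventually_atTop.1 m2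
      obtain ⟨n₂, h₂⟩ := eventually_atTop.1 m4
      refine eventually_atTop.2 ⟨n₁ + n₂ + b, fun n hn => ?_⟩
      obtain ⟨k, rfl⟩ : ∃ k, n = k + b := ⟨n - b, by omega⟩
      have := hH.add _ κ _ I f (0, b) (0, k) (isW _) hh hf
      rw [Prod.mk_add_mk, add_zero] at this
      rw [this, Nat.cast_add, h₁ _ (by omega), h₂ _ (by omega), psi_add]
    · have f0 : f ∈ I := ((hH.zero _ κ _ I _ (isW _)).1 (hH.ypos _ κ I a b)) f hf
      rw [sup_eq_left.2 ((Ideal.span_singleton_le_iff_mem I).2 f0)] at m1 m2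
      exact ⟨m, m1, m2⟩

end Pool.Agent.MP_d45d16_ag.Sp14
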