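import Pool.Agent.MP_d45d16_ag.yag.All
import Pool.Agent.MP_d45d16_ag.yag.Phi
import Pool.Agent.MP_d45d16_ag.sp.Fin
import Pool.Agent.MP_d45d16_ag.sp.Clif
import Pool.Agent.MP_d45d16_ag.sp.Cyd
import Pool.Agent.MP_d45d16_ag.sp.Evd
import Pool.Agent.MP_d45d16_ag.sp.Four
import Pool.Agent.MP_d45d16_ag.sp.Mod
import Pool.Agent.MP_d45d16_ag.sp.Spd
import Pool.Agent.MP_d45d16_ag.sp.Sym
import Pool.Agent.MP_d45d16_ag.sp.Ver
import Pool.Agent.MP_d45d16_ag.sp.Eva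
import Pool.Agent.MP_d45d16_ag.sp.Evb
import Pool.Agent.MP_d45d16_ag.sp.Base2
import Pool.Agent.MP_d45d16_ag.sp.Step2
import Pool.Agent.MP_d45d16_ag.sp.Dh
import Pool.Agent.MP_d45d16_ag.sp.Asm2
import Pool.Agent.MP_d45d16_ag.sp.RecN
import Pool.Agent.MP_d45d16_ag.sp.PhiN
import Pool.Agent.MP_d45d16_ag.sp.Mem
import Pool.Agent.MP_d45d16_ag.sp.Hfc
import Pool.Agent.MP_d45d16_ag.sp.Spl
import Pool.Agent.MP_d45d16_ag.sp.Evg2
import Pool.Agent.MP_d45d16_ag.sp.Amb2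
import Pool.Agent.MP_d45d16_ag.sp.Key2
import Pool.Agent.MP_d45d16_ag.sp.Ln0
import Pool.Agent.MP_d45d16_ag.sp.Main2
import Pool.Agent.MP_d45d16_ag.sp.Nat
import Pool.Agent.MP_d45d16_ag.sp.Cov
import Pool.Agent.MP_d45d16_ag.sp.Ev0
import Pool.Agent.MP_d45d16_ag.sp.Ev1
import Pool.Agent.MP_d45d16_ag.sp.Pure
import Pool.Agent.MP_d45d16_ag.sp.Tri
import Pool.Agent.MP_d45d16_ag.sp.Sgn
import Pool.Agent.MP_d45d16_ag.sp.Dom
import Pool.Agent.MP_d45d16_ag.sp.Emb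
import Pool.Agent.MP_d45d16_ag.sp.Fix
import Pool.Agent.MP_d45d16_ag.sp.Gg
import Pool.Agent.MP_d45d16_ag.sp.Nf
import Pool.Agent.MP_d45d16_ag.sp.Frm
import Pool.Agent.MP_d45d16_ag.sp.Sat
import Pool.Agent.MP_d45d16_ag.sp.Tor
import Pool.Agent.MP_d45d16_ag.sp.Cfg
import Pool.Agent.MP_d45d16_ag.sp.Eqs

/-!
Assembly of the modules.
-/

set_option autoImplicit false

namespace Pool.Agent.MP_d45d16_ag.Sp14

open Yag

theorem main2 : Main2Stmt :=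
  have iso := isoAPI ptAPI projAPI smAPI
  have mv := moveAPI (dp_stmt ptAPI projAPI (idlAPI ptAPI)) iso
  main2_stmt prmAPI projAPI bcAPI (line_stmt ptAPI projAPI bcAPI) (conic_stmt ptAPI projAPI bcAPI)
    (const_stmt ptAPI projAPI bcAPI) iso ln0_stmt (half2_stmt mv iso (key2_stmt mv iso))
    (phiN_stmt recN_stmt)

theorem alg2 : Asm2Stmt ∧ Evg2Stmt ∧ TorStmt :=
  have hL := lenAPI
  have hH := hfAPI
  have h2 := hfAPI2 hH
  have pl := placeAPI hH h2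
  have cy := cycAPI hL hH
  have hM := modAPI hH
  have hY := cydAPI hL hH hM
  have hE := evdAPI hL hH hY
  have hSy := symAPI hL hH h2 pl hY
  have hF := fourAPI hH hM hY hE hSy
  have hSp := spd_stmt hL (herbAPI hL) hH h2 cy hY
  have hPs := psi2_stmt (psi_stmt hL hH cy)
  have hD := dhAPI hH h2 hM
  have hT := trAPI hH h2 hD
  ⟨asm2_stmt hH h2 pl hY hD hT,
    evg2_stmt hH prmAPI hM hT (mem_stmt prmAPI hM) (hfc_stmt prmAPI) rat_stmt
      (splAPI hH h2 hM hY hT),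
    tor_stmt pl
      (base2_stmt hH h2 pl cy hY hSp hE hSy hF hPs
        (eva_stmt hH hM hY hSy hF (ver_stmt hL hH cy hM hY hPs)) (evb_stmt hH hM hY hE hSy hF))
      (step2_stmt hH h2 pl hM hSp hSy) spr_stmt actAPI⟩

theorem not_resInj : ¬ ResInj (Flag.quad (forms gen (FF gen))) :=
  have hC := clifAPI
  have hQ := quadAPI hC
  have hG := ggAPI
  have hE := ev0_stmt hC
  have hN := nsq_stmt hC (g0_stmt hC) sub_stmt hG
  assemble2 ptAPI main2 (amb2_stmt ptAPI) alg2.1 alg2.2.1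
    (frm_stmt hG hN (satAPI hQ (pureAPI hC) hG hN)) alg2.2.2
    (cfg_stmt (sgn_stmt hC) hG actAPI) (eqs_stmt hC hQ hE (tri_stmt hC) hG)
    (nf_stmt hC (nat_stmt hC) (cov_stmt hC) hQ (ev1_stmt hE) (emb_stmt hC (dom_stmt hC jac_stmt))
      (fix_stmt hC sub_stmt) hG)

end Pool.Agent.MP_d45d16_ag.Sp14
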