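import Pool.Agent.MP_d45d16_ag.sp.Spec
import Pool.Agent.MP_d45d16_ag.yag.Hf2

/-!
A reduced closed subscheme of projective space as an ambient variety, and constant curves.
-/

set_option autoImplicit false

open AlgebraicGeometry CategoryTheory Limits

namespace Pool.Agent.MP_d45d16_ag.Sp14

open Yag

namespace Amb2X

theorem homSet_ptI (F ι : Type) [Field F] (i₀ : ι) : HomSet (ptI F i₀) := by
  rintro _ ⟨i, -, rfl⟩
  exact ⟨0, MvPolynomial.isHomogeneous_X F i⟩

theorem homSet_X (F ι : Type) [Field F] (i : ι) :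
    HomSet ({MvPolynomial.X i} : Set (MvPolynomial ι F)) := by
  rintro _ rfl
  exact ⟨0, MvPolynomial.isHomogeneous_X F i⟩

/-- A point on which all coordinates but one vanish does not kill the last one. -/
theorem not_mem (hPt : PtAPI) {F ι : Type} [Field F] (i₀ : ι) (z : PP F ι)
    (hz : z ∈ zeros (ptI F i₀)) : z ∉ zeros ({MvPolynomial.X i₀} : Set (MvPolynomial ι F)) := by
  intro h0
  obtain ⟨i, hi⟩ := hPt.cover F ι z
  by_cases h : i = i₀
  · exact hi (h ▸ h0)
  · refine hi ?_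
    have h1 : ({MvPolynomial.X i} : Set (MvPolynomial ι F)) ⊆ ptI F i₀ :=
      Set.singleton_subset_iff.mpr ⟨i, h, rfl⟩
    exact fun f hf => hz (h1 hf)

/-- The affine case. -/
theorem eq_pt_aff (hPt : PtAPI) {F ι C : Type} [Field F] [DecidableEq ι] [CommRing C]
    [IsReduced C] (i₀ : ι) (h : Ideal.span (Set.range (Pi.single i₀ 1 : ι → F)) = ⊤)
    (a : Spec (CommRingCat.of C) ⟶ PP F ι) (ha : ∀ y, a y ∈ zeros (ptI F i₀)) :
    a = (a ≫ PP.s F ι) ≫ pt (RingHom.id F) (Pi.single i₀ 1) h := by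
  obtain ⟨c, w, hw, h1, rfl⟩ := hPt.surj F C ι a i₀ fun x => not_mem hPt i₀ _ (ha x)
  have h2 : w = c ∘ (Pi.single i₀ 1 : ι → F) := by
    funext i
    by_cases hi : i = i₀
    · subst hi
      simp [h1]
    · have h3 : w i ∈ nilradical C := by
        rw [nilradical_eq_sInf, Ideal.mem_sInf]
        intro p hp
        have h4 := (hPt.mem F C ι c w hw _ ⟨p, hp⟩ (homSet_ptI F ι i₀)).mp (ha _)
          (MvPolynomial.X i) ⟨i, hi, rfl⟩
        simpa using h4
      rw [nilradical_eq_zero] at h3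
      have h5 : w i = 0 := by simpa using h3
      simp [h5, Pi.single_eq_of_ne hi]
  rw [hPt.str, hPt.nat _ _ _ _ _ _ _ _ (Line.span_map c h)]
  exact Line.pt_congr _ _ rfl h2

/-- A map from a reduced scheme into the coordinate point is constant. -/
theorem eq_pt (hPt : PtAPI) {F ι : Type} [Field F] [DecidableEq ι] {Y : Scheme.{0}}
    [IsReduced Y] (i₀ : ι) (h : Ideal.span (Set.range (Pi.single i₀ 1 : ι → F)) = ⊤)
    (a : Y ⟶ PP F ι) (ha : ∀ y, a y ∈ zeros (ptI F i₀)) :
    a = (a ≫ PP.s F ι) ≫ pt (RingHom.id F) (Pi.single i₀ 1) h := by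
  refine Y.affineOpenCover.openCover.hom_ext _ _ fun j => ?_
  let R : CommRingCat.{0} := Y.affineOpenCover.X j
  let g : Spec (CommRingCat.of R) ⟶ Y := Y.affineOpenCover.f j
  have hg : IsOpenImmersion g := Y.affineOpenCover.map_prop j
  have h1 : IsReduced (Spec (CommRingCat.of R)) := isReduced_of_isOpenImmersion g
  have h2 : _root_.IsReduced R := (affine_isReduced_iff (CommRingCat.of R)).mp h1
  have h3 := eq_pt_aff hPt i₀ h (g ≫ a) fun y => by
    rw [Scheme.Hom.comp_apply]; exact ha _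
  change g ≫ a = g ≫ _
  rw [h3]
  simp only [Category.assoc]

end Amb2X

open Amb2X AmbRes in
theorem amb2_stmt (hPt : PtAPI) : Amb2Stmt := by
  intro F ι _ _ _ I i₀ h hI
  have hp := hPt.proper F ι
  refine ⟨homSet_ptI F ι i₀, hI, ?_, ⟨?_, ?_, fun y => ?_, fun y => ?_⟩, ?_, ?_⟩
  · unfold Flag.quad
    infer_instance
  · rw [spec_self, Category.comp_id, Category.assoc, hPt.str, CommRingCat.ofHom_id, Spec.map_id,
      Category.comp_id]
  · rw [spec_self, Category.comp_id]
    rfl
  · rw [Scheme.Hom.comp_apply]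
    refine (hPt.mem _ _ _ _ _ _ _ _ (homSet_ptI F ι i₀)).mpr ?_
    rintro _ ⟨i, hi, rfl⟩
    rw [MvPolynomial.eval₂_X, Pi.single_eq_of_ne hi]
    exact zero_mem _
  · exact mem_sub (Flag.zeros I) y
  · intro Y g g' _ _ h3
    exact (cancel_mono (Scheme.IdealSheafData.subschemeι _)).mp h3
  · intro Y t a b hY hg
    have ha := hg.us
    have hb := hg.vs
    rw [spec_self, Category.comp_id] at ha hb
    have h1 : IsClosedImmersion.lift
        (Scheme.IdealSheafData.vanishingIdeal (Flag.zeros I)).subschemeι b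
        (vanishing_le_ker b (Flag.zeros I) hg.mem₂) ≫ Flag.quad I = t := by
      unfold Flag.quad
      rw [IsClosedImmersion.lift_fac_assoc, hb]
    refine ⟨_, h1, ?_, IsClosedImmersion.lift_fac _ _ _⟩
    rw [← Category.assoc, h1, ← ha]
    exact (eq_pt hPt i₀ h a hg.mem₁).symm

open Line Polynomial in
theorem const_stmt (hPt : PtAPI) (hPj : ProjAPI) (hBc : BcAPI) : ConstStmt := by
  intro F E ι _ _ _ _ _ _ M a b ha hsa hb hsb
  obtain ⟨Y, t, ch, h⟩ := exists_P1 F E hPj
  have hint := h.integral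
  have ha' := span_ne ha
  have hb' := span_ne hb
  let s : Y ⟶ Spec (CommRingCat.of F) := t ≫ Spec.map (CommRingCat.ofHom (algebraMap F E))
  let u : Y ⟶ PP F ι := t ≫ pt (algebraMap F E) a ha'
  let v : Y ⟶ PP F ι := t ≫ pt (algebraMap F E) b hb'
  have hid : Spec.map (CommRingCat.ofHom (algebraMap F F)) = 𝟙 _ := Spec.map_id _
  have hgeo : Geo M.I₁ M.I₂ (s ≫ Spec.map (CommRingCat.ofHom (algebraMap F F))) u v := by
    rw [hid, Category.comp_id]
    refine ⟨?_, ?_, fun y => ?_, fun y => ?_⟩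
    · simp only [u, s]
      rw [Category.assoc, hPt.str]
    · simp only [v, s]
      rw [Category.assoc, hPt.str]
    · simp only [u]
      rw [Scheme.Hom.comp_apply]
      refine (hPt.mem _ _ _ _ _ _ _ _ M.hom₁).mpr fun f hf => ?_
      rw [hsa f hf]
      exact zero_mem _
    · simp only [v]
      rw [Scheme.Hom.comp_apply]
      refine (hPt.mem _ _ _ _ _ _ _ _ M.hom₂).mpr fun f hf => ?_
      rw [hsb f hf]
      exact zero_mem _
  obtain ⟨g, hgs, hgu, hgv⟩ := M.lift Y s u v inferInstance hgeo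
  have hsm : SmoothOfRelativeDimension 1 t := by
    refine IsZariskiLocalAtSource.of_openCover (P := @SmoothOfRelativeDimension 1)
      (Scheme.Cover.mkOfCovers (P := @IsOpenImmersion) (Fin 2)
      (fun _ => Spec (CommRingCat.of E[X])) ch h.cover h.openImm) fun j => ?_
    change SmoothOfRelativeDimension 1 (ch j ≫ t)
    rw [h.ch_t]
    exact smooth_poly E
  have hpr := M.proper
  let G : Curve M.s :=
    { Y := Y
      f := g
      smooth := by
        rw [hgs]
        have := hPj.etale F E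
        exact inferInstanceAs (SmoothOfRelativeDimension (1 + 0) (t ≫ _))
      proj := hPj.of_comp _ _ _ g M.s (by rw [hgs]; exact h.proj) inferInstance }
  have key : ∀ (k : Type) [Field k] [Algebra E k],
      Coord M.u M.v (Spec.map (CommRingCat.ofHom
        (aeval (xx k 0) : E[X] →ₐ[E] RatFunc k).toRingHom) ≫ ch 0 ≫ g)
        ((algebraMap k (RatFunc k)).comp ((algebraMap E k).comp (algebraMap F E)))
        (vec ![algebraMap E k ∘ a] ![1]) (vec ![algebraMap E k ∘ b] ![1]) := by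
    intro k _ _
    let φ : E[X] →+* RatFunc k := (aeval (xx k 0) : E[X] →ₐ[E] RatFunc k).toRingHom
    have hφ : φ.comp (algebraMap E E[X]) = (algebraMap k (RatFunc k)).comp (algebraMap E k) :=
      RingHom.ext fun x => ((aeval (xx k 0) : E[X] →ₐ[E] RatFunc k).commutes x).trans
        (IsScalarTower.algebraMap_apply E k (RatFunc k) x)
    have e1 : ∀ c : ι → E, (φ.comp (algebraMap E E[X])) ∘ c = vec ![algebraMap E k ∘ c] ![1] := by
      intro c
      rw [hφ]
      funext i
      simp [vec]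
    refine ⟨e1 a ▸ span_map _ ha', e1 b ▸ span_map _ hb', ?_, ?_⟩
    · rw [Category.assoc, Category.assoc, hgu]
      simp only [u]
      rw [← Category.assoc (ch 0), h.ch_t, ← Spec.map_comp_assoc, ← CommRingCat.ofHom_comp,
        hPt.nat _ _ _ _ _ _ _ _ (span_map _ ha')]
      exact pt_congr _ _ (by rw [hφ]; rfl) (e1 a)
    · rw [Category.assoc, Category.assoc, hgv]
      simp only [v]
      rw [← Category.assoc (ch 0), h.ch_t, ← Spec.map_comp_assoc, ← CommRingCat.ofHom_comp,
        hPt.nat _ _ _ _ _ _ _ _ (span_map _ hb')]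
      exact pt_congr _ _ (by rw [hφ]; rfl) (e1 b)
  refine ⟨G, t, hgs.symm, hsm, ?_, ?_⟩
  · obtain ⟨-, j, hj, hjp, hjt⟩ := h.bc hBc E (p := 𝟙 Y) (t' := t)
      (by
        have : Spec.map (CommRingCat.ofHom (algebraMap E E)) = 𝟙 _ := Spec.map_id _
        rw [this]
        exact IsPullback.id_horiz t)
    rw [Category.comp_id] at hjp
    refine ⟨j ≫ g, ⟨hint, j, hj, rfl⟩, ?_, ?_⟩
    · rw [Category.assoc, hgs]
      simp only [s]
      rw [← Category.assoc, hjt, ← Spec.map_comp]
      rfl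
    · have h1 := key E
      rw [← Category.assoc, ← hjp] at h1
      exact h1
  · intro k _ _ N q σ C' hN hσ hC
    obtain ⟨p, hp, hpq⟩ := hC
    let := σ.toAlgebra
    obtain ⟨hi, j, hj, hjp, hjt⟩ := h.bc hBc k hp
    refine ⟨C', j ≫ C'.f, ⟨hi, j, hj, rfl⟩, ⟨by rw [Category.assoc, hjt], ?_⟩, rfl⟩
    obtain ⟨h1, h2, h3, h4⟩ := key k
    have h5 : (j ≫ C'.f) ≫ q = Spec.map (CommRingCat.ofHom
        (aeval (xx k 0) : E[X] →ₐ[E] RatFunc k).toRingHom) ≫ ch 0 ≫ g := by
      rw [Category.assoc, hpq, ← Category.assoc, hjp, Category.assoc]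
    refine ⟨h1, h2, ?_, ?_⟩
    · rw [hN.hu, ← Category.assoc, h5, h3, ← hσ]
      rfl
    · rw [hN.hv, ← Category.assoc, h5, h4, ← hσ]
      rfl

end Pool.Agent.MP_d45d16_ag.Sp14
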