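import Pool.Agent.MP_d45d16_ag.Spin
import Pool.Agent.MP_d45d16_ag.yag.Frame1
import Pool.Agent.MP_d45d16_ag.yag.Alg3

/-!
Definitions used in the proof for the spin group (not in the statement).
-/

set_option autoImplicit false

open AlgebraicGeometry CategoryTheory Limits MvPolynomial Filter Matrix

namespace Pool.Agent.MP_d45d16_ag.Sp14

open Yag

/-! The invariant. -/

/-- The quotient by the row signs: `y (r, j, k) ↦ x (r, j) * x (r, k)`. -/
noncomputable def nu (ρ γ R : Type) [CommRing R] : By (ρ × γ × γ) R →ₐ[R] By (ρ × γ) R :=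
  aeval fun y => X (y.1, y.2.1) * X (y.1, y.2.2)

noncomputable scoped instance algNu (ρ γ R : Type) [CommRing R] :
    Algebra (By (ρ × γ × γ) R) (By (ρ × γ) R) :=
  (nu ρ γ R).toRingHom.toAlgebra

theorem algNu_apply {ρ γ R : Type} [CommRing R] (b : By (ρ × γ × γ) R) :
    algebraMap (By (ρ × γ × γ) R) (By (ρ × γ) R) b = nu ρ γ R b := rfl

section Cyc

variable {ρ γ K : Type} [Field K]

/-- The multiplicity of the push-forward. -/
noncomputable def lenD (I : Ideal (By (ρ × γ) K)) (s : PrimeSpectrum (By (ρ × γ × γ) K)) : ℕ∞ :=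
  lenAt s (By (ρ × γ) K ⧸ I)

/-- `m` is the push-forward of the one-cycle of `I`. -/
def IsCycD (I : Ideal (By (ρ × γ) K)) (m : PrimeSpectrum (By (ρ × γ × γ) K) →₀ ℕ) : Prop :=
  (∀ s ∈ m.support, Crv s) ∧ ∀ s, Crv s → lenD I s = m s

open Classical in
/-- The push-forward cycle. -/
noncomputable def cycD (I : Ideal (By (ρ × γ) K)) : PrimeSpectrum (By (ρ × γ × γ) K) →₀ ℕ :=
  if h : ∃ m, IsCycD I m then h.choose else 0

/-- The parity of a cycle. -/
noncomputable def psi {σ : Type} (c : PrimeSpectrum (By σ K) →₀ ℕ) : ZMod 2 :=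
  c.sum fun s n => (n : ZMod 2) * par s.asIdeal

/-- The invariant at the bottom level: divide the cycle by four and take the parity. -/
noncomputable def PhiD (I : Ideal (By (ρ × γ) K)) : ZMod 2 :=
  (cycD I).sum fun s n => ((n / 4 : ℕ) : ZMod 2) * par s.asIdeal

/-- The row `r` does not vanish at `s`. -/
def Alive (s : PrimeSpectrum (By (ρ × γ × γ) K)) (r : ρ) : Prop :=
  ∃ j, X (r, j, j) ∉ s.asIdeal

/-- A change of the signs of the rows. -/
noncomputable def sgn (γ K : Type) [Field K] (ε : ρ → ℤˣ) : By (ρ × γ) K →ₐ[K] By (ρ × γ) K :=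
  aeval fun x => ((ε x.1 : ℤˣ) : ℤ) • X x

/-- The ideal of the columns. -/
noncomputable def colI (I : Ideal (By (ρ × γ) K)) : Ideal (By ρ K) :=
  ⨅ j, I.comap (rename (fun r => (r, j)) : By ρ K →ₐ[K] By (ρ × γ) K)

/-- The ideal of the rows. -/
noncomputable def rowI (I : Ideal (By (ρ × γ) K)) : Ideal (By γ K) :=
  ⨅ r, I.comap (rename (fun j => (r, j)) : By γ K →ₐ[K] By (ρ × γ) K)

/-- The products of two columns. -/
noncomputable def csq (ρ K : Type) [Fintype ρ] [Field K] (j k : γ) : By (ρ × γ) K :=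
  ∑ r, X (r, j) * X (r, k)

end Cyc

/-- The fixed data at the bottom level. -/
structure Setup2 (A ρ γ κ : Type) [Group A] [Fintype γ] [Field κ] where
  /-- characters of the rows -/
  χ : ρ → A →* ℤˣ
  inj : Function.Injective χ
  big : ∀ η : A →* ℤˣ, ∃ (h₁ h₂ : A) (r₀ r₁ r₂ : ρ), η h₁ = 1 ∧ η h₂ = 1 ∧ χ r₀ h₁ ≠ χ r₁ h₁ ∧
    χ r₀ h₁ = χ r₂ h₁ ∧ χ r₀ h₂ ≠ χ r₂ h₂
  /-- a square root of `-1` -/
  im : κ
  im_sq : im ^ 2 = -1
  /-- the coefficients of the norm form of a row -/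
  β : γ → κ
  ne : ∀ j, β j ≠ 0
  even : ∀ (E : Type) [Field E] [Algebra κ E] [FiniteDimensional κ E] (y : γ → E), y ≠ 0 →
    ∑ j, algebraMap κ E (β j) * y j ^ 2 = 0 → Even (Module.finrank κ E)

section Level

variable {A ρ γ κ : Type} [Group A] [Fintype ρ] [Fintype γ] [Field κ] (T : Setup2 A ρ γ κ)

/-- The semilinear action. -/
noncomputable def Setup2.act {K : Type} [Field K] [MulSemiringAction A K] (a : A) :
    By (ρ × γ) K →+* By (ρ × γ) K :=
  eval₂Hom (C.comp (MulSemiringAction.toRingHom A K a)) fun x => ((T.χ x.1 a : ℤˣ) : ℤ) • X x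

/-- The norm of a row. -/
noncomputable def Setup2.nrm (K : Type) [Field K] [Algebra κ K] (r : ρ) : By (ρ × γ) K :=
  ∑ j, C (algebraMap κ K (T.β j)) * X (r, j) ^ 2

/-- The equations. -/
structure Setup2.Eqs {K : Type} [Field K] [Algebra κ K] (I : Ideal (By (ρ × γ) K)) : Prop where
  row : ∀ r r', T.nrm K r - T.nrm K r' ∈ I
  dia : ∀ j k, C (algebraMap κ K (T.β j)) * csq ρ K j j -
    C (algebraMap κ K (T.β k)) * csq ρ K k k ∈ I
  off : ∀ j k, j ≠ k → csq ρ K j k ∈ I

/-- Admissible ideals. -/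
structure Setup2.Adm {K : Type} [Field K] [Algebra κ K] [MulSemiringAction A K]
    (I : Ideal (By (ρ × γ) K)) : Prop where
  hom : IsHom (yw (ρ × γ)) I
  lin : Lin (yw (ρ × γ)) I
  stab : ∀ (a : A), ∀ f ∈ I, T.act a f ∈ I
  eqs : T.Eqs I

/-- The properties of the invariant at one level. -/
structure Setup2.Good {K : Type} [Field K] [Algebra κ K] [MulSemiringAction A K]
    (Φ : Ideal (By (ρ × γ) K) → ZMod 2) : Prop where
  add : ∀ I I₁ I₂, T.Adm I → T.Adm I₁ → T.Adm I₂ → cycD I = cycD I₁ + cycD I₂ →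
    Φ I = Φ I₁ + Φ I₂
  evalA : ∀ I, T.Adm I → hf (yw ρ) (colI I) (0, 1) ≤ 2 → ∀ e : ℕ,
    (∀ᶠ n in atTop, hf (yw (ρ × γ)) I (0, n) ≡ 2 * e [MOD 4]) → Φ I = e
  evalB : ∀ I, T.Adm I → ¬ Unb (yw γ) (rowI I) → Φ I = 0
  move : ∀ (E : Type) [Field E] [Algebra K E] [Algebra κ E] [IsScalarTower κ K E]
    [MulSemiringAction A E] (y : E) (η : A →* ℤˣ) (p p' : Place E K) (I : Ideal (By (ρ × γ) E)),
    (∀ (a : A) (c : K), a • algebraMap K E c = algebraMap K E (a • c)) →
    (∀ a : A, a • y = ((η a : ℤˣ) : ℤ) • y) → Simple K y → p.Over K → p'.Over K →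
    p.Val y 0 → p'.Val y⁻¹ 0 → T.Adm I → Φ (p.init I) = Φ (p'.init I)

end Level

section OverF

variable {F ι : Type} [Field F]

/-- The properties of the invariant over `F`. -/
structure GoodN (I₁ I₂ : Set (MvPolynomial ι F)) (Φ : Ideal (Pxy ι F) → ZMod 2) : Prop where
  add : ∀ J f m, AdmF I₁ I₂ J → IsWeightedHomogeneous (bw ι) f m →
    Φ J = Φ (J ⊔ Ideal.span {f}) + Φ (J.colon {f})
  zero : ∀ J, AdmF I₁ I₂ J → ¬ Unb (bw ι) J → Φ J = 0
  irr : ∀ J, AdmF I₁ I₂ J → (∀ i, X (Sum.inl i) ∈ J) → Φ J = 0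
  move : ∀ (E : Type) [Field E] [Algebra F E] (y : E) (p p' : Place E F) (J : Ideal (Pxy ι E)),
    Simple F y → p.Over F → p'.Over F → p.Val y 0 → p'.Val y⁻¹ 0 → AdmF I₁ I₂ J →
    Φ (p.init J) = Φ (p'.init J)

/-- The equations of a coordinate point. -/
def ptI (F : Type) [Field F] (i₀ : ι) : Set (MvPolynomial ι F) := {f | ∃ i, i ≠ i₀ ∧ f = X i}

/-- Put the first point equal to the coordinate point. -/
noncomputable def dh [DecidableEq ι] (R : Type) [CommRing R] (i₀ : ι) : Pxy ι R →ₐ[R] By ι R :=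
  aeval (Sum.elim (Pi.single i₀ 1) X)

/-- The substitution `y ↦ g y` over `φ`. -/
noncomputable def thy [Fintype ι] {K : Type} [Field K] (φ : F →+* K) (g : Matrix ι ι K) :
    By ι F →+* By ι K :=
  eval₂Hom (C.comp φ) fun i => ∑ j, C (g i j) * X j

/-- Transport of an ideal to the top level. -/
noncomputable def tr [Fintype ι] [DecidableEq ι] {K : Type} [Field K] (φ : F →+* K)
    (g : Matrix ι ι K) (i₀ : ι) (J : Ideal (Pxy ι F)) : Ideal (By ι K) :=
  (J.map (theta φ 1 g)).map (dh K i₀)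

/-- The vectors `P + δ Q`. -/
def ev2 {C : Type} [CommRing C] (c : F →+* C) (δ : C) (P Q : ι → F) : ι → C :=
  fun i => c (P i) + δ * c (Q i)

/-- The bilinear map given by the vectors `P + δ Q`. -/
def bil {C : Type} [CommRing C] (c : F →+* C) (δ : C) (P Q : Fin 7 → Fin 7 → ι → F)
    (w w' : Fin 7 → C) : ι → C :=
  fun i => ∑ k, ∑ m, w k * w' m * ev2 c δ (P k m) (Q k m) i

/-- The coordinates of the null vectors `e 2 + r e 1` and `e 4 - r e 3`. -/
def nv {C : Type} [CommRing C] (r : C) : Fin 2 → Fin 7 → C :=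
  ![![0, r, 1, 0, 0, 0, 0], ![0, 0, 0, -r, 1, 0, 0]]

/-- A pair of conjugate frames. -/
structure BiFrame (I : Set (MvPolynomial ι F)) where
  /-- the discriminant -/
  d : F
  /-- the values of the forms are `a ± δ b` -/
  a : Fin 7 → F
  /-- the values of the forms are `a ± δ b` -/
  b : Fin 7 → F
  /-- the antisymmetric part -/
  P : Fin 7 → Fin 7 → ι → F
  /-- the symmetric part -/
  Q : Fin 7 → Fin 7 → ι → F
  anti : ∀ k m i, P m k i = -P k m i
  symm : ∀ k m i, Q m k i = Q k m i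
  ne : ∀ k, a k ^ 2 - d * b k ^ 2 ≠ 0
  two : a 2 = a 0 * a 1 + d * (b 0 * b 1) ∧ b 2 = a 0 * b 1 + b 0 * a 1
  four : a 4 = a 0 * a 3 + d * (b 0 * b 3) ∧ b 4 = a 0 * b 3 + b 0 * a 3
  indep : ∀ (Ω : Type) [Field Ω] (c : F →+* Ω) (δ : Ω), δ ^ 2 = c d →
    LinearIndependent Ω fun km : Fin 7 × Fin 7 => ev2 c δ (P km.1 km.2) (Q km.1 km.2)
  sat₁ : ∀ (C : Type) [CommRing C] (c : F →+* C) (δ : C) (w w' : Fin 7 → C), δ ^ 2 = c d →
    ∑ k, ev2 c δ a b k * w k ^ 2 = 0 → ∑ k, ev2 c (-δ) a b k * w' k ^ 2 = 0 →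
    Sat I c (bil c δ P Q w w')
  sat₂ : ∀ (C : Type) [CommRing C] (c : F →+* C) (δ r r' : C) (w : Fin 2 → Fin 2 → C),
    δ ^ 2 = c d → r ^ 2 = -ev2 c δ a b 0 → r' ^ 2 = -ev2 c (-δ) a b 0 →
    Sat I c fun i => ∑ l, ∑ l', w l l' * bil c δ P Q (nv r l) (nv r' l') i
  nsq : ¬ IsSquare d
  ns : ∃ (Ω : Type) (_ : Field Ω) (c : F →+* Ω) (δ : Ω), δ ^ 2 = c d ∧
    ¬ IsSquare (-ev2 c δ a b 0) ∧ ¬ IsSquare (-ev2 c (-δ) a b 0) ∧
    ¬ IsSquare (c (a 0 ^ 2 - d * b 0 ^ 2))

variable {I : Set (MvPolynomial ι F)} (f : BiFrame I)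

/-- The three vectors spanning the plane of the conic. -/
def BiFrame.cv {C : Type} [CommRing C] (c : F →+* C) (δ r : C) (l : Fin 3) : ι → C := fun i =>
  ev2 c δ (f.P (Alg.f3 l) 4) (f.Q (Alg.f3 l) 4) i + r * ev2 c δ (f.P (Alg.f3 l) 3) (f.Q (Alg.f3 l) 3) i

/-- The two vectors spanning the line. -/
def BiFrame.lv {E : Type} [Field E] (c : F →+* E) (m t : E) : Fin 2 → ι → E :=
  ![fun i => c (f.Q 2 2 i) + m * c (f.Q 1 1 i) + t * c (f.Q 1 2 i) - 2 * c (f.b 0) / t * c (f.P 1 2 i),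
    fun i => c (f.Q 4 4 i) + m * c (f.Q 3 3 i) - t * c (f.Q 3 4 i) + 2 * c (f.b 0) / t * c (f.P 3 4 i)]

/-- The lifting property of a quadratic extension. -/
def Lft {L : Type} [Field L] (ρ : F →+* L) (δ : F) (r : L) : Prop :=
  ∀ (k : Type) [Field k] (σ : F →+* k) (s : k), s ^ 2 = σ δ →
    ∃ τ : L →+* k, τ.comp ρ = σ ∧ τ r = s

/-- The invariant takes the value one on the conic. -/
def ValC [DecidableEq ι] (i₀ : ι) (Φ : Ideal (Pxy ι F) → ZMod 2) : Prop :=
  ∀ (K L E : Type) [Field K] [Field L] [Field E] [Algebra L E] (c : F →+* K) (c' : K →+* L)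
    (δ : K) (r : L) (x y : E), Quad c f.d δ → Lft c f.d δ →
    Quad c' (-ev2 c (-δ) f.a f.b 0) r →
    ConicField (fun l : Fin 3 => ev2 (c'.comp c) (c' δ) f.a f.b (Alg.f3 l)) x y →
    valR Φ ((algebraMap L E).comp (c'.comp c))
      (fun i => algebraMap L E ((Pi.single i₀ 1 : ι → L) i))
      (fun i => ∑ l, ![1, x, y] l * algebraMap L E (f.cv (c'.comp c) (c' δ) r l i)) = 1

/-- A frame over an extension field. -/
structure KFrame (I : Set (MvPolynomial ι F)) (k : Type) [Field k] [Algebra F k] where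
  /-- the vectors -/
  f : Fin 7 → ι → k
  /-- the values of the form -/
  α : Fin 7 → k
  ne : ∀ l, α l ≠ 0
  two : α 2 = α 0 * α 1
  four : α 4 = α 0 * α 3
  indep : LinearIndependent k f
  sat : ∀ (C : Type) [CommRing C] [Algebra k C] (w : Fin 7 → C),
    ∑ l, algebraMap k C (α l) * w l ^ 2 = 0 →
    Sat I ((algebraMap k C).comp (algebraMap F k)) fun i => ∑ l, w l * algebraMap k C (f l i)

/-- A combination of the vectors of a frame. -/
def KFrame.comb {k : Type} [Field k] [Algebra F k] (g : KFrame I k) (w : Fin 7 → k) : ι → k :=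
  fun i => ∑ l, w l * g.f l i

end OverF

/-! The covariants. -/

/-- The index set of the octonions. -/
abbrev O : Type := Option (Fin 7)

/-- The index set of the vector representation. -/
abbrev V : Type := Fin 7 ⊕ Fin 7

/-- The distinguished row. -/
def r0 : S := (none, none)

/-- Three further rows. -/
def pr (i : Fin 3) : S := (some (Alg.f3 i), none)

section Ring

variable {R : Type} [CommRing R]

/-- The signs of the quadratic form. -/
def eV (R : Type) [CommRing R] : V → R := Sum.elim (fun _ => 1) fun _ => -1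

/-- The bilinear form. -/
def bq (v w : V → R) : R := ∑ k, eV R k * (v k * w k)

/-- The vector attached to two spinors. -/
def beta (u u' : S → R) : V → R := fun k => eV R k * (u' ⬝ᵥ cl 1 (Pi.single k 1) *ᵥ u)

/-- The action of two vectors on a spinor. -/
def cc (u : S → R) (v w : V → R) : S → R := cl (-1) v *ᵥ cl 1 w *ᵥ u

/-- The cross product defined by a spinor. -/
def cr (u : S → R) (v w : V → R) : V → R := -beta u (cc u v w)

/-- The trace form of the cross product. -/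
def tt (u : S → R) (v w : V → R) : R := ∑ k, cr u v (cr u w (Pi.single k 1)) k

/-- An imaginary octonion as an octonion. -/
def oe (x : Fin 7 → R) : O → R := fun o => o.elim 0 x

/-- The Segre map. -/
def tens (x y : Fin 7 → R) : S → R := fun s => oe x s.1 * oe y s.2

/-- The compatibility of an element of the spin group with its inverse and its rotation. -/
structure Rel (h k : Matrix S S R) (ρ ρ' : Matrix V V R) : Prop where
  hk : h * k = 1
  kh : k * h = 1
  pos : ∀ z, k * cl 1 z = cl 1 (ρ *ᵥ z) * hᵀ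
  neg : ∀ z, hᵀ * cl (-1) z = cl (-1) (ρ *ᵥ z) * k
  iso : ∀ z z', bq (ρ *ᵥ z) (ρ *ᵥ z') = bq z z'
  inv : ρ * ρ' = 1
  inv' : ρ' * ρ = 1

end Ring

/-- The eight monomials attached to the octonion units. -/
def osg {M : Type} [CommMonoid M] (a : Fin 3 → M) : O → M := fun o => o.elim 1 (Alg.sg a)

section Fld

variable {Ω : Type} [Field Ω]

/-- The operator with eigenvalues `± δ`. -/
def TT (u : S → Ω) (v : V → Ω) : V → Ω := fun k => -(eV Ω k * tt u v (Pi.single k 1)) / 6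

/-- The scalar product with values in the centroid, applied to `z`. -/
def DD (u : S → Ω) (v w z : V → Ω) : V → Ω :=
  (1 / 2 : Ω) • (bq (TT u v) w • z + bq v w • TT u z)

/-- The invariant of degree eight. -/
def dd (u : S → Ω) : Ω := (∑ k, TT u (TT u (Pi.single k 1)) k) / 14

/-- The first orthogonalisation step. -/
def G1 (u : S → Ω) (a v : V → Ω) : V → Ω := DD u a a v - DD u a v a

/-- The second orthogonalisation step. -/
def G2' (u : S → Ω) (a b v : V → Ω) : V → Ω :=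
  DD u a a (DD u b b v) - DD u b b (DD u a v a) - DD u a a (DD u b v b) -
    DD u (cr u a b) v (cr u a b)

/-- Seven vectors from three. -/
def sevV (u : S → Ω) (a b c : V → Ω) : Fin 7 → V → Ω :=
  ![a, b, cr u a b, c, cr u a c, cr u b c, cr u (cr u a b) c]

/-- The frame. -/
def frV (u : S → Ω) (a v w : V → Ω) : Fin 7 → V → Ω :=
  sevV u a (G1 u a v) (G2' u a (G1 u a v) w)

variable (g : Matrix S S Ω)

/-- The vectors attached to the rows. -/
def vv (p : S) : V → Ω := beta (g r0) (g p)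

/-- The frame attached to a matrix. -/
def ff : Fin 7 → V → Ω := frV (g r0) (vv g (pr 0)) (vv g (pr 1)) (vv g (pr 2))

/-- The rational part of the norms. -/
def da (k : Fin 7) : Ω := bq (TT (g r0) (ff g k)) (ff g k) / 2

/-- The irrational part of the norms. -/
def db (k : Fin 7) : Ω := bq (ff g k) (ff g k) / 2

/-- The antisymmetric vectors. -/
noncomputable def dP (k m : Fin 7) : S → Ω :=
  (dd (g r0) • cc (g r0) (ff g k) (ff g m) -
    cc (g r0) (TT (g r0) (ff g k)) (TT (g r0) (ff g m))) ᵥ* g⁻¹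

/-- The symmetric vectors. -/
noncomputable def dQ (k m : Fin 7) : S → Ω :=
  (cc (g r0) (TT (g r0) (ff g k)) (ff g m) - cc (g r0) (ff g k) (TT (g r0) (ff g m))) ᵥ* g⁻¹

/-- The matrices of the invariant quadrics. -/
def dM (p q r : S) : Matrix S S Ω := g * (cl 1 (vv g p) * cl (-1) (vv g q) * cl 1 (vv g r)) * gᵀ

/-- The first frame in normal form. -/
def X7 : Fin 7 → Fin 7 → Ω :=
  Frm.fr (fun a => g r0 r0 ^ 3 * g (pr 0) (some a, none))
    (fun a => g r0 r0 ^ 3 * g (pr 1) (some a, none)) fun a => g r0 r0 ^ 3 * g (pr 2) (some a, none)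

/-- The second frame in normal form. -/
def Y7 : Fin 7 → Fin 7 → Ω :=
  Frm.fr (fun a => -(g r0 r0 ^ 3 * g (pr 0) (none, some a)))
    (fun a => -(g r0 r0 ^ 3 * g (pr 1) (none, some a)))
    fun a => -(g r0 r0 ^ 3 * g (pr 2) (none, some a))

variable {Ω' : Type} [Field Ω']

/-- The data of `g` go to the data of `g'`. -/
structure Same (φ : Ω →+* Ω') (g : Matrix S S Ω) (g' : Matrix S S Ω') : Prop where
  d : φ (dd (g r0)) = dd (g' r0)
  a : ∀ k, φ (da g k) = da g' k
  b : ∀ k, φ (db g k) = db g' k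
  P : ∀ k m i, φ (dP g k m i) = dP g' k m i
  Q : ∀ k m i, φ (dQ g k m i) = dQ g' k m i
  M : ∀ p q r i j, φ (dM g p q r i j) = dM g' p q r i j

end Fld

/-- The function field. -/
abbrev L1 : Type := FractionRing (MvPolynomial (S × S) ℂ)

/-- The scale of the distinguished row. -/
noncomputable def lam : L1 := gen r0 r0

/-- The generic matrix with the distinguished row in normal form. -/
noncomputable def gg : Matrix S S L1 :=
  Matrix.of fun i j => if i = r0 then (if j = r0 then lam else 0) else gen i j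

/-- The parameters. -/
noncomputable def th : MvPolynomial S ℂ →ₐ[ℂ] L1 := aeval fun r => gen r0 r

/-- The torus action. -/
noncomputable def actS (g : Alg.Tor) : L1 ≃ₐ[ℂ] L1 :=
  Alg.tau fun ij : S × S => if ij.1 = r0 then 1 else osg g.1 ij.2.1 * osg g.2 ij.2.2

/-- The normal form of the data. -/
structure NF {F : Type} [Field F] (I : Set (MvPolynomial S F)) where
  /-- the embedding -/
  c : F →+* L1
  /-- the discriminant -/
  d : F
  /-- the norms -/
  a : Fin 7 → F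
  /-- the norms -/
  b : Fin 7 → F
  /-- the antisymmetric part -/
  P : Fin 7 → Fin 7 → S → F
  /-- the symmetric part -/
  Q : Fin 7 → Fin 7 → S → F
  hd : c d = lam ^ 8
  hp : ∀ k, ev2 c (lam ^ 4) a b k = X7 gg k ⬝ᵥ X7 gg k
  hm : ∀ k, ev2 c (-lam ^ 4) a b k = Y7 gg k ⬝ᵥ Y7 gg k
  hE : ∀ k m, ev2 c (lam ^ 4) (P k m) (Q k m) =
    ((-4 * lam ^ 5) • tens (X7 gg k) (Y7 gg m)) ᵥ* gg⁻¹
  hE' : ∀ k m, ev2 c (-lam ^ 4) (P k m) (Q k m) =
    ((4 * lam ^ 5) • tens (X7 gg m) (Y7 gg k)) ᵥ* gg⁻¹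
  hom : HomSet I
  sub : ∀ f ∈ I, MvPolynomial.map c f ∈ Ideal.span {q | ∃ u v w, q = quadric gg u v w}
  gens : ∀ p q r, ∃ f ∈ I, MvPolynomial.map c f = quadric gg (vv gg p) (vv gg q) (vv gg r)
  fix : ∀ (σ : L1 →ₐ[ℂ] L1) (h : Matrix S S ℂ) (s : MvPolynomial S ℂ →ₐ[ℂ] MvPolynomial S ℂ),
    h ∈ Spin ℂ → gg.map σ = gg * h.map (algebraMap ℂ L1) → (∀ z, σ (th z) = th (s z)) →
    ∀ z, σ (c z) = c z

/-- The tower of fixed fields with its invariant. -/
structure Tower (κ K : Type) [Field κ] [Field K] [Algebra κ K] [MulSemiringAction Alg.Sgn K] where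
  /-- the embedding of the top field -/
  e : K →+* L1
  /-- the data at the bottom level -/
  T : Setup2 Alg.Sgn O O κ
  /-- the invariant -/
  Φ : Ideal (By (O × O) K) → ZMod 2
  good : T.Good Φ
  /-- the column scalings -/
  σ : O → L1
  ne : ∀ c, σ c ≠ 0
  hβ : ∀ c, e (algebraMap κ K (T.β c)) = σ c ^ 2
  hσ : ∀ (g : Alg.Tor) c, actS g (σ c) = algebraMap ℂ L1 (osg g.2 c : ℂˣ) * σ c
  hχ : ∀ r (a : Alg.Sgn), T.χ r a = osg (M := ℤˣ) a r
  mem : ∀ z : L1, (∀ b : Fin 3 → ℤˣ, actS (1, fun l => Alg.toC (b l)) z = z) → z ∈ Set.range e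
  smul : ∀ (a : Alg.Sgn) z, e (a • z) = actS (Alg.emb a) (e z)

/-- The data over the top field of the tower. -/
structure Cfg {F κ K : Type} [Field F] [Field κ] [Field K] [Algebra κ K]
    [MulSemiringAction Alg.Sgn K] {I : Set (MvPolynomial S F)} (N : NF I) (W : Tower κ K) where
  /-- the embedding -/
  φ : F →+* K
  hφ : ∀ z, W.e (φ z) = N.c z
  fix : ∀ (a : Alg.Sgn) z, a • φ z = φ z
  /-- the change of coordinates -/
  g : Matrix S S K
  unit : IsUnit g
  hg : ggᵀ * g.map W.e = diagonal fun s : S => W.σ s.2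
  smul : ∀ (a : Alg.Sgn) i j, a • g i j = ((W.T.χ j.1 a : ℤˣ) : ℤ) • g i j
  /-- the square root of the discriminant -/
  δ : K
  hδ : δ ^ 2 = φ N.d
  fixδ : ∀ a : Alg.Sgn, a • δ = δ
  /-- the first frame -/
  X : Fin 7 → O → K
  /-- the second frame -/
  Y : Fin 7 → O → K
  link : ∀ k m, ev2 φ δ (N.P k m) (N.Q k m) = g *ᵥ fun s => X k s.1 * Y m s.2

end Pool.Agent.MP_d45d16_ag.Sp14
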