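import Pool.Agent.MP_d45d16_ag.sp.Spec

/-!
The generic matrix in normal form.
-/

set_option autoImplicit false

open MvPolynomial Matrix

namespace Pool.Agent.MP_d45d16_ag.Sp14

open Yag

namespace EmbX

variable {σ : Type} [Fintype σ] [DecidableEq σ] (r : σ)

/-- The variables of the distinguished row. -/
noncomputable def rw0 : MvPolynomial σ ℂ →ₐ[ℂ] MvPolynomial (σ × σ) ℂ := rename fun j => (r, j)

/-- Right translation of the other rows. -/
noncomputable def be (h : Matrix σ σ (MvPolynomial σ ℂ)) :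
    MvPolynomial (σ × σ) ℂ →ₐ[ℂ] MvPolynomial (σ × σ) ℂ :=
  aeval fun ij => if ij.1 = r then X ij else ∑ l, X (ij.1, l) * rw0 r (h l ij.2)

/-- A substitution in the distinguished row. -/
noncomputable def al (p : σ → MvPolynomial σ ℂ) :
    MvPolynomial (σ × σ) ℂ →ₐ[ℂ] MvPolynomial (σ × σ) ℂ :=
  aeval fun ij => if ij.1 = r then rw0 r (p ij.2) else X ij

theorem be_rw0 (h : Matrix σ σ (MvPolynomial σ ℂ)) (f : MvPolynomial σ ℂ) :
    be r h (rw0 r f) = rw0 r f := by
  have : (be r h).comp (rw0 r) = rw0 r := by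
    ext1 j
    simp [be, rw0]
  exact DFunLike.congr_fun this f

theorem be_inj {h k : Matrix σ σ (MvPolynomial σ ℂ)} (hk : k * h = 1) :
    Function.Injective (be r h) := by
  have : (be r k).comp (be r h) = AlgHom.id ℂ _ := by
    ext1 ⟨i, j⟩
    rw [AlgHom.comp_apply, AlgHom.id_apply, be.eq_1 r h, aeval_X]
    by_cases hi : i = r
    · rw [if_pos hi, be, aeval_X, if_pos hi]
    · have e : ∀ l, be r k (X (i, l)) = ∑ m, X (i, m) * rw0 r (k m l) := fun l => by
        rw [be, aeval_X, if_neg hi]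
      rw [if_neg hi]
      simp only [map_sum, map_mul, be_rw0, e, Finset.sum_mul]
      rw [Finset.sum_comm]
      simp only [mul_assoc, ← Finset.mul_sum, ← map_mul, ← map_sum, ← Matrix.mul_apply, hk]
      rw [Finset.sum_eq_single j] <;> simp +contextual
  exact Function.LeftInverse.injective (g := be r k) fun f => DFunLike.congr_fun this f

omit [Fintype σ] in
theorem al_inj {p : σ → MvPolynomial σ ℂ}
    (hp : Function.Injective (aeval p : MvPolynomial σ ℂ →ₐ[ℂ] MvPolynomial σ ℂ)) :
    Function.Injective (al r p) := by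
  let E : MvPolynomial (σ × σ) ℂ →ₐ[ℂ] MvPolynomial (σ × σ) (MvPolynomial σ ℂ) :=
    aeval fun ij => if ij.1 = r then C (X ij.2) else X ij
  have hE : Function.Injective E := by
    have : (eval₂Hom (rw0 r).toRingHom X).comp E.toRingHom = RingHom.id _ := by
      refine MvPolynomial.ringHom_ext (fun c => ?_) fun ⟨i, j⟩ => ?_
      · simp [E, rw0]
      · by_cases hi : i = r <;> simp [E, rw0, hi]
    exact Function.LeftInverse.injective (g := eval₂Hom (rw0 r).toRingHom X)
      fun f => DFunLike.congr_fun this f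
  have hrw0 : ∀ f, E (rw0 r f) = C f := fun f => by
    have : E.toRingHom.comp (rw0 r).toRingHom = C := by
      refine MvPolynomial.ringHom_ext (fun c => ?_) fun j => ?_ <;> simp [E, rw0]
    exact DFunLike.congr_fun this f
  have key : E.toRingHom.comp (al r p).toRingHom =
      (MvPolynomial.map (aeval p : MvPolynomial σ ℂ →ₐ[ℂ] _).toRingHom).comp E.toRingHom := by
    refine MvPolynomial.ringHom_ext (fun c => ?_) fun ⟨i, j⟩ => ?_
    · simp [E, al]
    · by_cases hi : i = r
      · simp only [RingHom.comp_apply, AlgHom.toRingHom_eq_coe, RingHom.coe_coe, al, aeval_X,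
          if_pos hi, hrw0]
        simp [E, hi]
      · simp [E, al, hi]
  intro f g hfg
  refine hE (map_injective (aeval p : MvPolynomial σ ℂ →ₐ[ℂ] _).toRingHom hp ?_)
  have h1 := DFunLike.congr_fun key f
  have h2 := DFunLike.congr_fun key g
  simp only [RingHom.comp_apply, AlgHom.toRingHom_eq_coe, RingHom.coe_coe] at h1 h2 ⊢
  rw [← h1, ← h2, hfg]

theorem main {L : Type} [Field L] [Algebra (MvPolynomial (σ × σ) ℂ) L] [Algebra ℂ L]
    [IsScalarTower ℂ (MvPolynomial (σ × σ) ℂ) L] [IsFractionRing (MvPolynomial (σ × σ) ℂ) L]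
    {h k : Matrix σ σ (MvPolynomial σ ℂ)} (hk : k * h = 1)
    (hinj : Function.Injective
      (aeval fun j => X r * h r j : MvPolynomial σ ℂ →ₐ[ℂ] MvPolynomial σ ℂ))
    (x : Matrix σ σ L) (hx : ∀ i j, x i j = algebraMap (MvPolynomial (σ × σ) ℂ) L (X (i, j))) :
    ∃ j : L →ₐ[ℂ] L, x.map j =
      (Matrix.of fun i j => if i = r then (if j = r then x r r else 0) else x i j) *
        h.map (aeval fun j => x r j : MvPolynomial σ ℂ →ₐ[ℂ] L) := by
  let γ := (IsScalarTower.toAlgHom ℂ (MvPolynomial (σ × σ) ℂ) L).comp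
    ((be r h).comp (al r fun j => X r * h r j))
  have hγ : Function.Injective γ := fun f g hfg =>
    al_inj r hinj (be_inj r hk (IsFractionRing.injective (MvPolynomial (σ × σ) ℂ) L hfg))
  have hth : ∀ f, algebraMap (MvPolynomial (σ × σ) ℂ) L (rw0 r f) =
      aeval (fun j => x r j) f := fun f => by
    have : (IsScalarTower.toAlgHom ℂ (MvPolynomial (σ × σ) ℂ) L).comp (rw0 r) =
        aeval fun j => x r j := by
      ext1 j
      simp [rw0, hx]
    exact DFunLike.congr_fun this f
  refine ⟨IsFractionRing.liftAlgHom hγ, ?_⟩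
  ext i j
  rw [Matrix.map_apply, hx, IsFractionRing.liftAlgHom_apply, IsFractionRing.lift_algebraMap,
    Matrix.mul_apply]
  change algebraMap _ L (be r h (al r (fun j => X r * h r j) (X (i, j)))) = _
  rw [al, aeval_X]
  by_cases hi : i = r
  · rw [if_pos hi, be_rw0, hth, map_mul, Finset.sum_eq_single r]
    · simp [hi]
    · intro l _ hl
      simp [hi, hl]
    · simp
  · rw [if_neg hi, be, aeval_X, if_neg hi, map_sum]
    refine Finset.sum_congr rfl fun l _ => ?_
    rw [map_mul, hth]
    simp [hi, hx]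

end EmbX

theorem emb_stmt (hCl : ClifAPI) (hDo : DomStmt) : EmbStmt := by
  obtain ⟨h, hh, hinj⟩ := hDo
  obtain ⟨k, ρ, ρ', hR⟩ := hCl.rel _ h hh
  obtain ⟨j, hj⟩ := EmbX.main r0 hR.kh hinj gen fun _ _ => rfl
  exact ⟨j, h, hh, hj⟩

end Pool.Agent.MP_d45d16_ag.Sp14
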