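import Pool.Agent.MP_d45d16_ag.sp.Spec

/-!
The value of the invariant on curves with a pencil of columns.
-/

set_option autoImplicit false

open MvPolynomial Filter

namespace Pool.Agent.MP_d45d16_ag.Sp14

open Yag

namespace EvaX

theorem isW (σ : Type) : IsW (yw σ) := fun _ => Or.inr rfl

theorem cancel4 {σ κ : Type} [Field κ] [CharZero κ] (J : Ideal (By σ κ)) (f : By σ κ)
    (h : 4 * f ∈ J) : f ∈ J := by
  have e : f = C (1 / 4 : κ) * (4 * f) := by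
    rw [← mul_assoc, show (4 : By σ κ) = C 4 from (map_ofNat C 4).symm, ← C_mul]
    norm_num
  rw [e]
  exact J.mul_mem_left _ h

theorem lin_mono (hH : HfAPI) {σ κ : Type} [Finite σ] [Field κ] {I J : Ideal (By σ κ)}
    (h : I ≤ J) (hI : Lin (yw σ) I) : Lin (yw σ) J := by
  obtain ⟨c, hc⟩ := hI
  exact ⟨c, fun d n => (hH.mono σ κ _ I J _ (isW σ) h).trans (hc d n)⟩

/-- The linear forms which cut out the two halves. -/
noncomputable def uu {ρ γ κ : Type} [Field κ] (r r₂ : ρ) (i : κ) (j : γ) : By (ρ × γ) κ :=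
  X (r₂, j) - C i * X (r, j)

/-- One half. -/
noncomputable def JJ {ρ γ κ : Type} [Field κ] (I : Ideal (By (ρ × γ) κ)) (r r₂ : ρ) (i : κ) :
    Ideal (By (ρ × γ) κ) :=
  I ⊔ Ideal.span (Set.range fun j : γ => uu r r₂ i j ^ 2)

section Half

variable {ρ γ κ : Type} [Field κ] (I : Ideal (By (ρ × γ) κ)) (r r₂ : ρ) (i : κ)

theorem le_JJ : I ≤ JJ I r r₂ i := le_sup_left

theorem uu_mem (j : γ) : uu r r₂ i j ^ 2 ∈ JJ I r r₂ i :=
  Ideal.mem_sup_right (Ideal.subset_span ⟨j, rfl⟩)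

theorem JJ_hom (hH : HfAPI) (hM : ModAPI) [Finite ρ] [Finite γ] (hI : IsHom (yw (ρ × γ)) I) :
    IsHom (yw (ρ × γ)) (JJ I r r₂ i) := by
  refine (hM.inf _ κ _ I _ (isW _) hI (hH.span _ κ _ _ ?_)).2.1
  rintro _ ⟨j, rfl⟩
  refine ⟨(0, 1 * 2), (hM.yw_iff _ κ _ _).2 ?_⟩
  exact ((isHomogeneous_X κ _).sub ((isHomogeneous_X κ _).C_mul _)).pow 2

theorem JJ_mul (hi : i ^ 2 = -1)
    (hq : ∀ j k : γ, X (r, j) * X (r, k) + X (r₂, j) * X (r₂, k) ∈ I) :
    JJ I r r₂ i * JJ I r r₂ (-i) ≤ I := by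
  have hc : (C i : By (ρ × γ) κ) ^ 2 = -1 := by rw [← C_pow, hi, map_neg, map_one]
  unfold JJ
  rw [Ideal.sup_mul, Ideal.mul_sup (Ideal.span _), Ideal.span_mul_span']
  refine sup_le Ideal.mul_le_left (sup_le Ideal.mul_le_right (Ideal.span_le.2 ?_))
  rintro _ ⟨_, ⟨j, rfl⟩, _, ⟨k, rfl⟩, rfl⟩
  have h1 : uu r r₂ i j * uu r r₂ (-i) k + uu r r₂ i k * uu r r₂ (-i) j =
      2 * (X (r, j) * X (r, k) + X (r₂, j) * X (r₂, k)) := by
    simp only [uu, map_neg]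
    linear_combination (-2 * X (r, j) * X (r, k)) * hc
  have h2 : uu r r₂ i j * uu r r₂ (-i) j = X (r, j) * X (r, j) + X (r₂, j) * X (r₂, j) := by
    simp only [uu, map_neg]
    linear_combination (-X (r, j) * X (r, j)) * hc
  have h3 : uu r r₂ i j ^ 2 * uu r r₂ (-i) k ^ 2 =
      (2 * uu r r₂ (-i) k * uu r r₂ i j) * (X (r, j) * X (r, k) + X (r₂, j) * X (r₂, k)) -
        (uu r r₂ (-i) k * uu r r₂ i k) * (X (r, j) * X (r, j) + X (r₂, j) * X (r₂, j)) := by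
    linear_combination (uu r r₂ (-i) k * uu r r₂ i j) * h1 - (uu r r₂ (-i) k * uu r r₂ i k) * h2
  show uu r r₂ i j ^ 2 * uu r r₂ (-i) k ^ 2 ∈ I
  rw [h3]
  exact I.sub_mem (I.mul_mem_left _ (hq j k)) (I.mul_mem_left _ (hq j j))

theorem sq_mem [CharZero κ] (hi : i ^ 2 = -1)
    (hq : ∀ j k : γ, X (r, j) * X (r, k) + X (r₂, j) * X (r₂, k) ∈ I)
    (hd : ∀ r', r' ≠ r → r' ≠ r₂ → ∀ j : γ, X (r', j) ∈ I) (v : ρ × γ) :
    X v ^ 2 ∈ JJ I r r₂ i ⊔ JJ I r r₂ (-i) := by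
  have hc : (C i : By (ρ × γ) κ) ^ 2 = -1 := by rw [← C_pow, hi, map_neg, map_one]
  obtain ⟨r', j⟩ := v
  have hu : uu r r₂ i j ^ 2 ∈ JJ I r r₂ i ⊔ JJ I r r₂ (-i) := Ideal.mem_sup_left (uu_mem I r r₂ i j)
  have hv : uu r r₂ (-i) j ^ 2 ∈ JJ I r r₂ i ⊔ JJ I r r₂ (-i) :=
    Ideal.mem_sup_right (uu_mem I r r₂ (-i) j)
  have hw : X (r, j) * X (r, j) + X (r₂, j) * X (r₂, j) ∈ JJ I r r₂ i ⊔ JJ I r r₂ (-i) :=
    Ideal.mem_sup_left (le_JJ I r r₂ i (hq j j))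
  by_cases h1 : r' = r
  · subst h1
    apply cancel4
    have e : 4 * (X (r', j) : By (ρ × γ) κ) ^ 2 =
        2 * (X (r', j) * X (r', j) + X (r₂, j) * X (r₂, j)) - uu r' r₂ i j ^ 2 -
          uu r' r₂ (-i) j ^ 2 := by
      simp only [uu, map_neg]
      linear_combination (2 * X (r', j) ^ 2) * hc
    rw [e]
    exact Ideal.sub_mem _ (Ideal.sub_mem _ (Ideal.mul_mem_left _ _ hw) hu) hv
  by_cases h2 : r' = r₂
  · subst h2
    apply cancel4
    have e : 4 * (X (r', j) : By (ρ × γ) κ) ^ 2 =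
        2 * (X (r, j) * X (r, j) + X (r', j) * X (r', j)) + uu r r' i j ^ 2 +
          uu r r' (-i) j ^ 2 := by
      simp only [uu, map_neg]
      linear_combination (-2 * X (r, j) ^ 2) * hc
    rw [e]
    exact Ideal.add_mem _ (Ideal.add_mem _ (Ideal.mul_mem_left _ _ hw) hu) hv
  exact Ideal.pow_mem_of_mem _ (Ideal.mem_sup_left (le_JJ I r r₂ i (hd r' h1 h2 j))) 2 (by norm_num)

end Half

section Act

variable {A ρ γ κ : Type} [Group A] [Fintype γ] [Field κ] [MulSemiringAction A κ]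
  (T : Setup2 A ρ γ κ)

theorem act_X (a : A) (x : ρ × γ) :
    T.act (K := κ) a (X x) = ((T.χ x.1 a : ℤˣ) : ℤ) • X x := by
  simp [Setup2.act]

theorem act_C (h : ∀ (a : A) (c : κ), a • c = c) (a : A) (c : κ) :
    T.act (K := κ) a (C c) = C c := by
  simp [Setup2.act, h]

theorem act_JJ (h : ∀ (a : A) (c : κ), a • c = c) (I : Ideal (By (ρ × γ) κ))
    (hs : ∀ (a : A), ∀ f ∈ I, T.act a f ∈ I) (r r₂ : ρ) (i : κ) (a : A)
    (ha : T.χ r a ≠ T.χ r₂ a) : JJ I r r₂ i ≤ (JJ I r r₂ (-i)).comap (T.act a) := by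
  refine sup_le (fun f hf => Ideal.mem_comap.2 (le_JJ I r r₂ (-i) (hs a f hf)))
    (Ideal.span_le.2 ?_)
  rintro _ ⟨j, rfl⟩
  have e : T.act a (uu r r₂ i j ^ 2) = uu r r₂ (-i) j ^ 2 := by
    simp only [uu, map_pow, map_sub, map_mul, act_X, act_C T h, map_neg]
    rcases Int.units_eq_one_or (T.χ r a) with h1 | h1 <;>
      rcases Int.units_eq_one_or (T.χ r₂ a) with h2 | h2
    · exact absurd (h1.trans h2.symm) ha
    · rw [h1, h2]
      simp only [Units.val_one, Units.val_neg, one_smul, neg_smul]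
      ring
    · rw [h1, h2]
      simp only [Units.val_one, Units.val_neg, one_smul, neg_smul]
      ring
    · exact absurd (h1.trans h2.symm) ha
  refine Ideal.mem_comap.2 ?_
  rw [e]
  exact uu_mem I r r₂ (-i) j

theorem JJ_comap (hSy : SymAPI) (h : ∀ (a : A) (c : κ), a • c = c) (I : Ideal (By (ρ × γ) κ))
    (hs : ∀ (a : A), ∀ f ∈ I, T.act a f ∈ I) (r r₂ : ρ) (i : κ) (a : A)
    (ha : T.χ r a ≠ T.χ r₂ a) : (JJ I r r₂ i).comap (T.act a) = JJ I r r₂ (-i) := by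
  apply le_antisymm
  · intro f hf
    have ha' : T.χ r a⁻¹ ≠ T.χ r₂ a⁻¹ := by
      rw [map_inv, map_inv]
      exact fun e => ha (inv_injective e)
    have h1 := Ideal.mem_comap.1 (act_JJ T h I hs r r₂ i a⁻¹ ha' (Ideal.mem_comap.1 hf))
    rwa [← (hSy.mul A ρ γ κ κ T a⁻¹ a f).1, inv_mul_cancel, (hSy.mul A ρ γ κ κ T a a f).2] at h1
  · have h1 := act_JJ T h I hs r r₂ (-i) a ha
    rwa [neg_neg] at h1

theorem indep [CharZero κ] (h : ∀ (a : A) (c : κ), a • c = c) (I : Ideal (By (ρ × γ) κ))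
    (hs : ∀ (a : A), ∀ f ∈ I, T.act a f ∈ I) {S : Type} [Fintype S] (e : S → ρ)
    (he : Function.Injective e) (c : S → κ) (j : γ) (hc : ∑ s, c s • X (e s, j) ∈ I) (s₀ : S) :
    c s₀ • X (e s₀, j) ∈ I := by
  let χ : S → A →* κ := fun s =>
    (((Int.castRingHom κ : ℤ →+* κ) : ℤ →* κ).comp (Units.coeHom ℤ)).comp (T.χ (e s))
  have hχ : Function.Injective χ := by
    intro s s' hss
    apply he
    apply T.inj
    ext a
    have h1 : (((T.χ (e s) a : ℤˣ) : ℤ) : κ) = (((T.χ (e s') a : ℤˣ) : ℤ) : κ) :=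
      DFunLike.congr_fun hss a
    exact Int.cast_injective h1
  have hli := (linearIndependent_monoidHom A κ).comp χ hχ
  rw [← Ideal.Quotient.eq_zero_iff_mem, ← Ideal.Quotient.mkₐ_eq_mk κ,
    ← Module.forall_dual_apply_eq_zero_iff κ]
  intro φ
  refine Fintype.linearIndependent_iff.1 hli
    (fun s => φ (Ideal.Quotient.mkₐ κ I (c s • X (e s, j)))) ?_ s₀
  funext a
  have h1 := hs a _ hc
  rw [← Ideal.Quotient.eq_zero_iff_mem, ← Ideal.Quotient.mkₐ_eq_mk κ] at h1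
  have h2 := congrArg φ h1
  rw [map_sum, map_sum, map_sum, map_zero] at h2
  rw [Finset.sum_apply, Pi.zero_apply, ← h2]
  refine Finset.sum_congr rfl fun s _ => ?_
  have h3 : T.act a (c s • (X (e s, j) : By (ρ × γ) κ)) =
      (((T.χ (e s) a : ℤˣ) : ℤ) : κ) • c s • (X (e s, j) : By (ρ × γ) κ) := by
    rw [smul_eq_C_mul, map_mul, act_C T h, act_X, Int.cast_smul_eq_zsmul, mul_smul_comm]
  rw [h3, map_smul (Ideal.Quotient.mkₐ κ I) (((T.χ (e s) a : ℤˣ) : ℤ) : κ), map_smul φ]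
  exact mul_comm _ _

theorem two_rows (hM : ModAPI) [Fintype ρ] [CharZero κ] (h : ∀ (a : A) (c : κ), a • c = c)
    (I : Ideal (By (ρ × γ) κ)) (hs : ∀ (a : A), ∀ f ∈ I, T.act a f ∈ I)
    (hh : hf (yw ρ) (colI I) (0, 1) ≤ 2) :
    ∃ r r₂ r₃ : ρ, r ≠ r₂ ∧ r₃ ≠ r ∧ r₃ ≠ r₂ ∧ ∀ r', r' ≠ r → r' ≠ r₂ → ∀ j, X (r', j) ∈ I := by
  classical
  let P : ρ → Prop := fun r => ¬ ∀ j, X (r, j) ∈ I
  let W := (weightedHomogeneousSubmodule κ (yw ρ) (0, 1)).map
    (Ideal.Quotient.mkₐ κ (colI I)).toLinearMap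
  have hW : weightedHomogeneousSubmodule κ (yw ρ) (0, 1) = homogeneousSubmodule ρ κ 1 := by
    ext f
    exact hM.yw_iff ρ κ f 1
  have : Module.Finite κ W := by
    rw [Module.Finite.iff_fg]
    apply Submodule.FG.map
    rw [hW]
    exact homogeneousSubmodule_fg ρ κ 1
  let v : {r // P r} → W := fun r => ⟨Ideal.Quotient.mkₐ κ (colI I) (X r.1),
    Submodule.mem_map_of_mem (isWeightedHomogeneous_X κ (yw ρ) r.1)⟩
  have hv : LinearIndependent κ v := by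
    rw [Fintype.linearIndependent_iff]
    intro g hg s
    by_contra hne
    apply s.2
    intro j
    have h1 : (∑ s : {r // P r}, g s • X s.1 : By ρ κ) ∈ colI I := by
      rw [← Ideal.Quotient.eq_zero_iff_mem, ← Ideal.Quotient.mkₐ_eq_mk κ, map_sum]
      have h2 := congrArg Subtype.val hg
      rw [Submodule.coe_sum] at h2
      simpa only [map_smul, v, Submodule.coe_smul, Submodule.coe_zero] using h2
    have h2 := (Ideal.mem_iInf.1 h1) j
    rw [Ideal.mem_comap, map_sum] at h2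
    simp only [map_smul, rename_X] at h2
    have h3 := indep T h I hs (fun s : {r // P r} => s.1) Subtype.val_injective g j h2 s
    have h4 := Submodule.smul_of_tower_mem I (g s)⁻¹ h3
    rwa [smul_smul, inv_mul_cancel₀ hne, one_smul] at h4
  have hc : (Finset.univ.filter P).card ≤ 2 := by
    have h1 := hv.fintype_card_le_finrank
    rw [Fintype.card_subtype] at h1
    exact h1.trans hh
  have h3 : 2 < (Finset.univ : Finset ρ).card := by
    obtain ⟨h₁, h₂, r₀, r₁, r₂, -, -, e1, e2, e3⟩ := T.big 1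
    rw [Finset.two_lt_card_iff]
    refine ⟨r₀, r₁, r₂, Finset.mem_univ _, Finset.mem_univ _, Finset.mem_univ _, ?_, ?_, ?_⟩
    · rintro rfl
      exact e1 rfl
    · rintro rfl
      exact e3 rfl
    · rintro rfl
      exact e1 e2
  obtain ⟨t, ht1, -, ht2⟩ := Finset.exists_subsuperset_card_eq
    (Finset.subset_univ (Finset.univ.filter P)) hc h3.le
  obtain ⟨r₃, -, hr₃⟩ := Finset.exists_mem_notMem_of_card_lt_card (s := t) (t := Finset.univ)
    (by rw [ht2]; exact h3)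
  obtain ⟨r, r₂, hr, rfl⟩ := Finset.card_eq_two.1 ht2
  simp only [Finset.mem_insert, Finset.mem_singleton, not_or] at hr₃
  refine ⟨r, r₂, r₃, hr, hr₃.1, hr₃.2, fun r' h1 h2 => ?_⟩
  by_contra hP
  have h4 := ht1 (Finset.mem_filter.2 ⟨Finset.mem_univ r', hP⟩)
  simp only [Finset.mem_insert, Finset.mem_singleton] at h4
  exact h4.elim h1 h2

end Act

theorem q_mem {ρ γ κ : Type} [Fintype ρ] [Field κ] (I : Ideal (By (ρ × γ) κ)) (r r₂ : ρ)
    (hr : r ≠ r₂) (hd : ∀ r', r' ≠ r → r' ≠ r₂ → ∀ j : γ, X (r', j) ∈ I) (j k : γ)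
    (hc : csq ρ κ j k ∈ I) : X (r, j) * X (r, k) + X (r₂, j) * X (r₂, k) ∈ I := by
  classical
  have h1 : csq ρ κ j k = (∑ r' ∈ Finset.univ \ {r, r₂}, X (r', j) * X (r', k)) +
      (X (r, j) * X (r, k) + X (r₂, j) * X (r₂, k)) := by
    rw [csq, ← Finset.sum_sdiff (Finset.subset_univ {r, r₂}), Finset.sum_pair hr]
  rw [h1] at hc
  refine (Ideal.add_mem_iff_right I (Ideal.sum_mem I fun r' hr' => ?_)).1 hc
  simp only [Finset.mem_sdiff, Finset.mem_univ, true_and, Finset.mem_insert,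
    Finset.mem_singleton, not_or] at hr'
  exact I.mul_mem_right _ (hd r' hr'.1 hr'.2 j)

end EvaX

open EvaX in
theorem eva_stmt (hH : HfAPI) (hM : ModAPI) (hY : CydAPI) (hSy : SymAPI) (hF : FourAPI)
    (hV : VerStmt) : EvaStmt := by
  intro A ρ γ κ _ _ _ _ _ _ T I h hI hh e he
  classical
  obtain ⟨r, r₂, r₃, hr, h31, h32, hd⟩ := two_rows T hM h I hI.stab hh
  obtain ⟨hN, hcs⟩ := hF.dead A ρ γ κ κ T I r₃ hI.eqs (hd r₃ h31 h32)
  have hq := fun j k => q_mem I r r₂ hr hd j k (hcs j k)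
  obtain ⟨a, ha⟩ : ∃ a, T.χ r a ≠ T.χ r₂ a := by
    by_contra hne
    push Not at hne
    exact hr (T.inj (MonoidHom.ext hne))
  have hP := JJ_hom I r r₂ T.im hH hM hI.hom
  have hQ := JJ_hom I r r₂ (-T.im) hH hM hI.hom
  have hPl := lin_mono hH (le_JJ I r r₂ T.im) hI.lin
  obtain ⟨hinf, hsup, hmod⟩ := hM.inf _ κ _ _ _ (isW _) hP hQ
  obtain ⟨hb0, hbU⟩ := hM.nil _ κ _ 2 (sq_mem I r r₂ T.im T.im_sq hq hd)
  have hle : I ≤ JJ I r r₂ T.im ⊓ JJ I r r₂ (-T.im) := le_inf (le_JJ _ _ _ _) (le_JJ _ _ _ _)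
  have hmul := JJ_mul I r r₂ T.im T.im_sq hq
  have hb : (JJ I r r₂ T.im ⊔ JJ I r r₂ (-T.im)) * (JJ I r r₂ T.im ⊓ JJ I r r₂ (-T.im)) ≤ I := by
    rw [Ideal.sup_mul]
    refine sup_le ((Ideal.mul_mono_right inf_le_right).trans hmul) ?_
    rw [mul_comm]
    exact (Ideal.mul_mono_left inf_le_left).trans hmul
  obtain ⟨-, hhf, hcy⟩ := hSy.comap A ρ γ κ κ T _ a hP hPl
  rw [JJ_comap T hSy h I hI.stab r r₂ T.im a ha] at hhf hcy
  have hid : actB (K := κ) (ρ × γ × γ) a = RingHom.id _ := by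
    have h1 : MulSemiringAction.toRingHom A κ a = RingHom.id κ := RingHom.ext fun c => h a c
    rw [actB, h1]
    exact RingHom.ext fun f => MvPolynomial.map_id f
  have hcy' : cycD (JJ I r r₂ (-T.im)) = cycD (JJ I r r₂ T.im) := by
    ext s
    have h1 := hcy s
    rwa [hid, PrimeSpectrum.comap_id] at h1
  obtain ⟨m, hm, hpar⟩ := hV A ρ γ κ T (JJ I r r₂ T.im) r
    (fun r' => if r' = r then 1 else if r' = r₂ then T.im else 0) 2 hP hPl
    (fun r' => le_JJ _ _ _ _ (hN r')) (by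
      intro r' j
      by_cases h1 : r' = r
      · simp [h1]
      by_cases h2 : r' = r₂
      · subst h2
        simp only [if_neg h1, if_true]
        exact uu_mem I r r' T.im j
      simp only [if_neg h1, if_neg h2, map_zero, zero_mul, sub_zero]
      exact Ideal.pow_mem_of_mem _ (le_JJ _ _ _ _ (hd r' h1 h2 j)) 2 (by norm_num))
  have hc : cycD I = 4 • m := by
    rw [hY.sat ρ γ κ I _ _ hI.hom hI.lin hinf hsup hbU hle hb,
      hY.inf ρ γ κ _ _ hP hQ (lin_mono hH hle hI.lin) hbU, hcy', hm, ← add_smul]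
  have hPhi : PhiD I = psi m := by
    rw [PhiD, hc, Finsupp.sum_smul_index' (by simp), psi]
    refine Finsupp.sum_congr fun s _ => ?_
    simp
  have hsat := hM.sat _ κ I _ _ hI.hom hinf hle hb hb0
  obtain ⟨n, ⟨⟨h1, h2⟩, h3⟩, h4⟩ := (((he.and hsat).and hb0).and hpar).exists
  have h5 := hmod (0, n)
  rw [hhf, h3, ← h2] at h5
  rw [hPhi, ← h4, ZMod.natCast_eq_natCast_iff]
  unfold Nat.ModEq at h1 ⊢
  omega

end Pool.Agent.MP_d45d16_ag.Sp14
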